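import Pool.Agent.H48.NE.Defs
import Pool.Agent.H48.PR.Gal

/-!
# Module Mxw: Maxwellians

`mx a k u v = a exp(-k |v-u|²)`, `a, k > 0`. `mx_nice`: smooth, all derivatives are polynomials times the Gaussian (`Nice`: `ContDiff ℝ 2`, rapid decay of the function and its first two derivatives; there is a similar statement for `gau` in H15/AV, H25/Kin: search `gau`, `Nice`). `mx_FB` follows.
`mx_cons`: `|v'-u|² + |w'-u|² = |v-u|² + |w-u|²` (`post`, `post'`, `nsq σ = 1`; energy and momentum conservation, in H25/Kin/BWeak or BGeo), so `mx(w') mx(v') = mx(w) mx(v)` and `boltzCut = 0` (the integrand vanishes for `nsq σ = 1`, i.e. `surf`-a.e.), `boltzQ = 0` (limit of the constant `0`: `tendsto_const_nhds.limUnder_eq`).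
`mx_sol`: the constant-in-`(t,x)` function is a classical solution on every `[0,T)`: `unc f` is a composition of the projection with the smooth `mx`; `derivs12`: chain rule, `≤ C (‖D mx‖ + ‖D² mx‖)`; transport `= 0 = boltzQ`.
`mx_lip`: `|mx(v+η) - mx v| ≤ sup ‖D mx‖ on the segment ≤ K len η Wp p v` (`len η ≤ 1`). `mx_low`: compactness or directly `|v-u| ≤ R + len u`. `mx_LBH`: LBH with exponent `α ≤ 1`: for `len (u-v) ≤ 2`. -/

set_option autoImplicit false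

open MeasureTheory Set Filter Topology Pool.Agent.H25.Kin Pool.Agent.H48.PL Pool.Agent.H48.PD
open Pool.Agent.H82.BK Pool.Agent.H82.CM Pool.Agent.H48.PR Pool.Agent.H71.PD

namespace Pool.Agent.H48.NE

variable {d : ℕ}

/-- the derivative of `nsq` as a linear map -/
private noncomputable def Mxw_L (d : ℕ) : Vec d →L[ℝ] (Vec d →L[ℝ] ℝ) :=
  ∑ i, (2 : ℝ) • (ContinuousLinearMap.proj (R := ℝ) (φ := fun _ : Fin d => ℝ) i).smulRight
    (ContinuousLinearMap.proj (R := ℝ) (φ := fun _ : Fin d => ℝ) i)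

private lemma Mxw_nsq_deriv (z : Vec d) : HasFDerivAt (nsq : Vec d → ℝ) (Mxw_L d z) z := by
  have h : HasFDerivAt (fun z : Vec d => ∑ i, z i ^ 2)
      (∑ i, (2 * z i) • (ContinuousLinearMap.proj (R := ℝ) (φ := fun _ : Fin d => ℝ) i)) z := by
    refine HasFDerivAt.fun_sum fun i _ => ?_
    have h1 := (ContinuousLinearMap.proj (R := ℝ) (φ := fun _ : Fin d => ℝ) i).hasFDerivAt (x := z)
    have h2 := h1.pow 2
    simpa using h2
  have e : Mxw_L d z =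
      ∑ i, (2 * z i) • (ContinuousLinearMap.proj (R := ℝ) (φ := fun _ : Fin d => ℝ) i) := by
    unfold Mxw_L
    rw [sum_apply]
    refine Finset.sum_congr rfl fun i _ => ?_
    ext w
    simp [mul_assoc]
  rw [e]
  exact h

/-- the logarithmic derivative of the Maxwellian -/
private noncomputable def Mxw_A (k : ℝ) (u v : Vec d) : Vec d →L[ℝ] ℝ := -(k • Mxw_L d (v - u))

private lemma Mxw_deriv (a k : ℝ) (u v : Vec d) :
    HasFDerivAt (mx a k u) (mx a k u v • Mxw_A k u v) v := by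
  have h1 : HasFDerivAt (fun v : Vec d => nsq (v - u)) (Mxw_L d (v - u)) v := by
    have := (Mxw_nsq_deriv (v - u)).comp v ((hasFDerivAt_id v).sub_const u)
    rw [ContinuousLinearMap.comp_id] at this
    exact this
  have h2 : HasFDerivAt (fun v : Vec d => -(k * nsq (v - u))) (Mxw_A k u v) v :=
    (h1.const_mul k).neg
  have h3 := (h2.exp).const_mul a
  have e : a • Real.exp (-(k * nsq (v - u))) • Mxw_A k u v = mx a k u v • Mxw_A k u v := by
    unfold mx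
    rw [smul_smul]
  rw [← e]
  exact h3

private lemma Mxw_fderiv (a k : ℝ) (u : Vec d) :
    fderiv ℝ (mx a k u) = fun v => mx a k u v • Mxw_A k u v := by
  funext v
  exact (Mxw_deriv a k u v).fderiv

private lemma Mxw_A_deriv (k : ℝ) (u v : Vec d) :
    HasFDerivAt (Mxw_A k u : Vec d → Vec d →L[ℝ] ℝ) (-(k • Mxw_L d)) v := by
  unfold Mxw_A
  have h := (Mxw_L d).hasFDerivAt (x := v - u) |>.comp v ((hasFDerivAt_id v).sub_const u)
  have h1 : HasFDerivAt (fun v : Vec d => Mxw_L d (v - u)) (Mxw_L d) v := by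
    rw [ContinuousLinearMap.comp_id] at h
    exact h
  exact (h1.const_smul k).neg

private lemma Mxw_fderiv2 (a k : ℝ) (u v : Vec d) :
    fderiv ℝ (fderiv ℝ (mx a k u)) v =
      mx a k u v • (-(k • Mxw_L d)) + (mx a k u v • Mxw_A k u v).smulRight (Mxw_A k u v) := by
  rw [Mxw_fderiv]
  exact ((Mxw_deriv a k u v).smul (Mxw_A_deriv k u v)).fderiv

private lemma Mxw_fderiv2_le (a k : ℝ) (u v : Vec d) :
    ‖fderiv ℝ (fderiv ℝ (mx a k u)) v‖ ≤
      ‖mx a k u v‖ * (‖-(k • Mxw_L d)‖ + ‖Mxw_A k u v‖ * ‖Mxw_A k u v‖) := by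
  refine ContinuousLinearMap.opNorm_le_bound _ (by positivity) fun w => ?_
  rw [Mxw_fderiv2]
  change ‖mx a k u v • ((-(k • Mxw_L d)) w) + (mx a k u v • Mxw_A k u v w) • Mxw_A k u v‖ ≤ _
  have h1 := (-(k • Mxw_L d)).le_opNorm w
  have h2 := (Mxw_A k u v).le_opNorm w
  refine (norm_add_le _ _).trans ?_
  rw [norm_smul, norm_smul, norm_smul]
  have h3 := mul_le_mul_of_nonneg_left h1 (norm_nonneg (mx a k u v))
  have h4 := mul_le_mul_of_nonneg_right (mul_le_mul_of_nonneg_left h2 (norm_nonneg (mx a k u v)))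
    (norm_nonneg (Mxw_A k u v))
  refine (add_le_add h3 h4).trans (le_of_eq ?_)
  ring

private lemma Mxw_A_le (k : ℝ) (u v : Vec d) :
    ‖Mxw_A k u v‖ ≤ |k| * ‖Mxw_L d‖ * (1 + ‖u‖) * (1 + ‖v‖) := by
  unfold Mxw_A
  rw [norm_neg, norm_smul, Real.norm_eq_abs]
  have h1 := (Mxw_L d).le_opNorm (v - u)
  have h2 : ‖v - u‖ ≤ (1 + ‖u‖) * (1 + ‖v‖) := by
    have := norm_sub_le v u
    nlinarith [norm_nonneg u, norm_nonneg v]
  calc |k| * ‖Mxw_L d (v - u)‖ ≤ |k| * (‖Mxw_L d‖ * ((1 + ‖u‖) * (1 + ‖v‖))) := by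
        refine mul_le_mul_of_nonneg_left (h1.trans ?_) (abs_nonneg k)
        exact mul_le_mul_of_nonneg_left h2 (norm_nonneg _)
    _ = |k| * ‖Mxw_L d‖ * (1 + ‖u‖) * (1 + ‖v‖) := by ring

private lemma Mxw_A_PG (k : ℝ) (u : Vec d) : PG fun v : Vec d => ‖Mxw_A k u v‖ := by
  refine ⟨1, |k| * ‖Mxw_L d‖ * (1 + ‖u‖), fun v => ?_⟩
  rw [norm_norm, pow_one]
  exact Mxw_A_le k u v

private lemma Mxw_gauss (N : ℕ) {k r : ℝ} (hk : 0 < k) (hr : 0 ≤ r) :
    (1 + r) ^ N * Real.exp (-(k * r ^ 2)) ≤ Real.exp (N ^ 2 / (4 * k)) := by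
  have h1 : (1 + r) ^ N ≤ Real.exp (N * r) := by
    rw [Real.exp_nat_mul]
    refine pow_le_pow_left₀ (by linarith) ?_ N
    linarith [Real.add_one_le_exp r]
  calc (1 + r) ^ N * Real.exp (-(k * r ^ 2)) ≤ Real.exp (N * r) * Real.exp (-(k * r ^ 2)) :=
        mul_le_mul_of_nonneg_right h1 (Real.exp_pos _).le
    _ = Real.exp (N * r + -(k * r ^ 2)) := (Real.exp_add _ _).symm
    _ ≤ Real.exp (N ^ 2 / (4 * k)) := by
        refine Real.exp_le_exp.2 ?_
        rw [le_div_iff₀ (by positivity)]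
        nlinarith [sq_nonneg ((N : ℝ) - 2 * k * r)]

private lemma Mxw_RD {a k : ℝ} (ha : 0 < a) (hk : 0 < k) (u : Vec d) : RD (mx a k u) := by
  intro N
  refine ⟨(1 + ‖u‖) ^ N * a * Real.exp (N ^ 2 / (4 * k)), fun v => ?_⟩
  rw [Real.norm_eq_abs, abs_of_pos (mx_pos ha u v)]
  have h1 : (1 + ‖v‖) ^ N ≤ (1 + ‖u‖) ^ N * (1 + ‖v - u‖) ^ N := by
    rw [← mul_pow]
    refine pow_le_pow_left₀ (by positivity) ?_ N
    have h2 : ‖v‖ ≤ ‖u‖ + ‖v - u‖ := by
      have := norm_add_le u (v - u)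
      rwa [add_sub_cancel] at this
    nlinarith [norm_nonneg u, norm_nonneg (v - u), mul_nonneg (norm_nonneg u) (norm_nonneg (v - u))]
  have h3 : mx a k u v ≤ a * Real.exp (-(k * ‖v - u‖ ^ 2)) := by
    unfold mx
    refine mul_le_mul_of_nonneg_left (Real.exp_le_exp.2 (neg_le_neg ?_)) ha.le
    exact mul_le_mul_of_nonneg_left (norm_sq_le_sq (v - u)) hk.le
  calc (1 + ‖v‖) ^ N * mx a k u v
      ≤ ((1 + ‖u‖) ^ N * (1 + ‖v - u‖) ^ N) * (a * Real.exp (-(k * ‖v - u‖ ^ 2))) :=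
        mul_le_mul h1 h3 (mx_pos ha u v).le (by positivity)
    _ = (1 + ‖u‖) ^ N * a * ((1 + ‖v - u‖) ^ N * Real.exp (-(k * ‖v - u‖ ^ 2))) := by ring
    _ ≤ (1 + ‖u‖) ^ N * a * Real.exp (N ^ 2 / (4 * k)) :=
        mul_le_mul_of_nonneg_left (Mxw_gauss N hk (norm_nonneg _)) (by positivity)

private lemma Mxw_smooth (a k : ℝ) (u : Vec d) : ContDiff ℝ 2 (mx a k u) := by
  unfold mx nsq
  fun_prop

theorem mx_nice {a k : ℝ} (ha : 0 < a) (hk : 0 < k) (u : Vec d) : Nice (mx a k u) := by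
  have hrd := Mxw_RD ha hk u
  refine ⟨Mxw_smooth a k u, hrd, ?_, ?_⟩
  · refine (hrd.mul_PG (Mxw_A_PG k u)).mono 1 fun v => ?_
    rw [Mxw_fderiv, norm_smul, norm_mul, norm_norm, one_mul]
  · have hp : PG fun v : Vec d => (‖-(k • Mxw_L d)‖ + ‖Mxw_A k u v‖ * ‖Mxw_A k u v‖) :=
      (PG.const (d := d) (‖-(k • Mxw_L d)‖ : ℝ)).add ((Mxw_A_PG k u).mul (Mxw_A_PG k u))
    refine (hrd.mul_PG hp).mono 1 fun v => ?_
    have h0 : 0 ≤ ‖-(k • Mxw_L d)‖ + ‖Mxw_A k u v‖ * ‖Mxw_A k u v‖ := by positivity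
    rw [one_mul, norm_mul, Real.norm_of_nonneg h0]
    exact Mxw_fderiv2_le a k u v

theorem mx_FB {a k : ℝ} (ha : 0 < a) (hk : 0 < k) (u : Vec d) : ∃ Cl : ℕ → ℝ, FB Cl (mx a k u) := by
  choose C hC using Mxw_RD ha hk u
  refine ⟨C, mx_nice ha hk u, fun v => (mx_pos ha u v).le, fun N v => ?_⟩
  have h := hC N v
  rwa [Real.norm_eq_abs, abs_of_pos (mx_pos ha u v)] at h

private lemma Mxw_nsq_sum (p q u : Vec d) :
    nsq (p - u) + nsq (q - u) = nsq p + nsq q - 2 * dot (p + q) u + 2 * nsq u := by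
  unfold nsq dot
  simp only [Pi.sub_apply, Pi.add_apply]
  rw [Finset.mul_sum, Finset.mul_sum, ← Finset.sum_add_distrib, ← Finset.sum_add_distrib,
    ← Finset.sum_sub_distrib, ← Finset.sum_add_distrib]
  refine Finset.sum_congr rfl fun i _ => ?_
  ring

private lemma Mxw_cons (a k : ℝ) (u : Vec d) {v w σ : Vec d} (hσ : nsq σ = 1) :
    mx a k u (post' v w σ) * mx a k u (post v w σ) = mx a k u w * mx a k u v := by
  have h1 := Mxw_nsq_sum (post v w σ) (post' v w σ) u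
  have h2 := Mxw_nsq_sum v w u
  rw [energy_post hσ, post_add_post'] at h1
  have h3 : nsq (post v w σ - u) + nsq (post' v w σ - u) = nsq (v - u) + nsq (w - u) := by
    rw [h1, h2]
  unfold mx
  calc a * Real.exp (-(k * nsq (post' v w σ - u))) * (a * Real.exp (-(k * nsq (post v w σ - u))))
      = a * a * (Real.exp (-(k * nsq (post' v w σ - u))) *
          Real.exp (-(k * nsq (post v w σ - u)))) := by ring
    _ = a * a * (Real.exp (-(k * nsq (w - u))) * Real.exp (-(k * nsq (v - u)))) := by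
        rw [← Real.exp_add, ← Real.exp_add]
        congr 2
        linear_combination (-k) * h3
    _ = a * Real.exp (-(k * nsq (w - u))) * (a * Real.exp (-(k * nsq (v - u)))) := by ring

theorem mx_Q {a k : ℝ} (ha : 0 < a) (hk : 0 < k) (γ : ℝ) (b : ℝ → ℝ) (u v : Vec d) :
    boltzQ γ b (mx a k u) v = 0 ∧ ∀ ε : ℝ, boltzCut γ b ε (mx a k u) v = 0 := by
  have h : ∀ ε : ℝ, boltzCut γ b ε (mx a k u) v = 0 := by
    intro ε
    unfold boltzCut
    have h1 : ∀ w : Vec d, ∫ σ : Vec d, kerB γ b ε v w σ *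
        (mx a k u (post' v w σ) * mx a k u (post v w σ) - mx a k u w * mx a k u v) ∂(surf d) =
          0 := by
      intro w
      rw [integral_congr_ae (g := fun _ => (0 : ℝ)), integral_zero]
      filter_upwards [surf_ae (d := d)] with σ hσ
      rw [Mxw_cons a k u hσ, sub_self, mul_zero]
    simp_rw [h1]
    exact integral_zero _ _
  refine ⟨?_, h⟩
  unfold boltzQ
  simp_rw [h]
  exact tendsto_const_nhds.limUnder_eq

private noncomputable def Mxw_pi (d : ℕ) : (ℝ × Vec d × Vec d) →L[ℝ] Vec d :=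
  (ContinuousLinearMap.snd ℝ (Vec d) (Vec d)).comp (ContinuousLinearMap.snd ℝ ℝ (Vec d × Vec d))

private lemma Mxw_pi_norm (d : ℕ) : ‖Mxw_pi d‖ ≤ 1 := by
  refine ContinuousLinearMap.opNorm_le_bound _ zero_le_one fun p => ?_
  rw [one_mul]
  exact (norm_snd_le p.2).trans (norm_snd_le p)

private lemma Mxw_unc_deriv (a k : ℝ) (u : Vec d) (p : ℝ × Vec d × Vec d) :
    fderiv ℝ (unc (fun _ _ => mx a k u)) p = (fderiv ℝ (mx a k u) (Mxw_pi d p)).comp (Mxw_pi d) := by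
  have h := ((Mxw_deriv a k u (Mxw_pi d p)).comp p (Mxw_pi d).hasFDerivAt).fderiv
  rw [Mxw_fderiv]
  exact h

private lemma Mxw_unc_deriv2 {a k : ℝ} (ha : 0 < a) (hk : 0 < k) (u : Vec d)
    (p : ℝ × Vec d × Vec d) :
    ‖fderiv ℝ (fderiv ℝ (unc (fun _ _ => mx a k u))) p‖ ≤
      ‖fderiv ℝ (fderiv ℝ (mx a k u)) (Mxw_pi d p)‖ := by
  have e : fderiv ℝ (unc (fun _ _ => mx a k u)) =
      fun p => (ContinuousLinearMap.compL ℝ (ℝ × Vec d × Vec d) (Vec d) ℝ).flip (Mxw_pi d)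
        (fderiv ℝ (mx a k u) (Mxw_pi d p)) := by
    funext p
    rw [Mxw_unc_deriv]
    rfl
  have h0 : HasFDerivAt (fderiv ℝ (mx a k u)) (fderiv ℝ (fderiv ℝ (mx a k u)) (Mxw_pi d p))
      (Mxw_pi d p) := ((mx_nice ha hk u).diff1 _).hasFDerivAt
  have h1 := ((ContinuousLinearMap.compL ℝ (ℝ × Vec d × Vec d) (Vec d) ℝ).flip
    (Mxw_pi d)).hasFDerivAt.comp p (h0.comp p (Mxw_pi d).hasFDerivAt)
  have h2 : fderiv ℝ (fun p => (ContinuousLinearMap.compL ℝ (ℝ × Vec d × Vec d) (Vec d) ℝ).flip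
      (Mxw_pi d) (fderiv ℝ (mx a k u) (Mxw_pi d p))) p = _ := h1.fderiv
  rw [e, h2]
  refine ContinuousLinearMap.opNorm_le_bound _
    (norm_nonneg (fderiv ℝ (fderiv ℝ (mx a k u)) (Mxw_pi d p))) fun q => ?_
  change ‖(fderiv ℝ (fderiv ℝ (mx a k u)) (Mxw_pi d p) (Mxw_pi d q)).comp (Mxw_pi d)‖ ≤ _
  refine (ContinuousLinearMap.opNorm_comp_le _ _).trans ?_
  have h3 := (fderiv ℝ (fderiv ℝ (mx a k u)) (Mxw_pi d p)).le_opNorm (Mxw_pi d q)
  have h4 : ‖Mxw_pi d q‖ ≤ ‖q‖ := by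
    have := (Mxw_pi d).le_opNorm q
    exact this.trans (mul_le_of_le_one_left (norm_nonneg _) (Mxw_pi_norm d))
  calc ‖fderiv ℝ (fderiv ℝ (mx a k u)) (Mxw_pi d p) (Mxw_pi d q)‖ * ‖Mxw_pi d‖
      ≤ ‖fderiv ℝ (fderiv ℝ (mx a k u)) (Mxw_pi d p) (Mxw_pi d q)‖ * 1 :=
        mul_le_mul_of_nonneg_left (Mxw_pi_norm d) (norm_nonneg _)
    _ ≤ ‖fderiv ℝ (fderiv ℝ (mx a k u)) (Mxw_pi d p)‖ * ‖Mxw_pi d q‖ := by rw [mul_one]; exact h3
    _ ≤ _ := mul_le_mul_of_nonneg_left h4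
        (norm_nonneg (fderiv ℝ (fderiv ℝ (mx a k u)) (Mxw_pi d p)))

theorem mx_sol {a k : ℝ} (ha : 0 < a) (hk : 0 < k) (γ : ℝ) (b : ℝ → ℝ) (u : Vec d) (T : ℝ) :
    IsBoltzmannSol γ b T (fun _ _ => mx a k u) := by
  have hN := mx_nice ha hk u
  have hc : ContDiff ℝ 2 (unc (fun (_ : ℝ) (_ : Vec d) => mx a k u)) :=
    (Mxw_smooth a k u).comp (Mxw_pi d).contDiff
  refine ⟨fun t _ x v => (mx_pos ha u v).le, fun t _ x v i => rfl, hc.continuous.continuousOn,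
    hc.contDiffOn, ?_, ?_, ?_⟩
  · intro T₁ _ N
    obtain ⟨C, hC⟩ := Mxw_RD ha hk u N
    refine ⟨C, fun t _ x v => ?_⟩
    have h := hC v
    rwa [Real.norm_eq_abs, abs_of_pos (mx_pos ha u v)] at h
  · intro T₀ _ T₁ _ N
    obtain ⟨C, hC⟩ := hN.rd1 N
    obtain ⟨D, hD⟩ := hN.rd2 N
    refine ⟨C + D, fun t _ x v => ?_⟩
    unfold derivs12 derivs
    have e : Mxw_pi d (t, x, v) = v := rfl
    have h1 : ‖fderiv ℝ (unc (fun _ _ => mx a k u)) (t, x, v)‖ ≤ ‖fderiv ℝ (mx a k u) v‖ := by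
      rw [Mxw_unc_deriv, e]
      refine (ContinuousLinearMap.opNorm_comp_le _ _).trans ?_
      exact mul_le_of_le_one_right (norm_nonneg _) (Mxw_pi_norm d)
    have h2 := Mxw_unc_deriv2 ha hk u (t, x, v)
    rw [e] at h2
    have hp : 0 ≤ (1 + ‖v‖) ^ N := by positivity
    calc (1 + ‖v‖) ^ N * (‖fderiv ℝ (unc (fun _ _ => mx a k u)) (t, x, v)‖ +
          ‖fderiv ℝ (fderiv ℝ (unc (fun _ _ => mx a k u))) (t, x, v)‖)
        ≤ (1 + ‖v‖) ^ N * (‖fderiv ℝ (mx a k u) v‖ + ‖fderiv ℝ (fderiv ℝ (mx a k u)) v‖) :=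
          mul_le_mul_of_nonneg_left (add_le_add h1 h2) hp
      _ = (1 + ‖v‖) ^ N * ‖fderiv ℝ (mx a k u) v‖ +
          (1 + ‖v‖) ^ N * ‖fderiv ℝ (fderiv ℝ (mx a k u)) v‖ := by ring
      _ ≤ C + D := add_le_add (hC v) (hD v)
  · intro t _ x v
    change transport (fun _ _ => mx a k u) t x v = boltzQ γ b (mx a k u) v
    rw [(mx_Q ha hk γ b u v).1]
    unfold transport
    rw [Mxw_unc_deriv]
    change fderiv ℝ (mx a k u) (Mxw_pi d (t, x, v)) (Mxw_pi d (1, v, 0)) = 0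
    have e : Mxw_pi d ((1 : ℝ), v, (0 : Vec d)) = 0 := rfl
    rw [e, map_zero]

/-- mean value theorem with a weight: `‖v' - v‖ ≤ R` -/
private lemma Mxw_mvt {a k : ℝ} (ha : 0 < a) (hk : 0 < k) (u : Vec d) (N : ℕ) {R : ℝ} (hR : 0 ≤ R) :
    ∃ K : ℝ, 0 ≤ K ∧ ∀ v v' : Vec d, ‖v' - v‖ ≤ R →
      (1 + ‖v‖) ^ N * |mx a k u v' - mx a k u v| ≤ K * ‖v' - v‖ := by
  have hN := mx_nice ha hk u
  obtain ⟨C, hC⟩ := hN.rd1 N
  have hC0 : 0 ≤ C := le_trans (by positivity) (hC 0)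
  refine ⟨(1 + R) ^ N * C, by positivity, fun v v' hv => ?_⟩
  have hw := w_pos v
  have hp : (0 : ℝ) < (1 + ‖v‖) ^ N := pow_pos hw N
  have h1 : ∀ z ∈ segment ℝ v v', ‖fderiv ℝ (mx a k u) z‖ ≤ (1 + R) ^ N * C / (1 + ‖v‖) ^ N := by
    intro z hz
    rw [le_div_iff₀ hp]
    have h2 : ‖z - v‖ ≤ R := by
      have := norm_sub_le_of_mem_segment hz
      rw [norm_sub_rev] at hv
      first
        | exact this.trans hv
        | (rw [norm_sub_rev v v'] at hv; exact this.trans hv)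
    have h3 : 1 + ‖v‖ ≤ (1 + R) * (1 + ‖z‖) := by
      have h4 : ‖v‖ ≤ ‖z‖ + ‖z - v‖ := by
        have := norm_sub_le z (z - v)
        rwa [sub_sub_cancel] at this
      nlinarith [norm_nonneg z, mul_nonneg hR (norm_nonneg z)]
    have h5 := pow_le_pow_left₀ hw.le h3 N
    rw [mul_pow] at h5
    calc ‖fderiv ℝ (mx a k u) z‖ * (1 + ‖v‖) ^ N
        ≤ ‖fderiv ℝ (mx a k u) z‖ * ((1 + R) ^ N * (1 + ‖z‖) ^ N) :=
          mul_le_mul_of_nonneg_left h5 (norm_nonneg _)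
      _ = (1 + R) ^ N * ((1 + ‖z‖) ^ N * ‖fderiv ℝ (mx a k u) z‖) := by ring
      _ ≤ (1 + R) ^ N * C := mul_le_mul_of_nonneg_left (hC z) (by positivity)
  have h6 := (convex_segment v v').norm_image_sub_le_of_norm_fderiv_le
    (fun z _ => hN.diff z) h1 (left_mem_segment ℝ v v') (right_mem_segment ℝ v v')
  rw [Real.norm_eq_abs] at h6
  calc (1 + ‖v‖) ^ N * |mx a k u v' - mx a k u v|
      ≤ (1 + ‖v‖) ^ N * ((1 + R) ^ N * C / (1 + ‖v‖) ^ N * ‖v' - v‖) :=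
        mul_le_mul_of_nonneg_left h6 hp.le
    _ = (1 + R) ^ N * C * ‖v' - v‖ := by
        field_simp

private lemma Mxw_Wp_le (p : ℕ) (v : Vec d) :
    ((1 + ‖v‖) ^ (2 * p))⁻¹ ≤ ((d : ℝ) + 1) ^ p * Wp p v := by
  unfold Wp
  have h1 : (1 + nsq v) ^ p ≤ ((d : ℝ) + 1) ^ p * (1 + ‖v‖) ^ (2 * p) := by
    have h2 := pow_le_pow_left₀ (by have := sq_nonneg' v; linarith) (one_add_sq_le v) p
    rwa [mul_pow, ← pow_mul] at h2
  have h3 : 0 < (1 + nsq v) ^ p := by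
    have := sq_nonneg' v
    positivity
  have h4 : 0 < (1 + ‖v‖) ^ (2 * p) := pow_pos (w_pos v) _
  rw [inv_le_comm₀ h4 (by positivity), mul_inv, inv_inv]
  rw [inv_mul_le_iff₀ (by positivity)]
  exact h1

theorem mx_lip {a k : ℝ} (ha : 0 < a) (hk : 0 < k) (u : Vec d) (p : ℕ) : ∃ K : ℝ, 0 ≤ K ∧
    ∀ v η : Vec d, |mx a k u (v + η) - mx a k u v| ≤
      K * min 1 (len η) * (Wp p v + Wp p (v + η)) := by
  obtain ⟨K, hK0, hK⟩ := Mxw_mvt ha hk u (2 * p) (zero_le_one (α := ℝ))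
  obtain ⟨C, hC⟩ := Mxw_RD ha hk u (2 * p)
  have hC0 : 0 ≤ C := le_trans (by positivity) (hC 0)
  have hd : (0 : ℝ) ≤ ((d : ℝ) + 1) ^ p := by positivity
  have hb : ∀ z : Vec d, mx a k u z ≤ C * (((d : ℝ) + 1) ^ p * Wp p z) := by
    intro z
    have h := hC z
    rw [Real.norm_eq_abs, abs_of_pos (mx_pos ha u z)] at h
    have hz : 0 < (1 + ‖z‖) ^ (2 * p) := pow_pos (w_pos z) _
    have h2 : mx a k u z ≤ C * ((1 + ‖z‖) ^ (2 * p))⁻¹ := by
      rw [← div_eq_mul_inv, le_div_iff₀ hz, mul_comm]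
      exact h
    exact h2.trans (mul_le_mul_of_nonneg_left (Mxw_Wp_le p z) hC0)
  refine ⟨(K + C) * ((d : ℝ) + 1) ^ p, by positivity, fun v η => ?_⟩
  have w1 := Wp_pos p v
  have w2 := Wp_pos p (v + η)
  rcases le_total 1 (len η) with h | h
  · rw [min_eq_left h]
    have h1 : |mx a k u (v + η) - mx a k u v| ≤ mx a k u (v + η) + mx a k u v := by
      have e1 := mx_pos (k := k) ha u v
      have e2 := mx_pos (k := k) ha u (v + η)
      rw [abs_le]
      constructor <;> linarith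
    have h2 := hb v
    have h3 := hb (v + η)
    have h4 : 0 ≤ K * ((d : ℝ) + 1) ^ p * (Wp p v + Wp p (v + η)) := by positivity
    calc |mx a k u (v + η) - mx a k u v| ≤ mx a k u (v + η) + mx a k u v := h1
      _ ≤ C * (((d : ℝ) + 1) ^ p * Wp p (v + η)) + C * (((d : ℝ) + 1) ^ p * Wp p v) :=
          add_le_add h3 h2
      _ ≤ (K + C) * ((d : ℝ) + 1) ^ p * 1 * (Wp p v + Wp p (v + η)) := by
          nlinarith
  · rw [min_eq_right h]
    have h1 := hK v (v + η) (by rw [add_sub_cancel_left]; exact (norm_le_len η).trans h)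
    rw [add_sub_cancel_left] at h1
    have hz : 0 < (1 + ‖v‖) ^ (2 * p) := pow_pos (w_pos v) _
    have h2 : |mx a k u (v + η) - mx a k u v| ≤ K * ‖η‖ * ((1 + ‖v‖) ^ (2 * p))⁻¹ := by
      rw [← div_eq_mul_inv, le_div_iff₀ hz, mul_comm]
      exact h1
    have h3 : K * ‖η‖ * ((1 + ‖v‖) ^ (2 * p))⁻¹ ≤
        K * len η * (((d : ℝ) + 1) ^ p * Wp p v) :=
      mul_le_mul (mul_le_mul_of_nonneg_left (norm_le_len η) hK0) (Mxw_Wp_le p v)
        (by positivity) (mul_nonneg hK0 (len_nonneg η))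
    have h4 : 0 ≤ C * ((d : ℝ) + 1) ^ p * len η * (Wp p v + Wp p (v + η)) :=
      mul_nonneg (mul_nonneg (mul_nonneg hC0 hd) (len_nonneg η)) (by positivity)
    have h5 : 0 ≤ K * ((d : ℝ) + 1) ^ p * len η * Wp p (v + η) :=
      mul_nonneg (mul_nonneg (mul_nonneg hK0 hd) (len_nonneg η)) w2.le
    calc |mx a k u (v + η) - mx a k u v| ≤ K * len η * (((d : ℝ) + 1) ^ p * Wp p v) := h2.trans h3
      _ ≤ (K + C) * ((d : ℝ) + 1) ^ p * len η * (Wp p v + Wp p (v + η)) := by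
          nlinarith

theorem mx_low {a k : ℝ} (ha : 0 < a) (hk : 0 < k) (u : Vec d) (R : ℝ) : ∃ c > 0, ∀ v : Vec d,
    len v ≤ R → c ≤ mx a k u v := by
  refine ⟨a * Real.exp (-(k * (d * (|R| + ‖u‖) ^ 2))), by positivity, fun v hv => ?_⟩
  unfold mx
  refine mul_le_mul_of_nonneg_left (Real.exp_le_exp.2 (neg_le_neg ?_)) ha.le
  refine mul_le_mul_of_nonneg_left ?_ hk.le
  refine (sq_le (v - u)).trans ?_
  refine mul_le_mul_of_nonneg_left ?_ (Nat.cast_nonneg d)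
  refine pow_le_pow_left₀ (norm_nonneg _) ?_ 2
  exact (norm_sub_le v u).trans (add_le_add_left ((norm_le_len v).trans (hv.trans (le_abs_self R))) _)

theorem mx_mass {a k : ℝ} (ha : 0 < a) (hk : 0 < k) (u : Vec d) : 0 < ∫ v, mx a k u v := by
  have hN := mx_nice ha hk u
  have hi : Integrable (mx a k u) := hN.rd.integrable hN.cont.aestronglyMeasurable
  rw [integral_pos_iff_support_of_nonneg (fun v => (mx_pos ha u v).le) hi]
  have hs : Function.support (mx a k u) = univ := by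
    ext v
    simp [(mx_pos (k := k) ha u v).ne']
  rw [hs]
  exact isOpen_univ.measure_pos _ univ_nonempty

theorem mx_LBH {a k : ℝ} (ha : 0 < a) (hk : 0 < k) (u : Vec d) {α : ℝ} (h0 : 0 < α) (h1 : α ≤ 1) :
    ∃ Cl : ℕ → ℝ, LBH α 1 Cl (mx a k u) := by
  choose K hK0 hK using fun N : ℕ => Mxw_mvt ha hk u N (zero_le_two (α := ℝ))
  refine ⟨fun N => 2 * K N, fun N w v hw => ?_⟩
  have hn : ‖w - v‖ ≤ len (w - v) := norm_le_len _
  have h2 := hK N v w (hn.trans hw)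
  rw [abs_sub_comm] at h2
  have hl : len (w - v) ≤ 2 * len (w - v) ^ α := by
    rcases eq_or_lt_of_le (len_nonneg (w - v)) with h | h
    · rw [← h, Real.zero_rpow h0.ne', mul_zero]
    · have e : len (w - v) = len (w - v) ^ (1 - α) * len (w - v) ^ α := by
        rw [← Real.rpow_add h, sub_add_cancel, Real.rpow_one]
      have e2 : len (w - v) ^ (1 - α) ≤ 2 := by
        calc len (w - v) ^ (1 - α) ≤ 2 ^ (1 - α) := Real.rpow_le_rpow h.le hw (by linarith)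
          _ ≤ 2 ^ (1 : ℝ) := Real.rpow_le_rpow_of_exponent_le (by norm_num) (by linarith)
          _ = 2 := Real.rpow_one 2
      calc len (w - v) = len (w - v) ^ (1 - α) * len (w - v) ^ α := e
        _ ≤ 2 * len (w - v) ^ α := mul_le_mul_of_nonneg_right e2 (Real.rpow_nonneg h.le _)
  calc (1 + ‖v‖) ^ N * |mx a k u v - mx a k u w| ≤ K N * ‖w - v‖ := h2
    _ ≤ K N * (2 * len (w - v) ^ α) := mul_le_mul_of_nonneg_left (hn.trans hl) (hK0 N)
    _ = 1 * (2 * K N) * len (w - v) ^ α := by ring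

end Pool.Agent.H48.NE
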