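import Pool.Agent.H48.NE.PtN
import Pool.Agent.H48.PR.AngK

/-!
# Module AngN: the angular integral of `min(r^(α-1) λ|h|, (λ|h|)^α)`

Scaling: `pf α r t = r^α min(x, x^α)`, `x = t/r`. For `x ≥ 0`: `min(x, x^α) ≤ 2 Σ_{k≥0} 2^(kα) min(1, x/2^k)` (`x ≤ 1`: term `k = 0`; `2^k ≤ x < 2^(k+1)`: `x^α ≤ 2^α 2^(kα)`, term `k`).
`angMu`: `∫ Kn min(1, μ |hh|) dσ ≤ A μ^(2s) |m|^(2s)`, all `μ > 0`: as `ang_min` (PR/AngK: see the private lemmas `AngK_pt`, `AngK_int`, copy them with `μ`): `Kn min(1, μ len (hh σ m)) ≤ C (1-dot)^(-(d-1)/2-s) min((2 μ len m)²(1-dot), 1)^(1/2)` on `c ≥ 1/√2` (else `Kn = 0`), `1/2 > s`, and the angular integral bound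
`∫ (1-dot)^(..) min(ρ²(1-dot),1)^τ ≤ A ρ^(2s)`, `ρ = 2 μ len m`, `τ = 1/2` used there (from `Hyp`). Sum (`lintegral_tsum` or `ENNReal` monotone limit): with `μ = λ/(r 2^k)`: `r^α Σ 2^(kα) A (λ/(r 2^k))^(2s) |m|^(2s) = C A λ^(2s) r^(α-2s) |m|^(2s)`, `Σ 2^(k(α-2s)) < ∞`; `|m|^(2s) ≤ 1 + |m|²`. -/

set_option autoImplicit false

open MeasureTheory Set Filter Topology Pool.Agent.H25.Kin Pool.Agent.H48.PL Pool.Agent.H48.PD
open Pool.Agent.H82.BK Pool.Agent.H82.CM Pool.Agent.H48.PR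
open scoped ENNReal

namespace Pool.Agent.H48.NE

variable {d : ℕ} {γ s C Ca : ℝ} {b : ℝ → ℝ}

private lemma AngN_kn (H : Hyp d γ s b C Ca) (ε : ℝ) {c : ℝ} (hc : 0 < c) (hc1 : c < 1) :
    Kn d γ (bt b ε) c ≤
      2 ^ (d - 1) * 4 * (2 * C) * (1 - c) ^ (-(((d : ℝ) - 1) / 2 + s)) := by
  have hC0 : 0 ≤ C := H.bd.1
  have hβ := H.β0
  have hp : 0 ≤ (1 - c) ^ (-(((d : ℝ) - 1) / 2 + s)) := Real.rpow_nonneg (by linarith) _
  unfold Kn
  rcases lt_or_ge (2 * c ^ 2 - 1) 0 with hx | hx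
  · rw [bt_neg hx, mul_zero]
    positivity
  · have h1 := bt_le (ε := ε) H.bd hβ hx (by nlinarith)
    have h2 : (1 - (2 * c ^ 2 - 1)) ^ (-(((d : ℝ) - 1) / 2 + s)) ≤
        (1 - c) ^ (-(((d : ℝ) - 1) / 2 + s)) :=
      Real.rpow_le_rpow_of_nonpos (by linarith) (by nlinarith) (by linarith)
    have h3 : c ^ (-2 - γ) ≤ 4 := by
      have hg := H.g2
      have e1 : c ^ (-2 - γ) ≤ c ^ (-4 : ℝ) :=
        Real.rpow_le_rpow_of_exponent_ge hc hc1.le (by linarith)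
      have e2 : c ^ (-4 : ℝ) = (c ^ 4)⁻¹ := by
        rw [Real.rpow_neg hc.le, show (4 : ℝ) = ((4 : ℕ) : ℝ) by norm_num, Real.rpow_natCast]
      rw [e2] at e1
      refine e1.trans ?_
      have hc2 : 1 / 2 ≤ c ^ 2 := by linarith
      have hc4 : 1 / 4 ≤ c ^ 4 := by nlinarith
      calc (c ^ 4)⁻¹ ≤ (1 / 4 : ℝ)⁻¹ := inv_anti₀ (by norm_num) hc4
        _ = 4 := by norm_num
    have h4 : 0 ≤ c ^ (-2 - γ) := Real.rpow_nonneg hc.le _
    have h5 : bt b ε (2 * c ^ 2 - 1) ≤ 2 * C * (1 - c) ^ (-(((d : ℝ) - 1) / 2 + s)) :=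
      h1.trans (mul_le_mul_of_nonneg_left h2 (by positivity))
    calc 2 ^ (d - 1) * c ^ (-2 - γ) * bt b ε (2 * c ^ 2 - 1)
        ≤ 2 ^ (d - 1) * c ^ (-2 - γ) * (2 * C * (1 - c) ^ (-(((d : ℝ) - 1) / 2 + s))) :=
          mul_le_mul_of_nonneg_left h5 (by positivity)
      _ ≤ 2 ^ (d - 1) * 4 * (2 * C * (1 - c) ^ (-(((d : ℝ) - 1) / 2 + s))) :=
          mul_le_mul_of_nonneg_right (mul_le_mul_of_nonneg_left h3 (by positivity))
            (by positivity)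
      _ = _ := by ring

private lemma AngN_kn_zero {ε c : ℝ} (h : 2 * c ^ 2 - 1 < 0) : Kn d γ (bt b ε) c = 0 := by
  unfold Kn
  rw [bt_neg h, mul_zero]

private lemma AngN_kn_nonneg (H : Hyp d γ s b C Ca) {ε c : ℝ} (hε : 0 < ε) (hc : 0 < c)
    (hc1 : c ≤ 1) : 0 ≤ Kn d γ (bt b ε) c := by
  unfold Kn
  have h1 := bt_nonneg (ε := ε) H.bd hε (x := 2 * c ^ 2 - 1) (by nlinarith) (by nlinarith)
  have h2 : 0 ≤ c ^ (-2 - γ) := Real.rpow_nonneg hc.le _
  positivity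

/-- the majorant -/
private noncomputable def AngN_G (s : ℝ) (m : Vec d) (μ : ℝ) (σ : Vec d) : ℝ :=
  (1 - dot (dir m) σ) ^ (-(((d : ℝ) - 1) / 2 + s)) *
    min ((2 * μ * len m) ^ 2 * (1 - dot (dir m) σ)) 1 ^ (1 / 2 : ℝ)

private lemma AngN_G_meas (s : ℝ) (m : Vec d) (μ : ℝ) :
    Measurable fun σ : Vec d => ENNReal.ofReal (AngN_G s m μ σ) := by
  have h0 : Measurable fun σ : Vec d => 1 - dot (dir m) σ :=
    (continuous_const.sub (dot_cont _)).measurable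
  exact ((h0.pow_const _).mul
    (((measurable_const.mul h0).min measurable_const).pow_const _)).ennreal_ofReal

private lemma AngN_pt (H : Hyp d γ s b C Ca) (ε : ℝ) {μ : ℝ} (hμ : 0 ≤ μ) {m σ : Vec d}
    (hσ : nsq σ = 1) (hd : 0 < dot m σ) :
    Kn d γ (bt b ε) (co m σ) * min 1 (μ * len (hh σ m)) ≤
      2 ^ (d - 1) * 4 * (2 * C) * AngN_G s m μ σ := by
  unfold AngN_G
  have hC0 : 0 ≤ C := H.bd.1
  have hc := co_pos hd
  have hc1 := co_le_one (m := m) hσ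
  have hn := nsq_hh hσ hd
  rw [← co_eq]
  set c := co m σ with hcdef
  have hy : 0 ≤ 1 - c := by linarith
  have hR : 0 ≤ min ((2 * μ * len m) ^ 2 * (1 - c)) 1 := le_min (by positivity) zero_le_one
  have hRHS : 0 ≤ 2 ^ (d - 1) * 4 * (2 * C) * ((1 - c) ^ (-(((d : ℝ) - 1) / 2 + s)) *
        min ((2 * μ * len m) ^ 2 * (1 - c)) 1 ^ (1 / 2 : ℝ)) := by
    have h1 : 0 ≤ (1 - c) ^ (-(((d : ℝ) - 1) / 2 + s)) := Real.rpow_nonneg hy _
    have h2 := Real.rpow_nonneg hR (1 / 2)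
    positivity
  rcases hc1.eq_or_lt with h1 | h1
  · have h2 : nsq (hh σ m) = 0 := by
      rw [hn, h1]
      norm_num
    have h3 : len (hh σ m) = 0 := by
      unfold len
      rw [h2, Real.sqrt_zero]
    rw [h3, mul_zero, min_eq_right zero_le_one, mul_zero]
    exact hRHS
  rcases lt_or_ge (2 * c ^ 2 - 1) 0 with hx | hx
  · rw [AngN_kn_zero hx, zero_mul]
    exact hRHS
  have hk := AngN_kn H ε hc h1
  have hc2 : 0 < c ^ 2 := by positivity
  have hm0 : 0 ≤ nsq m := sq_nonneg' m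
  have h4 : μ ^ 2 * nsq (hh σ m) ≤ (2 * μ * len m) ^ 2 * (1 - c) := by
    rw [hn, mul_pow, mul_pow, len_sq]
    have h5 : (1 - c ^ 2) / c ^ 2 ≤ 4 * (1 - c) := by
      rw [div_le_iff₀ hc2]
      nlinarith
    have h6 : nsq m * ((1 - c ^ 2) / c ^ 2) ≤ nsq m * (4 * (1 - c)) :=
      mul_le_mul_of_nonneg_left h5 hm0
    have h7 := mul_le_mul_of_nonneg_left h6 (sq_nonneg μ)
    linarith
  have h7 : 0 ≤ min 1 (μ * len (hh σ m)) :=
    le_min zero_le_one (mul_nonneg hμ (len_nonneg _))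
  have h6 : min 1 (μ * len (hh σ m)) ≤ min ((2 * μ * len m) ^ 2 * (1 - c)) 1 ^ (1 / 2 : ℝ) := by
    rw [← Real.sqrt_eq_rpow]
    refine Real.le_sqrt_of_sq_le (le_min ?_ ?_)
    · refine le_trans ?_ h4
      rw [← len_sq (hh σ m), ← mul_pow]
      exact pow_le_pow_left₀ h7 (min_le_right _ _) 2
    · exact pow_le_one₀ h7 (min_le_left _ _)
  have h10 : 0 ≤ 2 ^ (d - 1) * 4 * (2 * C) * (1 - c) ^ (-(((d : ℝ) - 1) / 2 + s)) := by
    have h1 : 0 ≤ (1 - c) ^ (-(((d : ℝ) - 1) / 2 + s)) := Real.rpow_nonneg hy _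
    positivity
  calc Kn d γ (bt b ε) c * min 1 (μ * len (hh σ m))
      ≤ (2 ^ (d - 1) * 4 * (2 * C) * (1 - c) ^ (-(((d : ℝ) - 1) / 2 + s))) *
        min ((2 * μ * len m) ^ 2 * (1 - c)) 1 ^ (1 / 2 : ℝ) :=
        (mul_le_mul_of_nonneg_right hk h7).trans (mul_le_mul_of_nonneg_left h6 h10)
    _ = _ := by ring

private lemma AngN_len (hs0 : 0 < s) (hs : 2 * s < 1) {m : Vec d} (hm : m ≠ 0) :
    (2 * len m) ^ (2 * s) ≤ 2 * (1 + nsq m) := by
  have hl := len_pos hm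
  have h2l : 0 < 2 * len m := by positivity
  have e2 : (2 * len m) ^ (2 * s) ≤ 1 + 2 * len m := by
    rcases le_total (2 * len m) 1 with h3 | h3
    · have := Real.rpow_le_one h2l.le h3 (by linarith : 0 ≤ 2 * s)
      linarith
    · have := Real.rpow_le_rpow_of_exponent_le h3 (by linarith : 2 * s ≤ 1)
      rw [Real.rpow_one] at this
      linarith
  have e3 := len_sq m
  nlinarith [sq_nonneg (2 * len m - 1)]

theorem angMu (H : Hyp d γ s b C Ca) (hs : 2 * s < 1) : ∃ A : ℝ, 0 ≤ A ∧ ∀ ε : ℝ, 0 < ε →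
    ∀ m : Vec d, m ≠ 0 → ∀ μ : ℝ, 0 < μ →
    ∫⁻ σ in {σ : Vec d | 0 < dot m σ}, ENNReal.ofReal
      (Kn d γ (bt b ε) (co m σ) * min 1 (μ * len (hh σ m))) ∂(surf d) ≤
      ENNReal.ofReal (A * (μ ^ (2 * s) * (1 + nsq m))) := by
  have hC0 : 0 ≤ C := H.bd.1
  have hs0 := H.hs
  obtain ⟨A, hA, h⟩ := ang_scale H (τ := 1 / 2) (by linarith) (by norm_num)
  refine ⟨2 ^ (d - 1) * 4 * (2 * C) * (A * 2), by positivity, fun ε hε m hm μ hμ => ?_⟩
  have hl := len_pos hm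
  have hM : 0 ≤ 2 ^ (d - 1) * 4 * (2 * C) := by positivity
  have h1 := h (dir m) (nsq_dir hm) (2 * μ * len m) (by positivity)
  calc ∫⁻ σ in {σ : Vec d | 0 < dot m σ}, ENNReal.ofReal
        (Kn d γ (bt b ε) (co m σ) * min 1 (μ * len (hh σ m))) ∂(surf d)
      ≤ ∫⁻ σ in {σ : Vec d | 0 < dot m σ}, ENNReal.ofReal (2 ^ (d - 1) * 4 * (2 * C)) *
          ENNReal.ofReal (AngN_G s m μ σ) ∂(surf d) := by
        refine lintegral_mono_ae ?_
        filter_upwards [ae_restrict_of_ae surf_ae, ae_restrict_mem (measurableSet_half m)]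
          with σ hσ hd
        rw [← ENNReal.ofReal_mul hM]
        exact ENNReal.ofReal_le_ofReal (AngN_pt H ε hμ.le hσ hd)
    _ ≤ ∫⁻ σ, ENNReal.ofReal (2 ^ (d - 1) * 4 * (2 * C)) *
          ENNReal.ofReal (AngN_G s m μ σ) ∂(surf d) := setLIntegral_le_lintegral _ _
    _ ≤ ENNReal.ofReal (2 ^ (d - 1) * 4 * (2 * C)) *
          ENNReal.ofReal (A * (2 * μ * len m) ^ (2 * s)) := by
        rw [lintegral_const_mul _ (AngN_G_meas s m μ)]
        exact mul_le_mul_right h1 _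
    _ ≤ _ := by
        rw [← ENNReal.ofReal_mul hM]
        refine ENNReal.ofReal_le_ofReal ?_
        have e1 : (2 * μ * len m) ^ (2 * s) = μ ^ (2 * s) * (2 * len m) ^ (2 * s) := by
          rw [← Real.mul_rpow hμ.le (by positivity)]
          congr 1
          ring
        have e2 := AngN_len hs0 hs hm
        have e3 : 0 ≤ μ ^ (2 * s) := Real.rpow_nonneg hμ.le _
        rw [e1]
        calc 2 ^ (d - 1) * 4 * (2 * C) * (A * (μ ^ (2 * s) * (2 * len m) ^ (2 * s)))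
            ≤ 2 ^ (d - 1) * 4 * (2 * C) * (A * (μ ^ (2 * s) * (2 * (1 + nsq m)))) := by
              gcongr
          _ = _ := by ring

private lemma AngN_dy {α r t : ℝ} (hα : 0 < α) (hα1 : α ≤ 1) (hr : 0 < r) (ht : 0 ≤ t) :
    ∃ k : ℕ, pf α r t ≤ 2 * r ^ α * ((2 : ℝ) ^ α) ^ k * min 1 (t / (r * 2 ^ k)) := by
  unfold pf
  have hx : 0 ≤ t / r := by positivity
  have hra : 0 < r ^ α := Real.rpow_pos_of_pos hr _
  have e1 : r ^ (α - 1) * t = r ^ α * (t / r) := by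
    rw [Real.rpow_sub_one hr.ne']
    field_simp
  have e2 : t ^ α = r ^ α * (t / r) ^ α := by
    rw [← Real.mul_rpow hr.le hx]
    congr 1
    field_simp
  rcases le_or_gt (t / r) 1 with h1 | h1
  · refine ⟨0, ?_⟩
    rw [pow_zero, pow_zero, mul_one, mul_one, min_eq_right h1]
    refine (min_le_left _ _).trans ?_
    rw [e1]
    nlinarith [mul_nonneg hra.le hx]
  · obtain ⟨k, hk1, hk2⟩ := exists_nat_pow_near h1.le (one_lt_two)
    refine ⟨k, (min_le_right _ _).trans ?_⟩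
    have h2k : (0 : ℝ) < 2 ^ k := by positivity
    have h3 : min 1 (t / (r * 2 ^ k)) = 1 := by
      refine min_eq_left ?_
      rw [← div_div, le_div_iff₀ h2k, one_mul]
      exact hk1
    rw [h3, mul_one, e2]
    have h4 : (t / r) ^ α ≤ 2 * ((2 : ℝ) ^ α) ^ k := by
      calc (t / r) ^ α ≤ ((2 : ℝ) ^ (k + 1)) ^ α := Real.rpow_le_rpow hx hk2.le hα.le
        _ = (2 : ℝ) ^ α * ((2 : ℝ) ^ α) ^ k := by
          rw [← Real.rpow_natCast (2 : ℝ) (k + 1), ← Real.rpow_mul (by norm_num),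
            ← Real.rpow_natCast ((2 : ℝ) ^ α) k, ← Real.rpow_mul (by norm_num),
            ← Real.rpow_add (by norm_num)]
          congr 1
          push_cast
          ring
        _ ≤ 2 * ((2 : ℝ) ^ α) ^ k := by
          have h5 : (2 : ℝ) ^ α ≤ 2 := by
            have := Real.rpow_le_rpow_of_exponent_le one_le_two hα1
            rwa [Real.rpow_one] at this
          exact mul_le_mul_of_nonneg_right h5 (by positivity)
    calc r ^ α * (t / r) ^ α ≤ r ^ α * (2 * ((2 : ℝ) ^ α) ^ k) :=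
          mul_le_mul_of_nonneg_left h4 hra.le
      _ = _ := by ring

private lemma AngN_term {α r lam l A M : ℝ} (hr : 0 < r) (hlam : 0 < lam) (hl : 0 < l) (k : ℕ) :
    2 * r ^ α * ((2 : ℝ) ^ α) ^ k * M * (A * (2 * (lam / (r * 2 ^ k)) * l) ^ (2 * s)) =
      2 * M * A * (2 * l) ^ (2 * s) * (lam ^ (2 * s) * r ^ (α - 2 * s)) *
        ((2 : ℝ) ^ (α - 2 * s)) ^ k := by
  have h2k : (0 : ℝ) < 2 ^ k := by positivity
  have e1 : 2 * (lam / (r * 2 ^ k)) * l = (2 * l) * (lam * (r⁻¹ * (2 ^ k)⁻¹)) := by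
    field_simp
  have e2 : (2 * (lam / (r * 2 ^ k)) * l) ^ (2 * s) =
      (2 * l) ^ (2 * s) * (lam ^ (2 * s) * (r ^ (-(2 * s)) * ((2 : ℝ) ^ (-(2 * s))) ^ k)) := by
    have f1 : r⁻¹ ^ (2 * s) = r ^ (-(2 * s)) := by
      rw [Real.inv_rpow hr.le, ← Real.rpow_neg hr.le]
    have f2 : (((2 : ℝ) ^ k)⁻¹) ^ (2 * s) = ((2 : ℝ) ^ (-(2 * s))) ^ k := by
      rw [Real.inv_rpow h2k.le, ← Real.rpow_neg h2k.le, ← Real.rpow_natCast (2 : ℝ) k,
        ← Real.rpow_mul (by norm_num), ← Real.rpow_natCast ((2 : ℝ) ^ (-(2 * s))) k,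
        ← Real.rpow_mul (by norm_num)]
      congr 1
      ring
    rw [e1, Real.mul_rpow (x := 2 * l) (by positivity) (by positivity),
      Real.mul_rpow hlam.le (by positivity),
      Real.mul_rpow (x := r⁻¹) (by positivity) (by positivity), f1, f2]
  have e3 : r ^ (α - 2 * s) = r ^ α * r ^ (-(2 * s)) := by
    rw [← Real.rpow_add hr]
    congr 1
  have e4 : (2 : ℝ) ^ (α - 2 * s) = (2 : ℝ) ^ α * (2 : ℝ) ^ (-(2 * s)) := by
    rw [← Real.rpow_add (by norm_num)]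
    congr 1
  rw [e2, e3, e4, mul_pow]
  ring

theorem angN (H : Hyp d γ s b C Ca) (hs : 2 * s < 1) {α : ℝ} (hα : 0 < α) (hα2 : α < 2 * s) :
    ∃ A : ℝ, 0 ≤ A ∧ ∀ ε : ℝ, 0 < ε → ∀ m : Vec d, m ≠ 0 → ∀ r lam : ℝ, 0 < r → 0 < lam →
    ∫⁻ σ in {σ : Vec d | 0 < dot m σ}, ENNReal.ofReal
      (Kn d γ (bt b ε) (co m σ) * pf α r (lam * len (hh σ m))) ∂(surf d) ≤
      ENNReal.ofReal (A * (lam ^ (2 * s) * r ^ (α - 2 * s)) * (1 + nsq m)) := by
  have hC0 : 0 ≤ C := H.bd.1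
  have hs0 := H.hs
  obtain ⟨A, hA, h⟩ := ang_scale H (τ := 1 / 2) (by linarith) (by norm_num)
  set M : ℝ := 2 ^ (d - 1) * 4 * (2 * C) with hMdef
  have hM : 0 ≤ M := by positivity
  set q : ℝ := (2 : ℝ) ^ (α - 2 * s) with hq
  have hq0 : 0 ≤ q := by positivity
  have hq1 : q < 1 := by
    have := Real.rpow_lt_one_of_one_lt_of_neg (one_lt_two) (by linarith : α - 2 * s < 0)
    exact this
  have hq2 : 0 < 1 - q := by linarith
  refine ⟨4 * M * A * (1 - q)⁻¹, by positivity, fun ε hε m hm r lam hr hlam => ?_⟩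
  have hl := len_pos hm
  have hra : 0 < r ^ α := Real.rpow_pos_of_pos hr _
  calc ∫⁻ σ in {σ : Vec d | 0 < dot m σ}, ENNReal.ofReal
        (Kn d γ (bt b ε) (co m σ) * pf α r (lam * len (hh σ m))) ∂(surf d)
      ≤ ∫⁻ σ in {σ : Vec d | 0 < dot m σ}, ∑' k : ℕ,
          ENNReal.ofReal (2 * r ^ α * ((2 : ℝ) ^ α) ^ k * M) *
            ENNReal.ofReal (AngN_G s m (lam / (r * 2 ^ k)) σ) ∂(surf d) := by
        refine lintegral_mono_ae ?_
        filter_upwards [ae_restrict_of_ae surf_ae, ae_restrict_mem (measurableSet_half m)]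
          with σ hσ hd
        obtain ⟨k, hk⟩ := AngN_dy (α := α) (r := r) (t := lam * len (hh σ m)) hα (by linarith) hr
          (mul_nonneg hlam.le (len_nonneg _))
        refine le_trans ?_ (ENNReal.le_tsum k)
        have hck : 0 ≤ 2 * r ^ α * ((2 : ℝ) ^ α) ^ k := by positivity
        rw [← ENNReal.ofReal_mul (mul_nonneg hck hM)]
        refine ENNReal.ofReal_le_ofReal ?_
        have hkn := AngN_kn_nonneg H hε (co_pos hd) (co_le_one (m := m) hσ)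
        have h1 := AngN_pt H ε (μ := lam / (r * 2 ^ k)) (by positivity) hσ hd
        have e1 : lam * len (hh σ m) / (r * 2 ^ k) = lam / (r * 2 ^ k) * len (hh σ m) := by
          ring
        rw [e1] at hk
        calc Kn d γ (bt b ε) (co m σ) * pf α r (lam * len (hh σ m))
            ≤ Kn d γ (bt b ε) (co m σ) * (2 * r ^ α * ((2 : ℝ) ^ α) ^ k *
                min 1 (lam / (r * 2 ^ k) * len (hh σ m))) := mul_le_mul_of_nonneg_left hk hkn
          _ = 2 * r ^ α * ((2 : ℝ) ^ α) ^ k * (Kn d γ (bt b ε) (co m σ) *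
                min 1 (lam / (r * 2 ^ k) * len (hh σ m))) := by ring
          _ ≤ 2 * r ^ α * ((2 : ℝ) ^ α) ^ k *
                (M * AngN_G s m (lam / (r * 2 ^ k)) σ) := mul_le_mul_of_nonneg_left h1 hck
          _ = _ := by ring
    _ ≤ ∫⁻ σ, ∑' k : ℕ, ENNReal.ofReal (2 * r ^ α * ((2 : ℝ) ^ α) ^ k * M) *
            ENNReal.ofReal (AngN_G s m (lam / (r * 2 ^ k)) σ) ∂(surf d) :=
        setLIntegral_le_lintegral _ _
    _ = ∑' k : ℕ, ENNReal.ofReal (2 * r ^ α * ((2 : ℝ) ^ α) ^ k * M) *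
            ∫⁻ σ, ENNReal.ofReal (AngN_G s m (lam / (r * 2 ^ k)) σ) ∂(surf d) := by
        rw [lintegral_tsum fun k => ((AngN_G_meas s m _).const_mul _).aemeasurable]
        exact tsum_congr fun k => lintegral_const_mul _ (AngN_G_meas s m _)
    _ ≤ ∑' k : ℕ, ENNReal.ofReal (2 * M * A * (2 * len m) ^ (2 * s) *
          (lam ^ (2 * s) * r ^ (α - 2 * s)) * q ^ k) := by
        refine ENNReal.tsum_le_tsum fun k => ?_
        have h2k : (0 : ℝ) < 2 ^ k := by positivity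
        have h1 := h (dir m) (nsq_dir hm) (2 * (lam / (r * 2 ^ k)) * len m) (by positivity)
        refine le_trans (mul_le_mul_right h1 _) ?_
        rw [← ENNReal.ofReal_mul (by positivity), AngN_term hr hlam hl k]
    _ = ENNReal.ofReal (2 * M * A * (2 * len m) ^ (2 * s) *
          (lam ^ (2 * s) * r ^ (α - 2 * s)) * (1 - q)⁻¹) := by
        rw [← ENNReal.ofReal_tsum_of_nonneg (fun k => by positivity)
          ((summable_geometric_of_lt_one hq0 hq1).mul_left _), tsum_mul_left,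
          tsum_geometric_of_lt_one hq0 hq1]
    _ ≤ _ := by
        refine ENNReal.ofReal_le_ofReal ?_
        have e2 := AngN_len hs0 hs hm
        have e3 : 0 ≤ lam ^ (2 * s) * r ^ (α - 2 * s) := by positivity
        calc 2 * M * A * (2 * len m) ^ (2 * s) * (lam ^ (2 * s) * r ^ (α - 2 * s)) * (1 - q)⁻¹
            ≤ 2 * M * A * (2 * (1 + nsq m)) * (lam ^ (2 * s) * r ^ (α - 2 * s)) *
                (1 - q)⁻¹ := by gcongr
          _ = _ := by ring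

end Pool.Agent.H48.NE
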