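import Pool.Agent.H48.NE.GenN
import Pool.Agent.H48.NE.Mxw

/-!
# Module DecN: uniform decay constants near a Maxwellian

`μ = mx a k u₀`, `p = d + 10`. `A₁` with `μ ≤ (A₁-1) Wp p` (`mx_FB`), `m = ∫ μ > 0`, `R₁` with `∫_{nsq ≤ R₁²} μ ≥ (3/4) m` (dominated convergence, `stb_tail` of PS/Stb), `Λ₀ ≤ 1`, `Λ₀ ∫ Wp (d+11) ≤ m/4`. Then `f ≤ A₁ Wp p` and `∫_{nsq ≤ R₁²} f ≥ m/2` on `[0,T)`.
`U¹` from `genN` (`t ≥ 1`), `U⁰` from `prp` (PS/Prp, `T₀ = 2`) applied to the restriction of `f` to `[0, min T 2)` (restriction of classical solutions to a shorter time interval: search `restrict`, `mono` for `IsClassicalSol`; the sets only shrink). `Cl N = max (U⁰ N) (U¹ N)`. `FB`: `Nice (f t x)` for `t ∈ (0,T)`: see the proofs in PS/Stb.lean, PR/ThmL.lean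
(`hf.isC2`, `hf.decay12`; there is a lemma of the kind `IsClassicalSol.nice_slice`: search `Nice (f t x)`). -/

set_option autoImplicit false

open MeasureTheory Set Filter Topology Pool.Agent.H25.Kin Pool.Agent.H48.PL Pool.Agent.H48.PD
open Pool.Agent.H82.BK Pool.Agent.H48.PR

namespace Pool.Agent.H48.NE

variable {d : ℕ} {γ s : ℝ} {b : ℝ → ℝ}

/-- pointwise decay from a weighted bound -/
private lemma DecN_le {q : ℕ} {v : Vec d} {a c : ℝ} (ha : 0 ≤ a) (h : (1 + ‖v‖) ^ (2 * q) * a ≤ c) :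
    a ≤ ((d : ℝ) + 1) ^ q * |c| * Wp q v := by
  have hn := norm_nonneg v
  have h2 : 1 + nsq v ≤ ((d : ℝ) + 1) * (1 + ‖v‖) ^ 2 := by
    have h3 := sq_le v
    have h4 : (0 : ℝ) ≤ d := Nat.cast_nonneg _
    nlinarith [mul_nonneg h4 hn]
  have h5 : (1 + nsq v) ^ q ≤ ((d : ℝ) + 1) ^ q * (1 + ‖v‖) ^ (2 * q) := by
    rw [pow_mul, ← mul_pow]
    exact pow_le_pow_left₀ (by have := sq_nonneg' v; linarith) h2 q
  have h6 : 0 < (1 + nsq v) ^ q := by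
    have := sq_nonneg' v
    positivity
  rw [Wp, ← div_eq_mul_inv, le_div_iff₀ h6]
  calc a * (1 + nsq v) ^ q ≤ a * (((d : ℝ) + 1) ^ q * (1 + ‖v‖) ^ (2 * q)) :=
        mul_le_mul_of_nonneg_left h5 ha
    _ = ((d : ℝ) + 1) ^ q * ((1 + ‖v‖) ^ (2 * q) * a) := by ring
    _ ≤ ((d : ℝ) + 1) ^ q * |c| := by
        gcongr
        exact h.trans (le_abs_self c)

/-- the weights are integrable -/
private lemma DecN_Wint {q : ℕ} (hq : d + 1 ≤ 2 * q) : Integrable (Wp q : Vec d → ℝ) := by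
  refine Integrable.mono' ((integrable_wt (d := d)).const_mul ((2 : ℝ) ^ q))
    (Wp_cont q).aestronglyMeasurable (Eventually.of_forall fun v => ?_)
  have hn := norm_nonneg v
  have h1 : (1 + ‖v‖) ^ 2 ≤ 2 * (1 + nsq v) := by
    have := norm_sq_le_sq v
    nlinarith [sq_nonneg (1 - ‖v‖)]
  have h2 : (1 + ‖v‖) ^ (d + 1) ≤ 2 ^ q * (1 + nsq v) ^ q := by
    calc (1 + ‖v‖) ^ (d + 1) ≤ (1 + ‖v‖) ^ (2 * q) := pow_le_pow_right₀ (by linarith) hq
      _ = ((1 + ‖v‖) ^ 2) ^ q := pow_mul _ _ _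
      _ ≤ (2 * (1 + nsq v)) ^ q := pow_le_pow_left₀ (by positivity) h1 q
      _ = 2 ^ q * (1 + nsq v) ^ q := mul_pow _ _ _
  have h3 : 0 < (1 + nsq v) ^ q := by
    have := sq_nonneg' v
    positivity
  rw [Real.norm_of_nonneg (Wp_pos q v).le, Wp, wt, ← div_eq_mul_inv, ← one_div,
    div_le_div_iff₀ h3 (by positivity), one_mul]
  exact h2

/-- slices are continuous -/
private lemma DecN_cont {T : ℝ} {Q f : ℝ → Vec d → Vec d → ℝ} (hf : IsClassicalSol T Q f) {t : ℝ}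
    (ht : t ∈ Ico 0 T) (x : Vec d) : Continuous (f t x) := by
  have h1 : Continuous fun v : Vec d => ((t, x, v) : ℝ × Vec d × Vec d) := by fun_prop
  exact hf.isCont.comp_continuous h1 fun v => ⟨ht, mem_univ _⟩

/-- slices are integrable -/
private lemma DecN_int {T : ℝ} {Q f : ℝ → Vec d → Vec d → ℝ} (hf : IsClassicalSol T Q f) {t : ℝ}
    (ht : t ∈ Ico 0 T) (x : Vec d) : Integrable (f t x) := by
  obtain ⟨C, hC⟩ := hf.decay t ht.2 (2 * (d + 1))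
  refine Integrable.mono' ((DecN_Wint (d := d) (q := d + 1) (by omega)).const_mul
    (((d : ℝ) + 1) ^ (d + 1) * |C|)) (DecN_cont hf ht x).aestronglyMeasurable
    (Eventually.of_forall fun v => ?_)
  have h0 := hf.nonneg t ht x v
  rw [Real.norm_of_nonneg h0]
  exact DecN_le h0 (hC t ⟨ht.1, le_rfl⟩ x v)

/-- the tail -/
private lemma DecN_tail {p : ℕ} (hp : d + 10 ≤ p) {A η : ℝ} (hA : 0 ≤ A) (hη : 0 < η) :
    ∃ R₁ : ℝ, ∫ z in {z : Vec d | nsq z ≤ R₁ ^ 2}ᶜ, A * Wp p z ≤ η := by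
  obtain ⟨q, rfl⟩ : ∃ q, p = q + 1 := ⟨p - 1, by omega⟩
  have hi : Integrable (Wp q : Vec d → ℝ) := DecN_Wint (by omega)
  have hi1 : Integrable (Wp (q + 1) : Vec d → ℝ) := DecN_Wint (by omega)
  set I : ℝ := ∫ z : Vec d, Wp q z with hI
  have hI0 : 0 ≤ I := integral_nonneg fun z => (Wp_pos q z).le
  set R : ℝ := A * I / η + 1 with hR
  have hR0 : 0 ≤ A * I / η := by positivity
  refine ⟨R, ?_⟩
  have hS : MeasurableSet {z : Vec d | nsq z ≤ R ^ 2} :=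
    (isClosed_le continuous_sq continuous_const).measurableSet
  have h1 : ∫ z in {z : Vec d | nsq z ≤ R ^ 2}ᶜ, A * Wp (q + 1) z ≤
      ∫ z in {z : Vec d | nsq z ≤ R ^ 2}ᶜ, A / (1 + R ^ 2) * Wp q z := by
    refine setIntegral_mono_on (hi1.const_mul A).integrableOn
      (hi.const_mul _).integrableOn hS.compl fun z hz => ?_
    have hz' : R ^ 2 < nsq z := not_le.1 hz
    have h2 : Wp (q + 1) z * (1 + nsq z) = Wp q z := by
      have h3 := sq_nonneg' z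
      have h31 : 1 + nsq z ≠ 0 := by positivity
      unfold Wp
      rw [pow_succ, mul_inv, inv_mul_cancel_right₀ h31]
    have h4 := Wp_pos (q + 1) z
    rw [div_mul_eq_mul_div, le_div_iff₀ (by positivity), ← h2, mul_assoc]
    gcongr
  refine h1.trans ?_
  rw [integral_const_mul]
  have h5 : ∫ z in {z : Vec d | nsq z ≤ R ^ 2}ᶜ, Wp q z ≤ I :=
    setIntegral_le_integral hi (Eventually.of_forall fun z => (Wp_pos q z).le)
  calc A / (1 + R ^ 2) * ∫ z in {z : Vec d | nsq z ≤ R ^ 2}ᶜ, Wp q z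
      ≤ A / (1 + R ^ 2) * I := by gcongr
    _ ≤ η := by
        rw [div_mul_eq_mul_div, div_le_iff₀ (by positivity)]
        have h6 : A * I = A * I / η * η := by field_simp
        have h7 : A * I / η ≤ 1 + R ^ 2 := by nlinarith
        calc A * I = A * I / η * η := h6
          _ ≤ (1 + R ^ 2) * η := by gcongr
          _ = η * (1 + R ^ 2) := mul_comm _ _

/-- masses -/
private lemma DecN_mass {p : ℕ} (hp : d + 10 ≤ p) {A L m R₁ : ℝ} {F G : Vec d → ℝ}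
    (hF : Integrable F) (hG : Integrable G) (hFA : ∀ v, F v ≤ A * Wp p v) (hm0 : 0 ≤ m)
    (hm : m ≤ ∫ v, F v) (hR : ∫ z in {z : Vec d | nsq z ≤ R₁ ^ 2}ᶜ, A * Wp p z ≤ m / 8)
    (hL0 : 0 ≤ L) (hL : L * ∫ v : Vec d, Wp p v ≤ m / 8) (hd : ∀ v, |G v - F v| ≤ L * Wp p v) :
    m / 2 ≤ ∫ z in {z : Vec d | nsq z ≤ R₁ ^ 2}, G z := by
  have hi : Integrable (Wp p : Vec d → ℝ) := DecN_Wint (by omega)
  have hS : MeasurableSet {z : Vec d | nsq z ≤ R₁ ^ 2} :=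
    (isClosed_le continuous_sq continuous_const).measurableSet
  have h1 := integral_add_compl hS hF
  have h2 : ∫ z in {z : Vec d | nsq z ≤ R₁ ^ 2}ᶜ, F z ≤
      ∫ z in {z : Vec d | nsq z ≤ R₁ ^ 2}ᶜ, A * Wp p z :=
    setIntegral_mono hF.integrableOn (hi.const_mul A).integrableOn hFA
  have h3 : ∫ z in {z : Vec d | nsq z ≤ R₁ ^ 2}, (F z - L * Wp p z) ≤
      ∫ z in {z : Vec d | nsq z ≤ R₁ ^ 2}, G z := by
    refine setIntegral_mono (hF.sub (hi.const_mul L)).integrableOn hG.integrableOn fun v => ?_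
    have := (abs_le.1 (hd v)).1
    show F v - L * Wp p v ≤ G v
    linarith
  rw [integral_sub hF.integrableOn (hi.const_mul L).integrableOn] at h3
  have h4 : ∫ z in {z : Vec d | nsq z ≤ R₁ ^ 2}, L * Wp p z ≤ ∫ z : Vec d, L * Wp p z :=
    setIntegral_le_integral (hi.const_mul L)
      (Eventually.of_forall fun z => mul_nonneg hL0 (Wp_pos p z).le)
  have h5 : ∫ z : Vec d, L * Wp p z = L * ∫ z : Vec d, Wp p z := integral_const_mul _ _
  rw [h5] at h4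
  linarith

theorem decN (hd : 2 ≤ d) (hs0 : s ∈ Ioo (0 : ℝ) 1) (h0 : 0 < γ) (h2 : γ + 2 * s ≤ 2)
    (hb : IsKernel d s b) {a k : ℝ} (ha : 0 < a) (hk : 0 < k) (u₀ : Vec d) (B : ℕ → ℝ) :
    ∃ Λ₀ > 0, ∃ Cl : ℕ → ℝ, ∀ (T : ℝ) (f : ℝ → Vec d → Vec d → ℝ), IsBoltzmannSol γ b T f →
      (∀ (N : ℕ) (x v : Vec d), (1 + ‖v‖) ^ N * f 0 x v ≤ B N) →
      (∀ t ∈ Ico 0 T, ∀ x v, |f t x v - mx a k u₀ v| ≤ Λ₀ * Wp (d + 11) v) →
      (∀ t ∈ Ico 0 T, ∀ (N : ℕ) (x v : Vec d), (1 + ‖v‖) ^ N * f t x v ≤ Cl N) ∧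
      ∀ t ∈ Ioo 0 T, ∀ x, FB Cl (f t x) := by
  obtain ⟨Cm, hCm⟩ := mx_FB ha hk u₀
  obtain ⟨A₁, hA₁⟩ : ∃ A₁ : ℝ, A₁ = ((d : ℝ) + 1) ^ (d + 10) * |Cm (2 * (d + 10))| + 1 := ⟨_, rfl⟩
  have hA0 : 0 ≤ A₁ := by rw [hA₁]; positivity
  have hmA : ∀ v, mx a k u₀ v ≤ (A₁ - 1) * Wp (d + 10) v := fun v => by
    rw [hA₁, add_sub_cancel_right]
    exact DecN_le (mx_pos ha u₀ v).le (hCm.le (2 * (d + 10)) v)
  have hmA' : ∀ v, mx a k u₀ v ≤ A₁ * Wp (d + 10) v := fun v => by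
    have h3 := hmA v
    have h4 := Wp_pos (d + 10) v
    linarith
  have hWi : Integrable (Wp (d + 10) : Vec d → ℝ) := DecN_Wint (by omega)
  have hmi : Integrable (mx a k u₀ : Vec d → ℝ) := by
    refine Integrable.mono' (hWi.const_mul A₁) hCm.nice.cont.aestronglyMeasurable
      (Eventually.of_forall fun v => ?_)
    rw [Real.norm_of_nonneg (mx_pos ha u₀ v).le]
    exact hmA' v
  obtain ⟨m, hm⟩ : ∃ m : ℝ, m = ∫ v, mx a k u₀ v := ⟨_, rfl⟩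
  have hm0 : 0 < m := by rw [hm]; exact mx_mass ha hk u₀
  obtain ⟨R₁, hR₁⟩ := DecN_tail (d := d) le_rfl hA0 (show 0 < m / 8 by positivity)
  obtain ⟨I, hI⟩ : ∃ I : ℝ, I = ∫ v : Vec d, Wp (d + 10) v := ⟨_, rfl⟩
  have hI0 : 0 ≤ I := by rw [hI]; exact integral_nonneg fun z => (Wp_pos _ z).le
  obtain ⟨L, hL0, hL1, hL2⟩ : ∃ L : ℝ, 0 < L ∧ L ≤ 1 ∧ L * I ≤ m / 8 := by
    refine ⟨min 1 (m / 8 / (I + 1)), by positivity, min_le_left _ _, ?_⟩
    refine (mul_le_mul_of_nonneg_right (min_le_right _ _) hI0).trans ?_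
    rw [div_mul_eq_mul_div, div_le_iff₀ (by positivity)]
    nlinarith
  obtain ⟨U₁, hU₁⟩ := genN hd hs0 h0 h2 hb (p := d + 10) le_rfl A₁ R₁
    (show 0 < m / 2 by positivity)
  obtain ⟨U₀, hU₀⟩ := Pool.Agent.H48.PS.prp hd hs0 h0.le h2 hb (p := d + 10) le_rfl 1 A₁ B
  refine ⟨L, hL0, fun N => max (U₀ N) (U₁ N), fun T f hf hf0 hfd => ?_⟩
  have hf' : IsClassicalSol T (fun t x => boltzQ γ b (f t x)) f := hf
  have hWle : ∀ v : Vec d, Wp (d + 11) v ≤ Wp (d + 10) v := fun v => by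
    have h3 := sq_nonneg' v
    unfold Wp
    exact inv_anti₀ (by positivity) (pow_le_pow_right₀ (by linarith) (by omega))
  have hdif : ∀ t ∈ Ico 0 T, ∀ x v, |f t x v - mx a k u₀ v| ≤ L * Wp (d + 10) v :=
    fun t ht x v => (hfd t ht x v).trans (mul_le_mul_of_nonneg_left (hWle v) hL0.le)
  have hfA : ∀ t ∈ Ico 0 T, ∀ x v, f t x v ≤ A₁ * Wp (d + 10) v := fun t ht x v => by
    have h3 := (abs_le.1 (hdif t ht x v)).2
    have h4 := hmA v
    have h5 := Wp_pos (d + 10) v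
    have h6 : L * Wp (d + 10) v ≤ 1 * Wp (d + 10) v := mul_le_mul_of_nonneg_right hL1 h5.le
    linarith
  have hfm : ∀ t ∈ Ico 0 T, ∀ x, m / 2 ≤ ∫ z in {z : Vec d | nsq z ≤ R₁ ^ 2}, f t x z :=
    fun t ht x => DecN_mass le_rfl hmi (DecN_int hf' ht x) hmA' hm0.le hm.le hR₁ hL0.le
      (by rw [← hI]; exact hL2) (hdif t ht x)
  have hres : IsBoltzmannSol γ b (min T 1) f :=
    Pool.Agent.H48.PI.sol_restrict hf' (min_le_left _ _)
  have key : ∀ t ∈ Ico 0 T, ∀ (N : ℕ) (x v : Vec d),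
      (1 + ‖v‖) ^ N * f t x v ≤ max (U₀ N) (U₁ N) := by
    intro t ht N x v
    rcases lt_or_ge t 1 with h3 | h3
    · exact (hU₀ (min T 1) (min_le_right _ _) f hres hf0
        (fun τ hτ y w => hfA τ ⟨hτ.1, hτ.2.trans_le (min_le_left _ _)⟩ y w) t
        ⟨ht.1, lt_min ht.2 h3⟩ N x v).trans (le_max_left _ _)
    · exact (hU₁ T f hf hfA hfm t ⟨h3, ht.2⟩ N x v).trans (le_max_right _ _)
  exact ⟨key, fun t ht x => ⟨IsClassicalSol.nice hf' ht x,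
    fun w => hf'.nonneg t ⟨ht.1.le, ht.2⟩ x w, fun N w => key t ⟨ht.1.le, ht.2⟩ N x w⟩⟩

end Pool.Agent.H48.NE
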