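import Pool.Agent.H48.NE.Mxw
import Pool.Agent.H48.PS.PtS

/-!
# Module PtL: the pointwise inequality around a Maxwellian, weight `p+3`

As `ptS`, `ptS_core` of PS/PtS.lean (copy), with `F = μ = mx a k u₀`, exponent `α = 1` and the weight `Wp (p+3)` instead of `Wp (p+2)`: `G(z)[G(v')-qG(v)] - μ(z)[μ(v')-qμ(v)] = G(z)[D(v')-qD(v)] + D(z)[μ(v')-qμ(v)]`, `D = G - μ`. First term `≤ G(z)[Λ W(v') - qΛ W(v)]` (touching, `G ≥ 0`). Second term, `|D(z)| ≤ Λ W(z)`,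
`μ(v') - qμ(v) = (μ(v')-μ(v)) + (1-q) μ(v)`, `μ(v) ≤ K Wp (p+3) v` (`mx_FB` or directly), `mx_lip` with `p+3`: `|μ(v')-μ(v)| ≤ K min 1 |h| (Wp (p+3) v + Wp (p+3) v')`. If `(z,v') ∈ RS v`: `1 + nsq v' ≥ (1+nsq v)/4` (private lemma `ptS_reg`), so `Wp (p+3) v' ≤ 4^(p+3) Wp (p+3) v`.
If `(z,v') ∉ RS v`: `min 1 |h| ≥ 1/2` (`ptS_exc`, `ptS_half`): for `D(z) ≥ 0`: `D(z)(μ(v')-qμ(v)) ≤ Λ W(z) μ(v')`; for `D(z) < 0`: `≤ |D(z)| q μ(v) ≤ Λ W(z) K Wp (p+3) v`. Second statement: `μ, G` exchanged: `μ(z)[μ(v')-qμ(v)] - G(z)[G(v')-qG(v)] = G(z)[(-D)(v') - q(-D)(v)] - D(z)[μ(v')-qμ(v)]`.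
-/

set_option autoImplicit false

open MeasureTheory Set Filter Topology Pool.Agent.H25.Kin Pool.Agent.H48.PL Pool.Agent.H48.PD
open Pool.Agent.H82.BK Pool.Agent.H82.CM Pool.Agent.H48.PR

namespace Pool.Agent.H48.NE

variable {d : ℕ}

private lemma ptl_F (Cl : ℕ → ℝ) (p : ℕ) {F : Vec d → ℝ} (hF : FB Cl F) (v : Vec d) :
    F v ≤ ((d : ℝ) + 1) ^ (p + 3) * |Cl (2 * (p + 3))| * Wp (p + 3) v := by
  have h1 := hF.le (2 * (p + 3)) v
  have h2 : F v = F v * (1 + nsq v) ^ (p + 3) * Wp (p + 3) v := by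
    rw [mul_assoc, mul_comm ((1 + nsq v) ^ (p + 3)), Wp_mul, mul_one]
  rw [h2]
  refine mul_le_mul_of_nonneg_right ?_ (Wp_pos _ _).le
  have h3 : (1 + nsq v) ^ (p + 3) ≤ ((d : ℝ) + 1) ^ (p + 3) * (1 + ‖v‖) ^ (2 * (p + 3)) := by
    rw [pow_mul, ← mul_pow]
    exact pow_le_pow_left₀ (by linarith [sq_nonneg' v]) (one_add_sq_le v) _
  have hd : (0 : ℝ) ≤ (d : ℝ) + 1 := by positivity
  calc F v * (1 + nsq v) ^ (p + 3)
      ≤ F v * (((d : ℝ) + 1) ^ (p + 3) * (1 + ‖v‖) ^ (2 * (p + 3))) :=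
        mul_le_mul_of_nonneg_left h3 (hF.nonneg v)
    _ = ((d : ℝ) + 1) ^ (p + 3) * ((1 + ‖v‖) ^ (2 * (p + 3)) * F v) := by ring
    _ ≤ ((d : ℝ) + 1) ^ (p + 3) * |Cl (2 * (p + 3))| :=
        mul_le_mul_of_nonneg_left (h1.trans (le_abs_self _)) (pow_nonneg hd _)

private lemma ptl_W (p : ℕ) {v v' : Vec d} (h : (1 + nsq v) / 4 ≤ 1 + nsq v') :
    Wp (p + 3) v' ≤ 4 ^ (p + 3) * Wp (p + 3) v := by
  unfold Wp
  have hv := sq_nonneg' v
  have hv' := sq_nonneg' v'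
  have h1 : ((1 + nsq v) / 4) ^ (p + 3) ≤ (1 + nsq v') ^ (p + 3) :=
    pow_le_pow_left₀ (by positivity) h _
  have h2 : (0 : ℝ) < ((1 + nsq v) / 4) ^ (p + 3) := by positivity
  calc ((1 + nsq v') ^ (p + 3))⁻¹ ≤ (((1 + nsq v) / 4) ^ (p + 3))⁻¹ := inv_anti₀ h2 h1
    _ = 4 ^ (p + 3) * ((1 + nsq v) ^ (p + 3))⁻¹ := by
        rw [div_pow, inv_div, div_eq_mul_inv]

private lemma ptl_reg {v z h : Vec d} (hr : (z, v + h) ∈ RS v) :
    (1 + nsq v) / 4 ≤ 1 + nsq (v + h) := by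
  have h1 := hr.1
  have hv := sq_nonneg' v
  have hv' := sq_nonneg' (v + h)
  by_cases h2 : nsq (v + h) < (1 + nsq v) / 4
  · have h3 : nsq h < (1 + nsq v) / 4 := by
      by_contra h4
      push Not at h4
      apply h1
      refine ⟨h2, ?_⟩
      show (1 + nsq v) / 4 ≤ nsq (v + h - v)
      rw [add_sub_cancel_left]
      exact h4
    have h5 := nsq_par (v + h) h
    rw [add_sub_cancel_right] at h5
    have h6 := sq_nonneg' (v + h + h)
    linarith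
  · push Not at h2
    linarith

private lemma ptl_exc {v z h : Vec d} (hr : (z, v + h) ∉ RS v) : 1 / 4 ≤ nsq h := by
  have hv := sq_nonneg' v
  by_contra h1
  push Not at h1
  apply hr
  constructor
  · rintro ⟨_, h2⟩
    have h3 : (1 + nsq v) / 4 ≤ nsq (v + h - v) := h2
    rw [add_sub_cancel_left] at h3
    linarith
  · rintro ⟨_, h2⟩
    have h3 : 1 / 4 * (1 + nsq v) ≤ nsq (v + h - v) := h2
    rw [add_sub_cancel_left] at h3
    linarith

private lemma ptl_half {h : Vec d} (hh : 1 / 4 ≤ nsq h) : 1 / 2 ≤ min 1 (len h) := by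
  have h2 : 1 / 2 ≤ len h := by
    unfold len
    refine Real.le_sqrt_of_sq_le ?_
    norm_num
    linarith
  exact le_min (by norm_num) h2

open Classical in
private lemma ptl_core (Cl : ℕ → ℝ) (p : ℕ) {Γ Λ : ℝ} {F : Vec d → ℝ}
    (hF : FB Cl F) (hΓ : 0 ≤ Γ) (hΛ : 0 ≤ Λ)
    (hol : ∀ v h, |F (v + h) - F v| ≤ Γ * min 1 (len h) * (Wp (p + 3) v + Wp (p + 3) (v + h)))
    (v z h : Vec d) {q δ : ℝ} (hq0 : 0 ≤ q) (hq1 : q ≤ 1) (hδ : |δ| ≤ Λ * Wp p z) :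
    δ * (F (v + h) - q * F v) ≤ (if (z, v + h) ∈ RS v then 0 else Λ * (Wp p z * F (v + h))) +
      Λ * ((1 + 4 ^ (p + 3) + 2 * (((d : ℝ) + 1) ^ (p + 3) * |Cl (2 * (p + 3))|)) * (1 + Γ)) *
        (Wp p z * (Wp (p + 3) v * (min 1 (len h) + (1 - q)))) := by
  have hK1 : 0 ≤ ((d : ℝ) + 1) ^ (p + 3) * |Cl (2 * (p + 3))| := by positivity
  have hFv := ptl_F Cl p hF v
  generalize ((d : ℝ) + 1) ^ (p + 3) * |Cl (2 * (p + 3))| = K1 at hK1 hFv ⊢
  have hFv0 := hF.nonneg v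
  have hFv0' := hF.nonneg (v + h)
  have hW := (Wp_pos (p + 3) v).le
  have hWz := (Wp_pos p z).le
  have hmn : 0 ≤ min 1 (len h) := le_min zero_le_one (len_nonneg h)
  have h4 : (0 : ℝ) ≤ 4 ^ (p + 3) := by positivity
  have hM : 0 ≤ Λ * Wp p z := mul_nonneg hΛ hWz
  have hδ1 : δ * (F (v + h) - q * F v) ≤ δ * (F (v + h) - F v) + Λ * Wp p z * ((1 - q) * F v) := by
    have h5 : δ * ((1 - q) * F v) ≤ Λ * Wp p z * ((1 - q) * F v) :=
      mul_le_mul_of_nonneg_right ((le_abs_self _).trans hδ)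
        (mul_nonneg (by linarith) hFv0)
    linarith
  by_cases hr : (z, v + h) ∈ RS v
  · rw [if_pos hr]
    have h6 := ptl_W p (ptl_reg hr)
    have h7 : δ * (F (v + h) - F v) ≤ Λ * Wp p z * (Γ * min 1 (len h) *
        ((1 + 4 ^ (p + 3)) * Wp (p + 3) v)) := by
      calc δ * (F (v + h) - F v) ≤ |δ * (F (v + h) - F v)| := le_abs_self _
        _ = |δ| * |F (v + h) - F v| := abs_mul _ _
        _ ≤ Λ * Wp p z * (Γ * min 1 (len h) * (Wp (p + 3) v + Wp (p + 3) (v + h))) :=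
            mul_le_mul hδ (hol v h) (abs_nonneg _) hM
        _ ≤ Λ * Wp p z * (Γ * min 1 (len h) * ((1 + 4 ^ (p + 3)) * Wp (p + 3) v)) := by
            refine mul_le_mul_of_nonneg_left (mul_le_mul_of_nonneg_left ?_ (mul_nonneg hΓ hmn)) hM
            linarith
    have h8 : Λ * Wp p z * ((1 - q) * F v) ≤ Λ * Wp p z * ((1 - q) * (K1 * Wp (p + 3) v)) :=
      mul_le_mul_of_nonneg_left (mul_le_mul_of_nonneg_left hFv (by linarith)) hM
    have h9 : Γ * min 1 (len h) * ((1 + 4 ^ (p + 3)) * Wp (p + 3) v) +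
        (1 - q) * (K1 * Wp (p + 3) v) ≤
        (1 + 4 ^ (p + 3) + 2 * K1) * (1 + Γ) * (Wp (p + 3) v * (min 1 (len h) + (1 - q))) := by
      have e : (1 + 4 ^ (p + 3) + 2 * K1) * (1 + Γ) *
          (Wp (p + 3) v * (min 1 (len h) + (1 - q))) =
          Γ * min 1 (len h) * ((1 + 4 ^ (p + 3)) * Wp (p + 3) v) +
          (1 - q) * (K1 * Wp (p + 3) v) +
          ((1 + 4 ^ (p + 3)) * Wp (p + 3) v * min 1 (len h) +
            2 * K1 * (1 + Γ) * (Wp (p + 3) v * min 1 (len h)) +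
            (1 + 4 ^ (p + 3)) * (1 + Γ) * (Wp (p + 3) v * (1 - q)) +
            K1 * (Wp (p + 3) v * (1 - q)) + 2 * K1 * Γ * (Wp (p + 3) v * (1 - q))) := by ring
      rw [e]
      have hq : 0 ≤ 1 - q := by linarith
      have : 0 ≤ (1 + 4 ^ (p + 3)) * Wp (p + 3) v * min 1 (len h) +
            2 * K1 * (1 + Γ) * (Wp (p + 3) v * min 1 (len h)) +
            (1 + 4 ^ (p + 3)) * (1 + Γ) * (Wp (p + 3) v * (1 - q)) +
            K1 * (Wp (p + 3) v * (1 - q)) + 2 * K1 * Γ * (Wp (p + 3) v * (1 - q)) := by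
        positivity
      linarith
    have h10 := mul_le_mul_of_nonneg_left h9 hM
    calc δ * (F (v + h) - q * F v)
        ≤ Λ * Wp p z * (Γ * min 1 (len h) * ((1 + 4 ^ (p + 3)) * Wp (p + 3) v) +
          (1 - q) * (K1 * Wp (p + 3) v)) := by rw [mul_add]; linarith
      _ ≤ _ := h10
      _ = _ := by ring
  · rw [if_neg hr]
    have h5 := ptl_half (ptl_exc hr)
    have h6 : δ * (F (v + h) - q * F v) ≤ Λ * Wp p z * (F (v + h) + F v) := by
      calc δ * (F (v + h) - q * F v) ≤ |δ * (F (v + h) - q * F v)| := le_abs_self _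
        _ = |δ| * |F (v + h) - q * F v| := abs_mul _ _
        _ ≤ Λ * Wp p z * (F (v + h) + F v) := by
            refine mul_le_mul hδ ?_ (abs_nonneg _) hM
            have h7 : q * F v ≤ F v := by nlinarith
            have h8 : 0 ≤ q * F v := mul_nonneg hq0 hFv0
            rw [abs_le]
            constructor <;> linarith
    have h9 : F v ≤ (1 + 4 ^ (p + 3) + 2 * K1) * (1 + Γ) *
        (Wp (p + 3) v * (min 1 (len h) + (1 - q))) := by
      have hq : 0 ≤ 1 - q := by linarith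
      have e1 : K1 * Wp (p + 3) v ≤ 2 * K1 * (Wp (p + 3) v * min 1 (len h)) := by
        have h10 : 0 ≤ K1 * Wp (p + 3) v := mul_nonneg hK1 hW
        have h11 := mul_le_mul_of_nonneg_left h5 h10
        linarith
      have e2 : (1 + 4 ^ (p + 3) + 2 * K1) * (1 + Γ) *
          (Wp (p + 3) v * (min 1 (len h) + (1 - q))) =
          2 * K1 * (Wp (p + 3) v * min 1 (len h)) +
          (2 * K1 * Γ * (Wp (p + 3) v * min 1 (len h)) +
            (1 + 4 ^ (p + 3)) * (1 + Γ) * (Wp (p + 3) v * min 1 (len h)) +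
            (1 + 4 ^ (p + 3) + 2 * K1) * (1 + Γ) * (Wp (p + 3) v * (1 - q))) := by ring
      rw [e2]
      have : 0 ≤ 2 * K1 * Γ * (Wp (p + 3) v * min 1 (len h)) +
            (1 + 4 ^ (p + 3)) * (1 + Γ) * (Wp (p + 3) v * min 1 (len h)) +
            (1 + 4 ^ (p + 3) + 2 * K1) * (1 + Γ) * (Wp (p + 3) v * (1 - q)) := by
        positivity
      linarith
    have h10 := mul_le_mul_of_nonneg_left h9 hM
    calc δ * (F (v + h) - q * F v) ≤ Λ * Wp p z * (F (v + h) + F v) := h6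
      _ = Λ * (Wp p z * F (v + h)) + Λ * Wp p z * F v := by ring
      _ ≤ Λ * (Wp p z * F (v + h)) + Λ * Wp p z * ((1 + 4 ^ (p + 3) + 2 * K1) * (1 + Γ) *
        (Wp (p + 3) v * (min 1 (len h) + (1 - q)))) := by linarith
      _ = _ := by ring

open Classical in
theorem ptL (p : ℕ) {a k : ℝ} (ha : 0 < a) (hk : 0 < k) (u₀ : Vec d) : ∃ K : ℝ, 0 ≤ K ∧
    ∀ (Λ : ℝ) (G : Vec d → ℝ), 0 ≤ Λ → (∀ u, 0 ≤ G u) →
      (∀ u, |G u - mx a k u₀ u| ≤ Λ * Wp p u) → ∀ v z h : Vec d, ∀ q : ℝ, 0 ≤ q → q ≤ 1 →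
    (G v - mx a k u₀ v = Λ * Wp p v →
      G z * G (v + h) + q * (mx a k u₀ z * mx a k u₀ v) + G z * (q * (Λ * Wp p v)) ≤
        mx a k u₀ z * mx a k u₀ (v + h) + q * (G z * G v) + G z * (Λ * Wp p (v + h)) +
        (if (z, v + h) ∈ RS v then 0 else Λ * (Wp p z * mx a k u₀ (v + h))) +
        Λ * K * (Wp p z * (Wp (p + 3) v * (min 1 (len h) + (1 - q))))) ∧
    (mx a k u₀ v - G v = Λ * Wp p v →
      mx a k u₀ z * mx a k u₀ (v + h) + q * (G z * G v) + G z * (q * (Λ * Wp p v)) ≤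
        G z * G (v + h) + q * (mx a k u₀ z * mx a k u₀ v) + G z * (Λ * Wp p (v + h)) +
        (if (z, v + h) ∈ RS v then 0 else Λ * (Wp p z * mx a k u₀ (v + h))) +
        Λ * K * (Wp p z * (Wp (p + 3) v * (min 1 (len h) + (1 - q))))) := by
  obtain ⟨Cl, hF⟩ := mx_FB ha hk u₀
  obtain ⟨Γ, hΓ, hol⟩ := mx_lip ha hk u₀ (p + 3)
  refine ⟨(1 + 4 ^ (p + 3) + 2 * (((d : ℝ) + 1) ^ (p + 3) * |Cl (2 * (p + 3))|)) * (1 + Γ),
    by positivity, ?_⟩
  intro Λ G hΛ hG0 hdif v z h q hq0 hq1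
  have hD := hdif z
  have hD' := hdif (v + h)
  have hG := hG0 z
  constructor
  · intro hv
    have hc := ptl_core Cl p hF hΓ hΛ hol v z h hq0 hq1 (δ := G z - mx a k u₀ z) hD
    have h3 : G z * (G (v + h) - mx a k u₀ (v + h)) ≤ G z * (Λ * Wp p (v + h)) :=
      mul_le_mul_of_nonneg_left ((le_abs_self _).trans hD') hG
    have h4 : G z * G (v + h) + q * (mx a k u₀ z * mx a k u₀ v) + G z * (q * (Λ * Wp p v)) =
        mx a k u₀ z * mx a k u₀ (v + h) + q * (G z * G v) +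
          G z * (G (v + h) - mx a k u₀ (v + h)) +
          (G z - mx a k u₀ z) * (mx a k u₀ (v + h) - q * mx a k u₀ v) := by
      rw [← hv]; ring
    rw [h4]
    linarith
  · intro hv
    have hc := ptl_core Cl p hF hΓ hΛ hol v z h hq0 hq1
      (δ := mx a k u₀ z - G z) (by rw [abs_sub_comm]; exact hD)
    have h3 : G z * (mx a k u₀ (v + h) - G (v + h)) ≤ G z * (Λ * Wp p (v + h)) := by
      refine mul_le_mul_of_nonneg_left (le_trans ?_ hD') hG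
      rw [abs_sub_comm]
      exact le_abs_self _
    have h4 : mx a k u₀ z * mx a k u₀ (v + h) + q * (G z * G v) + G z * (q * (Λ * Wp p v)) =
        G z * G (v + h) + q * (mx a k u₀ z * mx a k u₀ v) +
          G z * (mx a k u₀ (v + h) - G (v + h)) +
          (mx a k u₀ z - G z) * (mx a k u₀ (v + h) - q * mx a k u₀ v) := by
      rw [← hv]; ring
    rw [h4]
    linarith

end Pool.Agent.H48.NE
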