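import Pool.Agent.H48.NE.Defs
import Pool.Agent.H48.PS.Stb

/-!
# Module Stb2: stability on finite time intervals, with closeness

As `stb` (PS/Stb.lean): the proof there shows `|f - g| < B₀ e^(K₁ t) W` on `[0,T)` with `W = Wp (d+10)`; take a general `p ≥ d + 10` and `B₀ e^(K₁ T₀) ≤ min Λ₁ η'`. The additional conclusion is `|f t x v - g t x v| ≤ η Wp p v`. (Copy the proof with `p` general; the smallness `ε` is chosen after `B₀`: private lemma `stb_small`.) -/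

set_option autoImplicit false

open MeasureTheory Set Filter Topology Pool.Agent.H25.Kin Pool.Agent.H48.PL Pool.Agent.H48.PD
open Pool.Agent.H82.BK Pool.Agent.H82.CM Pool.Agent.H48.PR Pool.Agent.H48.PS Pool.Agent.H71.PD

namespace Pool.Agent.H48.NE

variable {d : ℕ} {γ s C Ca cb : ℝ} {b : ℝ → ℝ}

/-- pointwise decay from a weighted bound -/
private lemma Stb2_stb_le {q : ℕ} {v : Vec d} {a c : ℝ} (ha : 0 ≤ a) (h : (1 + ‖v‖) ^ (2 * q) * a ≤ c) :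
    a ≤ ((d : ℝ) + 1) ^ q * |c| * Wp q v := by
  have hn := norm_nonneg v
  have h2 : 1 + nsq v ≤ ((d : ℝ) + 1) * (1 + ‖v‖) ^ 2 := by
    have h3 := sq_le v
    have h4 : (0 : ℝ) ≤ d := Nat.cast_nonneg _
    nlinarith [mul_nonneg h4 hn]
  have h5 : (1 + nsq v) ^ q ≤ ((d : ℝ) + 1) ^ q * (1 + ‖v‖) ^ (2 * q) := by
    rw [pow_mul, ← mul_pow]
    exact pow_le_pow_left₀ (by have := sq_nonneg' v; linarith) h2 q
  have h6 : 0 < (1 + nsq v) ^ q := by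
    have := sq_nonneg' v
    positivity
  rw [Wp, ← div_eq_mul_inv, le_div_iff₀ h6]
  calc a * (1 + nsq v) ^ q ≤ a * (((d : ℝ) + 1) ^ q * (1 + ‖v‖) ^ (2 * q)) :=
        mul_le_mul_of_nonneg_left h5 ha
    _ = ((d : ℝ) + 1) ^ q * ((1 + ‖v‖) ^ (2 * q) * a) := by ring
    _ ≤ ((d : ℝ) + 1) ^ q * |c| := by
        gcongr
        exact h.trans (le_abs_self c)

/-- the weights are integrable -/
private lemma Stb2_stb_Wint {q : ℕ} (hq : d + 1 ≤ 2 * q) : Integrable (Wp q : Vec d → ℝ) := by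
  refine Integrable.mono' ((integrable_wt (d := d)).const_mul ((2 : ℝ) ^ q))
    (Wp_cont q).aestronglyMeasurable (Eventually.of_forall fun v => ?_)
  have hn := norm_nonneg v
  have h1 : (1 + ‖v‖) ^ 2 ≤ 2 * (1 + nsq v) := by
    have := norm_sq_le_sq v
    nlinarith [sq_nonneg (1 - ‖v‖)]
  have h2 : (1 + ‖v‖) ^ (d + 1) ≤ 2 ^ q * (1 + nsq v) ^ q := by
    calc (1 + ‖v‖) ^ (d + 1) ≤ (1 + ‖v‖) ^ (2 * q) := pow_le_pow_right₀ (by linarith) hq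
      _ = ((1 + ‖v‖) ^ 2) ^ q := pow_mul _ _ _
      _ ≤ (2 * (1 + nsq v)) ^ q := pow_le_pow_left₀ (by positivity) h1 q
      _ = 2 ^ q * (1 + nsq v) ^ q := mul_pow _ _ _
  have h3 : 0 < (1 + nsq v) ^ q := by
    have := sq_nonneg' v
    positivity
  rw [Real.norm_of_nonneg (Wp_pos q v).le, Wp, wt, ← div_eq_mul_inv, ← one_div,
    div_le_div_iff₀ h3 (by positivity), one_mul]
  exact h2

/-- slices are continuous -/
private lemma Stb2_stb_cont {T : ℝ} {Q f : ℝ → Vec d → Vec d → ℝ} (hf : IsClassicalSol T Q f) {t : ℝ}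
    (ht : t ∈ Ico 0 T) (x : Vec d) : Continuous (f t x) := by
  have h1 : Continuous fun v : Vec d => ((t, x, v) : ℝ × Vec d × Vec d) := by fun_prop
  exact hf.isCont.comp_continuous h1 fun v => ⟨ht, mem_univ _⟩

/-- slices are integrable -/
private lemma Stb2_stb_int {T : ℝ} {Q f : ℝ → Vec d → Vec d → ℝ} (hf : IsClassicalSol T Q f) {t : ℝ}
    (ht : t ∈ Ico 0 T) (x : Vec d) : Integrable (f t x) := by
  obtain ⟨C, hC⟩ := hf.decay t ht.2 (2 * (d + 1))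
  refine Integrable.mono' ((Stb2_stb_Wint (d := d) (q := d + 1) (by omega)).const_mul
    (((d : ℝ) + 1) ^ (d + 1) * |C|)) (Stb2_stb_cont hf ht x).aestronglyMeasurable
    (Eventually.of_forall fun v => ?_)
  have h0 := hf.nonneg t ht x v
  rw [Real.norm_of_nonneg h0]
  exact Stb2_stb_le h0 (hC t ⟨ht.1, le_rfl⟩ x v)

/-- extension of bounds by continuity in time -/
private lemma Stb2_stb_ext {T : ℝ} {Q f : ℝ → Vec d → Vec d → ℝ} (hf : IsClassicalSol T Q f) {t₀ : ℝ}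
    (ht : t₀ ∈ Ioo 0 T) {A c : ℝ} {x v : Vec d} (h : ∀ t ∈ Ico 0 t₀, A * f t x v ≤ c) :
    A * f t₀ x v ≤ c := by
  have hc : ContinuousOn (fun t : ℝ => A * f t x v) (Ico 0 T) := by
    have h3 : ContinuousOn (fun t : ℝ => unc f (t, x, v)) (Ico 0 T) :=
      ContinuousOn.comp (show ContinuousOn (unc f) (Ico 0 T ×ˢ univ) from hf.isCont)
        (Continuous.continuousOn (by fun_prop)) fun t ht => ⟨ht, mem_univ _⟩
    exact h3.const_mul A
  have hne : (𝓝[Ico 0 t₀] t₀).NeBot := by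
    rw [← mem_closure_iff_nhdsWithin_neBot, closure_Ico ht.1.ne]
    exact ⟨ht.1.le, le_rfl⟩
  have hs : Ico 0 t₀ ⊆ Ico 0 T := fun t ht' => ⟨ht'.1, ht'.2.trans ht.2⟩
  have l1 : Tendsto (fun t : ℝ => A * f t x v) (𝓝[Ico 0 t₀] t₀) (𝓝 (A * f t₀ x v)) :=
    (hc t₀ ⟨ht.1.le, ht.2⟩).mono hs
  refine le_of_tendsto l1 ?_
  filter_upwards [self_mem_nhdsWithin] with t ht'
  exact h t ht'

/-- the weighted Hoelder bound for all increments -/
private lemma Stb2_stb_hol {α : ℝ} {Cg Cl : ℕ → ℝ} {g : Vec d → ℝ} (h : LBH α 1 Cg g)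
    (h0 : ∀ v, 0 ≤ g v) (hl : ∀ N v, (1 + ‖v‖) ^ N * g v ≤ Cl N) (p : ℕ) (v w : Vec d) :
    |g (v + w) - g v| ≤
      (((d : ℝ) + 1) ^ (p + 2) * (|Cg (2 * (p + 2))| + |Cl (2 * (p + 2))|)) * min 1 (len w) ^ α *
        (Wp (p + 2) v + Wp (p + 2) (v + w)) := by
  have hw0 : 0 ≤ len w := len_nonneg w
  have hW1 := (Wp_pos (p + 2) v).le
  have hW2 := (Wp_pos (p + 2) (v + w)).le
  set D : ℝ := ((d : ℝ) + 1) ^ (p + 2) with hD
  have hD0 : 0 ≤ D := by positivity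
  rcases le_total (len w) 1 with h1 | h1
  · rw [min_eq_right h1]
    have e : v + w - v = w := by abel
    have h2 := h (2 * (p + 2)) (v + w) v (by rw [e]; linarith)
    rw [e, one_mul, abs_sub_comm] at h2
    have hp : 0 ≤ len w ^ α := Real.rpow_nonneg hw0 α
    have h3 := Stb2_stb_le (abs_nonneg _) h2
    rw [abs_mul, abs_of_nonneg hp, ← hD] at h3
    refine h3.trans ?_
    calc D * (|Cg (2 * (p + 2))| * len w ^ α) * Wp (p + 2) v
        ≤ D * (|Cg (2 * (p + 2))| * len w ^ α) * (Wp (p + 2) v + Wp (p + 2) (v + w)) := by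
          gcongr
          linarith
      _ ≤ D * ((|Cg (2 * (p + 2))| + |Cl (2 * (p + 2))|) * len w ^ α) *
            (Wp (p + 2) v + Wp (p + 2) (v + w)) := by
          gcongr
          linarith [abs_nonneg (Cl (2 * (p + 2)))]
      _ = D * (|Cg (2 * (p + 2))| + |Cl (2 * (p + 2))|) * len w ^ α *
            (Wp (p + 2) v + Wp (p + 2) (v + w)) := by ring
  · rw [min_eq_left h1, Real.one_rpow, mul_one]
    have h2 := Stb2_stb_le (h0 v) (hl (2 * (p + 2)) v)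
    have h3 := Stb2_stb_le (h0 (v + w)) (hl (2 * (p + 2)) (v + w))
    rw [← hD] at h2 h3
    have h4 : |g (v + w) - g v| ≤ g (v + w) + g v := by
      rw [abs_le]
      constructor <;> linarith [h0 v, h0 (v + w)]
    have h5 : 0 ≤ D * |Cg (2 * (p + 2))| * (Wp (p + 2) v + Wp (p + 2) (v + w)) := by positivity
    calc |g (v + w) - g v| ≤ g (v + w) + g v := h4
      _ ≤ D * |Cl (2 * (p + 2))| * Wp (p + 2) (v + w) + D * |Cl (2 * (p + 2))| * Wp (p + 2) v :=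
          add_le_add h3 h2
      _ ≤ D * (|Cg (2 * (p + 2))| + |Cl (2 * (p + 2))|) *
            (Wp (p + 2) v + Wp (p + 2) (v + w)) := by linarith

/-- small initial differences -/
private lemma Stb2_stb_small {p : ℕ} {β M : ℝ} (hβ : 0 < β) (hM : 0 ≤ M) :
    ∃ ε > 0, ∀ (v : Vec d) (a : ℝ), |a| ≤ ε → (1 + ‖v‖) ^ (4 * p) * |a| ≤ M →
      |a| < β * Wp p v := by
  have hD : 0 < ((d : ℝ) + 1) ^ p := by positivity
  set c : ℝ := β / (2 * ((d : ℝ) + 1) ^ p) with hc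
  have hc0 : 0 < c := by positivity
  refine ⟨c ^ 2 / (M + 1), by positivity, fun v a h1 h2 => ?_⟩
  have hW := Wp_pos p v
  have h3 : ((1 + ‖v‖) ^ (2 * p) * |a|) ^ 2 ≤ c ^ 2 := by
    calc ((1 + ‖v‖) ^ (2 * p) * |a|) ^ 2 = |a| * ((1 + ‖v‖) ^ (4 * p) * |a|) := by ring
      _ ≤ c ^ 2 / (M + 1) * M := mul_le_mul h1 h2 (by positivity) (by positivity)
      _ ≤ c ^ 2 := by
          rw [div_mul_eq_mul_div, div_le_iff₀ (by positivity)]
          nlinarith [sq_nonneg c]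
  have h4 : (1 + ‖v‖) ^ (2 * p) * |a| ≤ c := (pow_le_pow_iff_left₀ (by positivity) hc0.le two_ne_zero).1 h3
  have h5 := Stb2_stb_le (abs_nonneg a) h4
  rw [abs_of_pos hc0] at h5
  have h6 : ((d : ℝ) + 1) ^ p * c = β / 2 := by
    rw [hc]
    field_simp
  rw [h6] at h5
  nlinarith

/-- the tail -/
private lemma Stb2_stb_tail {p : ℕ} (hp : d + 10 ≤ p) {A η : ℝ} (hA : 0 ≤ A) (hη : 0 < η) :
    ∃ R₁ : ℝ, ∫ z in {z : Vec d | nsq z ≤ R₁ ^ 2}ᶜ, A * Wp p z ≤ η := by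
  obtain ⟨q, rfl⟩ : ∃ q, p = q + 1 := ⟨p - 1, by omega⟩
  have hi : Integrable (Wp q : Vec d → ℝ) := Stb2_stb_Wint (by omega)
  have hi1 : Integrable (Wp (q + 1) : Vec d → ℝ) := Stb2_stb_Wint (by omega)
  set I : ℝ := ∫ z : Vec d, Wp q z with hI
  have hI0 : 0 ≤ I := integral_nonneg fun z => (Wp_pos q z).le
  set R : ℝ := A * I / η + 1 with hR
  have hR0 : 0 ≤ A * I / η := by positivity
  refine ⟨R, ?_⟩
  have hS : MeasurableSet {z : Vec d | nsq z ≤ R ^ 2} :=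
    (isClosed_le continuous_sq continuous_const).measurableSet
  have h1 : ∫ z in {z : Vec d | nsq z ≤ R ^ 2}ᶜ, A * Wp (q + 1) z ≤
      ∫ z in {z : Vec d | nsq z ≤ R ^ 2}ᶜ, A / (1 + R ^ 2) * Wp q z := by
    refine setIntegral_mono_on (hi1.const_mul A).integrableOn
      (hi.const_mul _).integrableOn hS.compl fun z hz => ?_
    have hz' : R ^ 2 < nsq z := not_le.1 hz
    have h2 : Wp (q + 1) z * (1 + nsq z) = Wp q z := by
      have h3 := sq_nonneg' z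
      have h31 : 1 + nsq z ≠ 0 := by positivity
      unfold Wp
      rw [pow_succ, mul_inv, inv_mul_cancel_right₀ h31]
    have h4 := Wp_pos (q + 1) z
    rw [div_mul_eq_mul_div, le_div_iff₀ (by positivity), ← h2, mul_assoc]
    gcongr
  refine h1.trans ?_
  rw [integral_const_mul]
  have h5 : ∫ z in {z : Vec d | nsq z ≤ R ^ 2}ᶜ, Wp q z ≤ I :=
    setIntegral_le_integral hi (Eventually.of_forall fun z => (Wp_pos q z).le)
  calc A / (1 + R ^ 2) * ∫ z in {z : Vec d | nsq z ≤ R ^ 2}ᶜ, Wp q z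
      ≤ A / (1 + R ^ 2) * I := by gcongr
    _ ≤ η := by
        rw [div_mul_eq_mul_div, div_le_iff₀ (by positivity)]
        have h6 : A * I = A * I / η * η := by field_simp
        have h7 : A * I / η ≤ 1 + R ^ 2 := by nlinarith
        calc A * I = A * I / η * η := h6
          _ ≤ (1 + R ^ 2) * η := by gcongr
          _ = η * (1 + R ^ 2) := mul_comm _ _

/-- masses -/
private lemma Stb2_stb_mass {p : ℕ} (hp : d + 10 ≤ p) {A L m R₁ : ℝ} {F G : Vec d → ℝ}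
    (hF : Integrable F) (hG : Integrable G) (hFA : ∀ v, F v ≤ A * Wp p v) (hm0 : 0 ≤ m)
    (hm : m ≤ ∫ v, F v) (hR : ∫ z in {z : Vec d | nsq z ≤ R₁ ^ 2}ᶜ, A * Wp p z ≤ m / 8)
    (hL0 : 0 ≤ L) (hL : L * ∫ v : Vec d, Wp p v ≤ m / 8) (hd : ∀ v, |G v - F v| ≤ L * Wp p v) :
    m / 2 ≤ ∫ z in {z : Vec d | nsq z ≤ R₁ ^ 2}, G z := by
  have hi : Integrable (Wp p : Vec d → ℝ) := Stb2_stb_Wint (by omega)
  have hS : MeasurableSet {z : Vec d | nsq z ≤ R₁ ^ 2} :=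
    (isClosed_le continuous_sq continuous_const).measurableSet
  have h1 := integral_add_compl hS hF
  have h2 : ∫ z in {z : Vec d | nsq z ≤ R₁ ^ 2}ᶜ, F z ≤
      ∫ z in {z : Vec d | nsq z ≤ R₁ ^ 2}ᶜ, A * Wp p z :=
    setIntegral_mono hF.integrableOn (hi.const_mul A).integrableOn hFA
  have h3 : ∫ z in {z : Vec d | nsq z ≤ R₁ ^ 2}, (F z - L * Wp p z) ≤
      ∫ z in {z : Vec d | nsq z ≤ R₁ ^ 2}, G z := by
    refine setIntegral_mono (hF.sub (hi.const_mul L)).integrableOn hG.integrableOn fun v => ?_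
    have := (abs_le.1 (hd v)).1
    show F v - L * Wp p v ≤ G v
    linarith
  rw [integral_sub hF.integrableOn (hi.const_mul L).integrableOn] at h3
  have h4 : ∫ z in {z : Vec d | nsq z ≤ R₁ ^ 2}, L * Wp p z ≤ ∫ z : Vec d, L * Wp p z :=
    setIntegral_le_integral (hi.const_mul L)
      (Eventually.of_forall fun z => mul_nonneg hL0 (Wp_pos p z).le)
  have h5 : ∫ z : Vec d, L * Wp p z = L * ∫ z : Vec d, Wp p z := integral_const_mul _ _
  rw [h5] at h4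
  linarith

/-- the total mass and the distance -/
private lemma Stb2_stb_tot {p : ℕ} (hp : d + 10 ≤ p) {L : ℝ} {F G : Vec d → ℝ}
    (hF : Integrable F) (hG : Integrable G) (hd : ∀ v, |G v - F v| ≤ L * Wp p v) :
    (∫ v, F v) - L * ∫ v : Vec d, Wp p v ≤ ∫ v, G v ∧
      ∫ v, |F v - G v| ≤ L * ∫ v : Vec d, Wp p v := by
  have hi : Integrable (Wp p : Vec d → ℝ) := Stb2_stb_Wint (by omega)
  constructor
  · rw [← integral_const_mul, ← integral_sub hF (hi.const_mul L)]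
    refine integral_mono (hF.sub (hi.const_mul L)) hG fun v => ?_
    have := (abs_le.1 (hd v)).1
    show F v - L * Wp p v ≤ G v
    linarith
  · rw [← integral_const_mul]
    refine integral_mono (hF.sub hG).abs (hi.const_mul L) fun v => ?_
    show |F v - G v| ≤ L * Wp p v
    rw [abs_sub_comm]
    exact hd v

/-- the derivative at a touching point -/
private lemma Stb2_stb_der {g : ℝ → ℝ} {g' : ℝ} (hg : HasDerivAt g g' 0) (h0 : g 0 = 0)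
    (h : ∀ᶠ τ in 𝓝[>] (0 : ℝ), 0 ≤ g (-τ)) : g' ≤ 0 := by
  have h1 : HasDerivAt (fun τ : ℝ => -g (-τ)) g' 0 := by
    have hn : HasDerivAt (fun τ : ℝ => -τ) (-1) 0 := hasDerivAt_neg' (0 : ℝ)
    have hd' : HasDerivAt g g' (-(0 : ℝ)) := by rwa [neg_zero]
    have h3 := (hd'.comp (0 : ℝ) hn).neg
    rw [mul_neg, mul_one, neg_neg] at h3
    exact h3
  have h2 := h1.tendsto_slope_zero_right
  refine le_of_tendsto h2 ?_
  filter_upwards [h, self_mem_nhdsWithin] with τ h3 h4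
  have h4' : 0 < τ := h4
  rw [zero_add, smul_eq_mul, neg_zero, h0, neg_zero, sub_zero]
  exact mul_nonpos_of_nonneg_of_nonpos (inv_nonneg.2 h4'.le) (by linarith)

/-- comparison of derivatives at a touching point -/
private lemma Stb2_stb_cmp {φ E : ℝ → ℝ} {φ' E' : ℝ} (hφ : HasDerivAt φ φ' 0) (hE : HasDerivAt E E' 0)
    (h0 : φ 0 = E 0) (h : ∀ᶠ τ in 𝓝[>] (0 : ℝ), φ (-τ) ≤ E (-τ)) : E' ≤ φ' := by
  have h1 : E' - φ' ≤ 0 := by
    refine Stb2_stb_der (hE.sub hφ) ?_ ?_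
    · show E 0 - φ 0 = 0
      rw [h0, sub_self]
    · filter_upwards [h] with τ hτ
      show 0 ≤ E (-τ) - φ (-τ)
      linarith
  linarith

theorem stb2 (HL : HypL d γ s b C Ca cb) (hb : IsKernel d s b) (h0 : 0 ≤ γ) (hs : 2 * s < 1) {α : ℝ}
    (h1 : 2 * s < α) (h2 : α ≤ 1) {p : ℕ} (hp : d + 10 ≤ p) {T₀ T₁ : ℝ} (hT₁ : T₀ < T₁)
    {g : ℝ → Vec d → Vec d → ℝ} (hg : IsBoltzmannSol γ b T₁ g) {Cg : ℕ → ℝ}
    (hreg : ∀ t ∈ Ioc 0 T₀, ∀ x, LBH α 1 Cg (g t x)) {m : ℝ} (hm : 0 < m)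
    (hmass : ∀ t ∈ Icc 0 T₀, ∀ x, m ≤ ∫ v, g t x v) (B : ℕ → ℝ) {η : ℝ} (hη : 0 < η) :
    ∃ ε > 0, ∃ U : ℕ → ℝ, ∀ T ≤ T₀, ∀ f : ℝ → Vec d → Vec d → ℝ, IsBoltzmannSol γ b T f →
      (∀ N x v, (1 + ‖v‖) ^ N * f 0 x v ≤ B N) → (∀ x v, |f 0 x v - g 0 x v| ≤ ε) →
      ∀ t ∈ Ico 0 T, ∀ x, (∀ N v, (1 + ‖v‖) ^ N * f t x v ≤ U N) ∧ m / 2 ≤ ∫ v, f t x v ∧
        ∀ v, |f t x v - g t x v| ≤ η * Wp p v := by
  have hg' : IsClassicalSol T₁ (fun t x => boltzQ γ b (g t x)) g := hg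
  have hp' : d + 10 ≤ p := hp
  choose Cd hCd using hg'.decay T₀ hT₁
  obtain ⟨A₁, hA₁⟩ : ∃ A₁ : ℝ, A₁ = ((d : ℝ) + 1) ^ p * |Cd (2 * p)| + 1 := ⟨_, rfl⟩
  have hgA : ∀ t ∈ Icc 0 T₀, ∀ x v, g t x v ≤ (A₁ - 1) * Wp p v := by
    intro t ht x v
    rw [hA₁, add_sub_cancel_right]
    exact Stb2_stb_le (hg'.nonneg t ⟨ht.1, ht.2.trans_lt hT₁⟩ x v) (hCd (2 * p) t ht x v)
  have hA₁0 : 0 ≤ A₁ := by rw [hA₁]; positivity
  obtain ⟨U, hU⟩ := prp HL.H.hd ⟨HL.H.hs, HL.H.hs1⟩ h0 HL.H.h2 hb hp' T₀ A₁ B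
  obtain ⟨Cl, hCl⟩ : ∃ Cl : ℕ → ℝ, Cl = fun N => max (U N) (Cd N) := ⟨_, rfl⟩
  have hCl1 : ∀ N, U N ≤ Cl N := fun N => by rw [hCl]; exact le_max_left _ _
  have hCl2 : ∀ N, Cd N ≤ Cl N := fun N => by rw [hCl]; exact le_max_right _ _
  obtain ⟨Γ, hΓ⟩ : ∃ Γ : ℝ, Γ = ((d : ℝ) + 1) ^ (p + 2) *
      (|Cg (2 * (p + 2))| + |Cd (2 * (p + 2))|) := ⟨_, rfl⟩
  have hΓ0 : 0 ≤ Γ := by rw [hΓ]; positivity
  obtain ⟨R₁, hR₁⟩ := Stb2_stb_tail (d := d) hp' hA₁0 (show 0 < m / 8 by positivity)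
  obtain ⟨ε₁, hε₁, K, hK, hop⟩ := opS HL h0 hs h1 h2 hp' Cl R₁ (show 0 < m / 2 by positivity)
  obtain ⟨I, hI⟩ : ∃ I : ℝ, I = ∫ v : Vec d, Wp p v := ⟨_, rfl⟩
  have hI0 : 0 ≤ I := by rw [hI]; exact integral_nonneg fun z => (Wp_pos p z).le
  obtain ⟨L₁, hL0, hL1, hL4, hL2, hL3⟩ : ∃ L₁ : ℝ, 0 < L₁ ∧ L₁ ≤ 1 ∧ L₁ ≤ η ∧ L₁ * I ≤ ε₁ ∧
      L₁ * I ≤ m / 8 := by
    have hx : ∀ y : ℝ, 0 < y → y / (I + 1) * I ≤ y := by
      intro y hy
      rw [div_mul_eq_mul_div, div_le_iff₀ (by positivity)]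
      nlinarith
    refine ⟨min (min 1 η) (min (ε₁ / (I + 1)) (m / 8 / (I + 1))), by positivity,
      (min_le_left _ _).trans (min_le_left _ _), (min_le_left _ _).trans (min_le_right _ _), ?_, ?_⟩
    · exact (mul_le_mul_of_nonneg_right ((min_le_right _ _).trans (min_le_left _ _)) hI0).trans
        (hx _ hε₁)
    · exact (mul_le_mul_of_nonneg_right ((min_le_right _ _).trans (min_le_right _ _)) hI0).trans
        (hx _ (by positivity))
  obtain ⟨K₁, hK₁⟩ : ∃ K₁ : ℝ, K₁ = K * (1 + Γ) + 1 := ⟨_, rfl⟩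
  have hK₁0 : 0 < K₁ := by rw [hK₁]; positivity
  obtain ⟨B₀, hB₀⟩ : ∃ B₀ : ℝ, B₀ = L₁ * Real.exp (-(K₁ * T₀)) := ⟨_, rfl⟩
  have hB₀0 : 0 < B₀ := by rw [hB₀]; positivity
  have hBle : ∀ t ≤ T₀, B₀ * Real.exp (K₁ * t) ≤ L₁ := by
    intro t ht
    rw [hB₀, mul_assoc, ← Real.exp_add]
    have h3 : Real.exp (-(K₁ * T₀) + K₁ * t) ≤ 1 := by
      rw [Real.exp_le_one_iff]
      nlinarith
    nlinarith
  obtain ⟨ε, hε, hsm⟩ := Stb2_stb_small (d := d) (p := p) hB₀0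
    (show 0 ≤ |B (4 * p)| + |Cd (4 * p)| by positivity)
  refine ⟨ε, hε, U, fun T hT f hf hf0 hd0 => ?_⟩
  have hf' : IsClassicalSol T (fun t x => boltzQ γ b (f t x)) f := hf
  have hgT : IsClassicalSol T (fun t x => boltzQ γ b (g t x)) g :=
    Pool.Agent.H48.PI.sol_restrict hg' (hT.trans hT₁.le)
  have hfA : ∀ τ ∈ Icc 0 T₀, ∀ y w, |f τ y w - g τ y w| ≤ B₀ * Real.exp (K₁ * τ) * Wp p w →
      f τ y w ≤ A₁ * Wp p w := by
    intro τ hτ y w h3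
    have h4 := (abs_le.1 h3).2
    have h5 := hgA τ hτ y w
    have h6 := Wp_pos p w
    have h7 : B₀ * Real.exp (K₁ * τ) * Wp p w ≤ 1 * Wp p w :=
      mul_le_mul_of_nonneg_right ((hBle τ hτ.2).trans hL1) h6.le
    linarith
  have key : ∀ t ∈ Ico 0 T, ∀ x v,
      |f t x v - g t x v| < B₀ * Real.exp (K₁ * t) * Wp p v := by
    intro t ht x v
    by_contra hcon
    push Not at hcon
    have hT0 : (0 : ℝ) ∈ Ico 0 T := ⟨le_rfl, ht.1.trans_lt ht.2⟩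
    obtain ⟨t₀, ht₀, x₀, v₀, heq, hlt, hle⟩ := tch2 hf' hgT p ht.1 ht.2
      (B := fun τ => B₀ * Real.exp (K₁ * τ)) (by fun_prop) (fun τ _ => by positivity)
      (fun y w => by
        show |f 0 y w - g 0 y w| < B₀ * Real.exp (K₁ * 0) * Wp p w
        rw [mul_zero, Real.exp_zero, mul_one]
        refine hsm w _ (hd0 y w) ?_
        have e1 := hf'.nonneg 0 hT0 y w
        have e2 := hgT.nonneg 0 hT0 y w
        have e3 := (hf0 (4 * p) y w).trans (le_abs_self _)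
        have e4 := (hCd (4 * p) 0 ⟨le_rfl, (ht.1.trans ht.2.le).trans hT⟩ y w).trans
          (le_abs_self _)
        have e5 : |f 0 y w - g 0 y w| ≤ f 0 y w + g 0 y w := by
          rw [abs_le]
          constructor <;> linarith
        calc (1 + ‖w‖) ^ (4 * p) * |f 0 y w - g 0 y w|
            ≤ (1 + ‖w‖) ^ (4 * p) * (f 0 y w + g 0 y w) :=
              mul_le_mul_of_nonneg_left e5 (by positivity)
          _ ≤ |B (4 * p)| + |Cd (4 * p)| := by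
              rw [mul_add]
              exact add_le_add e3 e4)
      ⟨t, ⟨ht.1, le_rfl⟩, x, v, hcon⟩
    have ht₀T : t₀ ∈ Ioo 0 T := ⟨ht₀.1, ht₀.2.trans_lt ht.2⟩
    have ht₀C : t₀ ∈ Ico 0 T := ⟨ht₀.1.le, ht₀T.2⟩
    have ht₀I : t₀ ∈ Ioc 0 T₀ := ⟨ht₀.1, ht₀T.2.le.trans hT⟩
    have ht₀J : t₀ ∈ Icc 0 T₀ := ⟨ht₀.1.le, ht₀I.2⟩
    obtain ⟨L, hL⟩ : ∃ L : ℝ, L = B₀ * Real.exp (K₁ * t₀) := ⟨_, rfl⟩
    have hLpos : 0 < L := by rw [hL]; positivity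
    have hLle : L ≤ L₁ := by rw [hL]; exact hBle t₀ ht₀I.2
    have hLI : L * I ≤ L₁ * I := mul_le_mul_of_nonneg_right hLle hI0
    have hdif : ∀ u, |f t₀ x₀ u - g t₀ x₀ u| ≤ L * Wp p u := fun u => by
      rw [hL]; exact hle x₀ u
    have hUt := hU t₀ ht₀I.2 f (Pool.Agent.H48.PI.sol_restrict hf' ht₀T.2.le) hf0
      (fun τ hτ y w => hfA τ ⟨hτ.1, hτ.2.le.trans ht₀I.2⟩ y w (hlt τ hτ y w).le)
    have hU0 : ∀ N w, (1 + ‖w‖) ^ N * f t₀ x₀ w ≤ U N := fun N w =>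
      Stb2_stb_ext hf' ht₀T fun τ hτ => hUt τ hτ N x₀ w
    have hFB : FB Cl (f t₀ x₀) := ⟨IsClassicalSol.nice hf' ht₀T x₀,
      fun w => hf'.nonneg t₀ ht₀C x₀ w, fun N w => (hU0 N w).trans (hCl1 N)⟩
    have hGB : FB Cl (g t₀ x₀) := ⟨IsClassicalSol.nice hgT ht₀T x₀,
      fun w => hgT.nonneg t₀ ht₀C x₀ w,
      fun N w => (hCd N t₀ ht₀J x₀ w).trans (hCl2 N)⟩
    have hTS : TS Cl p α Γ L (g t₀ x₀) (f t₀ x₀) :=
      ⟨hGB, hFB, hΓ0, hLpos.le, hdif, fun v h => by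
        rw [hΓ]
        exact Stb2_stb_hol (hreg t₀ ht₀I x₀) hGB.nonneg (fun N v => hCd N t₀ ht₀J x₀ v) p v h⟩
    have hfi := Stb2_stb_int hf' ht₀C x₀
    have hgi := Stb2_stb_int hgT ht₀C x₀
    have hgA' : ∀ v, g t₀ x₀ v ≤ A₁ * Wp p v := fun v => by
      have h3 := hgA t₀ ht₀J x₀ v
      have h4 := Wp_pos p v
      linarith
    have hms := Stb2_stb_mass hp' hgi hfi hgA' hm.le (hmass t₀ ht₀J x₀) hR₁ hLpos.le
      (by rw [← hI]; exact hLI.trans hL3) hdif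
    have htot := Stb2_stb_tot hp' hgi hfi hdif
    rw [← hI] at htot
    have hopv := hop Γ L (g t₀ x₀) (f t₀ x₀) hTS hms (htot.2.trans (hLI.trans hL2)) v₀
    have hdf := char_deriv hf' ht₀T x₀ v₀
    have hdg := char_deriv hgT ht₀T x₀ v₀
    have hW := Wp_pos p v₀
    have hE : HasDerivAt (fun τ : ℝ => B₀ * Real.exp (K₁ * (t₀ + τ)) * Wp p v₀)
        (K₁ * L * Wp p v₀) 0 := by
      have e1 : HasDerivAt (fun τ : ℝ => K₁ * (t₀ + τ)) K₁ 0 := by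
        simpa using ((hasDerivAt_id (0 : ℝ)).const_add t₀).const_mul K₁
      have e2 := ((e1.exp).const_mul B₀).mul_const (Wp p v₀)
      refine e2.congr_deriv ?_
      rw [hL, add_zero]
      ring
    have hcon2 : K₁ * L * Wp p v₀ ≤ K * (1 + Γ) * (L * Wp p v₀) → False := by
      intro h3
      have h4 : 0 < L * Wp p v₀ := mul_pos hLpos hW
      rw [hK₁] at h3
      nlinarith
    have heq' : |f t₀ x₀ v₀ - g t₀ x₀ v₀| = L * Wp p v₀ := by rw [hL]; exact heq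
    have hnear : ∀ᶠ τ in 𝓝[>] (0 : ℝ), |f (t₀ + -τ) (x₀ + (-τ) • v₀) v₀ -
        g (t₀ + -τ) (x₀ + (-τ) • v₀) v₀| ≤ B₀ * Real.exp (K₁ * (t₀ + -τ)) * Wp p v₀ := by
      filter_upwards [Ioo_mem_nhdsGT ht₀.1] with τ hτ
      exact (hlt (t₀ + -τ) ⟨by linarith [hτ.2], by linarith [hτ.1]⟩ _ v₀).le
    rcases abs_cases (f t₀ x₀ v₀ - g t₀ x₀ v₀) with ⟨h3, -⟩ | ⟨h3, -⟩
    · rw [h3] at heq'
      have h4 := Stb2_stb_cmp (hdf.sub hdg) hE (by
        show f (t₀ + 0) (x₀ + (0 : ℝ) • v₀) v₀ - g (t₀ + 0) (x₀ + (0 : ℝ) • v₀) v₀ =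
          B₀ * Real.exp (K₁ * (t₀ + 0)) * Wp p v₀
        rw [add_zero, zero_smul, add_zero, heq', hL]) (by
        filter_upwards [hnear] with τ hτ
        exact (le_abs_self _).trans hτ)
      exact hcon2 (h4.trans (hopv.1 heq'))
    · rw [h3, neg_sub] at heq'
      have h4 := Stb2_stb_cmp (hdg.sub hdf) hE (by
        show g (t₀ + 0) (x₀ + (0 : ℝ) • v₀) v₀ - f (t₀ + 0) (x₀ + (0 : ℝ) • v₀) v₀ =
          B₀ * Real.exp (K₁ * (t₀ + 0)) * Wp p v₀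
        rw [add_zero, zero_smul, add_zero, heq', hL]) (by
        filter_upwards [hnear] with τ hτ
        rw [abs_sub_comm] at hτ
        exact (le_abs_self _).trans hτ)
      exact hcon2 (h4.trans (hopv.2 heq'))
  intro t ht x
  have htJ : ∀ τ ∈ Ico 0 T, τ ∈ Icc 0 T₀ := fun τ hτ => ⟨hτ.1, hτ.2.le.trans hT⟩
  refine ⟨fun N v => hU T hT f hf hf0
    (fun τ hτ y w => hfA τ (htJ τ hτ) y w (key τ hτ y w).le) t ht N x v, ?_, fun v =>
    (key t ht x v).le.trans (mul_le_mul_of_nonneg_right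
      ((hBle t (htJ t ht).2).trans hL4) (Wp_pos p v).le)⟩
  have h3 := (Stb2_stb_tot hp' (Stb2_stb_int hgT ht x) (Stb2_stb_int hf' ht x) (fun v => (key t ht x v).le)).1
  rw [← hI] at h3
  have h4 : B₀ * Real.exp (K₁ * t) * I ≤ L₁ * I :=
    mul_le_mul_of_nonneg_right (hBle t (htJ t ht).2) hI0
  have h5 := hmass t (htJ t ht) x
  linarith

end Pool.Agent.H48.NE
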