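import Pool.Agent.H48.NE.BootC
import Pool.Agent.H48.NE.DecN
import Pool.Agent.H48.NE.OpL
import Pool.Agent.H48.NE.Stb2
import Pool.Agent.H48.PS.Tch2

/-!
# Module Boot: THEOREM N, uniform bounds near a Maxwellian without symmetry

`μ = mx a k u₀`. CONSTANTS: `Λ₀, Cl` of `decN`; `opL` with the exponent `d+11`: `Λ₂, R₂`; `Λ₁` of `bootC` with `R₂`; `Λ = min` of the three (and `Λ ∫ Wp (d+11) ≤ (1/2) ∫ μ`); `ε₁` of `bootC`; `ε₁'` of `l1_small` (decay `B`, `η = ε₁`); `stb2` around `g = μ` (`mx_sol` with `T₁ = 3`, `T₀ = 2`, `mx_LBH` with `α = 1`, exponent `p = d + 11`, `m = ∫ μ`, `η = Λ/2`): `ε₂`.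
`ε = min ε₁' ε₂`. CLAIM `|f t x v - μ v| < Λ Wp (d+11) v` on `[0,T)`. At `t = 0`: `stb2` at `t = 0` (restriction of `f` to `[0, min T 2)`). If it fails: first touching (`tch2` of PS/Tch2 with the solution `g = μ` on `[0,T+1)`, `B(t) = Λ`, on `[0,T₁']`, `T₁' < T`): `t₀ > 0`, `|f t₀ x v - μ v| = Λ Wp v`, `<` before, `≤` at `t₀`. Restrict `f` to `[0,t₀)`:
`decN` gives `FB Cl` there; at `t₀`: `FB Cl (f t₀ x)` by continuity in `t` (`ge_of_tendsto`; `stb_ext` of PS/Stb) and `Nice`.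
(a) `t₀ < 2`: `stb2` applied to `f` restricted to `[0, min T 2)` gives `|f t₀ - μ| ≤ (Λ/2) Wp`, contradiction. (b) `t₀ ≥ 2`, `len v ≥ R₂`: `opL` with `G = f t₀ x`; the derivative of `τ ↦ f (t₀+τ) (x+τv) v` at `0` is `boltzQ (f t₀ x) v` (`char_deriv`, H82/BK/Touch) and `±(f (t₀+τ) (x+τv) v - μ v) ≤ Λ Wp v` for `τ < 0`, `=` at `0`: so `± boltzQ ≥ 0`, contradiction.
(c) `t₀ ≥ 2`, `len v ≤ R₂`: `bootC` on `[0,t₀)` and continuity in `t` at `t₀`: `|f t₀ x v - μ v| ≤ (Λ/2) Wp`. Contradiction. CONCLUSION: `decN` on `[0,T)`: `U = Cl`; `∫ f ≥ ∫ μ - Λ ∫ Wp ≥ (1/2) ∫ μ = m₀`. -/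

set_option autoImplicit false

open MeasureTheory Set Filter Topology Pool.Agent.H25.Kin Pool.Agent.H48.PL Pool.Agent.H48.PD
open Pool.Agent.H82.BK Pool.Agent.H82.CM Pool.Agent.H48.PR
open Pool.Agent.H15.AV (Slice sol_slice)

namespace Pool.Agent.H48.NE

variable {d : ℕ} {γ s : ℝ} {b : ℝ → ℝ}

/-- pointwise decay from a weighted bound -/
private lemma Boot_le {q : ℕ} {v : Vec d} {a c : ℝ} (ha : 0 ≤ a)
    (h : (1 + ‖v‖) ^ (2 * q) * a ≤ c) : a ≤ ((d : ℝ) + 1) ^ q * |c| * Wp q v := by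
  have hn := norm_nonneg v
  have h2 : 1 + nsq v ≤ ((d : ℝ) + 1) * (1 + ‖v‖) ^ 2 := by
    have h3 := sq_le v
    have h4 : (0 : ℝ) ≤ d := Nat.cast_nonneg _
    nlinarith [mul_nonneg h4 hn]
  have h5 : (1 + nsq v) ^ q ≤ ((d : ℝ) + 1) ^ q * (1 + ‖v‖) ^ (2 * q) := by
    rw [pow_mul, ← mul_pow]
    exact pow_le_pow_left₀ (by have := sq_nonneg' v; linarith) h2 q
  have h6 : 0 < (1 + nsq v) ^ q := by
    have := sq_nonneg' v
    positivity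
  rw [Wp, ← div_eq_mul_inv, le_div_iff₀ h6]
  calc a * (1 + nsq v) ^ q ≤ a * (((d : ℝ) + 1) ^ q * (1 + ‖v‖) ^ (2 * q)) :=
        mul_le_mul_of_nonneg_left h5 ha
    _ = ((d : ℝ) + 1) ^ q * ((1 + ‖v‖) ^ (2 * q) * a) := by ring
    _ ≤ ((d : ℝ) + 1) ^ q * |c| := by
        gcongr
        exact h.trans (le_abs_self c)

/-- the weights are integrable -/
private lemma Boot_Wint {q : ℕ} (hq : d + 1 ≤ 2 * q) : Integrable (Wp q : Vec d → ℝ) := by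
  refine Integrable.mono' ((integrable_wt (d := d)).const_mul ((2 : ℝ) ^ q))
    (Wp_cont q).aestronglyMeasurable (Eventually.of_forall fun v => ?_)
  have hn := norm_nonneg v
  have h1 : (1 + ‖v‖) ^ 2 ≤ 2 * (1 + nsq v) := by
    have := norm_sq_le_sq v
    nlinarith [sq_nonneg (1 - ‖v‖)]
  have h2 : (1 + ‖v‖) ^ (d + 1) ≤ 2 ^ q * (1 + nsq v) ^ q := by
    calc (1 + ‖v‖) ^ (d + 1) ≤ (1 + ‖v‖) ^ (2 * q) := pow_le_pow_right₀ (by linarith) hq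
      _ = ((1 + ‖v‖) ^ 2) ^ q := pow_mul _ _ _
      _ ≤ (2 * (1 + nsq v)) ^ q := pow_le_pow_left₀ (by positivity) h1 q
      _ = 2 ^ q * (1 + nsq v) ^ q := mul_pow _ _ _
  have h3 : 0 < (1 + nsq v) ^ q := by
    have := sq_nonneg' v
    positivity
  rw [Real.norm_of_nonneg (Wp_pos q v).le, Wp, wt, ← div_eq_mul_inv, ← one_div,
    div_le_div_iff₀ h3 (by positivity), one_mul]
  exact h2

/-- slices are integrable -/
private lemma Boot_int {T : ℝ} {Q f : ℝ → Vec d → Vec d → ℝ} (hf : IsClassicalSol T Q f) {t : ℝ}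
    (ht : t ∈ Ico 0 T) (x : Vec d) : Integrable (f t x) := by
  obtain ⟨C, hC⟩ := hf.decay t ht.2 (2 * (d + 1))
  have hc : Continuous (f t x) := by
    have h1 : Continuous fun v : Vec d => ((t, x, v) : ℝ × Vec d × Vec d) := by fun_prop
    exact hf.isCont.comp_continuous h1 fun v => ⟨ht, mem_univ _⟩
  refine Integrable.mono' ((Boot_Wint (d := d) (q := d + 1) (by omega)).const_mul
    (((d : ℝ) + 1) ^ (d + 1) * |C|)) hc.aestronglyMeasurable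
    (Eventually.of_forall fun v => ?_)
  have h0 := hf.nonneg t ht x v
  rw [Real.norm_of_nonneg h0]
  exact Boot_le h0 (hC t ⟨ht.1, le_rfl⟩ x v)

/-- continuity in time -/
private lemma Boot_tc {T : ℝ} {Q f : ℝ → Vec d → Vec d → ℝ} (hf : IsClassicalSol T Q f)
    (x v : Vec d) : ContinuousOn (fun t : ℝ => f t x v) (Ico 0 T) := by
  have h3 : ContinuousOn (fun t : ℝ => unc f (t, x, v)) (Ico 0 T) :=
    ContinuousOn.comp (show ContinuousOn (unc f) (Ico 0 T ×ˢ univ) from hf.isCont)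
      (Continuous.continuousOn (by fun_prop)) fun t ht => ⟨ht, mem_univ _⟩
  exact h3

/-- extension of bounds by continuity in time -/
private lemma Boot_ext {T : ℝ} {g : ℝ → ℝ} (hc : ContinuousOn g (Ico 0 T)) {t₁ t₀ : ℝ}
    (h0 : 0 ≤ t₁) (h1 : t₁ < t₀) (h2 : t₀ < T) {c : ℝ} (h : ∀ t ∈ Ico t₁ t₀, g t ≤ c) :
    g t₀ ≤ c := by
  have hne : (𝓝[Ico t₁ t₀] t₀).NeBot := by
    rw [← mem_closure_iff_nhdsWithin_neBot, closure_Ico h1.ne]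
    exact ⟨h1.le, le_rfl⟩
  have hs : Ico t₁ t₀ ⊆ Ico 0 T := fun t ht' => ⟨h0.trans ht'.1, ht'.2.trans h2⟩
  have l1 : Tendsto g (𝓝[Ico t₁ t₀] t₀) (𝓝 (g t₀)) :=
    (hc t₀ ⟨h0.trans h1.le, h2⟩).mono hs
  refine le_of_tendsto l1 ?_
  filter_upwards [self_mem_nhdsWithin] with t ht'
  exact h t ht'

/-- the derivative at a touching point -/
private lemma Boot_der {g : ℝ → ℝ} {g' : ℝ} (hg : HasDerivAt g g' 0) (h0 : g 0 = 0)
    (h : ∀ᶠ τ in 𝓝[>] (0 : ℝ), 0 ≤ g (-τ)) : g' ≤ 0 := by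
  have h1 : HasDerivAt (fun τ : ℝ => -g (-τ)) g' 0 := by
    have hn : HasDerivAt (fun τ : ℝ => -τ) (-1) 0 := hasDerivAt_neg' (0 : ℝ)
    have hd' : HasDerivAt g g' (-(0 : ℝ)) := by rwa [neg_zero]
    have h3 := (hd'.comp (0 : ℝ) hn).neg
    rw [mul_neg, mul_one, neg_neg] at h3
    exact h3
  have h2 := h1.tendsto_slope_zero_right
  refine le_of_tendsto h2 ?_
  filter_upwards [h, self_mem_nhdsWithin] with τ h3 h4
  have h4' : 0 < τ := h4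
  rw [zero_add, smul_eq_mul, neg_zero, h0, neg_zero, sub_zero]
  exact mul_nonpos_of_nonneg_of_nonpos (inv_nonneg.2 h4'.le) (by linarith)

/-- comparison with a constant at a touching point -/
private lemma Boot_cmp {φ : ℝ → ℝ} {φ' c : ℝ} (hφ : HasDerivAt φ φ' 0)
    (h0 : φ 0 = c) (h : ∀ᶠ τ in 𝓝[>] (0 : ℝ), φ (-τ) ≤ c) : 0 ≤ φ' := by
  have h1 : -φ' ≤ 0 := by
    refine Boot_der (g := fun τ => c - φ τ) (hφ.const_sub c) ?_ ?_
    · show c - φ 0 = 0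
      rw [h0, sub_self]
    · filter_upwards [h] with τ hτ
      show 0 ≤ c - φ (-τ)
      linarith
  linarith

/-- the total mass -/
private lemma Boot_tot {p : ℕ} (hp : d + 10 ≤ p) {L : ℝ} {F G : Vec d → ℝ}
    (hF : Integrable F) (hG : Integrable G) (hd : ∀ v, |G v - F v| ≤ L * Wp p v) :
    (∫ v, F v) - L * ∫ v : Vec d, Wp p v ≤ ∫ v, G v := by
  have hi : Integrable (Wp p : Vec d → ℝ) := Boot_Wint (by omega)
  rw [← integral_const_mul, ← integral_sub hF (hi.const_mul L)]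
  refine integral_mono (hF.sub (hi.const_mul L)) hG fun v => ?_
  have := (abs_le.1 (hd v)).1
  show F v - L * Wp p v ≤ G v
  linarith

theorem near_eq2 (hd : 2 ≤ d) (hs0 : 0 < s) (h0 : 0 < γ) (hs : 2 * s < 1) (h2 : γ + 2 * s ≤ 2)
    (hb : IsKernel d s b) {a k : ℝ} (ha : 0 < a) (hk : 0 < k) (u₀ : Vec d) (B : ℕ → ℝ) {η : ℝ}
    (hη : 0 < η) :
    ∃ ε > 0, ∃ U : ℕ → ℝ, ∃ m₀ > 0, ∀ (T : ℝ) (f : ℝ → Vec d → Vec d → ℝ), IsBoltzmannSol γ b T f →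
      (∀ (N : ℕ) (x v : Vec d), (1 + ‖v‖) ^ N * f 0 x v ≤ B N) →
      (∀ x v, |f 0 x v - mx a k u₀ v| ≤ ε) →
      ∀ t ∈ Ico 0 T, ∀ x, (∀ (N : ℕ) (v : Vec d), (1 + ‖v‖) ^ N * f t x v ≤ U N) ∧
        m₀ ≤ ∫ v, f t x v ∧ ∀ v, |f t x v - mx a k u₀ v| ≤ η * Wp (d + 11) v := by
  have hs1 : s < 1 := by linarith
  obtain ⟨C, Ca, cb, HL⟩ := exists_hypL hd hs0 hs1 (by linarith) h2 hb
  obtain ⟨Λ₀, hΛ₀, Cl, hdec⟩ := decN hd ⟨hs0, hs1⟩ h0 h2 hb ha hk u₀ B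
  obtain ⟨Λ₂, hΛ₂, R₂, hop⟩ := opL HL h0.le hs (p := d + 11) (by omega) Cl ha hk u₀
  obtain ⟨Λ₁, hΛ₁, hbc'⟩ := bootC HL h0.le hs0 hs Cl ha hk u₀ R₂
  obtain ⟨m, hmdef⟩ : ∃ m : ℝ, m = ∫ v, mx a k u₀ v := ⟨_, rfl⟩
  have hm : 0 < m := by rw [hmdef]; exact mx_mass ha hk u₀
  obtain ⟨I, hI⟩ : ∃ I : ℝ, I = ∫ v : Vec d, Wp (d + 11) v := ⟨_, rfl⟩
  have hI0 : 0 ≤ I := by rw [hI]; exact integral_nonneg fun z => (Wp_pos (d + 11) z).le
  obtain ⟨Λ, hΛ, hL0, hL1, hL2, hL3, hL4⟩ : ∃ Λ : ℝ, 0 < Λ ∧ Λ ≤ Λ₀ ∧ Λ ≤ Λ₁ ∧ Λ ≤ Λ₂ ∧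
      Λ * I ≤ m / 2 ∧ Λ ≤ η := by
    have hx : ∀ y : ℝ, 0 < y → y / (I + 1) * I ≤ y := by
      intro y hy
      rw [div_mul_eq_mul_div, div_le_iff₀ (by positivity)]
      nlinarith
    refine ⟨min (min (min Λ₀ Λ₁) (min Λ₂ (m / 2 / (I + 1)))) η, by positivity,
      (min_le_left _ _).trans ((min_le_left _ _).trans (min_le_left _ _)),
      (min_le_left _ _).trans ((min_le_left _ _).trans (min_le_right _ _)),
      (min_le_left _ _).trans ((min_le_right _ _).trans (min_le_left _ _)), ?_, min_le_right _ _⟩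
    exact (mul_le_mul_of_nonneg_right ((min_le_left _ _).trans ((min_le_right _ _).trans
      (min_le_right _ _))) hI0).trans (hx _ (by positivity))
  obtain ⟨ε₁, hε₁, hbc⟩ := hbc' Λ hΛ hL1
  obtain ⟨ε₁', hε₁', hl1⟩ := l1_small ha hk u₀ B hε₁
  obtain ⟨Cg, hCg⟩ := mx_LBH ha hk u₀ (α := 1) one_pos le_rfl
  obtain ⟨ε₂, hε₂, U₂, hst⟩ := stb2 HL hb h0.le hs (α := 1) hs le_rfl (p := d + 11) (by omega)
    (T₀ := 2) (T₁ := 3) (by norm_num) (mx_sol ha hk γ b u₀ 3) (Cg := Cg) (fun t _ x => hCg)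
    (m := m) hm (fun t _ x => hmdef.le) B (η := Λ / 2) (half_pos hΛ)
  refine ⟨min ε₁' ε₂, lt_min hε₁' hε₂, Cl, m / 2, half_pos hm, fun T f hf hf0 hd0 => ?_⟩
  have hf' : IsClassicalSol T (fun t x => boltzQ γ b (f t x)) f := hf
  have hg : IsClassicalSol T (fun _ _ => boltzQ γ b (mx a k u₀)) (fun _ _ => mx a k u₀) :=
    mx_sol ha hk γ b u₀ T
  have hshort := hst (min T 2) (min_le_right _ _) f
    (Pool.Agent.H48.PI.sol_restrict hf' (min_le_left _ _)) hf0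
    (fun x v => (hd0 x v).trans (min_le_right _ _))
  have key : ∀ t ∈ Ico 0 T, ∀ x v, |f t x v - mx a k u₀ v| < Λ * Wp (d + 11) v := by
    intro t ht x v
    by_contra hcon
    push Not at hcon
    have hT0 : (0 : ℝ) ∈ Ico 0 T := ⟨le_rfl, ht.1.trans_lt ht.2⟩
    have hhalf : ∀ w : Vec d, Λ / 2 * Wp (d + 11) w < Λ * Wp (d + 11) w := fun w => by
      have := Wp_pos (d + 11) w
      nlinarith
    obtain ⟨t₀, ht₀, x₀, v₀, heq, hlt, hle⟩ := Pool.Agent.H48.PS.tch2 hf' hg (d + 11) ht.1 ht.2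
      (B := fun _ => Λ) continuousOn_const (fun τ _ => hΛ)
      (fun y w => ((hshort 0 ⟨le_rfl, lt_min hT0.2 (by norm_num)⟩ y).2.2 w).trans_lt (hhalf w))
      ⟨t, ⟨ht.1, le_rfl⟩, x, v, hcon⟩
    have ht₀T : t₀ ∈ Ioo 0 T := ⟨ht₀.1, ht₀.2.trans_lt ht.2⟩
    have ht₀C : t₀ ∈ Ico 0 T := ⟨ht₀.1.le, ht₀T.2⟩
    have hfr : IsClassicalSol t₀ (fun t x => boltzQ γ b (f t x)) f :=
      Pool.Agent.H48.PI.sol_restrict hf' ht₀T.2.le
    have hbelow : ∀ τ ∈ Ico 0 t₀, ∀ y w, |f τ y w - mx a k u₀ w| ≤ Λ * Wp (d + 11) w :=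
      fun τ hτ y w => (hlt τ hτ y w).le
    obtain ⟨hdL, hdF⟩ := hdec t₀ f hfr hf0 (fun τ hτ y w => (hbelow τ hτ y w).trans
      (mul_le_mul_of_nonneg_right hL0 (Wp_pos (d + 11) w).le))
    have hU0 : ∀ (N : ℕ) (w : Vec d), (1 + ‖w‖) ^ N * f t₀ x₀ w ≤ Cl N := fun N w =>
      Boot_ext (g := fun τ => (1 + ‖w‖) ^ N * f τ x₀ w) ((Boot_tc hf' x₀ w).const_mul _)
        le_rfl ht₀.1 ht₀T.2 fun τ hτ => hdL τ hτ N x₀ w
    have hFB : FB Cl (f t₀ x₀) := ⟨IsClassicalSol.nice hf' ht₀T x₀,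
      fun w => hf'.nonneg t₀ ht₀C x₀ w, hU0⟩
    have hW := Wp_pos (d + 11) v₀
    have hnot : ¬ |f t₀ x₀ v₀ - mx a k u₀ v₀| ≤ Λ / 2 * Wp (d + 11) v₀ := fun h3 => by
      have h4 := hhalf v₀
      linarith [heq]
    rcases lt_or_ge t₀ 2 with h2t | h2t
    · exact hnot ((hshort t₀ ⟨ht₀.1.le, lt_min ht₀T.2 h2t⟩ x₀).2.2 v₀)
    rcases le_total (len v₀) R₂ with hv | hv
    · apply hnot
      have hb1 := hbc t₀ f hfr hdF (fun N y w => hdL 0 ⟨le_rfl, ht₀.1⟩ N y w) hbelow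
        (hl1 (f 0) (sol_slice hf' hT0) hf0 fun y w => (hd0 y w).trans (min_le_left _ _))
      have hc1 : ContinuousOn (fun τ => |f τ x₀ v₀ - mx a k u₀ v₀|) (Ico 0 T) :=
        ((Boot_tc hf' x₀ v₀).sub continuousOn_const).abs
      exact Boot_ext (t₁ := 1) (g := fun τ => |f τ x₀ v₀ - mx a k u₀ v₀|) hc1 zero_le_one
        (by linarith) ht₀T.2 fun τ hτ => hb1 τ hτ x₀ v₀ hv
    · have hopv := hop Λ (f t₀ x₀) hFB hΛ hL2 (fun u => hle x₀ u) v₀ hv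
      have hdf := char_deriv hf' ht₀T x₀ v₀
      have hnear : ∀ᶠ τ in 𝓝[>] (0 : ℝ), |f (t₀ + -τ) (x₀ + (-τ) • v₀) v₀ -
          mx a k u₀ v₀| ≤ Λ * Wp (d + 11) v₀ := by
        filter_upwards [Ioo_mem_nhdsGT ht₀.1] with τ hτ
        exact hbelow (t₀ + -τ) ⟨by linarith [hτ.2], by linarith [hτ.1]⟩ _ v₀
      rcases abs_cases (f t₀ x₀ v₀ - mx a k u₀ v₀) with ⟨h3, -⟩ | ⟨h3, -⟩
      · rw [h3] at heq
        have h4 := Boot_cmp (c := Λ * Wp (d + 11) v₀) (hdf.sub_const (mx a k u₀ v₀)) (by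
          show f (t₀ + 0) (x₀ + (0 : ℝ) • v₀) v₀ - mx a k u₀ v₀ = Λ * Wp (d + 11) v₀
          rw [add_zero, zero_smul, add_zero]
          exact heq) (by
          filter_upwards [hnear] with τ hτ
          exact (le_abs_self _).trans hτ)
        exact absurd (hopv.1 heq) (not_lt.2 h4)
      · rw [h3, neg_sub] at heq
        have h4 := Boot_cmp (c := Λ * Wp (d + 11) v₀) (hdf.const_sub (mx a k u₀ v₀)) (by
          show mx a k u₀ v₀ - f (t₀ + 0) (x₀ + (0 : ℝ) • v₀) v₀ = Λ * Wp (d + 11) v₀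
          rw [add_zero, zero_smul, add_zero]
          exact heq) (by
          filter_upwards [hnear] with τ hτ
          rw [abs_sub_comm] at hτ
          exact (le_abs_self _).trans hτ)
        have h5 := hopv.2 heq
        linarith
  intro t ht x
  refine ⟨fun N v => (hdec T f hf hf0 (fun τ hτ y w => (key τ hτ y w).le.trans
    (mul_le_mul_of_nonneg_right hL0 (Wp_pos (d + 11) w).le))).1 t ht N x v, ?_,
    fun v => (key t ht x v).le.trans (mul_le_mul_of_nonneg_right hL4 (Wp_pos (d + 11) v).le)⟩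
  have h3 := Boot_tot (p := d + 11) (by omega) (Boot_int hg ht x) (Boot_int hf' ht x)
    (fun v => (key t ht x v).le)
  rw [← hI, ← hmdef] at h3
  linarith

theorem near_eq (hd : 2 ≤ d) (hs0 : 0 < s) (h0 : 0 < γ) (hs : 2 * s < 1) (h2 : γ + 2 * s ≤ 2)
    (hb : IsKernel d s b) {a k : ℝ} (ha : 0 < a) (hk : 0 < k) (u₀ : Vec d) (B : ℕ → ℝ) :
    ∃ ε > 0, ∃ U : ℕ → ℝ, ∃ m₀ > 0, ∀ (T : ℝ) (f : ℝ → Vec d → Vec d → ℝ), IsBoltzmannSol γ b T f →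
      (∀ (N : ℕ) (x v : Vec d), (1 + ‖v‖) ^ N * f 0 x v ≤ B N) →
      (∀ x v, |f 0 x v - mx a k u₀ v| ≤ ε) →
      ∀ t ∈ Ico 0 T, ∀ x, (∀ (N : ℕ) (v : Vec d), (1 + ‖v‖) ^ N * f t x v ≤ U N) ∧
        m₀ ≤ ∫ v, f t x v := by
  obtain ⟨ε, hε, U, m₀, hm₀, h⟩ := near_eq2 hd hs0 h0 hs h2 hb ha hk u₀ B one_pos
  exact ⟨ε, hε, U, m₀, hm₀, fun T f hf h1 h3 t ht x =>
    ⟨(h T f hf h1 h3 t ht x).1, (h T f hf h1 h3 t ht x).2.1⟩⟩

end Pool.Agent.H48.NE
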