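import Pool.Agent.H48.NE.Mxw

/-!
# Module ReB: relative entropy and the `L¹` distance

`μ = mx a k u q.1`. Pointwise, for `F ≥ 0`, `μ > 0`, `x = F/μ`: `(√x - 1)² ≤ x log x - x + 1` (`log y ≥ 1 - 1/y` with `y = √x`: `x log x = 2 x log √x ≥ 2x (1 - 1/√x) = 2x - 2√x`; `x = 0`: `1 ≤ 1`), so `(√F - √μ)² ≤ F (log F - log μ) - F + μ =: e(F,μ)`; in particular `e ≥ 0`.
`re_l1`: `|F - μ| = |√F-√μ| (√F+√μ)`, Cauchy-Schwarz: `∫ |F-μ| ≤ (∫ e)^(1/2) (∫ 2(F+μ))^(1/2)`; `K = (2(M + ∫ μ))^(1/2)`.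
`re_small`: `F ≤ U` and `(1+‖v‖)^N F ≤ B N`. For `‖v‖ ≤ R`: `μ ≥ c_R`; `e(F,μ) ≤ C_R |F-μ|`: `F ≤ μ`: `F log(F/μ) ≤ 0`, `e ≤ μ - F`; `F ≥ μ`: `log(F/μ) ≤ (F-μ)/μ ≤ (F-μ)/c_R`, so `F log(F/μ) ≤ (B 0/c_R) (F-μ)`. For `‖v‖ > R`: `e ≤ F (log⁺ F + |log a| + k nsq (v-u)) + μ`, `∫ ≤ η/2` for `R` large, uniformly
(`F ≤ B_N (1+‖v‖)^(-N)`, `N = d+4`; `nu d` is `volume × ` probability). Then `ε = η/(2 C_R)`. `l1_small`: `∫_{‖v‖ ≤ R} |F-μ| ≤ C_d R^d ε`, the rest is small. -/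

set_option autoImplicit false

open MeasureTheory Set Filter Topology Pool.Agent.H25.Kin Pool.Agent.H48.PL Pool.Agent.H48.PD
open Pool.Agent.H82.BK Pool.Agent.H82.CM Pool.Agent.H48.PR
open Pool.Agent.H15.AV (Slice sol_slice)

namespace Pool.Agent.H48.NE

variable {d : ℕ}

private noncomputable def ee (F m : ℝ) : ℝ := F * (Real.log F - Real.log m) - F + m

private lemma ee_ge {F m : ℝ} (hF : 0 ≤ F) (hm : 0 < m) : (√F - √m) ^ 2 ≤ ee F m := by
  unfold ee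
  rcases hF.eq_or_lt with h | h
  · rw [← h]
    simp [Real.sq_sqrt hm.le]
  · have hs : 0 < √F := Real.sqrt_pos.2 h
    have hsm : 0 < √m := Real.sqrt_pos.2 hm
    have e1 : Real.log F = 2 * Real.log √F := by
      rw [Real.log_sqrt h.le]; ring
    have e2 : Real.log m = 2 * Real.log √m := by
      rw [Real.log_sqrt hm.le]; ring
    have e3 : Real.log (√m / √F) ≤ √m / √F - 1 := Real.log_le_sub_one_of_pos (by positivity)
    rw [Real.log_div hsm.ne' hs.ne'] at e3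
    have e4 : √F ^ 2 = F := Real.sq_sqrt h.le
    have e5 : √m ^ 2 = m := Real.sq_sqrt hm.le
    have e6 : F * (√m / √F) = √F * √m := by
      have : F * (√m / √F) = √F ^ 2 * (√m / √F) := by rw [e4]
      rw [this]
      field_simp
    have e7 := mul_le_mul_of_nonneg_left e3 h.le
    rw [e1, e2]
    have e8 : F * (√m / √F - 1) = √F * √m - F := by rw [mul_sub, e6, mul_one]
    rw [e8] at e7
    nlinarith

private lemma ee_nn {F m : ℝ} (hF : 0 ≤ F) (hm : 0 < m) : 0 ≤ ee F m :=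
  (sq_nonneg _).trans (ee_ge hF hm)

private lemma ee_lip {F m c b : ℝ} (hF : 0 ≤ F) (hc : 0 < c) (hcm : c ≤ m) (hb : F ≤ b) :
    ee F m ≤ (b / c + 1) * |F - m| := by
  have hm : 0 < m := hc.trans_le hcm
  have hb0 : 0 ≤ b / c := div_nonneg (hF.trans hb) hc.le
  unfold ee
  rcases le_or_gt F m with h | h
  · have h1 : F * (Real.log F - Real.log m) ≤ 0 := by
      rcases hF.eq_or_lt with h0 | h0
      · rw [← h0]; simp
      · exact mul_nonpos_of_nonneg_of_nonpos hF (by linarith [Real.log_le_log h0 h])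
    rw [abs_of_nonpos (by linarith)]
    nlinarith [mul_nonneg hb0 (sub_nonneg.2 h)]
  · have hF0 : 0 < F := hm.trans h
    have e1 : Real.log (F / m) ≤ F / m - 1 := Real.log_le_sub_one_of_pos (by positivity)
    rw [Real.log_div hF0.ne' hm.ne'] at e1
    have e2 : F / m - 1 = (F - m) / m := by field_simp
    have e3 : (F - m) / m ≤ (F - m) / c := div_le_div_of_nonneg_left (by linarith) hc hcm
    have e4 : F * (Real.log F - Real.log m) ≤ b * ((F - m) / c) := by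
      have h5 : 0 ≤ (F - m) / c := div_nonneg (by linarith) hc.le
      calc F * (Real.log F - Real.log m) ≤ F * ((F - m) / c) :=
            mul_le_mul_of_nonneg_left (by linarith) hF
        _ ≤ b * ((F - m) / c) := mul_le_mul_of_nonneg_right hb h5
    have e5 : b * ((F - m) / c) = b / c * (F - m) := by ring
    rw [abs_of_pos (by linarith)]
    linarith

private lemma mul_log_abs {F : ℝ} (hF : 0 ≤ F) : |F * Real.log F| ≤ 2 * √F + F ^ 2 := by
  rcases hF.eq_or_lt with h | h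
  · rw [← h]; simp
  · have hs : 0 < √F := Real.sqrt_pos.2 h
    have e4 : √F ^ 2 = F := Real.sq_sqrt h.le
    rcases le_or_gt 1 F with h1 | h1
    · have l1 : Real.log F ≤ F - 1 := Real.log_le_sub_one_of_pos h
      have l2 : 0 ≤ Real.log F := Real.log_nonneg h1
      rw [abs_of_nonneg (mul_nonneg hF l2)]
      nlinarith
    · have l1 : Real.log F ≤ 0 := Real.log_nonpos hF h1.le
      have e1 : Real.log F = 2 * Real.log √F := by
        rw [Real.log_sqrt h.le]; ring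
      have l2 : Real.log (1 / √F) ≤ 1 / √F - 1 := Real.log_le_sub_one_of_pos (by positivity)
      rw [one_div, Real.log_inv, ← one_div] at l2
      have l3 : F * (1 / √F) = √F := by
        have : F * (1 / √F) = √F ^ 2 * (1 / √F) := by rw [e4]
        rw [this]
        field_simp
      have l4 := mul_le_mul_of_nonneg_left l2 h.le
      rw [mul_sub, l3, mul_one] at l4
      rw [abs_of_nonpos (mul_nonpos_of_nonneg_of_nonpos hF l1), e1]
      nlinarith [sq_nonneg F]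

private lemma log_mx {a k : ℝ} (ha : 0 < a) (hk : 0 < k) (u v : Vec d) :
    |Real.log (mx a k u v)| ≤ (|Real.log a| + k * (d * (1 + ‖u‖) ^ 2)) * (1 + ‖v‖) ^ 2 := by
  have hv := one_le_w v
  have hu := one_le_w u
  unfold mx
  rw [Real.log_mul ha.ne' (Real.exp_pos _).ne', Real.log_exp]
  have h1 : nsq (v - u) ≤ d * ((1 + ‖v‖) * (1 + ‖u‖)) ^ 2 := by
    refine (sq_le _).trans ?_
    have h2 : ‖v - u‖ ≤ (1 + ‖v‖) * (1 + ‖u‖) := by linarith [w_sub_le v u]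
    have h3 : ‖v - u‖ ^ 2 ≤ ((1 + ‖v‖) * (1 + ‖u‖)) ^ 2 := pow_le_pow_left₀ (norm_nonneg _) h2 2
    exact mul_le_mul_of_nonneg_left h3 (Nat.cast_nonneg d)
  have h0 := nsq_nn (v - u)
  have h4 : |Real.log a + -(k * nsq (v - u))| ≤ |Real.log a| + k * nsq (v - u) := by
    refine (abs_add_le _ _).trans ?_
    rw [abs_neg, abs_of_nonneg (mul_nonneg hk.le h0)]
  have h5 : k * nsq (v - u) ≤ k * (d * ((1 + ‖v‖) * (1 + ‖u‖)) ^ 2) :=
    mul_le_mul_of_nonneg_left h1 hk.le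
  have h6 : 1 ≤ (1 + ‖v‖) ^ 2 := one_le_pow₀ hv
  have h7 : |Real.log a| ≤ |Real.log a| * (1 + ‖v‖) ^ 2 := le_mul_of_one_le_right (abs_nonneg _) h6
  calc |Real.log a + -(k * nsq (v - u))| ≤ |Real.log a| * (1 + ‖v‖) ^ 2 +
        k * (d * ((1 + ‖v‖) * (1 + ‖u‖)) ^ 2) := by linarith
    _ = _ := by ring

private lemma le_inv_of {w F b : ℝ} (hw : 1 ≤ w) (N : ℕ) (h : w ^ N * F ≤ b) :
    F ≤ |b| * (w ^ N)⁻¹ := by
  have hN : 0 < w ^ N := pow_pos (by linarith) N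
  rw [← div_eq_mul_inv, le_div_iff₀ hN, mul_comm]
  exact h.trans (le_abs_self b)

private lemma ee_bd {a k : ℝ} (ha : 0 < a) (hk : 0 < k) (u : Vec d) (B : ℕ → ℝ) :
    ∃ C : ℝ, 0 ≤ C ∧ ∀ (F : ℝ) (v : Vec d), 0 ≤ F → (∀ N : ℕ, (1 + ‖v‖) ^ N * F ≤ B N) →
      |ee F (mx a k u v)| ≤ C * ((1 + ‖v‖) ^ (d + 2))⁻¹ ∧
        |F - mx a k u v| ≤ C * ((1 + ‖v‖) ^ (d + 2))⁻¹ := by
  obtain ⟨Cm, hCm0, hCm⟩ := (mx_nice ha hk u).rd.bound (d + 2)
  have hL0 : 0 ≤ |Real.log a| + k * (d * (1 + ‖u‖) ^ 2) := by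
    have := abs_nonneg (Real.log a)
    positivity
  generalize hL : |Real.log a| + k * (d * (1 + ‖u‖) ^ 2) = L at hL0
  refine ⟨2 * √|B (2 * (d + 2))| + |B 0| * |B (d + 2)| + |B (d + 4)| * L + |B (d + 2)| + Cm,
    by positivity, fun F v hF hN => ?_⟩
  have hw := one_le_w v
  have hwp : 0 < 1 + ‖v‖ := by linarith
  have hm := mx_pos (k := k) ha u v
  have hmd : mx a k u v ≤ Cm * ((1 + ‖v‖) ^ (d + 2))⁻¹ := by
    have := hCm v
    rwa [Real.norm_eq_abs, abs_of_pos hm] at this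
  have i0 : 0 < ((1 + ‖v‖) ^ (d + 2))⁻¹ := inv_pos.2 (pow_pos hwp _)
  have f1 : F ≤ |B (d + 2)| * ((1 + ‖v‖) ^ (d + 2))⁻¹ := le_inv_of hw _ (hN _)
  have f0 : F ≤ |B 0| := by
    have := hN 0
    simp only [pow_zero, one_mul] at this
    exact this.trans (le_abs_self _)
  have f2 : √F ≤ √|B (2 * (d + 2))| * ((1 + ‖v‖) ^ (d + 2))⁻¹ := by
    have h1 : F ≤ |B (2 * (d + 2))| * ((1 + ‖v‖) ^ (2 * (d + 2)))⁻¹ := le_inv_of hw _ (hN _)
    have h2 : ((1 + ‖v‖) ^ (2 * (d + 2)))⁻¹ = (((1 + ‖v‖) ^ (d + 2))⁻¹) ^ 2 := by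
      rw [inv_pow, ← pow_mul, mul_comm 2]
    rw [h2] at h1
    refine (Real.sqrt_le_sqrt h1).trans ?_
    rw [Real.sqrt_mul (abs_nonneg _), Real.sqrt_sq i0.le]
  have f3 : F ^ 2 ≤ |B 0| * |B (d + 2)| * ((1 + ‖v‖) ^ (d + 2))⁻¹ := by
    calc F ^ 2 = F * F := sq F
      _ ≤ |B 0| * (|B (d + 2)| * ((1 + ‖v‖) ^ (d + 2))⁻¹) :=
          mul_le_mul f0 f1 hF (abs_nonneg _)
      _ = _ := by ring
  have f4 : F * |Real.log (mx a k u v)| ≤ |B (d + 4)| * L * ((1 + ‖v‖) ^ (d + 2))⁻¹ := by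
    have h1 : F ≤ |B (d + 4)| * ((1 + ‖v‖) ^ (d + 4))⁻¹ := le_inv_of hw _ (hN _)
    have h2 := log_mx ha hk u v
    rw [hL] at h2
    have h3 : 0 ≤ |B (d + 4)| * ((1 + ‖v‖) ^ (d + 4))⁻¹ := hF.trans h1
    calc F * |Real.log (mx a k u v)| ≤ (|B (d + 4)| * ((1 + ‖v‖) ^ (d + 4))⁻¹) *
          (L * (1 + ‖v‖) ^ 2) := mul_le_mul h1 h2 (abs_nonneg _) h3
      _ = |B (d + 4)| * L * ((1 + ‖v‖) ^ (d + 2))⁻¹ := by
          have : (1 + ‖v‖) ^ (d + 4) = (1 + ‖v‖) ^ (d + 2) * (1 + ‖v‖) ^ 2 := by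
            rw [← pow_add]
          rw [this]
          field_simp
  have f5 := mul_log_abs hF
  constructor
  · have h1 : |ee F (mx a k u v)| ≤ |F * Real.log F| + F * |Real.log (mx a k u v)| + F +
        mx a k u v := by
      unfold ee
      have e : F * (Real.log F - Real.log (mx a k u v)) - F + mx a k u v =
        F * Real.log F + -(F * Real.log (mx a k u v)) + -F + mx a k u v := by ring
      rw [e]
      refine (abs_add_le _ _).trans ?_
      rw [abs_of_pos hm]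
      refine add_le_add_left ((abs_add_le _ _).trans ?_) _
      rw [abs_neg, abs_of_nonneg hF]
      refine add_le_add_left ((abs_add_le _ _).trans ?_) _
      rw [abs_neg, abs_mul F (Real.log (mx a k u v)), abs_of_nonneg hF]
    nlinarith
  · have h1 : |F - mx a k u v| ≤ F + mx a k u v := by
      rw [abs_le]; constructor <;> linarith
    have h2 : 0 ≤ (2 * √|B (2 * (d + 2))| + |B 0| * |B (d + 2)| + |B (d + 4)| * L) *
      ((1 + ‖v‖) ^ (d + 2))⁻¹ := by positivity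
    nlinarith

private lemma w_ge {R : ℝ} (hR : 0 ≤ R) {v : Vec d} (hv : R < ‖v‖) :
    ((1 + ‖v‖) ^ (d + 2))⁻¹ ≤ (1 + R)⁻¹ * wt d v := by
  unfold wt
  have hw := w_pos v
  have : (1 + ‖v‖) ^ (d + 2) = (1 + ‖v‖) * (1 + ‖v‖) ^ (d + 1) := by ring
  rw [this, mul_inv]
  refine mul_le_mul_of_nonneg_right ?_ (by positivity)
  exact inv_anti₀ (by linarith) (by linarith)

private lemma int_of {G : Vec d × Vec d → ℝ} (hm : Measurable G) {C : ℝ}
    (h : ∀ q, |G q| ≤ C * ((1 + ‖q.1‖) ^ (d + 2))⁻¹) : Integrable G (nu d) := by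
  refine integrable_nu (C := |C|) hm.aestronglyMeasurable fun q => (h q).trans ?_
  have h1 : ((1 + ‖q.1‖) ^ (d + 2))⁻¹ ≤ wt d q.1 := by
    unfold wt
    exact inv_anti₀ (pow_pos (w_pos _) _) (pow_le_pow_right₀ (one_le_w _) (by omega))
  have h2 : 0 ≤ ((1 + ‖q.1‖) ^ (d + 2))⁻¹ := inv_nonneg.2 (pow_pos (w_pos _) _).le
  calc C * ((1 + ‖q.1‖) ^ (d + 2))⁻¹ ≤ |C| * ((1 + ‖q.1‖) ^ (d + 2))⁻¹ :=
        mul_le_mul_of_nonneg_right (le_abs_self C) h2
    _ ≤ |C| * wt d q.1 := mul_le_mul_of_nonneg_left h1 (abs_nonneg C)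

private lemma meas_F {F : Vec d → Vec d → ℝ} (hF : Slice F) :
    Measurable fun q : Vec d × Vec d => F q.2 q.1 :=
  (hF.cont.comp (continuous_snd.prodMk continuous_fst)).measurable

private lemma meas_mx {a k : ℝ} (ha : 0 < a) (hk : 0 < k) (u : Vec d) :
    Measurable fun q : Vec d × Vec d => mx a k u q.1 :=
  ((mx_nice ha hk u).cont.comp continuous_fst).measurable

private lemma meas_ee {a k : ℝ} (ha : 0 < a) (hk : 0 < k) (u : Vec d) {F : Vec d → Vec d → ℝ}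
    (hF : Slice F) : Measurable fun q : Vec d × Vec d => ee (F q.2 q.1) (mx a k u q.1) := by
  have h1 := meas_F hF
  have h2 := meas_mx ha hk u
  unfold ee
  exact ((h1.mul ((Real.measurable_log.comp h1).sub (Real.measurable_log.comp h2))).sub h1).add h2

private lemma int_all {a k : ℝ} (ha : 0 < a) (hk : 0 < k) (u : Vec d) {F : Vec d → Vec d → ℝ}
    (hF : Slice F) : Integrable (fun q => ee (F q.2 q.1) (mx a k u q.1)) (nu d) ∧
      Integrable (fun q => |F q.2 q.1 - mx a k u q.1|) (nu d) ∧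
      Integrable (fun q => F q.2 q.1) (nu d) ∧ Integrable (fun q => mx a k u q.1) (nu d) := by
  choose B hB using hF.decay
  obtain ⟨C, _, hC⟩ := ee_bd ha hk u B
  obtain ⟨Cm, hCm0, hCm⟩ := (mx_nice ha hk u).rd.bound (d + 2)
  refine ⟨int_of (meas_ee ha hk u hF) (C := C) fun q =>
      (hC _ q.1 (hF.nonneg _ _) fun N => hB N q.2 q.1).1,
    int_of (C := C) ?_ fun q => ?_, int_of (C := |B (d + 2)|) (meas_F hF) fun q => ?_,
    int_of (meas_mx ha hk u) (C := Cm) fun q => ?_⟩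
  · exact ((meas_F hF).sub (meas_mx ha hk u)).abs
  · rw [abs_abs]
    exact (hC _ q.1 (hF.nonneg _ _) fun N => hB N q.2 q.1).2
  · rw [abs_of_nonneg (hF.nonneg _ _)]
    exact le_inv_of (one_le_w _) _ (hB _ _ _)
  · exact hCm q.1

theorem re_nonneg {a k : ℝ} (ha : 0 < a) (hk : 0 < k) (u : Vec d) (F : Vec d → Vec d → ℝ)
    (hF : ∀ x v, 0 ≤ F x v) : 0 ≤ RE a k u F := by
  unfold RE
  exact integral_nonneg fun q => ee_nn (hF q.2 q.1) (mx_pos ha u q.1)

theorem re_l1 {a k : ℝ} (ha : 0 < a) (hk : 0 < k) (u : Vec d) (M : ℝ) : ∃ K : ℝ, 0 ≤ K ∧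
    ∀ F : Vec d → Vec d → ℝ, Slice F → ∫ q, F q.2 q.1 ∂(nu d) ≤ M →
      ∫ q, |F q.2 q.1 - mx a k u q.1| ∂(nu d) ≤ K * Real.sqrt (RE a k u F) := by
  refine ⟨√(2 * (M + ∫ q, mx a k u q.1 ∂(nu d))), Real.sqrt_nonneg _, fun F hF hM => ?_⟩
  obtain ⟨i1, i2, i3, i4⟩ := int_all ha hk u hF
  have hE : RE a k u F = ∫ q, ee (F q.2 q.1) (mx a k u q.1) ∂(nu d) := rfl
  have hF0 : 0 ≤ ∫ q, F q.2 q.1 ∂(nu d) := integral_nonneg fun q => hF.nonneg _ _
  have hm0 : 0 ≤ ∫ q, mx a k u q.1 ∂(nu d) := integral_nonneg fun q => (mx_pos ha u q.1).le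
  have hI0 : 0 ≤ ∫ q, |F q.2 q.1 - mx a k u q.1| ∂(nu d) := integral_nonneg fun q => abs_nonneg _
  have hE0 : 0 ≤ RE a k u F := re_nonneg ha hk u F hF.nonneg
  generalize hS : 2 * (M + ∫ q, mx a k u q.1 ∂(nu d)) = S
  have hS0 : 0 ≤ S := by rw [← hS]; linarith
  have key : ∀ t : ℝ, 0 ≤ RE a k u F * (t * t) +
      (-(2 * ∫ q, |F q.2 q.1 - mx a k u q.1| ∂(nu d))) * t + S := by
    intro t
    have h1 : ∫ q, (t * t * ee (F q.2 q.1) (mx a k u q.1) - 2 * t * |F q.2 q.1 - mx a k u q.1| +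
        (2 * F q.2 q.1 + 2 * mx a k u q.1)) ∂(nu d) =
        t * t * RE a k u F - 2 * t * (∫ q, |F q.2 q.1 - mx a k u q.1| ∂(nu d)) +
        (2 * (∫ q, F q.2 q.1 ∂(nu d)) + 2 * ∫ q, mx a k u q.1 ∂(nu d)) := by
      have e1 : Integrable (fun q => t * t * ee (F q.2 q.1) (mx a k u q.1)) (nu d) :=
        i1.const_mul _
      have e2 : Integrable (fun q => 2 * t * |F q.2 q.1 - mx a k u q.1|) (nu d) :=
        i2.const_mul _
      have e3 : Integrable (fun q => 2 * F q.2 q.1) (nu d) := i3.const_mul _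
      have e4 : Integrable (fun q => 2 * mx a k u q.1) (nu d) := i4.const_mul _
      have e12 : Integrable (fun q => t * t * ee (F q.2 q.1) (mx a k u q.1) -
        2 * t * |F q.2 q.1 - mx a k u q.1|) (nu d) := e1.sub e2
      have e34 : Integrable (fun q => 2 * F q.2 q.1 + 2 * mx a k u q.1) (nu d) := e3.add e4
      rw [integral_add e12 e34, integral_sub e1 e2, integral_add e3 e4, integral_const_mul,
        integral_const_mul, integral_const_mul, integral_const_mul, hE]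
    have h2 : 0 ≤ ∫ q, (t * t * ee (F q.2 q.1) (mx a k u q.1) -
        2 * t * |F q.2 q.1 - mx a k u q.1| + (2 * F q.2 q.1 + 2 * mx a k u q.1)) ∂(nu d) := by
      refine integral_nonneg fun q => ?_
      have hm := mx_pos (k := k) ha u q.1
      have hf := hF.nonneg q.2 q.1
      have g := ee_ge hf hm
      generalize hff : F q.2 q.1 = f at *
      generalize hmm : mx a k u q.1 = m at *
      have e4 : √f ^ 2 = f := Real.sq_sqrt hf
      have e5 : √m ^ 2 = m := Real.sq_sqrt hm.le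
      have s1 := Real.sqrt_nonneg f
      have s2 := Real.sqrt_nonneg m
      have e6 : |f - m| = |√f - √m| * (√f + √m) := by
        rw [← abs_of_nonneg (add_nonneg s1 s2), ← abs_mul]
        congr 1
        nlinarith
      have e7 : |√f - √m| ^ 2 = (√f - √m) ^ 2 := sq_abs _
      have g2 : t * t * (√f - √m) ^ 2 ≤ t * t * ee f m :=
        mul_le_mul_of_nonneg_left g (mul_self_nonneg t)
      show 0 ≤ t * t * ee f m - 2 * t * |f - m| + (2 * f + 2 * m)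
      rw [e6]
      nlinarith [sq_nonneg (t * |√f - √m| - (√f + √m)), sq_nonneg (√f - √m)]
    rw [h1] at h2
    have h3 : 2 * (∫ q, F q.2 q.1 ∂(nu d)) + 2 * ∫ q, mx a k u q.1 ∂(nu d) ≤ S := by
      rw [← hS]; linarith
    linarith
  have hd := discrim_le_zero key
  unfold discrim at hd
  have h3 : (∫ q, |F q.2 q.1 - mx a k u q.1| ∂(nu d)) ^ 2 ≤ S * RE a k u F := by nlinarith
  rw [← Real.sqrt_mul hS0]
  exact Real.le_sqrt_of_sq_le h3

private lemma wt_int : ∃ W : ℝ, 0 ≤ W ∧ Integrable (fun q : Vec d × Vec d => wt d q.1) (nu d) ∧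
    ∫ q : Vec d × Vec d, wt d q.1 ∂(nu d) = W :=
  ⟨∫ q : Vec d × Vec d, wt d q.1 ∂(nu d), integral_nonneg fun q : Vec d × Vec d => wt_nonneg q.1,
    (integrable_wt (d := d)).comp_fst (muD d), rfl⟩

theorem re_small {a k : ℝ} (ha : 0 < a) (hk : 0 < k) (u : Vec d) (B : ℕ → ℝ) {η : ℝ} (hη : 0 < η) :
    ∃ ε > 0, ∀ F : Vec d → Vec d → ℝ, Slice F → (∀ (N : ℕ) (x v : Vec d), (1 + ‖v‖) ^ N * F x v ≤ B N) →
      ∫ q, |F q.2 q.1 - mx a k u q.1| ∂(nu d) ≤ ε → RE a k u F ≤ η := by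
  obtain ⟨C, hC0, hC⟩ := ee_bd ha hk u B
  obtain ⟨W, hW0, hWi, hW⟩ := wt_int (d := d)
  -- the radius
  have hR : ∃ R : ℝ, 0 ≤ R ∧ C * (1 + R)⁻¹ * W ≤ η / 2 := by
    refine ⟨2 * (C * W) / η, by positivity, ?_⟩
    have h1 : 0 < 1 + 2 * (C * W) / η := by positivity
    have h2 : C * (1 + 2 * (C * W) / η)⁻¹ * W = C * W / (1 + 2 * (C * W) / η) := by
      rw [div_eq_mul_inv (C * W)]; ring
    rw [h2, div_le_iff₀ h1]
    have h3 : η / 2 * (1 + 2 * (C * W) / η) = η / 2 + C * W := by field_simp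
    rw [h3]
    linarith
  obtain ⟨R, hR0, hR⟩ := hR
  -- the lower bound
  have hc : 0 < a * Real.exp (-(k * (d * (R + ‖u‖) ^ 2))) := by positivity
  have hlow : ∀ v : Vec d, ‖v‖ ≤ R → a * Real.exp (-(k * (d * (R + ‖u‖) ^ 2))) ≤ mx a k u v := by
    intro v hv
    unfold mx
    refine mul_le_mul_of_nonneg_left (Real.exp_le_exp.2 (neg_le_neg ?_)) ha.le
    refine mul_le_mul_of_nonneg_left ((sq_le _).trans ?_) hk.le
    refine mul_le_mul_of_nonneg_left ?_ (Nat.cast_nonneg d)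
    refine pow_le_pow_left₀ (norm_nonneg _) ?_ 2
    linarith [norm_sub_le v u]
  generalize hcc : a * Real.exp (-(k * (d * (R + ‖u‖) ^ 2))) = c at hc hlow
  have hL : 0 < |B 0| / c + 1 := by positivity
  refine ⟨η / (2 * (|B 0| / c + 1)), by positivity, fun F hF hB hs => ?_⟩
  obtain ⟨i1, i2, i3, i4⟩ := int_all ha hk u hF
  have hE : RE a k u F = ∫ q, ee (F q.2 q.1) (mx a k u q.1) ∂(nu d) := rfl
  have h1 : RE a k u F ≤ ∫ q, ((|B 0| / c + 1) * |F q.2 q.1 - mx a k u q.1| +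
      C * (1 + R)⁻¹ * wt d q.1) ∂(nu d) := by
    rw [hE]
    refine integral_mono i1 ((i2.const_mul _).add (hWi.const_mul _)) fun q => ?_
    have hf := hF.nonneg q.2 q.1
    have hw := wt_nonneg q.1
    have p1 : 0 ≤ (|B 0| / c + 1) * |F q.2 q.1 - mx a k u q.1| :=
      mul_nonneg hL.le (abs_nonneg _)
    have p2 : 0 ≤ C * (1 + R)⁻¹ * wt d q.1 := by positivity
    show ee (F q.2 q.1) (mx a k u q.1) ≤ (|B 0| / c + 1) * |F q.2 q.1 - mx a k u q.1| +
      C * (1 + R)⁻¹ * wt d q.1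
    rcases le_or_gt ‖q.1‖ R with h | h
    · have hb : F q.2 q.1 ≤ |B 0| := by
        have := hB 0 q.2 q.1
        simp only [pow_zero, one_mul] at this
        exact this.trans (le_abs_self _)
      have := ee_lip hf hc (hlow q.1 h) hb
      linarith
    · have g1 := (hC _ q.1 hf fun N => hB N q.2 q.1).1
      have g2 := w_ge hR0 h
      have g3 := le_abs_self (ee (F q.2 q.1) (mx a k u q.1))
      have g4 := mul_le_mul_of_nonneg_left g2 hC0
      linarith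
  rw [integral_add (i2.const_mul _) (hWi.const_mul _), integral_const_mul, integral_const_mul,
    hW] at h1
  have h2 : (|B 0| / c + 1) * (∫ q, |F q.2 q.1 - mx a k u q.1| ∂(nu d)) ≤ η / 2 := by
    calc _ ≤ (|B 0| / c + 1) * (η / (2 * (|B 0| / c + 1))) :=
          mul_le_mul_of_nonneg_left hs hL.le
      _ = η / 2 := by field_simp
  linarith

theorem l1_small {a k : ℝ} (ha : 0 < a) (hk : 0 < k) (u : Vec d) (B : ℕ → ℝ) {η : ℝ} (hη : 0 < η) :
    ∃ ε > 0, ∀ F : Vec d → Vec d → ℝ, Slice F → (∀ (N : ℕ) (x v : Vec d), (1 + ‖v‖) ^ N * F x v ≤ B N) →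
      (∀ x v, |F x v - mx a k u v| ≤ ε) → ∫ q, |F q.2 q.1 - mx a k u q.1| ∂(nu d) ≤ η := by
  obtain ⟨C, hC0, hC⟩ := ee_bd ha hk u B
  obtain ⟨W, hW0, hWi, hW⟩ := wt_int (d := d)
  have hR : ∃ R : ℝ, 0 ≤ R ∧ C * (1 + R)⁻¹ * W ≤ η / 2 := by
    refine ⟨2 * (C * W) / η, by positivity, ?_⟩
    have h1 : 0 < 1 + 2 * (C * W) / η := by positivity
    have h2 : C * (1 + 2 * (C * W) / η)⁻¹ * W = C * W / (1 + 2 * (C * W) / η) := by
      rw [div_eq_mul_inv (C * W)]; ring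
    rw [h2, div_le_iff₀ h1]
    have h3 : η / 2 * (1 + 2 * (C * W) / η) = η / 2 + C * W := by field_simp
    rw [h3]
    linarith
  obtain ⟨R, hR0, hR⟩ := hR
  have hL : 0 < (1 + R) ^ (d + 1) * W + 1 := by positivity
  refine ⟨η / (2 * ((1 + R) ^ (d + 1) * W + 1)), by positivity, fun F hF hB hs => ?_⟩
  obtain ⟨i1, i2, i3, i4⟩ := int_all ha hk u hF
  generalize hε : η / (2 * ((1 + R) ^ (d + 1) * W + 1)) = ε at hs
  have hε0 : 0 < ε := by rw [← hε]; positivity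
  have h1 : ∫ q, |F q.2 q.1 - mx a k u q.1| ∂(nu d) ≤
      ∫ q : Vec d × Vec d, (ε * (1 + R) ^ (d + 1) + C * (1 + R)⁻¹) * wt d q.1 ∂(nu d) := by
    refine integral_mono i2 (hWi.const_mul _) fun q => ?_
    have hf := hF.nonneg q.2 q.1
    have hw := wt_nonneg q.1
    show |F q.2 q.1 - mx a k u q.1| ≤ (ε * (1 + R) ^ (d + 1) + C * (1 + R)⁻¹) * wt d q.1
    rcases le_or_gt ‖q.1‖ R with h | h
    · have g1 : 1 ≤ (1 + R) ^ (d + 1) * wt d q.1 := by
        unfold wt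
        rw [← div_eq_mul_inv, le_div_iff₀ (pow_pos (w_pos _) _), one_mul]
        exact pow_le_pow_left₀ (w_pos _).le (by linarith) _
      have g2 : 0 ≤ C * (1 + R)⁻¹ * wt d q.1 := by positivity
      have g3 := mul_le_mul_of_nonneg_left g1 hε0.le
      have g4 := hs q.2 q.1
      linarith
    · have g1 := (hC _ q.1 hf fun N => hB N q.2 q.1).2
      have g2 := w_ge hR0 h
      have g4 := mul_le_mul_of_nonneg_left g2 hC0
      have g5 : 0 ≤ ε * (1 + R) ^ (d + 1) * wt d q.1 := by positivity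
      linarith
  rw [integral_const_mul, hW] at h1
  have h2 : ε * ((1 + R) ^ (d + 1) * W) ≤ η / 2 := by
    have h3 : ε * ((1 + R) ^ (d + 1) * W + 1) = η / 2 := by
      rw [← hε]; field_simp
    nlinarith
  nlinarith

end Pool.Agent.H48.NE
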