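import Pool.Agent.H48.PS.Defs
import Pool.Agent.H48.PI.Defs

/-!
# Part N: uniform regularity near a Maxwellian without symmetry (MP_c15324_an): definitions

THEOREM N. `0 ≤ γ`, `2s < 1`, `γ + 2s ≤ 2`, `mx a k u` a Maxwellian, `B : ℕ → ℝ`. There are `ε > 0`, `U`, `m₀ > 0` such that EVERY classical solution `f` on `[0,T)`, any `T`, with `(1+|v|)^N f(0) ≤ B_N`, `|f(0) - mx| ≤ ε` satisfies
`(1+|v|)^N f ≤ U_N` and has mass density `≥ m₀` on `[0,T)`; the constants do not depend on `T`.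

PROOF. Kinetic doubling of the variables: `Pd(t,x,v;ξ,η) = f(t,x+ξ,v+η) - f(t,x,v)` is compared with `(δ₀ + A (1+1/t) Mt(ξ,η)) W(v)`, `W = ⟨v⟩^(-2p)`, `Mt = Qt(ξ, λη)^(α/(2+4s))`, `Qt = |ξ|² - ξ·ζ + |ζ|²`, `ζ(η) = |η|^(2s) η`, `0 < α < 2s`, so that
`Mt = r^α`, `r ~ |ξ|^(1/(1+2s)) + λ|η|`. At a touching point either the transport term `η·∇_ξ Mt ≥ c r^(α-2s)/λ` (on target) or some shift `η → η - q`, `λ|q| ≤ C r`, decreases `Mt` by `c r^α` (off target, Bar modules), and then the collisions `v → v+h` of one point, coupled with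
`v → v+h+q` of the other one, give the dissipation `-c N^(-2s) A λ^(2s) r^(α-2s)` (modules Cpl, DomN, OpN, Key). All other terms have a factor `|f(t,x+ξ,·) - f(t,x,·)|`, small near the Maxwellian. Result (ModN): a modulus of continuity in `(x,v)`, uniform in time.
Entropy (the relative entropy does not increase): `f - mx` is small in `L¹(dx dv)` for all times; with the modulus, `f - mx` is small in the sup norm for `|v| ≤ R₂`; for `|v| ≥ R₂` the maximum principle (opL). Bootstrap.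
-/

set_option autoImplicit false

open MeasureTheory Set Filter Topology Pool.Agent.H25.Kin Pool.Agent.H48.PL Pool.Agent.H48.PD
open Pool.Agent.H82.BK Pool.Agent.H82.CM Pool.Agent.H48.PR
open scoped ENNReal

namespace Pool.Agent.H48.NE

variable {d : ℕ}

/-- `ζ(η) = |η|^(2s) η` -/
noncomputable def zt (s : ℝ) (η : Vec d) : Vec d := len η ^ (2 * s) • η

/-- the quadratic form `|ξ|² - ξ·ζ(η) + |ζ(η)|²` -/
noncomputable def Qt (s : ℝ) (ξ η : Vec d) : ℝ := nsq ξ - dot ξ (zt s η) + nsq (zt s η)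

/-- the kinetic distance `Qt(ξ, λη)^(1/(2+4s))` -/
noncomputable def rt (s lam : ℝ) (ξ η : Vec d) : ℝ := Qt s ξ (lam • η) ^ (1 / (2 + 4 * s))

/-- the modulus `Qt(ξ, λη)^(α/(2+4s))` -/
noncomputable def Mt (s α lam : ℝ) (ξ η : Vec d) : ℝ := Qt s ξ (lam • η) ^ (α / (2 + 4 * s))

/-- the derivative of `τ ↦ Mt(ξ + τη, η)` at `τ = 0` -/
noncomputable def dMt (s α lam : ℝ) (ξ η : Vec d) : ℝ :=
  α / (2 + 4 * s) * Qt s ξ (lam • η) ^ (α / (2 + 4 * s) - 1) *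
    (2 * dot ξ η - dot (zt s (lam • η)) η)

/-- `min (r^(α-1) t) (t^α)` -/
noncomputable def pf (α r t : ℝ) : ℝ := min (r ^ (α - 1) * t) (t ^ α)

/-- the difference of the values at `(x+ξ, v+η)` and `(x, v)` -/
def Pd (f : ℝ → Vec d → Vec d → ℝ) (t : ℝ) (x v ξ η : Vec d) : ℝ := f t (x + ξ) (v + η) - f t x v

/-- the shell `ρ ≤ |h| ≤ 1/2` -/
def Sh (ρ : ℝ) : Set (Vec d) := {h | ρ ≤ len h ∧ len h ≤ 1 / 2}

/-- the Maxwellian `a exp(-k |v-u|²)` -/
noncomputable def mx (a k : ℝ) (u v : Vec d) : ℝ := a * Real.exp (-(k * nsq (v - u)))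

/-- a touching point `v` of two functions with difference `D = G - F`, `|D| ≤ Λ W`, `D(v) = Λ W(v)`, with one sided bounds -/
structure TN (Cl : ℕ → ℝ) (p : ℕ) (α r lam B K₂ Λ : ℝ) (F G : Vec d → ℝ) (v : Vec d) : Prop where
  hF : FB Cl F
  hG : FB Cl G
  nn : 0 ≤ Λ
  dif : ∀ u, |G u - F u| ≤ Λ * Wp p u
  tou : G v - F v = Λ * Wp p v
  oneG : ∀ h, G (v + h) - G v ≤ B * pf α r (lam * len h) + K₂ * min 1 (len h)
  oneF : ∀ h, F v - F (v + h) ≤ B * pf α r (lam * len h) + K₂ * min 1 (len h)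

/-- a touching point with the bounds of the doubled variables, `G = f(x+ξ, ·+η)`, `F = f(x, ·)`, `|f(x+ξ',v+η') - f(x,v)| ≤ (δ₀ + A Mt(ξ',η')) W` -/
structure TC (Cl : ℕ → ℝ) (p : ℕ) (s α lam δ₀ A : ℝ) (ξ η : Vec d) (F G : Vec d → ℝ) (v : Vec d) :
    Prop where
  hF : FB Cl F
  hG : FB Cl G
  dif : ∀ u, |G u - F u| ≤ (δ₀ + A * Mt s α lam ξ η) * Wp p u
  tou : G v - F v = (δ₀ + A * Mt s α lam ξ η) * Wp p v
  crs : ∀ h h' : Vec d, len (η + h - h') ≤ 1 → G (v + h) - F (v + h') ≤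
    (δ₀ + A * Mt s α lam ξ (η + h - h')) * max (Wp p (v + h)) (Wp p (v + h'))

/-- the collision integral `∫∫ |m|^γ Kn(c) H(v-m) E(v+h)` -/
noncomputable def DsN (γ : ℝ) (b : ℝ → ℝ) (ε : ℝ) (H E : Vec d → ℝ) (v : Vec d) : ℝ≥0∞ :=
  ∫⁻ m, ∫⁻ σ in {σ : Vec d | 0 < dot m σ},
    ENNReal.ofReal (len m ^ γ * Kn d γ (bt b ε) (co m σ)) *
      ENNReal.ofReal (H (v - m) * E (v + hh σ m)) ∂(surf d)

/-- the relative entropy `∫∫ F log(F/μ) - F + μ` with respect to a Maxwellian -/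
noncomputable def RE (a k : ℝ) (u : Vec d) (F : Vec d → Vec d → ℝ) : ℝ :=
  ∫ q, (F q.2 q.1 * (Real.log (F q.2 q.1) - Real.log (mx a k u q.1)) - F q.2 q.1 + mx a k u q.1)
    ∂(nu d)

lemma nsq_nn (v : Vec d) : 0 ≤ nsq v := sq_nonneg' v

lemma mx_pos {a k : ℝ} (ha : 0 < a) (u v : Vec d) : 0 < mx a k u v := by
  unfold mx
  positivity

end Pool.Agent.H48.NE
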