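import Pool.Agent.H48.NE.BarA
import Pool.Agent.H48.NE.Mxw

/-!
# Module L1s: from the `L¹` distance to the sup norm with a modulus of continuity

`μ = mx a k u`. Let `0 < r ≤ 1` with `d r² ≤ 1` (so `len η ≤ 1` for `η ∈ [0,r]^d`), `A' Mt s α lam ξ η ≤ κ₁/3` and `|μ(v+η) - μ v| ≤ κ₁/3` for `ξ, η ∈ [0,r]^d` (`Mt_small`: `nsq ξ + nsq η ≤ 2 d r²`; `mx_lip`). For `ξ, η ∈ [0,r]^d = Icc 0 (fun _ => r)`:
`|F x v - μ v| ≤ |F(x+ξ)(v+η) - μ(v+η)| + |F(x+ξ)(v+η) - F x v| + |μ(v+η) - μ v| ≤ |F(x+ξ)(v+η) - μ(v+η)| + κ₀ Wp p v + 2κ₁/3` (`Wp ≤ 1`). Average over `ξ, η` (volume `r^(2d)`): `∫∫_{box} |F - μ|(x+ξ, v+η) dξ dη ≤ ∫_{nu} |F - μ|` (translate; the cube `x + [0,r]^d` lies in `x + [0,1]^d`, periodicity: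
`∫_{x+[0,1]^d} G = ∫_{[0,1]^d} G` for `Per` functions, lemmas in H25/Kin/Per.lean), `δ = r^(2d) κ₁/3`. -/

set_option autoImplicit false

open MeasureTheory Set Filter Topology Pool.Agent.H25.Kin Pool.Agent.H48.PL Pool.Agent.H48.PD
open Pool.Agent.H82.BK Pool.Agent.H82.CM Pool.Agent.H48.PR
open Pool.Agent.H15.AV (Slice sol_slice)

namespace Pool.Agent.H48.NE

variable {d : ℕ}

private lemma L1s_dec {a k : ℝ} (ha : 0 < a) (hk : 0 < k) (u : Vec d) {F : Vec d → Vec d → ℝ}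
    (hF : Slice F) : ∃ C : ℝ, ∀ q : Vec d × Vec d, |F q.2 q.1 - mx a k u q.1| ≤ C * wt d q.1 := by
  obtain ⟨C, hC⟩ := hF.decay (d + 1)
  obtain ⟨Cl, hCl⟩ := mx_FB ha hk u
  refine ⟨C + Cl (d + 1), fun q => ?_⟩
  have h1 := hC q.2 q.1
  have h2 := hCl.le (d + 1) q.1
  have hp : 0 < (1 + ‖q.1‖) ^ (d + 1) := pow_pos (w_pos q.1) _
  have h3 : |F q.2 q.1 - mx a k u q.1| ≤ F q.2 q.1 + mx a k u q.1 := by
    have hf := hF.nonneg q.2 q.1
    have hg := hCl.nonneg q.1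
    rw [abs_le]
    constructor <;> linarith
  unfold wt
  rw [← div_eq_mul_inv, le_div_iff₀ hp]
  have h4 := mul_le_mul_of_nonneg_right h3 hp.le
  nlinarith [h1, h2, h4]

private lemma L1s_box {r : ℝ} {η : Vec d} (h : η ∈ Icc (0 : Vec d) (fun _ => r)) :
    nsq η ≤ d * r ^ 2 := by
  unfold nsq
  have h1 : ∀ i ∈ (Finset.univ : Finset (Fin d)), η i ^ 2 ≤ r ^ 2 := fun i _ =>
    pow_le_pow_left₀ (h.1 i) (h.2 i) 2
  calc ∑ i, η i ^ 2 ≤ ∑ _i : Fin d, r ^ 2 := Finset.sum_le_sum h1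
    _ = d * r ^ 2 := by simp

private lemma L1s_int {G : Vec d × Vec d → ℝ} (hG : Continuous G) {C : ℝ}
    (hb : ∀ q, |G q| ≤ C * wt d q.1) (hper : ∀ v, Per fun x => G (v, x)) (x v : Vec d) :
    Integrable (fun q : Vec d × Vec d => G (v + q.1, x + q.2)) (nu d) ∧
      ∫ q, G (v + q.1, x + q.2) ∂(nu d) = ∫ q, G q ∂(nu d) := by
  have hc : Continuous fun q : Vec d × Vec d => G (v + q.1, x + q.2) := hG.comp (by fun_prop)
  have hi : Integrable (fun q : Vec d × Vec d => G (v + q.1, x + q.2)) (nu d) := by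
    have h := ((integrable_wt (d := d)).comp_add_left v).comp_fst (muD d)
    exact (h.const_mul C).mono' hc.aestronglyMeasurable
      (Eventually.of_forall fun q => hb (v + q.1, x + q.2))
  refine ⟨hi, ?_⟩
  have hi0 : Integrable G (nu d) := integrable_nu hG.aestronglyMeasurable hb
  unfold nu at hi hi0 ⊢
  rw [integral_prod _ hi, integral_prod _ hi0]
  rw [← integral_add_left_eq_self (fun w : Vec d => ∫ y, G (w, y) ∂(muD d)) v]
  refine integral_congr_ae (Eventually.of_forall fun w => ?_)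
  have h2 := (hper (v + w)).integral x
  simp only [add_comm x]
  exact h2

theorem l1s {a k s α lam A' κ₁ : ℝ} (ha : 0 < a) (hk : 0 < k) (u : Vec d) (hs : 0 < s) (hα : 0 < α)
    (hl : 1 ≤ lam) (p : ℕ) (hκ : 0 < κ₁) : ∃ δ > 0, ∀ (F : Vec d → Vec d → ℝ) (κ₀ : ℝ), Slice F →
      (∀ x v ξ η : Vec d, len η ≤ 1 →
        |F (x + ξ) (v + η) - F x v| ≤ (κ₀ + A' * Mt s α lam ξ η) * Wp p v) →
      ∫ q, |F q.2 q.1 - mx a k u q.1| ∂(nu d) ≤ δ →
      ∀ x v, |F x v - mx a k u v| ≤ κ₀ * Wp p v + κ₁ := by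
  have hl0 : 0 < lam := lt_of_lt_of_le one_pos hl
  obtain ⟨K, hK, hlip⟩ := mx_lip ha hk u p
  obtain ⟨ϱ, hϱ, hMs⟩ := Mt_small (d := d) (e := κ₁ / 3 / (|A'| + 1)) hs hα hl0 (by positivity)
  set τ : ℝ := min 1 (min (ϱ / 2) ((κ₁ / 3 / (2 * K + 1)) ^ 2)) with hτ
  have hτ0 : 0 < τ := by
    rw [hτ]
    refine lt_min one_pos (lt_min (by linarith) ?_)
    positivity
  have hτ1 : τ ≤ 1 := min_le_left _ _
  have hτ2 : τ ≤ ϱ / 2 := (min_le_right _ _).trans (min_le_left _ _)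
  have hτ3 : τ ≤ (κ₁ / 3 / (2 * K + 1)) ^ 2 := (min_le_right _ _).trans (min_le_right _ _)
  set r : ℝ := τ / (d + 1) with hr
  have hd : (0 : ℝ) < d + 1 := by positivity
  have hr0 : 0 < r := div_pos hτ0 hd
  have hr1 : r ≤ 1 := by
    rw [hr, div_le_one hd]
    have : (0 : ℝ) ≤ d := Nat.cast_nonneg d
    linarith
  have hrτ : (d : ℝ) * r ^ 2 ≤ τ := by
    have h1 : (d : ℝ) * r ^ 2 ≤ (d + 1) * r := by
      have : (0 : ℝ) ≤ d := Nat.cast_nonneg d
      nlinarith [mul_nonneg this hr0.le, mul_nonneg (mul_nonneg this hr0.le) (sub_nonneg.2 hr1)]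
    have h2 : ((d : ℝ) + 1) * r = τ := by
      rw [hr]
      field_simp
    linarith
  set S : Set (Vec d) := Icc (0 : Vec d) (fun _ => r) with hS
  have hSv : (volume : Measure (Vec d)).real S = r ^ d := by
    rw [hS, Measure.real, Real.volume_Icc_pi]
    simp [ENNReal.toReal_ofReal hr0.le]
  have hSm : MeasurableSet S := measurableSet_Icc
  have hSsub : S ⊆ Icc (0 : Vec d) 1 := Icc_subset_Icc_right fun _ => hr1
  have hSmu : (muD d).real S = r ^ d := by
    rw [← hSv]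
    unfold muD
    rw [Measure.real, Measure.real, Measure.restrict_apply hSm, inter_eq_left.2 hSsub]
  have hSS : (nu d).real (S ×ˢ S) = r ^ d * r ^ d := by
    unfold nu
    rw [measureReal_prod_prod, hSv, hSmu]
  refine ⟨r ^ d * r ^ d * (κ₁ / 3), by positivity, fun F κ₀ hF hmod hint x v => ?_⟩
  set G : Vec d × Vec d → ℝ := fun q => |F q.2 q.1 - mx a k u q.1| with hG
  have hGc : Continuous G := by
    have h1 : Continuous fun q : Vec d × Vec d => F q.2 q.1 :=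
      hF.cont.comp (continuous_snd.prodMk continuous_fst)
    have h2 : Continuous (mx a k u) := (mx_nice ha hk u).cont
    exact (h1.sub (h2.comp continuous_fst)).abs
  obtain ⟨C, hC⟩ := L1s_dec ha hk u hF
  have hGb : ∀ q, |G q| ≤ C * wt d q.1 := fun q => by
    rw [hG]
    simp only [abs_abs]
    exact hC q
  have hGp : ∀ v, Per fun x => G (v, x) := fun w y i => by
    simp only [hG, hF.per y w i]
  obtain ⟨hi, he⟩ := L1s_int hGc hGb hGp x v
  set c : ℝ := |F x v - mx a k u v| - κ₀ * Wp p v - 2 * (κ₁ / 3) with hc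
  have key : ∀ q ∈ S ×ˢ S, c ≤ G (v + q.1, x + q.2) := by
    rintro ⟨η, ξ⟩ ⟨hη, hξ⟩
    have hη2 : nsq η ≤ τ := (L1s_box hη).trans hrτ
    have hξ2 : nsq ξ ≤ τ := (L1s_box hξ).trans hrτ
    have hlen : len η ≤ Real.sqrt τ := Real.sqrt_le_sqrt hη2
    have hlen1 : len η ≤ 1 := hlen.trans (by
      rw [Real.sqrt_le_left one_pos.le, one_pow]
      exact hτ1)
    have hlen2 : len η ≤ κ₁ / 3 / (2 * K + 1) := hlen.trans (by
      rw [Real.sqrt_le_left (by positivity)]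
      exact hτ3)
    have h1 := hmod x v ξ η hlen1
    have h2 : A' * Mt s α lam ξ η ≤ κ₁ / 3 := by
      have h3 := hMs ξ η (by linarith)
      have h4 := Mt_nonneg hs.le α lam ξ η
      have h5 : A' * Mt s α lam ξ η ≤ (|A'| + 1) * Mt s α lam ξ η :=
        mul_le_mul_of_nonneg_right (by linarith [le_abs_self A']) h4
      have h6 : (|A'| + 1) * Mt s α lam ξ η ≤ (|A'| + 1) * (κ₁ / 3 / (|A'| + 1)) :=
        mul_le_mul_of_nonneg_left h3 (by positivity)
      have h7 : (|A'| + 1) * (κ₁ / 3 / (|A'| + 1)) = κ₁ / 3 := by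
        field_simp
      linarith
    have hW0 := Wp_pos p v
    have hW1 := Wp_le_one p v
    have hW2 := Wp_le_one p (v + η)
    have h3 : (κ₀ + A' * Mt s α lam ξ η) * Wp p v ≤ κ₀ * Wp p v + κ₁ / 3 := by
      nlinarith [mul_le_mul_of_nonneg_right h2 hW0.le]
    have h4 : |mx a k u (v + η) - mx a k u v| ≤ κ₁ / 3 := by
      have h5 := hlip v η
      have h6 : K * min 1 (len η) * (Wp p v + Wp p (v + η)) ≤ K * len η * 2 := by
        refine mul_le_mul (mul_le_mul_of_nonneg_left (min_le_right _ _) hK) (by linarith)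
          (by linarith [Wp_pos p (v + η)]) (mul_nonneg hK (len_nonneg η))
      have h7 : K * len η * 2 ≤ (2 * K + 1) * len η := by nlinarith [len_nonneg η]
      have h8 : (2 * K + 1) * len η ≤ (2 * K + 1) * (κ₁ / 3 / (2 * K + 1)) :=
        mul_le_mul_of_nonneg_left hlen2 (by positivity)
      have h9 : (2 * K + 1) * (κ₁ / 3 / (2 * K + 1)) = κ₁ / 3 := by
        field_simp
      linarith
    have h5 : |F x v - mx a k u v| ≤ |F (x + ξ) (v + η) - mx a k u (v + η)| +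
        |F (x + ξ) (v + η) - F x v| + |mx a k u (v + η) - mx a k u v| := by
      have e : F x v - mx a k u v = (F (x + ξ) (v + η) - mx a k u (v + η)) -
          (F (x + ξ) (v + η) - F x v) + (mx a k u (v + η) - mx a k u v) := by ring
      rw [e]
      refine (abs_add_le _ _).trans ?_
      gcongr
      exact abs_sub _ _
    simp only [hG, hc]
    linarith
  have hSSm : MeasurableSet (S ×ˢ S) := hSm.prod hSm
  have hfin : (nu d) (S ×ˢ S) ≠ ⊤ := by
    intro h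
    have h1 : (nu d).real (S ×ˢ S) = 0 := by
      rw [Measure.real, h, ENNReal.toReal_top]
    rw [hSS] at h1
    have : 0 < r ^ d * r ^ d := by positivity
    linarith
  have h1 : c * (r ^ d * r ^ d) ≤ ∫ q in S ×ˢ S, G (v + q.1, x + q.2) ∂(nu d) := by
    have h2 := setIntegral_mono_on (integrableOn_const (μ := nu d) (C := c) hfin) hi.integrableOn
      hSSm key
    rw [setIntegral_const, hSS, smul_eq_mul] at h2
    linarith
  have h2 : ∫ q in S ×ˢ S, G (v + q.1, x + q.2) ∂(nu d) ≤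
      ∫ q, G (v + q.1, x + q.2) ∂(nu d) :=
    setIntegral_le_integral hi (Eventually.of_forall fun q => abs_nonneg _)
  have h3 : c * (r ^ d * r ^ d) ≤ κ₁ / 3 * (r ^ d * r ^ d) := by
    rw [he] at h2
    linarith
  have h4 : c ≤ κ₁ / 3 := le_of_mul_le_mul_right h3 (by positivity)
  simp only [hc] at h4
  linarith

end Pool.Agent.H48.NE
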