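import Pool.Agent.H48.NE.Defs
import Pool.Agent.H82.CM.LowK

/-!
# Module BandL: lower bound of the surface measure of a band

`surf {σ | a' ≤ e·σ ≤ a''} ≥ c (a''-a')` for unit `e`, `0 ≤ a' ≤ a'' ≤ 3/4`, `d ≥ 2`. PROOF. Search the library first: the integral of a function of `dot e σ` over the sphere (`∫ g(e·σ) dσ = ω_{d-1} ∫ g(x) (1-x²)^((d-3)/2) dx`) or a lower bound of this kind is used in `loss_low`, `slack_low` (H82/CM/LowK, H82/CM/Shell), H25/Kin/Sph.
Alternative without the formula: the cone `{z : |z| ≤ 1, a' |z| ≤ e·z ≤ a'' |z|}` has volume `surf(band)/d` (`Measure.toSphere_apply'`: `toSphere s = d * volume (Ioo 0 1 • s)`); by rotation invariance (or directly) it contains, in coordinates `z = t e + y`, `y ⊥ e`, the set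
`1/8 ≤ |y| ≤ 1/4`, `a' |z| ≤ t ≤ a'' |z|`: for fixed `y` the function `t ↦ t/√(t²+|y|²)` is increasing with derivative `≤ 1/|y| ≤ 8`, so the set of `t ≥ 0` with `a' ≤ t/√(t²+|y|²) ≤ a''` is an interval of length `≥ (a''-a')/8`, and `|z| ≤ 1` there since `t ≤ |y| a''/√(1-a''²) ≤ 1/2`. -/

set_option autoImplicit false

open MeasureTheory Set Filter Topology Pool.Agent.H25.Kin Pool.Agent.H48.PL Pool.Agent.H48.PD
open Pool.Agent.H82.BK Pool.Agent.H82.CM Pool.Agent.H48.PR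
open scoped ENNReal

namespace Pool.Agent.H48.NE

variable {d : ℕ}

private lemma bandl_real {a s Y T L : ℝ} (ha : 0 ≤ a) (hs : 0 < s) (hs2 : s ^ 2 = 1 - a ^ 2)
    (hY : 0 < Y) (hT : 0 ≤ T) (hL : 0 < L) (hL2 : L ^ 2 = Y ^ 2 + T ^ 2) :
    (a * Y ≤ s * T → a ≤ L⁻¹ * T) ∧ (s * T ≤ a * Y → L⁻¹ * T ≤ a) := by
  constructor
  · intro h
    rw [le_inv_mul_iff₀ hL]
    have h1 : (a * Y) ^ 2 ≤ (s * T) ^ 2 := pow_le_pow_left₀ (by positivity) h 2
    have h2 : (L * a) ^ 2 ≤ T ^ 2 := by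
      rw [mul_pow, hL2]
      rw [mul_pow, mul_pow, hs2] at h1
      nlinarith
    exact (pow_le_pow_iff_left₀ (by positivity) hT two_ne_zero).1 h2
  · intro h
    rw [inv_mul_le_iff₀ hL]
    have h1 : (s * T) ^ 2 ≤ (a * Y) ^ 2 := pow_le_pow_left₀ (by positivity) h 2
    have h2 : T ^ 2 ≤ (L * a) ^ 2 := by
      rw [mul_pow, hL2]
      rw [mul_pow, mul_pow, hs2] at h1
      nlinarith
    exact (pow_le_pow_iff_left₀ hT (by positivity) two_ne_zero).1 h2

/-- the slopes -/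
private lemma bandl_slope {a₁ a₂ : ℝ} (h1 : 0 ≤ a₁) (h12 : a₁ ≤ a₂) (h2 : a₂ ≤ 3 / 4) :
    ∃ s₁ s₂ c₁ c₂ : ℝ, 0 < s₁ ∧ 0 < s₂ ∧ s₁ ^ 2 = 1 - a₁ ^ 2 ∧ s₂ ^ 2 = 1 - a₂ ^ 2 ∧
      s₁ * c₁ = a₁ ∧ s₂ * c₂ = a₂ ∧ 0 ≤ c₁ ∧ c₂ ≤ 3 / 2 ∧ a₂ - a₁ ≤ c₂ - c₁ := by
  have e1 : 0 < 1 - a₁ ^ 2 := by nlinarith
  have e2 : 0 < 1 - a₂ ^ 2 := by nlinarith
  have p1 : 0 < Real.sqrt (1 - a₁ ^ 2) := Real.sqrt_pos.2 e1
  have p2 : 0 < Real.sqrt (1 - a₂ ^ 2) := Real.sqrt_pos.2 e2
  have q1 : Real.sqrt (1 - a₁ ^ 2) ^ 2 = 1 - a₁ ^ 2 := Real.sq_sqrt e1.le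
  have q2 : Real.sqrt (1 - a₂ ^ 2) ^ 2 = 1 - a₂ ^ 2 := Real.sq_sqrt e2.le
  have r12 : Real.sqrt (1 - a₂ ^ 2) ≤ Real.sqrt (1 - a₁ ^ 2) := Real.sqrt_le_sqrt (by nlinarith)
  have r1 : Real.sqrt (1 - a₁ ^ 2) ≤ 1 := by
    have h0 : Real.sqrt (1 - a₁ ^ 2) ≤ Real.sqrt 1 := Real.sqrt_le_sqrt (by nlinarith)
    rwa [Real.sqrt_one] at h0
  have r2 : 1 / 2 ≤ Real.sqrt (1 - a₂ ^ 2) := by
    apply Real.le_sqrt_of_sq_le
    nlinarith
  set s₁ := Real.sqrt (1 - a₁ ^ 2)
  set s₂ := Real.sqrt (1 - a₂ ^ 2)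
  refine ⟨s₁, s₂, a₁ / s₁, a₂ / s₂, p1, p2, q1, q2, mul_div_cancel₀ _ p1.ne',
    mul_div_cancel₀ _ p2.ne', div_nonneg h1 p1.le, ?_, ?_⟩
  · rw [div_le_iff₀ p2]
    linarith
  · have f1 : a₂ / s₁ ≤ a₂ / s₂ := div_le_div_of_nonneg_left (h1.trans h12) p2 r12
    have f2 : a₂ - a₁ ≤ (a₂ - a₁) / s₁ := by
      rw [le_div_iff₀ p1]
      nlinarith
    rw [sub_div] at f2
    linarith

theorem band (hd : 2 ≤ d) : ∃ c > 0, ∀ e : Vec d, nsq e = 1 → ∀ a₁ a₂ : ℝ, 0 ≤ a₁ → a₁ ≤ a₂ →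
    a₂ ≤ 3 / 4 → ENNReal.ofReal (c * (a₂ - a₁)) ≤ surf d {σ : Vec d | a₁ ≤ dot e σ ∧ dot e σ ≤ a₂} := by
  have hd1 : 1 ≤ d := by omega
  set B : Set (Vec d) := {z | nsq z < 1 / 256} with hB
  have hBo : IsOpen B := isOpen_lt continuous_sq continuous_const
  have hB0 : (0 : Vec d) ∈ B := by
    change nsq (0 : Vec d) < 1 / 256
    have : nsq (0 : Vec d) = 0 := by
      unfold nsq
      exact Finset.sum_eq_zero fun i _ => by simp
    rw [this]; norm_num
  have hBpos : 0 < (volume : Measure (Vec d)) B := hBo.measure_pos _ ⟨0, hB0⟩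
  have hBfin : (volume : Measure (Vec d)) B < ⊤ := by
    have hsub : B ⊆ Metric.closedBall 0 2 := by
      intro z hz
      rw [mem_closedBall_zero_iff]
      have h1 := norm_sq_le_sq z
      have h2 : nsq z < 1 / 256 := hz
      nlinarith [norm_nonneg z]
    exact (measure_mono hsub).trans_lt (isCompact_closedBall _ _).measure_lt_top
  have hV : 0 < ((volume : Measure (Vec d)) B).toReal := ENNReal.toReal_pos hBpos.ne' hBfin.ne
  have hd0 : (0 : ℝ) < d := by exact_mod_cast hd1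
  refine ⟨d * (((volume : Measure (Vec d)) B).toReal / 20), by positivity,
    fun e he a₁ a₂ h1 h12 h2 => ?_⟩
  obtain ⟨s₁, s₂, c₁, c₂, p1, p2, q1, q2, m1, m2, hc1, hc2, hcc⟩ := bandl_slope h1 h12 h2
  obtain ⟨e', he', hee⟩ := exists_perp hd he
  set p : Vec d := (3 / 16 : ℝ) • e' with hp
  set T : Set (Vec d) := (fun z => z - p) ⁻¹' B with hT
  have hTm : MeasurableSet T := hBo.measurableSet.preimage (measurable_id.sub measurable_const)
  have hTv : (volume : Measure (Vec d)) T = (volume : Measure (Vec d)) B := by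
    have h5 : T = (fun z => z + (-p)) ⁻¹' B := by
      rw [hT]; ext z; simp only [mem_preimage, sub_eq_add_neg]
    rw [h5]
    exact measure_preimage_add_right (volume : Measure (Vec d)) (-p) B
  set S : Set (Vec d) := {σ : Vec d | a₁ ≤ dot e σ ∧ dot e σ ≤ a₂} with hS
  have hSm : MeasurableSet S :=
    ((isClosed_le continuous_const (dot_cont e)).inter
      (isClosed_le (dot_cont e) continuous_const)).measurableSet
  have hmi : Measurable (S.indicator (fun _ => (1 : ℝ≥0∞))) := measurable_const.indicator hSm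
  have hbm : MeasurableSet {z : Vec d | nsq z < 1} :=
    (isOpen_lt continuous_sq continuous_const).measurableSet
  have hlm : Measurable fun z : Vec d => (len z)⁻¹ • z :=
    continuous_len.measurable.inv.smul measurable_id
  set g : Vec d → ℝ≥0∞ := ({z : Vec d | nsq z < 1}).indicator
    (fun z => S.indicator (fun _ => (1 : ℝ≥0∞)) ((len z)⁻¹ • z)) with hg
  have hgm : Measurable g := (hmi.comp hlm).indicator hbm
  have hsurf : surf d S = d * ∫⁻ z, g z := by
    have h3 : surf d S = ∫⁻ σ, S.indicator (fun _ => (1 : ℝ≥0∞)) σ ∂(surf d) := by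
      rw [lintegral_indicator_const hSm, one_mul]
    rw [h3, surf_formula hd1 hmi, hg, lintegral_indicator hbm]
  -- the fibres
  have hfib : ∀ z ∈ T, ENNReal.ofReal ((a₂ - a₁) / 10) ≤
      ∫⁻ τ in Icc (-1 : ℝ) 1, g (z + τ • e) := by
    intro z hz
    have hz1 : nsq (z - p) < 1 / 256 := hz
    set h := z - p with hh
    have hze : z = p + h := by rw [hh]; abel
    set t := dot e z with ht
    have hkh : dot e h ^ 2 ≤ nsq h := by
      have := dot_sq_le e h
      rwa [he, one_mul] at this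
    have heh : dot e' h ^ 2 ≤ nsq h := by
      have := dot_sq_le e' h
      rwa [he', one_mul] at this
    have hkh1 : |dot e h| ≤ 1 / 16 := abs_le_of_sq_le_sq (by nlinarith) (by norm_num)
    have heh1 : |dot e' h| ≤ 1 / 16 := abs_le_of_sq_le_sq (by nlinarith) (by norm_num)
    obtain ⟨k1, k2⟩ := abs_le.1 hkh1
    obtain ⟨e1, e2⟩ := abs_le.1 heh1
    have htv : t = dot e h := by
      rw [ht, hze, dot_add, hp, dot_smul, hee]
      ring
    have hpp : nsq p = 9 / 256 := by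
      rw [hp, nsq_smul, he']
      norm_num
    have hph : dot p h = 3 / 16 * dot e' h := by
      rw [dot_comm, hp, dot_smul, dot_comm h e']
    have hzn : nsq z = 9 / 256 + 2 * (3 / 16 * dot e' h) + nsq h := by
      rw [hze, nsq_add, hpp, hph]
    have hy1 : 1 / 100 ≤ nsq z - t ^ 2 := by rw [hzn, htv]; linarith
    have hy2 : nsq z - t ^ 2 ≤ 1 / 16 := by
      rw [hzn, htv]
      have := sq_nonneg (dot e h)
      linarith
    set Y := Real.sqrt (nsq z - t ^ 2) with hY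
    have hYY : Y ^ 2 = nsq z - t ^ 2 := Real.sq_sqrt (by linarith)
    have hY1 : 1 / 10 ≤ Y := Real.le_sqrt_of_sq_le (by norm_num; linarith)
    have hY2 : Y ≤ 1 / 4 := by
      rw [hY, Real.sqrt_le_left (by norm_num)]
      norm_num
      linarith
    have hcY : c₂ * Y ≤ 3 / 8 := by
      have h9 : c₂ * Y ≤ 3 / 2 * Y := mul_le_mul_of_nonneg_right hc2 (by linarith)
      linarith
    have hJ : Icc (c₁ * Y - t) (c₂ * Y - t) ⊆ Icc (-1 : ℝ) 1 := by
      refine Icc_subset_Icc ?_ ?_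
      · have : 0 ≤ c₁ * Y := by positivity
        linarith
      · linarith
    have hgJ : ∀ τ ∈ Icc (c₁ * Y - t) (c₂ * Y - t), g (z + τ • e) = 1 := by
      intro τ hτ
      obtain ⟨t1, t2⟩ := hτ
      have hdt : dot e (z + τ • e) = t + τ := by
        rw [dot_add, dot_smul, dot_self, he, ← ht]; ring
      have hnt : nsq (z + τ • e) = Y ^ 2 + (t + τ) ^ 2 := by
        rw [nsq_add, nsq_smul, dot_smul, dot_comm z e, he, ← ht, hYY]
        ring
      have hT0 : 0 ≤ t + τ := by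
        have : 0 ≤ c₁ * Y := by positivity
        linarith
      have hT1 : t + τ ≤ 3 / 8 := by linarith
      have hlt : nsq (z + τ • e) < 1 := by
        rw [hnt]
        have h9 : Y ^ 2 ≤ (1 / 4) ^ 2 := pow_le_pow_left₀ (by linarith) hY2 2
        have h8 : (t + τ) ^ 2 ≤ (3 / 8) ^ 2 := pow_le_pow_left₀ hT0 hT1 2
        norm_num at h9 h8
        linarith
      have hL2 : len (z + τ • e) ^ 2 = Y ^ 2 + (t + τ) ^ 2 := by rw [len_sq, hnt]
      have hL : 0 < len (z + τ • e) := by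
        rcases (len_nonneg (z + τ • e)).lt_or_eq with h9 | h9
        · exact h9
        · rw [← h9] at hL2
          have h8 : 0 < Y ^ 2 := by positivity
          have h7 := sq_nonneg (t + τ)
          norm_num at hL2
          linarith
      have hmem : (len (z + τ • e))⁻¹ • (z + τ • e) ∈ S := by
        change a₁ ≤ dot e _ ∧ dot e _ ≤ a₂
        rw [dot_smul, hdt]
        refine ⟨(bandl_real h1 p1 q1 (by linarith) hT0 hL hL2).1 ?_,
          (bandl_real (h1.trans h12) p2 q2 (by linarith) hT0 hL hL2).2 ?_⟩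
        · rw [← m1, mul_assoc]
          exact mul_le_mul_of_nonneg_left (by linarith) p1.le
        · rw [← m2, mul_assoc]
          exact mul_le_mul_of_nonneg_left (by linarith) p2.le
      rw [hg]
      rw [indicator_of_mem (by exact hlt), indicator_of_mem hmem]
    calc ENNReal.ofReal ((a₂ - a₁) / 10)
        ≤ ENNReal.ofReal (c₂ * Y - t - (c₁ * Y - t)) := by
          refine ENNReal.ofReal_le_ofReal ?_
          have h9 : (a₂ - a₁) * (1 / 10) ≤ (c₂ - c₁) * Y :=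
            mul_le_mul hcc hY1 (by norm_num) (by linarith)
          linarith
      _ = ∫⁻ _τ in Icc (c₁ * Y - t) (c₂ * Y - t), (1 : ℝ≥0∞) := by
          rw [setLIntegral_const, one_mul, Real.volume_Icc]
      _ = ∫⁻ τ in Icc (c₁ * Y - t) (c₂ * Y - t), g (z + τ • e) :=
          setLIntegral_congr_fun measurableSet_Icc fun τ hτ => (hgJ τ hτ).symm
      _ ≤ ∫⁻ τ in Icc (-1 : ℝ) 1, g (z + τ • e) := lintegral_mono_set hJ
  -- averaging over translations
  have hswap : ∫⁻ τ in Icc (-1 : ℝ) 1, ∫⁻ z : Vec d, g (z + τ • e) =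
      ∫⁻ z : Vec d, ∫⁻ τ in Icc (-1 : ℝ) 1, g (z + τ • e) := by
    refine lintegral_lintegral_swap ?_
    refine Measurable.aemeasurable ?_
    exact hgm.comp (measurable_snd.add (measurable_fst.smul measurable_const))
  have hleft : ∫⁻ τ in Icc (-1 : ℝ) 1, ∫⁻ z : Vec d, g (z + τ • e) = (∫⁻ z, g z) * 2 := by
    have h3 : ∀ τ : ℝ, ∫⁻ z : Vec d, g (z + τ • e) = ∫⁻ z, g z := fun τ =>
      lintegral_add_right_eq_self g (τ • e)
    simp only [h3]
    rw [setLIntegral_const, Real.volume_Icc]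
    norm_num
  have hmain : ENNReal.ofReal ((a₂ - a₁) / 10) * (volume : Measure (Vec d)) B ≤
      (∫⁻ z, g z) * 2 := by
    rw [← hleft, hswap, ← hTv]
    calc ENNReal.ofReal ((a₂ - a₁) / 10) * (volume : Measure (Vec d)) T
        = ∫⁻ _z in T, ENNReal.ofReal ((a₂ - a₁) / 10) := by rw [setLIntegral_const]
      _ ≤ ∫⁻ z in T, ∫⁻ τ in Icc (-1 : ℝ) 1, g (z + τ • e) := setLIntegral_mono' hTm hfib
      _ ≤ _ := setLIntegral_le_lintegral _ _
  rw [hsurf]
  have hA : (0 : ℝ) ≤ a₂ - a₁ := by linarith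
  calc ENNReal.ofReal (d * (((volume : Measure (Vec d)) B).toReal / 20) * (a₂ - a₁))
      = d * (ENNReal.ofReal ((a₂ - a₁) / 10) * (volume : Measure (Vec d)) B *
          ENNReal.ofReal (1 / 2)) := by
        have e3 : d * (((volume : Measure (Vec d)) B).toReal / 20) * (a₂ - a₁) =
          d * ((a₂ - a₁) / 10 * ((volume : Measure (Vec d)) B).toReal * (1 / 2)) := by ring
        rw [e3, ENNReal.ofReal_mul (by positivity), ENNReal.ofReal_mul (by positivity),
          ENNReal.ofReal_mul (by positivity), ENNReal.ofReal_natCast,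
          ENNReal.ofReal_toReal hBfin.ne]
    _ ≤ d * ((∫⁻ z, g z) * 2 * ENNReal.ofReal (1 / 2)) := by gcongr
    _ = d * ∫⁻ z, g z := by
        have e4 : (2 : ℝ≥0∞) * ENNReal.ofReal (1 / 2) = 1 := by
          rw [show (2 : ℝ≥0∞) = ENNReal.ofReal 2 by norm_num, ← ENNReal.ofReal_mul (by norm_num)]
          norm_num
        rw [mul_assoc (∫⁻ z, g z), e4, mul_one]

end Pool.Agent.H48.NE
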