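import Pool.Agent.H48.NE.Defs

/-!
# Module BarA: elementary properties of `Qt`, `Mt`, `rt`

`Qt_eq`: `|ζ - ξ/2|² = |ζ|² - ζ·ξ + |ξ|²/4`. `Qt_ge`: `ξ·ζ ≤ (|ξ|²+|ζ|²)/2`. `Qt_le`: `-ξ·ζ ≤ (|ξ|²+|ζ|²)/2`. `nsq_zt`: `|ζ|² = len^(4s) nsq = len^(2+4s)` (`len η = 0`: both sides `0`). `len_zt`.
`Qt_pos`: from `Qt_ge`. Continuity of `zt`: `len` is continuous, `x ↦ x^(2s)` is continuous for `2s > 0` (`Real.continuous_rpow_const`-type lemma `Real.continuousAt_rpow_const` / `Continuous.rpow_const`). `Mt_rt`: `Real.rpow_mul`.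
`len_le_rt`: `(lam len η)^(2+4s) ≤ 2 Qt(ξ, lam η) = 2 rt^(2+4s) ≤ (2 rt)^(2+4s)` and `|ξ|² ≤ 2 rt^(2+4s)`, so `len ξ ≤ 2 rt^(1+2s)`. `rt_le`: `rt^(2+4s) = Qt ≤ 3/2 (nsq ξ + (lam len η)^(2+4s))`.
`Mt_ge`: `(lam len η)^(2+4s) ≤ 2 Qt`: `(lam len η)^α ≤ 2^(α/(2+4s)) Mt ≤ 2 Mt`. `Mt_big`: from `Qt_ge`: if `ϱ ≤ nsq ξ + nsq η` then one of `nsq ξ`, `nsq η` is `≥ ϱ/2`.
-/

set_option autoImplicit false

open MeasureTheory Set Filter Topology Pool.Agent.H25.Kin Pool.Agent.H48.PL Pool.Agent.H48.PD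
open Pool.Agent.H82.BK Pool.Agent.H82.CM Pool.Agent.H48.PR
open scoped ENNReal

namespace Pool.Agent.H48.NE

variable {d : ℕ}

theorem Qt_eq (s : ℝ) (ξ η : Vec d) :
    Qt s ξ η = 3 / 4 * nsq ξ + nsq (zt s η - (1 / 2 : ℝ) • ξ) := by
  unfold Qt
  rw [nsq_sub, dot_smul, nsq_smul, dot_comm (zt s η) ξ]
  ring

theorem nsq_zt {s : ℝ} (hs : 0 ≤ s) (η : Vec d) : nsq (zt s η) = len η ^ (2 + 4 * s) := by
  unfold zt
  rw [nsq_smul, ← len_sq η]
  have h0 := len_nonneg η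
  rw [← Real.rpow_natCast (len η ^ (2 * s)) 2, ← Real.rpow_mul h0, ← Real.rpow_natCast (len η) 2,
    ← Real.rpow_add_of_nonneg h0 (by positivity) (by positivity)]
  congr 1
  push_cast
  ring

theorem len_zt {s : ℝ} (hs : 0 ≤ s) (η : Vec d) : len (zt s η) = len η ^ (1 + 2 * s) := by
  unfold zt
  have h0 := len_nonneg η
  rw [len_smul (Real.rpow_nonneg h0 _), add_comm, Real.rpow_add_of_nonneg h0 (by linarith) zero_le_one,
    Real.rpow_one]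

theorem Qt_ge {s : ℝ} (hs : 0 ≤ s) (ξ η : Vec d) : nsq ξ + len η ^ (2 + 4 * s) ≤ 2 * Qt s ξ η := by
  rw [← nsq_zt hs]
  have h1 := nsq_nn (ξ - zt s η)
  rw [nsq_sub] at h1
  unfold Qt
  linarith

theorem Qt_le {s : ℝ} (hs : 0 ≤ s) (ξ η : Vec d) :
    Qt s ξ η ≤ 3 / 2 * (nsq ξ + len η ^ (2 + 4 * s)) := by
  rw [← nsq_zt hs]
  have h1 := nsq_nn (ξ + zt s η)
  rw [nsq_add] at h1
  unfold Qt
  linarith

theorem Qt_nonneg {s : ℝ} (hs : 0 ≤ s) (ξ η : Vec d) : 0 ≤ Qt s ξ η := by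
  have h1 := Qt_ge hs ξ η
  have h2 := nsq_nn ξ
  have h3 := Real.rpow_nonneg (len_nonneg η) (2 + 4 * s)
  linarith

theorem Qt_pos {s : ℝ} (hs : 0 ≤ s) {ξ η : Vec d} (h : ¬ (ξ = 0 ∧ η = 0)) : 0 < Qt s ξ η := by
  have h1 := Qt_ge hs ξ η
  have h2 := nsq_nn ξ
  have h3 := Real.rpow_nonneg (len_nonneg η) (2 + 4 * s)
  by_cases hξ : ξ = 0
  · have hη : η ≠ 0 := fun hη => h ⟨hξ, hη⟩
    have h4 := Real.rpow_pos_of_pos (len_pos hη) (2 + 4 * s)
    linarith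
  · have h4 : 0 < nsq ξ := by
      rw [← len_sq]
      exact pow_pos (len_pos hξ) 2
    linarith

theorem zt_neg (s : ℝ) (η : Vec d) : zt s (-η) = -zt s η := by
  unfold zt
  rw [len_neg, smul_neg]

theorem Qt_neg (s : ℝ) (ξ η : Vec d) : Qt s (-ξ) (-η) = Qt s ξ η := by
  unfold Qt
  rw [zt_neg, sq_neg, sq_neg, dot_neg, dot_comm (-ξ), dot_neg, dot_comm ξ]
  ring

theorem Mt_neg (s α lam : ℝ) (ξ η : Vec d) : Mt s α lam (-ξ) (-η) = Mt s α lam ξ η := by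
  unfold Mt
  rw [smul_neg, Qt_neg]

theorem rt_neg (s lam : ℝ) (ξ η : Vec d) : rt s lam (-ξ) (-η) = rt s lam ξ η := by
  unfold rt
  rw [smul_neg, Qt_neg]

theorem dMt_neg (s α lam : ℝ) (ξ η : Vec d) : dMt s α lam (-ξ) (-η) = dMt s α lam ξ η := by
  unfold dMt
  rw [smul_neg, Qt_neg, zt_neg, dot_neg, dot_neg, dot_comm (-ξ), dot_neg, dot_comm (-zt s (lam • η)),
    dot_neg, dot_comm η ξ, dot_comm η (zt s (lam • η))]
  simp only [neg_neg]

theorem zt_cont {s : ℝ} (hs : 0 < s) : Continuous (zt s : Vec d → Vec d) := by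
  unfold zt
  exact (continuous_len.rpow_const fun _ => Or.inr (by linarith)).smul continuous_id

theorem Qt_cont {s : ℝ} (hs : 0 < s) : Continuous fun q : Vec d × Vec d => Qt s q.1 q.2 := by
  have h1 : Continuous (nsq : Vec d → ℝ) := continuous_sq
  have h2 := (zt_cont (d := d) hs).comp (continuous_snd (X := Vec d) (Y := Vec d))
  have h3 : Continuous fun q : Vec d × Vec d => dot q.1 (zt s q.2) := by
    unfold dot
    refine continuous_finsetSum _ fun i _ => ?_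
    exact ((continuous_apply i).comp continuous_fst).mul ((continuous_apply i).comp h2)
  exact ((h1.comp continuous_fst).sub h3).add (h1.comp h2)

theorem Mt_cont {s α : ℝ} (hs : 0 < s) (hα : 0 < α) (lam : ℝ) :
    Continuous fun q : Vec d × Vec d => Mt s α lam q.1 q.2 := by
  have h1 : Continuous fun q : Vec d × Vec d => (q.1, lam • q.2) :=
    continuous_fst.prodMk (continuous_snd.const_smul lam)
  have h2 := (Qt_cont (d := d) hs).comp h1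
  exact h2.rpow_const fun _ => Or.inr (by positivity)

theorem Mt_nonneg {s : ℝ} (hs : 0 ≤ s) (α lam : ℝ) (ξ η : Vec d) : 0 ≤ Mt s α lam ξ η := by
  exact Real.rpow_nonneg (Qt_nonneg hs _ _) _

theorem Mt_zero {s α : ℝ} (hs : 0 < s) (hα : 0 < α) (lam : ℝ) : Mt s α lam (0 : Vec d) 0 = 0 := by
  have h1 : Qt s (0 : Vec d) (lam • (0 : Vec d)) = 0 := by
    rw [smul_zero]
    have h2 := Qt_le hs.le (0 : Vec d) 0
    have h3 := Qt_nonneg hs.le (0 : Vec d) 0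
    have h4 : nsq (0 : Vec d) = 0 := by simp [nsq]
    rw [h4, len_zero, Real.zero_rpow (by positivity)] at h2
    linarith
  unfold Mt
  rw [h1, Real.zero_rpow (by positivity)]

theorem rt_pos {s lam : ℝ} {ξ η : Vec d} (h : 0 < Qt s ξ (lam • η)) : 0 < rt s lam ξ η := by
  exact Real.rpow_pos_of_pos h _

theorem Mt_rt {s : ℝ} (hs : 0 ≤ s) (α lam : ℝ) (ξ η : Vec d) :
    Mt s α lam ξ η = rt s lam ξ η ^ α := by
  unfold Mt rt
  rw [← Real.rpow_mul (Qt_nonneg hs _ _)]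
  congr 1
  ring

theorem len_le_rt {s lam : ℝ} (hs : 0 ≤ s) (hl : 0 ≤ lam) (ξ η : Vec d) :
    lam * len η ≤ 2 * rt s lam ξ η ∧ len ξ ≤ 2 * rt s lam ξ η ^ (1 + 2 * s) := by
  have hq := Qt_nonneg hs ξ (lam • η)
  have hr : 0 ≤ rt s lam ξ η := Real.rpow_nonneg hq _
  have h1 := Qt_ge hs ξ (lam • η)
  have h2 := nsq_nn ξ
  have h3 : 0 ≤ len (lam • η) ^ (2 + 4 * s) := Real.rpow_nonneg (len_nonneg _) _
  have hp : 0 < 2 + 4 * s := by linarith
  have h4 : rt s lam ξ η ^ (2 + 4 * s) = Qt s ξ (lam • η) := by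
    unfold rt
    rw [← Real.rpow_mul hq, one_div_mul_cancel hp.ne', Real.rpow_one]
  constructor
  · rw [← len_smul hl]
    have h5 : len (lam • η) ^ (2 + 4 * s) ≤ (2 * rt s lam ξ η) ^ (2 + 4 * s) := by
      rw [Real.mul_rpow zero_le_two hr, h4]
      have h6 : (2 : ℝ) ≤ 2 ^ (2 + 4 * s) := by
        have := Real.rpow_le_rpow_of_exponent_le (x := 2) (y := 1) (z := 2 + 4 * s) one_le_two
          (by linarith)
        rwa [Real.rpow_one] at this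
      have h7 := mul_le_mul_of_nonneg_right h6 hq
      linarith
    exact (Real.rpow_le_rpow_iff (len_nonneg _) (by positivity) hp).1 h5
  · have h5 : len ξ ^ 2 ≤ (2 * rt s lam ξ η ^ (1 + 2 * s)) ^ 2 := by
      rw [len_sq, mul_pow, ← Real.rpow_natCast (rt s lam ξ η ^ (1 + 2 * s)) 2, ← Real.rpow_mul hr]
      have h6 : (1 + 2 * s) * ((2 : ℕ) : ℝ) = 2 + 4 * s := by push_cast; ring
      rw [h6, h4]
      linarith
    exact le_of_sq_le_sq h5 (by positivity)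

theorem Mt_ge {s α lam : ℝ} (hs : 0 ≤ s) (hα : 0 ≤ α) (hα2 : α ≤ 2) (hl : 0 ≤ lam) (ξ η : Vec d) :
    (lam * len η) ^ α ≤ 2 * Mt s α lam ξ η := by
  have hq := Qt_nonneg hs ξ (lam • η)
  have h1 := Qt_ge hs ξ (lam • η)
  have h2 := nsq_nn ξ
  have hp : 0 < 2 + 4 * s := by linarith
  have h3 : len (lam • η) ^ (2 + 4 * s) ≤ 2 * Qt s ξ (lam • η) := by linarith
  have h4 : len (lam • η) ^ α ≤ (2 * Qt s ξ (lam • η)) ^ (α / (2 + 4 * s)) := by
    have h5 := Real.rpow_le_rpow (Real.rpow_nonneg (len_nonneg _) _) h3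
      (div_nonneg hα hp.le)
    rw [← Real.rpow_mul (len_nonneg _), mul_div_cancel₀ _ hp.ne'] at h5
    exact h5
  rw [← len_smul hl]
  refine h4.trans ?_
  rw [Real.mul_rpow zero_le_two hq]
  have h6 : (2 : ℝ) ^ (α / (2 + 4 * s)) ≤ 2 := by
    have h7 : α / (2 + 4 * s) ≤ 1 := by
      rw [div_le_one hp]
      linarith
    have := Real.rpow_le_rpow_of_exponent_le (x := 2) one_le_two h7
    rwa [Real.rpow_one] at this
  exact mul_le_mul_of_nonneg_right h6 (Mt_nonneg hs α lam ξ η)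

theorem Mt_big {s α lam ϱ : ℝ} (hs : 0 ≤ s) (hα : 0 < α) (hl : 0 < lam) (hϱ : 0 < ϱ) :
    ∃ c > 0, ∀ ξ η : Vec d, ϱ ≤ nsq ξ + nsq η → c ≤ Mt s α lam ξ η := by
  have hp : 0 < 2 + 4 * s := by linarith
  have hm : 0 < (lam * Real.sqrt (ϱ / 2)) ^ (2 + 4 * s) :=
    Real.rpow_pos_of_pos (mul_pos hl (Real.sqrt_pos.2 (by linarith))) _
  refine ⟨(min (ϱ / 4) ((lam * Real.sqrt (ϱ / 2)) ^ (2 + 4 * s) / 2)) ^ (α / (2 + 4 * s)),
    Real.rpow_pos_of_pos (lt_min (by linarith) (by linarith)) _, fun ξ η h => ?_⟩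
  refine Real.rpow_le_rpow (lt_min (by linarith) (by linarith)).le ?_ (by positivity)
  have h1 := Qt_ge hs ξ (lam • η)
  have h2 := nsq_nn ξ
  have h3 : 0 ≤ len (lam • η) ^ (2 + 4 * s) := Real.rpow_nonneg (len_nonneg _) _
  rcases le_total (ϱ / 2) (nsq ξ) with h4 | h4
  · refine (min_le_left _ _).trans ?_
    linarith
  · refine (min_le_right _ _).trans ?_
    have h5 : Real.sqrt (ϱ / 2) ≤ len η := Real.sqrt_le_sqrt (by linarith)
    have h6 : (lam * Real.sqrt (ϱ / 2)) ^ (2 + 4 * s) ≤ len (lam • η) ^ (2 + 4 * s) := by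
      rw [len_smul hl.le]
      exact Real.rpow_le_rpow (by positivity) (mul_le_mul_of_nonneg_left h5 hl.le) hp.le
    linarith

theorem Mt_small {s α lam e : ℝ} (hs : 0 < s) (hα : 0 < α) (hl : 0 < lam) (he : 0 < e) :
    ∃ ϱ > 0, ∀ ξ η : Vec d, nsq ξ + nsq η ≤ ϱ → Mt s α lam ξ η ≤ e := by
  have h1 := (Mt_cont (d := d) hs hα lam).tendsto ((0 : Vec d), (0 : Vec d))
  rw [Metric.tendsto_nhds_nhds] at h1
  obtain ⟨δ, hδ, h2⟩ := h1 e he
  refine ⟨(δ / 2) ^ 2, by positivity, fun ξ η h => ?_⟩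
  have h3 : ∀ z : Vec d, nsq z ≤ (δ / 2) ^ 2 → ‖z‖ < δ := by
    intro z hz
    rw [← len_sq] at hz
    have h4 := le_of_sq_le_sq hz (by positivity)
    linarith [norm_le_len z]
  have h5 := h3 ξ (by linarith [nsq_nn η])
  have h6 := h3 η (by linarith [nsq_nn ξ])
  have h7 : dist (ξ, η) ((0 : Vec d), (0 : Vec d)) < δ := by
    rw [Prod.dist_eq, max_lt_iff, dist_zero_right, dist_zero_right]
    exact ⟨h5, h6⟩
  have h8 := h2 h7
  simp only [Mt_zero hs hα, dist_zero_right] at h8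
  rw [Real.norm_eq_abs] at h8
  exact ((le_abs_self _).trans h8.le)

end Pool.Agent.H48.NE
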