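import Pool.Agent.H48.NE.Defs

/-!
# Module ZtL: the map `ζ(η) = |η|^(2s) η`

`zt_lip` (`0 < 2s < 1`): let `|a| ≥ |b|` (symmetric in `a, b`); `ζ(a) - ζ(b) = |a|^(2s) (a-b) + (|a|^(2s)-|b|^(2s)) b`; if `b ≠ 0`, by concavity of `t ↦ t^(2s)` (Bernoulli `Real.one_add_mul_self_le..`, or `Real.rpow_le_rpow..`: with
`x = |a|/|b| ≥ 1`, `x^(2s) - 1 ≤ 2s (x - 1)`: `Real.rpow_one_add_le_one_add_mul_self`), `|b| (|a|^(2s)-|b|^(2s)) ≤ 2s |b|^(2s) (|a|-|b|) ≤ |a|^(2s) |a-b|` (`len_le_add_sub`-type triangle inequality). Sum: `≤ 2 |a|^(2s) |a-b|`; `|a| ≤ |a| + |b|`.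
`zt_surj`: `w ≠ 0`: `η = |w|^(-2s/(1+2s)) w`, `|η| = |w|^(1/(1+2s))`, `ζ(η) = |w|^(2s/(1+2s)) |w|^(-2s/(1+2s)) w = w`; `w = 0`: `η = 0`. -/

set_option autoImplicit false

open MeasureTheory Set Filter Topology Pool.Agent.H25.Kin Pool.Agent.H48.PL Pool.Agent.H48.PD
open Pool.Agent.H82.BK Pool.Agent.H82.CM Pool.Agent.H48.PR

namespace Pool.Agent.H48.NE

variable {d : ℕ}

/-- the elementary inequality -/
private lemma ztL_num {al x y : ℝ} (h1 : al ≤ 1) (hy : 0 ≤ y) (hxy : y ≤ x) :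
    (x ^ al - y ^ al) * y ≤ x ^ al * (x - y) := by
  rcases hy.eq_or_lt with h | h
  · subst h
    rw [mul_zero, sub_zero]
    exact mul_nonneg (Real.rpow_nonneg hxy _) hxy
  · have hx : 0 < x := h.trans_le hxy
    have e1 : y ^ al * y ^ (1 - al) = y := by
      rw [← Real.rpow_add h, add_sub_cancel, Real.rpow_one]
    have e2 : x ^ al * x ^ (1 - al) = x := by
      rw [← Real.rpow_add hx, add_sub_cancel, Real.rpow_one]
    have h2 : y ^ (1 - al) ≤ x ^ (1 - al) := Real.rpow_le_rpow hy hxy (by linarith)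
    have hxa : 0 < x ^ al := Real.rpow_pos_of_pos hx _
    have hya : 0 < y ^ al := Real.rpow_pos_of_pos h _
    have h3 : x ^ al * y ≤ x * y ^ al := by
      calc x ^ al * y = x ^ al * y ^ al * y ^ (1 - al) := by rw [mul_assoc, e1]
        _ ≤ x ^ al * y ^ al * x ^ (1 - al) := mul_le_mul_of_nonneg_left h2 (by positivity)
        _ = x ^ al * x ^ (1 - al) * y ^ al := by ring
        _ = x * y ^ al := by rw [e2]
    have h4 : 0 ≤ x * (x ^ al * (x - y) - (x ^ al - y ^ al) * y) := by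
      have h5 := mul_le_mul_of_nonneg_right h3 hy
      have h6 : 0 ≤ x ^ al * (x - y) ^ 2 := by positivity
      nlinarith
    have h7 := nonneg_of_mul_nonneg_right h4 hx
    linarith

private lemma ztL_aux {s : ℝ} (hs : 0 < s) (hs1 : 2 * s < 1) (a b : Vec d) (hab : len b ≤ len a) :
    len (zt s a - zt s b) ≤ 2 * (len a + len b) ^ (2 * s) * len (a - b) := by
  have ha := len_nonneg a
  have hb := len_nonneg b
  have hl := len_nonneg (a - b)
  have hr : len b ^ (2 * s) ≤ len a ^ (2 * s) := Real.rpow_le_rpow hb hab (by linarith)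
  have ha2 : 0 ≤ len a ^ (2 * s) := Real.rpow_nonneg ha _
  have e1 : zt s a - zt s b =
      len a ^ (2 * s) • (a - b) + (len a ^ (2 * s) - len b ^ (2 * s)) • b := by
    unfold zt
    rw [smul_sub, sub_smul]
    abel
  have h1 := ztL_num (al := 2 * s) hs1.le hb hab
  have h2 : len a - len b ≤ len (a - b) := by linarith [len_le_add_sub a b]
  have h3 : len a ^ (2 * s) ≤ (len a + len b) ^ (2 * s) :=
    Real.rpow_le_rpow ha (by linarith) (by linarith)
  calc len (zt s a - zt s b)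
      ≤ len (len a ^ (2 * s) • (a - b)) + len ((len a ^ (2 * s) - len b ^ (2 * s)) • b) := by
        rw [e1]
        exact len_add_le _ _
    _ = len a ^ (2 * s) * len (a - b) + (len a ^ (2 * s) - len b ^ (2 * s)) * len b := by
        rw [len_smul ha2, len_smul (sub_nonneg.2 hr)]
    _ ≤ len a ^ (2 * s) * len (a - b) + len a ^ (2 * s) * (len a - len b) := by linarith
    _ ≤ len a ^ (2 * s) * len (a - b) + len a ^ (2 * s) * len (a - b) := by
        have := mul_le_mul_of_nonneg_left h2 ha2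
        linarith
    _ = 2 * len a ^ (2 * s) * len (a - b) := by ring
    _ ≤ 2 * (len a + len b) ^ (2 * s) * len (a - b) := by
        refine mul_le_mul_of_nonneg_right ?_ hl
        linarith

theorem zt_lip {s : ℝ} (hs : 0 < s) (hs1 : 2 * s < 1) (a b : Vec d) :
    len (zt s a - zt s b) ≤ 2 * (len a + len b) ^ (2 * s) * len (a - b) := by
  rcases le_total (len b) (len a) with h | h
  · exact ztL_aux hs hs1 a b h
  · have h1 := ztL_aux hs hs1 b a h
    rw [len_comm (zt s a), len_comm a, add_comm (len a)]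
    exact h1

theorem zt_surj {s : ℝ} (hs : 0 < s) (w : Vec d) :
    ∃ η : Vec d, zt s η = w ∧ len η = len w ^ (1 / (1 + 2 * s)) := by
  have h0 : 0 < 1 + 2 * s := by linarith
  rcases eq_or_ne w 0 with rfl | hw
  · refine ⟨0, ?_, ?_⟩
    · unfold zt
      rw [smul_zero]
    · rw [len_zero, Real.zero_rpow (by positivity)]
  · have hL : 0 < len w := len_pos hw
    have e0 : len (len w ^ (-(2 * s) / (1 + 2 * s)) • w) = len w ^ (1 / (1 + 2 * s)) := by
      rw [len_smul (Real.rpow_nonneg hL.le _)]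
      nth_rewrite 2 [← Real.rpow_one (len w)]
      rw [← Real.rpow_add hL]
      congr 1
      field_simp
      ring
    refine ⟨len w ^ (-(2 * s) / (1 + 2 * s)) • w, ?_, e0⟩
    unfold zt
    rw [e0, smul_smul, ← Real.rpow_mul hL.le, ← Real.rpow_add hL]
    have e2 : 1 / (1 + 2 * s) * (2 * s) + -(2 * s) / (1 + 2 * s) = 0 := by
      field_simp
      ring
    rw [e2, Real.rpow_zero, one_smul]

end Pool.Agent.H48.NE
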