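import Pool.Agent.H48.NE.BarA
import Pool.Agent.H48.NE.ZtL

/-!
# Module BarB: growth of the modulus

`Mt(ξ, η+h) ≤ Mt(ξ,η) + C min(r^(α-1) λ|h|, (λ|h|)^α)`, `r = rt(ξ,η) > 0`. PROOF. Replace `η, h` by `λη, λh` (`lam • (η+h) = lam • η + lam • h`, `len (lam • h) = lam * len h`), so `λ = 1`; `E = 2+4s`, `Θ = Qt(ξ,η) = r^E`, `|η| ≤ 2r`, `|ξ| ≤ 2 r^(1+2s)` (`len_le_rt`).
(a) `r ≤ 2|h|`: `Qt(ξ,η+h) ≤ 3/2 (|ξ|² + |η+h|^E) ≤ C (r^E + |h|^E) ≤ C |h|^E`, so `Mt ≤ C |h|^α`; `pf = min(r^(α-1)|h|, |h|^α) ≥ 2^(α-1) |h|^α ≥ |h|^α/2` since `r^(α-1) ≥ (2|h|)^(α-1)`.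
(b) `2|h| < r`: `|Qt(ξ,η+h) - Qt(ξ,η)| = |-ξ·(ζ'-ζ) + (ζ'+ζ)·(ζ'-ζ)| ≤ (|ξ|+|ζ|+|ζ'|) |ζ'-ζ|` (`ζ = ζ(η)`, `ζ' = ζ(η+h)`), `|ζ|, |ζ'| ≤ (3r)^(1+2s)`, `|ζ'-ζ| ≤ 2 (6r)^(2s) |h|` (`zt_lip`), so `≤ C r^(1+4s) |h|`. With `x = Θ`, `y = Qt(ξ,η+h)`, `θ = α/E ≤ 1`:
`y^θ - x^θ ≤ θ x^(θ-1) (y-x)` (concavity, `y ≥ x`; if `y < x` trivial: `(y/x)^θ ≤ 1 + θ (y/x - 1)`, `Real.rpow_one_add_le_one_add_mul_self` with `-1 ≤ y/x - 1`) `≤ C r^(E(θ-1)) r^(1+4s) |h| = C r^(α-1) |h|`; and `r^(α-1)|h| ≤ |h|^α` since `|h| ≤ r`, so `pf = r^(α-1) |h|`. -/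

set_option autoImplicit false

open MeasureTheory Set Filter Topology Pool.Agent.H25.Kin Pool.Agent.H48.PL Pool.Agent.H48.PD
open Pool.Agent.H82.BK Pool.Agent.H82.CM Pool.Agent.H48.PR

namespace Pool.Agent.H48.NE

variable {d : ℕ}

private lemma barB_dot_le (u v : Vec d) : dot u v ≤ len u * len v := by
  have h1 := dot_sq_le u v
  rw [← len_sq, ← len_sq, ← mul_pow] at h1
  exact (le_abs_self _).trans ((sq_le_sq₀ (abs_nonneg _)
    (mul_nonneg (len_nonneg _) (len_nonneg _))).1 (by rwa [sq_abs]))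

private lemma barB_diff (s : ℝ) (ξ a b : Vec d) :
    Qt s ξ b - Qt s ξ a = dot (-ξ + (zt s a + zt s b)) (zt s b - zt s a) := by
  unfold Qt
  rw [← dot_self (zt s b), ← dot_self (zt s a), dot_comm (-ξ + (zt s a + zt s b)), dot_add,
    dot_add, dot_neg, dot_comm (zt s b - zt s a) ξ, dot_comm (zt s b - zt s a) (zt s a),
    dot_comm (zt s b - zt s a) (zt s b), dot_sub, dot_sub, dot_sub, dot_comm (zt s b) (zt s a)]
  ring

/-- the core with `λ = 1` -/
private lemma barB_core {s α : ℝ} (hs : 0 < s) (hs1 : 2 * s < 1) (hα : 0 < α) (hα1 : α < 1)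
    (ξ η h : Vec d) {r : ℝ} (hr : 0 < r) (hQ : Qt s ξ η = r ^ (2 + 4 * s)) (hη : len η ≤ 2 * r)
    (hξ : len ξ ≤ 2 * r ^ (1 + 2 * s)) :
    Qt s ξ (η + h) ^ (α / (2 + 4 * s)) ≤ r ^ α + 10000 * pf α r (len h) := by
  have hE : 0 < 2 + 4 * s := by linarith
  have hE4 : 2 + 4 * s ≤ 4 := by linarith
  have hL := len_nonneg h
  have hth : 0 ≤ α / (2 + 4 * s) := by positivity
  have hth1 : α / (2 + 4 * s) ≤ 1 := by
    rw [div_le_one hE]
    linarith
  have hQ0 : 0 ≤ Qt s ξ (η + h) := Qt_nonneg hs.le _ _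
  by_cases hc : r ≤ 2 * len h
  · -- case (a)
    have hLp : 0 < len h := by linarith
    have h1 : len (η + h) ≤ 5 * len h := (len_add_le η h).trans (by linarith)
    have h2 : len (η + h) ^ (2 + 4 * s) ≤ 625 * len h ^ (2 + 4 * s) := by
      calc len (η + h) ^ (2 + 4 * s) ≤ (5 * len h) ^ (2 + 4 * s) :=
            Real.rpow_le_rpow (len_nonneg _) h1 hE.le
        _ = (5 : ℝ) ^ (2 + 4 * s) * len h ^ (2 + 4 * s) :=
            Real.mul_rpow (by norm_num) hL
        _ ≤ 625 * len h ^ (2 + 4 * s) := by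
            refine mul_le_mul_of_nonneg_right ?_ (Real.rpow_nonneg hL _)
            calc (5 : ℝ) ^ (2 + 4 * s) ≤ (5 : ℝ) ^ (4 : ℝ) :=
                  Real.rpow_le_rpow_of_exponent_le (by norm_num) hE4
              _ = 625 := by
                  rw [show (4 : ℝ) = ((4 : ℕ) : ℝ) by norm_num, Real.rpow_natCast]
                  norm_num
    have h3 : nsq ξ ≤ 64 * len h ^ (2 + 4 * s) := by
      rw [← len_sq]
      have h4 : r ^ (1 + 2 * s) ≤ (2 * len h) ^ (1 + 2 * s) :=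
        Real.rpow_le_rpow hr.le hc (by linarith)
      have h5 : len ξ ^ 2 ≤ (2 * (2 * len h) ^ (1 + 2 * s)) ^ 2 :=
        pow_le_pow_left₀ (len_nonneg _) (hξ.trans (by linarith)) 2
      have h6 : (2 * (2 * len h) ^ (1 + 2 * s)) ^ 2 = 4 * (2 * len h) ^ (2 + 4 * s) := by
        rw [mul_pow, ← Real.rpow_natCast ((2 * len h) ^ (1 + 2 * s)) 2,
          ← Real.rpow_mul (by positivity)]
        congr 1
        · norm_num
        · congr 1
          push_cast
          ring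
      have h7 : (2 * len h) ^ (2 + 4 * s) ≤ 16 * len h ^ (2 + 4 * s) := by
        rw [Real.mul_rpow (by norm_num) hL]
        refine mul_le_mul_of_nonneg_right ?_ (Real.rpow_nonneg hL _)
        calc (2 : ℝ) ^ (2 + 4 * s) ≤ (2 : ℝ) ^ (4 : ℝ) :=
              Real.rpow_le_rpow_of_exponent_le (by norm_num) hE4
          _ = 16 := by
              rw [show (4 : ℝ) = ((4 : ℕ) : ℝ) by norm_num, Real.rpow_natCast]
              norm_num
      linarith
    have h8 : Qt s ξ (η + h) ≤ 1100 * len h ^ (2 + 4 * s) := by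
      have h9 := Qt_le hs.le ξ (η + h)
      have h10 : 0 ≤ len h ^ (2 + 4 * s) := Real.rpow_nonneg hL _
      linarith
    have h11 : Qt s ξ (η + h) ^ (α / (2 + 4 * s)) ≤ 1100 * len h ^ α := by
      calc Qt s ξ (η + h) ^ (α / (2 + 4 * s))
          ≤ (1100 * len h ^ (2 + 4 * s)) ^ (α / (2 + 4 * s)) := Real.rpow_le_rpow hQ0 h8 hth
        _ = (1100 : ℝ) ^ (α / (2 + 4 * s)) * (len h ^ (2 + 4 * s)) ^ (α / (2 + 4 * s)) :=
            Real.mul_rpow (by norm_num) (Real.rpow_nonneg hL _)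
        _ = (1100 : ℝ) ^ (α / (2 + 4 * s)) * len h ^ α := by
            rw [← Real.rpow_mul hL, mul_div_cancel₀ _ hE.ne']
        _ ≤ 1100 * len h ^ α := by
            refine mul_le_mul_of_nonneg_right ?_ (Real.rpow_nonneg hL _)
            calc (1100 : ℝ) ^ (α / (2 + 4 * s)) ≤ (1100 : ℝ) ^ (1 : ℝ) :=
                  Real.rpow_le_rpow_of_exponent_le (by norm_num) hth1
              _ = 1100 := Real.rpow_one _
    have h12 : len h ^ α / 2 ≤ pf α r (len h) := by
      unfold pf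
      refine le_min ?_ (by linarith [Real.rpow_nonneg hL α])
      have h13 : (2 * len h) ^ (α - 1) ≤ r ^ (α - 1) :=
        Real.rpow_le_rpow_of_nonpos hr hc (by linarith)
      have h14 : len h ^ α / 2 ≤ (2 * len h) ^ (α - 1) * len h := by
        rw [Real.mul_rpow (by norm_num) hL, mul_assoc]
        have h15 : len h ^ (α - 1) * len h = len h ^ α := by
          nth_rewrite 2 [← Real.rpow_one (len h)]
          rw [← Real.rpow_add hLp]
          congr 1
          ring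
        rw [h15]
        have h16 : (1 : ℝ) / 2 ≤ (2 : ℝ) ^ (α - 1) := by
          calc (1 : ℝ) / 2 = (2 : ℝ) ^ (-1 : ℝ) := by rw [Real.rpow_neg_one]; norm_num
            _ ≤ (2 : ℝ) ^ (α - 1) :=
                Real.rpow_le_rpow_of_exponent_le (by norm_num) (by linarith)
        have h17 := mul_le_mul_of_nonneg_right h16 (Real.rpow_nonneg hL α)
        linarith
      exact h14.trans (mul_le_mul_of_nonneg_right h13 hL)
    have h18 : 0 ≤ r ^ α := Real.rpow_nonneg hr.le _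
    have h19 : 0 ≤ len h ^ α := Real.rpow_nonneg hL _
    linarith
  · -- case (b)
    push Not at hc
    have hx : 0 < r ^ (2 + 4 * s) := Real.rpow_pos_of_pos hr _
    have hpf : pf α r (len h) = r ^ (α - 1) * len h := by
      unfold pf
      refine min_eq_left ?_
      rcases hL.eq_or_lt with h0 | h0
      · rw [← h0, mul_zero]
        exact Real.rpow_nonneg le_rfl _
      · have h1 : r ^ (α - 1) ≤ len h ^ (α - 1) :=
          Real.rpow_le_rpow_of_nonpos h0 (by linarith) (by linarith)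
        calc r ^ (α - 1) * len h ≤ len h ^ (α - 1) * len h := mul_le_mul_of_nonneg_right h1 hL
          _ = len h ^ α := by
              nth_rewrite 2 [← Real.rpow_one (len h)]
              rw [← Real.rpow_add h0]
              congr 1
              ring
    rw [hpf]
    have hxr : (r ^ (2 + 4 * s)) ^ (α / (2 + 4 * s)) = r ^ α := by
      rw [← Real.rpow_mul hr.le, mul_div_cancel₀ _ hE.ne']
    rcases le_total (Qt s ξ (η + h)) (r ^ (2 + 4 * s)) with hle | hle
    · have h1 := Real.rpow_le_rpow hQ0 hle hth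
      rw [hxr] at h1
      have h2 : 0 ≤ r ^ (α - 1) * len h := mul_nonneg (Real.rpow_nonneg hr.le _) hL
      linarith
    · -- the difference of the forms
      have hlen : len (η + h) ≤ 3 * r := (len_add_le η h).trans (by linarith)
      have hR : 0 ≤ r ^ (1 + 2 * s) := Real.rpow_nonneg hr.le _
      have h9 : (3 : ℝ) ^ (1 + 2 * s) ≤ 9 := by
        calc (3 : ℝ) ^ (1 + 2 * s) ≤ (3 : ℝ) ^ (2 : ℝ) :=
              Real.rpow_le_rpow_of_exponent_le (by norm_num) (by linarith)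
          _ = 9 := by norm_num
      have hz1 : len (zt s (η + h)) ≤ 9 * r ^ (1 + 2 * s) := by
        rw [len_zt hs.le]
        calc len (η + h) ^ (1 + 2 * s) ≤ (3 * r) ^ (1 + 2 * s) :=
              Real.rpow_le_rpow (len_nonneg _) hlen (by linarith)
          _ = (3 : ℝ) ^ (1 + 2 * s) * r ^ (1 + 2 * s) := Real.mul_rpow (by norm_num) hr.le
          _ ≤ 9 * r ^ (1 + 2 * s) := mul_le_mul_of_nonneg_right h9 hR
      have hz0 : len (zt s η) ≤ 9 * r ^ (1 + 2 * s) := by
        rw [len_zt hs.le]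
        calc len η ^ (1 + 2 * s) ≤ (3 * r) ^ (1 + 2 * s) :=
              Real.rpow_le_rpow (len_nonneg _) (by linarith) (by linarith)
          _ = (3 : ℝ) ^ (1 + 2 * s) * r ^ (1 + 2 * s) := Real.mul_rpow (by norm_num) hr.le
          _ ≤ 9 * r ^ (1 + 2 * s) := mul_le_mul_of_nonneg_right h9 hR
      have hd : len (zt s (η + h) - zt s η) ≤ 12 * r ^ (2 * s) * len h := by
        have h1 := zt_lip hs hs1 (η + h) η
        rw [add_sub_cancel_left] at h1
        refine h1.trans (mul_le_mul_of_nonneg_right ?_ hL)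
        have h2 : (len (η + h) + len η) ^ (2 * s) ≤ (6 * r) ^ (2 * s) :=
          Real.rpow_le_rpow (add_nonneg (len_nonneg _) (len_nonneg _)) (by linarith) (by linarith)
        have h3 : (6 * r) ^ (2 * s) = (6 : ℝ) ^ (2 * s) * r ^ (2 * s) :=
          Real.mul_rpow (by norm_num) hr.le
        have h4 : (6 : ℝ) ^ (2 * s) ≤ 6 := by
          calc (6 : ℝ) ^ (2 * s) ≤ (6 : ℝ) ^ (1 : ℝ) :=
                Real.rpow_le_rpow_of_exponent_le (by norm_num) hs1.le
            _ = 6 := Real.rpow_one _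
        have h5 := mul_le_mul_of_nonneg_right h4 (Real.rpow_nonneg hr.le (2 * s))
        linarith
      have hsum : len (-ξ + (zt s η + zt s (η + h))) ≤ 20 * r ^ (1 + 2 * s) := by
        have h1 := len_add_le (-ξ) (zt s η + zt s (η + h))
        have h2 := len_add_le (zt s η) (zt s (η + h))
        rw [len_neg] at h1
        linarith
      have hdiff : Qt s ξ (η + h) - r ^ (2 + 4 * s) ≤ 240 * (r ^ (1 + 4 * s) * len h) := by
        rw [← hQ, barB_diff]
        refine (barB_dot_le _ _).trans ?_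
        calc len (-ξ + (zt s η + zt s (η + h))) * len (zt s (η + h) - zt s η)
            ≤ (20 * r ^ (1 + 2 * s)) * (12 * r ^ (2 * s) * len h) :=
              mul_le_mul hsum hd (len_nonneg _) (by positivity)
          _ = 240 * ((r ^ (1 + 2 * s) * r ^ (2 * s)) * len h) := by ring
          _ = 240 * (r ^ (1 + 4 * s) * len h) := by
              rw [← Real.rpow_add hr]
              congr 3
              ring
      -- concavity
      have hcon : Qt s ξ (η + h) ^ (α / (2 + 4 * s)) ≤ r ^ α *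
          (1 + α / (2 + 4 * s) * ((Qt s ξ (η + h) - r ^ (2 + 4 * s)) / r ^ (2 + 4 * s))) := by
        have h1 : -1 ≤ (Qt s ξ (η + h) - r ^ (2 + 4 * s)) / r ^ (2 + 4 * s) := by
          have : 0 ≤ (Qt s ξ (η + h) - r ^ (2 + 4 * s)) / r ^ (2 + 4 * s) :=
            div_nonneg (by linarith) hx.le
          linarith
        have h2 := rpow_one_add_le_one_add_mul_self h1 hth hth1
        have h3 : Qt s ξ (η + h) = r ^ (2 + 4 * s) *
            (1 + (Qt s ξ (η + h) - r ^ (2 + 4 * s)) / r ^ (2 + 4 * s)) := by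
          field_simp
          ring
        calc Qt s ξ (η + h) ^ (α / (2 + 4 * s))
            = (r ^ (2 + 4 * s) * (1 + (Qt s ξ (η + h) - r ^ (2 + 4 * s)) /
                r ^ (2 + 4 * s))) ^ (α / (2 + 4 * s)) := by rw [← h3]
          _ = r ^ α * (1 + (Qt s ξ (η + h) - r ^ (2 + 4 * s)) /
                r ^ (2 + 4 * s)) ^ (α / (2 + 4 * s)) := by
              rw [Real.mul_rpow hx.le (by linarith), hxr]
          _ ≤ _ := mul_le_mul_of_nonneg_left h2 (Real.rpow_nonneg hr.le _)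
      have hfin : r ^ α * (α / (2 + 4 * s) * ((Qt s ξ (η + h) - r ^ (2 + 4 * s)) /
          r ^ (2 + 4 * s))) ≤ 240 * (r ^ (α - 1) * len h) := by
        have h1 : (Qt s ξ (η + h) - r ^ (2 + 4 * s)) / r ^ (2 + 4 * s) ≤
            240 * (r ^ (1 + 4 * s) * len h) / r ^ (2 + 4 * s) :=
          div_le_div_of_nonneg_right hdiff hx.le
        have h2 : α / (2 + 4 * s) * ((Qt s ξ (η + h) - r ^ (2 + 4 * s)) / r ^ (2 + 4 * s)) ≤
            1 * (240 * (r ^ (1 + 4 * s) * len h) / r ^ (2 + 4 * s)) :=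
          mul_le_mul hth1 h1 (div_nonneg (by linarith) hx.le) zero_le_one
        have h3 := mul_le_mul_of_nonneg_left h2 (Real.rpow_nonneg hr.le α)
        refine h3.trans (le_of_eq ?_)
        have h4 : r ^ α * (r ^ (1 + 4 * s) / r ^ (2 + 4 * s)) = r ^ (α - 1) := by
          rw [← Real.rpow_sub hr, ← Real.rpow_add hr]
          congr 1
          ring
        calc r ^ α * (1 * (240 * (r ^ (1 + 4 * s) * len h) / r ^ (2 + 4 * s)))
            = 240 * (r ^ α * (r ^ (1 + 4 * s) / r ^ (2 + 4 * s)) * len h) := by ring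
          _ = 240 * (r ^ (α - 1) * len h) := by rw [h4]
      have h2 : 0 ≤ r ^ (α - 1) * len h := mul_nonneg (Real.rpow_nonneg hr.le _) hL
      rw [mul_add, mul_one] at hcon
      linarith

theorem Mt_add {s α : ℝ} (hs : 0 < s) (hs1 : 2 * s < 1) (hα : 0 < α) (hα1 : α < 1) :
    ∃ C : ℝ, 1 ≤ C ∧ ∀ lam : ℝ, 0 < lam → ∀ ξ η h : Vec d, 0 < Qt s ξ (lam • η) →
      Mt s α lam ξ (η + h) ≤ Mt s α lam ξ η + C * pf α (rt s lam ξ η) (lam * len h) := by
  refine ⟨10000, by norm_num, fun lam hl ξ η h hQ => ?_⟩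
  have hE : 0 < 2 + 4 * s := by linarith
  have hr := rt_pos hQ
  obtain ⟨h1, h2⟩ := len_le_rt hs.le hl.le ξ η
  have h3 : Qt s ξ (lam • η) = rt s lam ξ η ^ (2 + 4 * s) := by
    unfold rt
    rw [← Real.rpow_mul hQ.le, one_div_mul_cancel hE.ne', Real.rpow_one]
  have h4 := barB_core hs hs1 hα hα1 ξ (lam • η) (lam • h) hr h3
    (by rw [len_smul hl.le]; exact h1) h2
  rw [Mt_rt hs.le α lam ξ η]
  rw [len_smul hl.le] at h4
  unfold Mt
  rw [smul_add]
  exact h4

end Pool.Agent.H48.NE
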