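import Pool.Agent.H48.NE.BarA
import Pool.Agent.H48.NE.ZtL

/-!
# Module BarC: on target / off target

`λ = 1` first: `dMt s α lam ξ η = lam⁻¹ * dMt s α 1 ξ (lam • η)` (`dot` is linear). Let `E = 2+4s`, `Θ = Qt(ξ,η) = r^E > 0`, `ζ = ζ(η)`, `e = ζ - ξ/2`; `Θ = 3/4 |ξ|² + |e|²` (`Qt_eq`); `dMt = (α/E) Θ^(α/E-1) (2 ξ·η - ζ·η)`.
`dMt_abs`: `|2ξ·η - ζ·η| ≤ |η| (2|ξ|+|ζ|) ≤ C r r^(1+2s)` (`len_le_rt`), `Θ^(α/E-1) = r^(α-E)`, so `|dMt| ≤ C r^(α-2s)`.
DICHOTOMY. (off) `|e|² > Θ/100`: `zt_surj`: `ζ(η₁) = ξ/2`, `q = η - η₁`; `Qt(ξ, η-q) = 3/4 |ξ|² = Θ - |e|² ≤ (99/100) Θ`, so `Mt(ξ,η-q) ≤ (99/100)^(α/E) Mt = Mt - (1 - (99/100)^(α/E)) r^α`; `|q| ≤ |η| + |η₁| ≤ 2r + (|ξ|/2)^(1/(1+2s)) ≤ C r`.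
(on) `|e|² ≤ Θ/100`: `|ξ|² ≥ (4/3)(99/100) Θ ≥ 1.3 Θ`, `|ξ| ≤ 1.16 √Θ`, `|e| ≤ √Θ/10`, so `|ζ| ≤ |ξ|/2 + |e| ≤ √Θ` and `ζ ≠ 0`. `ζ·(2ξ-ζ) = (ξ/2+e)·(3ξ/2-e) = 3/4 |ξ|² + ξ·e - |e|² ≥ (0.99 - 0.116 - 0.01) Θ ≥ Θ/2`.
`η = |η|^(-2s) ζ`, `|η|^(2s) = |ζ|^(2s/(1+2s)) ≤ Θ^(s/(1+2s)) = r^(2s)` (`len_zt`, `|ζ| ≤ √Θ = r^(1+2s)`), so `η·(2ξ-ζ) ≥ r^(-2s) Θ/2 = r^(2+2s)/2` and `dMt ≥ (α/E) r^(α-E) r^(2+2s)/2 = (α/(2E)) r^(α-2s)`. -/

set_option autoImplicit false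

open MeasureTheory Set Filter Topology Pool.Agent.H25.Kin Pool.Agent.H48.PL Pool.Agent.H48.PD
open Pool.Agent.H82.BK Pool.Agent.H82.CM Pool.Agent.H48.PR

namespace Pool.Agent.H48.NE

variable {d : ℕ}

private lemma BarC_dot (u v : Vec d) : |dot u v| ≤ len u * len v := by
  refine abs_le_of_sq_le_sq ?_ (mul_nonneg (len_nonneg _) (len_nonneg _))
  rw [mul_pow, len_sq, len_sq]
  exact dot_sq_le u v

private lemma BarC_eq {s α lam : ℝ} (hs : 0 < s) (hl : 0 < lam) {ξ η : Vec d}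
    (hQ : 0 < Qt s ξ (lam • η)) :
    dMt s α lam ξ η = lam⁻¹ * (α / (2 + 4 * s) * rt s lam ξ η ^ (α - (2 + 4 * s)) *
      (2 * dot ξ (lam • η) - dot (zt s (lam • η)) (lam • η))) := by
  have h1 : rt s lam ξ η ^ (α - (2 + 4 * s)) = Qt s ξ (lam • η) ^ (α / (2 + 4 * s) - 1) := by
    unfold rt
    rw [← Real.rpow_mul hQ.le]
    congr 1
    field_simp
  rw [h1, dot_smul, dot_smul]
  unfold dMt
  field_simp

theorem dMt_abs {s α : ℝ} (hs : 0 < s) (hs1 : 2 * s < 1) (hα : 0 < α) (hα1 : α < 1) :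
    ∃ C : ℝ, 0 < C ∧ ∀ lam : ℝ, 0 < lam → ∀ ξ η : Vec d, 0 < Qt s ξ (lam • η) →
      |dMt s α lam ξ η| ≤ C * rt s lam ξ η ^ (α - 2 * s) / lam := by
  refine ⟨α / (2 + 4 * s) * 16, by positivity, ?_⟩
  intro lam hl ξ η hQ
  have hr := rt_pos hQ
  obtain ⟨l1, l2⟩ := len_le_rt hs.le hl.le ξ η
  rw [BarC_eq hs hl hQ]
  set r := rt s lam ξ η with hrd
  set y := lam • η with hy
  have ly : len y = lam * len η := len_smul hl.le η
  have ly2 : len y ≤ 2 * r := by rw [ly]; exact l1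
  have ly0 := len_nonneg y
  have lx0 := len_nonneg ξ
  have lz0 := len_nonneg (zt s y)
  have hp : 0 < r ^ (1 + 2 * s) := Real.rpow_pos_of_pos hr _
  have lz : len (zt s y) ≤ 4 * r ^ (1 + 2 * s) := by
    rw [len_zt hs.le]
    calc len y ^ (1 + 2 * s) ≤ (2 * r) ^ (1 + 2 * s) := Real.rpow_le_rpow ly0 ly2 (by linarith)
      _ = 2 ^ (1 + 2 * s) * r ^ (1 + 2 * s) := Real.mul_rpow (by norm_num) hr.le
      _ ≤ 4 * r ^ (1 + 2 * s) := by
        refine mul_le_mul_of_nonneg_right ?_ hp.le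
        calc (2 : ℝ) ^ (1 + 2 * s) ≤ 2 ^ (2 : ℝ) :=
              Real.rpow_le_rpow_of_exponent_le (by norm_num) (by linarith)
          _ = 4 := by norm_num
  have d1 := BarC_dot ξ y
  have d2 := BarC_dot (zt s y) y
  have m1 : len ξ * len y ≤ 2 * r ^ (1 + 2 * s) * (2 * r) := mul_le_mul l2 ly2 ly0 (by positivity)
  have m2 : len (zt s y) * len y ≤ 4 * r ^ (1 + 2 * s) * (2 * r) := mul_le_mul lz ly2 ly0 (by positivity)
  have hX : |2 * dot ξ y - dot (zt s y) y| ≤ 16 * (r ^ (1 + 2 * s) * r) := by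
    refine (abs_sub _ _).trans ?_
    rw [abs_mul, abs_of_pos (by norm_num : (0 : ℝ) < 2)]
    linarith
  have e1 : r ^ (α - 2 * s) = r ^ (α - (2 + 4 * s)) * (r ^ (1 + 2 * s) * r) := by
    nth_rewrite 4 [← Real.rpow_one r]
    rw [← Real.rpow_add hr, ← Real.rpow_add hr]
    congr 1
    ring
  have hp2 : 0 < r ^ (α - (2 + 4 * s)) := Real.rpow_pos_of_pos hr _
  have hE : 0 < α / (2 + 4 * s) := by positivity
  rw [abs_mul, abs_mul, abs_of_pos (inv_pos.2 hl), abs_of_pos (mul_pos hE hp2), e1]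
  calc lam⁻¹ * (α / (2 + 4 * s) * r ^ (α - (2 + 4 * s)) * |2 * dot ξ y - dot (zt s y) y|)
      ≤ lam⁻¹ * (α / (2 + 4 * s) * r ^ (α - (2 + 4 * s)) * (16 * (r ^ (1 + 2 * s) * r))) := by
        gcongr
    _ = α / (2 + 4 * s) * 16 * (r ^ (α - (2 + 4 * s)) * (r ^ (1 + 2 * s) * r)) / lam := by
        field_simp

theorem dicho {s α : ℝ} (hs : 0 < s) (hs1 : 2 * s < 1) (hα : 0 < α) (hα1 : α < 1) :
    ∃ c > 0, ∃ C : ℝ, 0 < C ∧ ∀ lam : ℝ, 0 < lam → ∀ ξ η : Vec d, 0 < Qt s ξ (lam • η) →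
      c * rt s lam ξ η ^ (α - 2 * s) / lam ≤ dMt s α lam ξ η ∨
      ∃ q : Vec d, lam * len q ≤ C * rt s lam ξ η ∧
        Mt s α lam ξ (η - q) ≤ Mt s α lam ξ η - c * rt s lam ξ η ^ α := by
  have hE : 0 < α / (2 + 4 * s) := by positivity
  have hk : (99 / 100 : ℝ) ^ (α / (2 + 4 * s)) < 1 := Real.rpow_lt_one (by norm_num) (by norm_num) hE
  refine ⟨min (α / (2 + 4 * s) / 4) (1 - (99 / 100 : ℝ) ^ (α / (2 + 4 * s))),
    lt_min (by positivity) (by linarith), 3, by norm_num, ?_⟩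
  intro lam hl ξ η hQ
  have hr := rt_pos hQ
  obtain ⟨l1, l2⟩ := len_le_rt hs.le hl.le ξ η
  have hMr := Mt_rt hs.le α lam ξ η
  have hdM := BarC_eq (α := α) hs hl hQ
  have hrQ : rt s lam ξ η ^ (2 + 4 * s) = Qt s ξ (lam • η) := by
    unfold rt
    rw [← Real.rpow_mul hQ.le]
    have : 1 / (2 + 4 * s) * (2 + 4 * s) = 1 := by field_simp
    rw [this, Real.rpow_one]
  set r := rt s lam ξ η with hrd
  have ly : len (lam • η) = lam * len η := len_smul hl.le η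
  have ly2 : len (lam • η) ≤ 2 * r := by rw [ly]; exact l1
  have ly0 := len_nonneg (lam • η)
  have lx0 := len_nonneg ξ
  have hQe := Qt_eq s ξ (lam • η)
  set Q := Qt s ξ (lam • η) with hQd
  set e := zt s (lam • η) - (1 / 2 : ℝ) • ξ with he
  rcases lt_or_ge (Q / 100) (nsq e) with h | h
  · right
    obtain ⟨y₁, z1, z2⟩ := zt_surj hs ((1 / 2 : ℝ) • ξ)
    refine ⟨η - lam⁻¹ • y₁, ?_, ?_⟩
    · have e1 : lam * len (η - lam⁻¹ • y₁) = len (lam • η - y₁) := by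
        rw [← len_smul hl.le, smul_sub, smul_smul, mul_inv_cancel₀ hl.ne', one_smul]
      have e2 : len y₁ ≤ r := by
        rw [z2, len_smul (by norm_num)]
        have h1 : 1 / 2 * len ξ ≤ r ^ (1 + 2 * s) := by linarith
        calc (1 / 2 * len ξ) ^ (1 / (1 + 2 * s)) ≤ (r ^ (1 + 2 * s)) ^ (1 / (1 + 2 * s)) :=
              Real.rpow_le_rpow (by positivity) h1 (by positivity)
          _ = r := by
            rw [← Real.rpow_mul hr.le]
            have : (1 + 2 * s) * (1 / (1 + 2 * s)) = 1 := by field_simp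
            rw [this, Real.rpow_one]
      rw [e1]
      have := len_sub_le (lam • η) y₁
      linarith
    · have e1 : lam • (η - (η - lam⁻¹ • y₁)) = y₁ := by
        rw [sub_sub_cancel, smul_smul, mul_inv_cancel₀ hl.ne', one_smul]
      have e2 : Qt s ξ y₁ = 3 / 4 * nsq ξ := by
        rw [Qt_eq, z1, sub_self]
        have : nsq (0 : Vec d) = 0 := by unfold nsq; simp
        rw [this, add_zero]
      have e3 : 3 / 4 * nsq ξ ≤ 99 / 100 * Q := by linarith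
      have e4 : Mt s α lam ξ (η - (η - lam⁻¹ • y₁)) ≤ (99 / 100 : ℝ) ^ (α / (2 + 4 * s)) * r ^ α := by
        rw [← hMr]
        unfold Mt
        rw [e1, e2, ← Real.mul_rpow (by norm_num) hQ.le]
        exact Real.rpow_le_rpow (mul_nonneg (by norm_num) (nsq_nn ξ)) e3 hE.le
      have hp : 0 < r ^ α := Real.rpow_pos_of_pos hr _
      have e5 := mul_le_mul_of_nonneg_right
        (min_le_right (α / (2 + 4 * s) / 4) (1 - (99 / 100 : ℝ) ^ (α / (2 + 4 * s)))) hp.le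
      rw [hMr]
      linarith
  · left
    have hx := nsq_nn ξ
    have hz : zt s (lam • η) = e + (1 / 2 : ℝ) • ξ := by rw [he]; abel
    have hd : |dot ξ e| ≤ 12 / 100 * Q := by
      have h1 := dot_sq_le ξ e
      refine abs_le_of_sq_le_sq (h1.trans ?_) (by positivity)
      have h2 : nsq ξ ≤ 4 / 3 * Q := by linarith [nsq_nn e]
      calc nsq ξ * nsq e ≤ 4 / 3 * Q * (Q / 100) := mul_le_mul h2 h (nsq_nn e) (by positivity)
        _ ≤ (12 / 100 * Q) ^ 2 := by nlinarith [sq_nonneg Q]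
    have hX : Q / 2 ≤ 2 * dot ξ (zt s (lam • η)) - nsq (zt s (lam • η)) := by
      rw [hz, dot_add, dot_smul, dot_self, nsq_add, dot_smul, nsq_smul, dot_comm e ξ]
      have := (abs_le.1 hd).1
      linarith
    set X := 2 * dot ξ (lam • η) - dot (zt s (lam • η)) (lam • η) with hXd
    have e1 : 2 * dot ξ (zt s (lam • η)) - nsq (zt s (lam • η)) = len (lam • η) ^ (2 * s) * X := by
      rw [← dot_self, hXd]
      have : dot ξ (zt s (lam • η)) = len (lam • η) ^ (2 * s) * dot ξ (lam • η) := by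
        unfold zt
        rw [dot_smul]
      have h2 : dot (zt s (lam • η)) (zt s (lam • η)) =
          len (lam • η) ^ (2 * s) * dot (zt s (lam • η)) (lam • η) := by
        nth_rewrite 2 [zt]
        rw [dot_smul]
      rw [this, h2]
      ring
    rw [e1] at hX
    have hy : len (lam • η) ^ (2 * s) ≤ 2 * r ^ (2 * s) := by
      calc len (lam • η) ^ (2 * s) ≤ (2 * r) ^ (2 * s) := Real.rpow_le_rpow ly0 ly2 (by linarith)
        _ = 2 ^ (2 * s) * r ^ (2 * s) := Real.mul_rpow (by norm_num) hr.le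
        _ ≤ 2 * r ^ (2 * s) := by
          refine mul_le_mul_of_nonneg_right ?_ (Real.rpow_nonneg hr.le _)
          calc (2 : ℝ) ^ (2 * s) ≤ 2 ^ (1 : ℝ) :=
                Real.rpow_le_rpow_of_exponent_le (by norm_num) (by linarith)
            _ = 2 := by norm_num
    have hy0 : 0 ≤ len (lam • η) ^ (2 * s) := Real.rpow_nonneg ly0 _
    have hX0 : 0 < X := by
      by_contra hc
      have := mul_nonpos_of_nonneg_of_nonpos hy0 (not_lt.1 hc)
      linarith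
    have hX2 : Q / 2 ≤ 2 * r ^ (2 * s) * X := hX.trans (mul_le_mul_of_nonneg_right hy hX0.le)
    have hp : 0 < r ^ (2 * s) := Real.rpow_pos_of_pos hr _
    have hp2 : 0 < r ^ (α - (2 + 4 * s)) := Real.rpow_pos_of_pos hr _
    have hX3 : r ^ (2 + 2 * s) / 4 ≤ X := by
      have e2 : Q = r ^ (2 * s) * r ^ (2 + 2 * s) := by
        rw [← hrQ, ← Real.rpow_add hr]
        congr 1
        ring
      rw [e2] at hX2
      have : r ^ (2 * s) * (r ^ (2 + 2 * s) / 4) ≤ r ^ (2 * s) * X := by linarith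
      exact le_of_mul_le_mul_left this hp
    rw [hdM]
    have e3 : r ^ (α - 2 * s) = r ^ (α - (2 + 4 * s)) * r ^ (2 + 2 * s) := by
      rw [← Real.rpow_add hr]
      congr 1
      ring
    have hp3 : 0 < r ^ (α - 2 * s) := Real.rpow_pos_of_pos hr _
    calc min (α / (2 + 4 * s) / 4) (1 - (99 / 100 : ℝ) ^ (α / (2 + 4 * s))) * r ^ (α - 2 * s) / lam
        ≤ α / (2 + 4 * s) / 4 * r ^ (α - 2 * s) / lam := by
          gcongr
          exact min_le_left _ _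
      _ = lam⁻¹ * (α / (2 + 4 * s) * r ^ (α - (2 + 4 * s)) * (r ^ (2 + 2 * s) / 4)) := by
          rw [e3]
          field_simp
      _ ≤ lam⁻¹ * (α / (2 + 4 * s) * r ^ (α - (2 + 4 * s)) * X) := by gcongr

end Pool.Agent.H48.NE
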