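import Pool.Agent.H48.NE.BarA

/-!
# Module BarD: the derivative along the transport

`τ ↦ Qt(ξ + τη, λη) = |ξ|² + 2τ ξ·η + τ²|η|² - ξ·ζ - τ η·ζ + |ζ|²`, `ζ = ζ(λη)`; derivative at `0`: `2 ξ·η - η·ζ`; `HasDerivAt.rpow_const` (`Qt > 0` at `τ = 0`). -/

set_option autoImplicit false

open MeasureTheory Set Filter Topology Pool.Agent.H25.Kin Pool.Agent.H48.PL Pool.Agent.H48.PD
open Pool.Agent.H82.BK Pool.Agent.H82.CM Pool.Agent.H48.PR

namespace Pool.Agent.H48.NE

variable {d : ℕ}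

private theorem BarD_nsq_line (ξ η : Vec d) (τ : ℝ) :
    nsq (ξ + τ • η) = nsq ξ + 2 * τ * dot ξ η + τ ^ 2 * nsq η := by
  unfold nsq dot
  rw [Finset.mul_sum, Finset.mul_sum, ← Finset.sum_add_distrib, ← Finset.sum_add_distrib]
  refine Finset.sum_congr rfl fun i _ => ?_
  simp only [Pi.add_apply, Pi.smul_apply, smul_eq_mul]
  ring

private theorem BarD_dot_line (ξ η ζ : Vec d) (τ : ℝ) :
    dot (ξ + τ • η) ζ = dot ξ ζ + τ * dot ζ η := by
  unfold dot
  rw [Finset.mul_sum, ← Finset.sum_add_distrib]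
  refine Finset.sum_congr rfl fun i _ => ?_
  simp only [Pi.add_apply, Pi.smul_apply, smul_eq_mul]
  ring

theorem Mt_deriv {s α lam : ℝ} {ξ η : Vec d} (h : 0 < Qt s ξ (lam • η)) :
    HasDerivAt (fun τ : ℝ => Mt s α lam (ξ + τ • η) η) (dMt s α lam ξ η) 0 := by
  have hpoly : ∀ τ : ℝ, Qt s (ξ + τ • η) (lam • η)
      = nsq ξ + 2 * τ * dot ξ η + τ ^ 2 * nsq η
        - (dot ξ (zt s (lam • η)) + τ * dot (zt s (lam • η)) η) + nsq (zt s (lam • η)) := by
    intro τ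
    unfold Qt
    rw [BarD_nsq_line, BarD_dot_line]
  have hd : HasDerivAt (fun τ : ℝ => Qt s (ξ + τ • η) (lam • η))
      (2 * dot ξ η - dot (zt s (lam • η)) η) 0 := by
    have h1 : HasDerivAt (fun τ : ℝ => nsq ξ + 2 * τ * dot ξ η + τ ^ 2 * nsq η
        - (dot ξ (zt s (lam • η)) + τ * dot (zt s (lam • η)) η) + nsq (zt s (lam • η)))
        (2 * dot ξ η - dot (zt s (lam • η)) η) 0 := by
      have a1 : HasDerivAt (fun τ : ℝ => 2 * τ * dot ξ η) (2 * dot ξ η) 0 := by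
        simpa using ((hasDerivAt_id (0 : ℝ)).const_mul 2).mul_const (dot ξ η)
      have a2 : HasDerivAt (fun τ : ℝ => τ ^ 2 * nsq η) 0 0 := by
        simpa using ((hasDerivAt_pow 2 (0 : ℝ)).mul_const (nsq η))
      have a3 : HasDerivAt (fun τ : ℝ => τ * dot (zt s (lam • η)) η)
          (dot (zt s (lam • η)) η) 0 := by
        simpa using (hasDerivAt_id (0 : ℝ)).mul_const (dot (zt s (lam • η)) η)
      have a4 := (((a1.const_add (nsq ξ)).add a2).sub
        (a3.const_add (dot ξ (zt s (lam • η))))).add_const (nsq (zt s (lam • η)))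
      simpa using a4
    exact h1.congr_of_eventuallyEq (Eventually.of_forall hpoly)
  have h0 : Qt s (ξ + (0 : ℝ) • η) (lam • η) = Qt s ξ (lam • η) := by
    rw [zero_smul, add_zero]
  have hne : Qt s (ξ + (0 : ℝ) • η) (lam • η) ≠ 0 := by
    rw [h0]
    exact h.ne'
  have hr := hd.rpow_const (p := α / (2 + 4 * s)) (Or.inl hne)
  have he : dMt s α lam ξ η = (2 * dot ξ η - dot (zt s (lam • η)) η) * (α / (2 + 4 * s))
      * Qt s (ξ + (0 : ℝ) • η) (lam • η) ^ (α / (2 + 4 * s) - 1) := by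
    rw [h0]
    unfold dMt
    ring
  rw [he]
  exact hr

end Pool.Agent.H48.NE
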