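import Pool.Agent.H48.NE.Mxw

/-!
# Module ReA: the relative entropy does not increase

`log (mx a k u v) = log a - k nsq (v-u) = log a - k (nsq v - 2 dot u v + nsq u)`, so `RE a k u F = ∫ F log F - (log a - k nsq u) ∫ F + k ∫ F nsq v - 2k Σ u_i ∫ F v_i - ∫ F + ∫ mx dν` for `Slice F` (all integrands are integrable on `nu d` by the decay; `integrable_nu`; `F log F`: `|x log x| ≤ C x^(1/2)`-type bound near `0`, see H15/AV/Ent.lean, Hs_low in PI/BadW).
Along a solution: `∫ F log F` does not increase (`Pool.Agent.H15.AV.entropy_le` with `hth_boltz`, see the proof of `Hs_anti` in PI/BadW.lean), the other integrals are constant (`mass_const`, `energy_const`, and momentum: `ent_mom` with `p := fun v => v i` as in the proof of `mass_const`, H15/AV/Ent.lean; `boltz_HasInvariants`). `sol_slice : Slice (f t)`. -/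

set_option autoImplicit false

open MeasureTheory Set Filter Topology Pool.Agent.H25.Kin Pool.Agent.H48.PL Pool.Agent.H48.PD
open Pool.Agent.H82.BK Pool.Agent.H82.CM Pool.Agent.H48.PR
open Pool.Agent.H15.AV (Slice sol_slice)

namespace Pool.Agent.H48.NE

variable {d : ℕ} {γ s C Ca cb : ℝ} {b : ℝ → ℝ}

private theorem reA_pg {F : Vec d → Vec d → ℝ} (hF : Slice F) {h : Vec d → ℝ} (hh : PG h) :
    ∃ D : ℝ, ∀ x v, |F x v * h v| ≤ D * wt d v := by
  obtain ⟨N, P, hP0, hP⟩ := hh.pos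
  obtain ⟨D, hD⟩ := hF.decay (N + (d + 1))
  refine ⟨P * D, fun x v => ?_⟩
  have hn := hF.nonneg x v
  have h1 : |h v| ≤ P * (1 + ‖v‖) ^ N := hP v
  have hw : 0 < (1 + ‖v‖) ^ (d + 1) := pow_pos (w_pos v) _
  have h2 : (1 + ‖v‖) ^ N * F x v ≤ D * wt d v := by
    unfold wt
    rw [← div_eq_mul_inv, le_div_iff₀ hw]
    have := hD x v
    rw [pow_add] at this
    linarith
  rw [abs_mul, abs_of_nonneg hn]
  calc F x v * |h v| ≤ F x v * (P * (1 + ‖v‖) ^ N) := mul_le_mul_of_nonneg_left h1 hn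
    _ = P * ((1 + ‖v‖) ^ N * F x v) := by ring
    _ ≤ P * (D * wt d v) := mul_le_mul_of_nonneg_left h2 hP0
    _ = P * D * wt d v := by ring

private theorem reA_cont {F : Vec d → Vec d → ℝ} (hF : Slice F) :
    Continuous fun q : Vec d × Vec d => F q.2 q.1 :=
  hF.cont.comp (by fun_prop : Continuous fun q : Vec d × Vec d => (q.2, q.1))

private theorem reA_int {F : Vec d → Vec d → ℝ} (hF : Slice F) {h : Vec d → ℝ} (hh : PG h)
    (hc : Continuous h) : Integrable (fun q : Vec d × Vec d => F q.2 q.1 * h q.1) (nu d) := by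
  obtain ⟨D, hD⟩ := reA_pg hF hh
  exact integrable_nu ((reA_cont hF).mul (hc.comp continuous_fst)).aestronglyMeasurable
    fun q => hD q.2 q.1

private theorem reA_abs {a : ℝ} (ha : 0 ≤ a) : |a * Real.log a| ≤ a ^ 2 + 2 * √a := by
  rcases ha.eq_or_lt with h0 | h0
  · rw [← h0]
    simp
  · rw [abs_mul, abs_of_pos h0]
    rcases le_total 1 a with h | h
    · rw [abs_of_nonneg (Real.log_nonneg h)]
      have h1 := mul_le_mul_of_nonneg_left (Real.log_le_self ha) ha
      have h2 := Real.sqrt_nonneg a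
      nlinarith
    · rw [abs_of_nonpos (Real.log_nonpos ha h)]
      have hr : 0 < √a := Real.sqrt_pos.2 h0
      have h1 : Real.log (√a)⁻¹ ≤ (√a)⁻¹ - 1 := Real.log_le_sub_one_of_pos (inv_pos.2 hr)
      rw [Real.log_inv, Real.log_sqrt ha] at h1
      have h2 : -Real.log a ≤ 2 * (√a)⁻¹ := by linarith
      have h3 : a * (√a)⁻¹ = √a := by
        nth_rw 1 [← Real.mul_self_sqrt ha]
        rw [mul_assoc, mul_inv_cancel₀ hr.ne', mul_one]
      calc a * -Real.log a ≤ a * (2 * (√a)⁻¹) := mul_le_mul_of_nonneg_left h2 ha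
        _ = 2 * (a * (√a)⁻¹) := by ring
        _ = 2 * √a := by rw [h3]
        _ ≤ a ^ 2 + 2 * √a := by nlinarith [sq_nonneg a]

private theorem reA_wt_le (v : Vec d) : wt d v ≤ 1 := by
  unfold wt
  exact inv_le_one_of_one_le₀ (one_le_pow₀ (one_le_w v))

private theorem reA_ent {F : Vec d → Vec d → ℝ} (hF : Slice F) :
    Integrable (fun q : Vec d × Vec d => F q.2 q.1 * Real.log (F q.2 q.1)) (nu d) := by
  obtain ⟨D, hD⟩ := hF.decay (2 * (d + 1))
  have hD0 : 0 ≤ D := by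
    have h1 := hD 0 0
    have h2 : 0 ≤ (1 + ‖(0 : Vec d)‖) ^ (2 * (d + 1)) * F 0 0 :=
      mul_nonneg (pow_nonneg (w_pos _).le _) (hF.nonneg 0 0)
    linarith
  refine integrable_nu (C := D ^ 2 + 2 * √D) ?_ fun q => ?_
  · exact (Real.continuous_mul_log.comp (reA_cont hF)).aestronglyMeasurable
  · have h0 := hF.nonneg q.2 q.1
    have hw0 := wt_nonneg (d := d) q.1
    have hw1 := reA_wt_le (d := d) q.1
    have h2 : F q.2 q.1 ≤ D * wt d q.1 ^ 2 := by
      have hp : 0 < (1 + ‖q.1‖) ^ (2 * (d + 1)) := pow_pos (w_pos _) _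
      have e : wt d q.1 ^ 2 = ((1 + ‖q.1‖) ^ (2 * (d + 1)))⁻¹ := by
        unfold wt
        rw [mul_comm 2, pow_mul, inv_pow]
      rw [e, ← div_eq_mul_inv, le_div_iff₀ hp]
      have := hD q.2 q.1
      linarith
    have hw2 : wt d q.1 ^ 2 ≤ wt d q.1 := by nlinarith
    have h3 : F q.2 q.1 ≤ D * wt d q.1 := h2.trans (mul_le_mul_of_nonneg_left hw2 hD0)
    have h4 : F q.2 q.1 ^ 2 ≤ D ^ 2 * wt d q.1 := by
      have h5 : F q.2 q.1 ^ 2 ≤ (D * wt d q.1) ^ 2 := pow_le_pow_left₀ h0 h3 2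
      rw [mul_pow] at h5
      exact h5.trans (mul_le_mul_of_nonneg_left hw2 (by positivity))
    have h6 : √(F q.2 q.1) ≤ √D * wt d q.1 := by
      refine (Real.sqrt_le_sqrt h2).trans (le_of_eq ?_)
      rw [Real.sqrt_mul hD0, Real.sqrt_sq hw0]
    have h7 := reA_abs h0
    have h8 : (D ^ 2 + 2 * √D) * wt d q.1 = D ^ 2 * wt d q.1 + 2 * (√D * wt d q.1) := by ring
    rw [h8]
    linarith

private theorem reA_mx {a k : ℝ} (ha : 0 < a) (hk : 0 < k) (u : Vec d) :
    Integrable (fun q : Vec d × Vec d => mx a k u q.1) (nu d) := by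
  have hn := mx_nice ha hk u
  obtain ⟨D, hD⟩ := hn.rd (d + 1)
  refine integrable_nu (C := D) (hn.cont.comp continuous_fst).aestronglyMeasurable fun q => ?_
  have hp : 0 < (1 + ‖q.1‖) ^ (d + 1) := pow_pos (w_pos _) _
  unfold wt
  rw [← div_eq_mul_inv, le_div_iff₀ hp, mul_comm]
  exact hD q.1

private theorem reA_lin {m : Measure (Vec d × Vec d)} {f1 f2 f3 f4 f5 : Vec d × Vec d → ℝ}
    (h1 : Integrable f1 m) (h2 : Integrable f2 m) (h3 : Integrable f3 m) (h4 : Integrable f4 m)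
    (h5 : Integrable f5 m) : ∫ q, (f1 q - f2 q + f3 q - f4 q + f5 q) ∂m =
      (∫ q, f1 q ∂m) - (∫ q, f2 q ∂m) + (∫ q, f3 q ∂m) - (∫ q, f4 q ∂m) + ∫ q, f5 q ∂m := by
  have a1 : Integrable (fun q => f1 q - f2 q) m := h1.sub h2
  have a2 : Integrable (fun q => f1 q - f2 q + f3 q) m := a1.add h3
  have a3 : Integrable (fun q => f1 q - f2 q + f3 q - f4 q) m := a2.sub h4
  rw [integral_add a3 h5, integral_sub a2 h4, integral_add a1 h3, integral_sub h1 h2]

private theorem reA_log {a k : ℝ} (ha : 0 < a) (u v : Vec d) :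
    Real.log (mx a k u v) = Real.log a - k * nsq v + 2 * k * (∑ i, u i * v i) - k * nsq u := by
  unfold mx
  rw [Real.log_mul ha.ne' (Real.exp_pos _).ne', Real.log_exp]
  have e : nsq (v - u) = nsq v - 2 * (∑ i, u i * v i) + nsq u := by
    unfold nsq
    rw [Finset.mul_sum, ← Finset.sum_sub_distrib, ← Finset.sum_add_distrib]
    refine Finset.sum_congr rfl fun i _ => ?_
    rw [Pi.sub_apply]
    ring
  rw [e]
  ring

theorem re_formula {a k : ℝ} (ha : 0 < a) (hk : 0 < k) (u : Vec d) {F : Vec d → Vec d → ℝ}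
    (hF : Slice F) : RE a k u F = (∫ q, F q.2 q.1 * Real.log (F q.2 q.1) ∂(nu d)) -
      (Real.log a - k * nsq u + 1) * (∫ q, F q.2 q.1 ∂(nu d)) +
      k * (∫ q, F q.2 q.1 * nsq q.1 ∂(nu d)) -
      2 * k * (∑ i, u i * ∫ q, F q.2 q.1 * q.1 i ∂(nu d)) + ∫ q, mx a k u q.1 ∂(nu d) := by
  have i1 := reA_ent hF
  have i2 : Integrable (fun q : Vec d × Vec d => F q.2 q.1) (nu d) := by
    have := reA_int hF (PG.const (1 : ℝ)) continuous_const
    simpa using this
  have i3 := reA_int hF (h := fun v => nsq v) PG.nsq continuous_sq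
  have i4 : ∀ i : Fin d, Integrable (fun q : Vec d × Vec d => F q.2 q.1 * q.1 i) (nu d) :=
    fun i => reA_int hF (h := fun v => v i) (PG.coord i) (continuous_apply i)
  have i5 := reA_mx (d := d) ha hk u
  have i6 : Integrable (fun q : Vec d × Vec d => ∑ i, u i * (F q.2 q.1 * q.1 i)) (nu d) :=
    integrable_finsetSum _ fun i _ => (i4 i).const_mul (u i)
  have e : ∀ q : Vec d × Vec d,
      F q.2 q.1 * (Real.log (F q.2 q.1) - Real.log (mx a k u q.1)) - F q.2 q.1 + mx a k u q.1 =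
      F q.2 q.1 * Real.log (F q.2 q.1) - (Real.log a - k * nsq u + 1) * F q.2 q.1 +
        k * (F q.2 q.1 * nsq q.1) - 2 * k * (∑ i, u i * (F q.2 q.1 * q.1 i)) +
        mx a k u q.1 := by
    intro q
    rw [reA_log ha]
    have e1 : ∑ i, u i * (F q.2 q.1 * q.1 i) = F q.2 q.1 * ∑ i, u i * q.1 i := by
      rw [Finset.mul_sum]
      exact Finset.sum_congr rfl fun i _ => by ring
    rw [e1]
    ring
  unfold RE
  simp only [e]
  rw [reA_lin i1 (i2.const_mul (Real.log a - k * nsq u + 1)) (i3.const_mul k)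
    (i6.const_mul (2 * k)) i5, integral_const_mul, integral_const_mul, integral_const_mul,
    integral_finsetSum _ fun i _ => (i4 i).const_mul (u i)]
  simp only [integral_const_mul]

private theorem reA_pos1 : Pos (fun _ : Vec d => (1 : ℝ)) 1 where
  per := fun _ _ => rfl
  smooth := contDiff_const
  le0 := fun _ => by simp
  le1 := fun x => by
    have h : fderiv ℝ (fun _ : Vec d => (1 : ℝ)) x = 0 := by simp
    rw [h, norm_zero]
    exact zero_le_one

private theorem reA_mom {T : ℝ} {f Q' : ℝ → Vec d → Vec d → ℝ} (hf : IsClassicalSol T Q' f)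
    {p : Vec d → ℝ} (hp : PG p) (hpc : Continuous p)
    (hQ : ∀ s ∈ Ioo 0 T, ∀ x, ∫ v, Q' s x v * p v = 0) {t : ℝ} (ht : t ∈ Ico 0 T) :
    mom (fun _ => 1) p f t = mom (fun _ => 1) p f 0 := by
  rcases ht.1.eq_or_lt with h0 | h0
  · rw [← h0]
  · have hd : ∀ s ∈ Ioo 0 t, HasDerivAt (mom (fun _ => 1) p f) 0 s := by
      intro s hs
      have h1 := mom_hasDerivAt reA_pos1 hp hpc hf ⟨hs.1, hs.2.trans ht.2⟩
        (hQ s ⟨hs.1, hs.2.trans ht.2⟩)
      refine h1.congr_deriv ?_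
      simp
    obtain ⟨c, -, hc⟩ := exists_hasDerivAt_eq_slope (mom (fun _ => 1) p f) (fun _ => 0) h0
      (mom_cont reA_pos1 hp hpc hf ht.2) hd
    rw [sub_zero, eq_comm, div_eq_zero_iff] at hc
    rcases hc with hc | hc
    · linarith
    · exact absurd hc h0.ne'

theorem re_anti (HL : HypL d γ s b C Ca cb) {a k : ℝ} (ha : 0 < a) (hk : 0 < k) (u : Vec d) {T : ℝ}
    {f : ℝ → Vec d → Vec d → ℝ} (hf : IsBoltzmannSol γ b T f) {t : ℝ} (ht : t ∈ Ico 0 T) :
    RE a k u (f t) ≤ RE a k u (f 0) := by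
  have h0 : (0 : ℝ) ∈ Ico 0 T := ⟨le_rfl, ht.1.trans_lt ht.2⟩
  have hI := boltz_HasInvariants HL.H hf
  have h1 := Pool.Agent.H15.AV.entropy_le (Q := boltzQ γ b)
    (Pool.Agent.H15.AV.hth_boltz HL.H) hf hI ht
  have h2 := Pool.Agent.H15.AV.mass_const (Q := boltzQ γ b) hf hI ht
  have h3 := Pool.Agent.H15.AV.energy_const (Q := boltzQ γ b) hf hI ht
  have h4 : ∀ i : Fin d, ∫ q, f t q.2 q.1 * q.1 i ∂(nu d) = ∫ q, f 0 q.2 q.1 * q.1 i ∂(nu d) := by
    intro i
    have h5 := reA_mom hf (p := fun v => v i) (PG.coord i) (continuous_apply i)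
      (fun s hs x => (hI s hs x).2.1 i) ht
    unfold mom at h5
    simp only [one_mul] at h5
    have e : ∀ r : ℝ, ∫ q, f r q.2 q.1 * q.1 i ∂(nu d) = ∫ q, q.1 i * f r q.2 q.1 ∂(nu d) :=
      fun r => integral_congr_ae (Eventually.of_forall fun q => mul_comm _ _)
    rw [e t, e 0, h5]
  rw [re_formula ha hk u (sol_slice hf ht), re_formula ha hk u (sol_slice hf h0), h2, h3]
  simp only [h4]
  linarith

end Pool.Agent.H48.NE
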