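import Pool.Agent.H48.NE.CplW

/-!
# Module Cpl: the coupling lemma

`w₁(h) = wS(h)`, `w₂(h) = wS(h+q)`, `w₀ = min(w₁,w₂)`. Translation invariance: `∫ wS(h) b(h) dh = ∫ wS(h+q) b(h+q) dh`. So `∫ wS (a - b) = ∫ w₁ a - ∫ w₂ b(·+q) = ∫ w₀ (a(h) - b(h+q)) + ∫ (w₁-w₀) a - ∫ (w₂-w₀) b(h+q)`
`≤ ∫ w₀ (-g₀ + K₀|h|) + ∫ (w₁-w₀) A'|h|^α + ∫ (w₂-w₀) A'|h+q|^α` (where `w₁ - w₀ > 0`: `|h| ≤ 1/2`; where `w₂ - w₀ > 0`: `|h+q| ≤ 1/2`; `w₀ > 0`: `|h| ≤ 1/2`), and `w₁ - w₀, w₂ - w₀ ≤ |w₁-w₂|`: `wS_low`, `wS_lin`, `wS_dif`.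
All integrands are continuous functions times the bounded compactly supported `wS` (integrable: `a`, `b` continuous, hence bounded on bounded sets). The set integral over `Sh ρ` of `len^(-d-2s) * ..` is the integral with `wS` (`integral_indicator`, `Sh ρ` is closed). -/

set_option autoImplicit false

open MeasureTheory Set Filter Topology Pool.Agent.H25.Kin Pool.Agent.H48.PL Pool.Agent.H48.PD
open Pool.Agent.H82.BK Pool.Agent.H82.CM Pool.Agent.H48.PR
open scoped ENNReal

namespace Pool.Agent.H48.NE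

variable {d : ℕ}

/-- the weight times a continuous function is integrable -/
private lemma cpl_int {s ρ : ℝ} (hs : 0 < s) (hρ : 0 < ρ) {g : Vec d → ℝ} (hg : Continuous g) :
    Integrable fun h : Vec d => wS s ρ h * g h := by
  obtain ⟨M, hM⟩ := (isCompact_closedBall (0 : Vec d) 1).exists_bound_of_continuousOn hg.continuousOn
  have hi : Integrable fun h : Vec d => wS s ρ h * M := (wS_int hs hρ).mul_const M
  refine hi.mono' ((wS_meas s ρ).mul hg.measurable).aestronglyMeasurable ?_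
  refine Filter.Eventually.of_forall fun h => ?_
  rw [Real.norm_eq_abs, abs_mul, abs_of_nonneg (wS_nonneg s ρ h)]
  by_cases hh : 1 / 2 < len h
  · rw [((wS_le hs hρ h).2.1 hh)]
    simp
  · have h1 : ‖h‖ ≤ len h := norm_le_len h
    have h2 : h ∈ Metric.closedBall (0 : Vec d) 1 := by
      rw [mem_closedBall_zero_iff]
      linarith
    exact mul_le_mul_of_nonneg_left (hM h h2) (wS_nonneg s ρ h)

private lemma cpl_int2 {s ρ : ℝ} (hs : 0 < s) (hρ : 0 < ρ) (q : Vec d) {g : Vec d → ℝ}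
    (hg : Continuous g) : Integrable fun h : Vec d => wS s ρ (h + q) * g h := by
  have h1 : Integrable fun h : Vec d => wS s ρ h * g (h - q) :=
    cpl_int hs hρ (hg.comp (continuous_id.sub continuous_const))
  have h2 := h1.comp_add_right q
  refine h2.congr (Filter.Eventually.of_forall fun h => ?_)
  simp

private lemma cpl_pt {a b w1 w2 g₀ K₀ l A' p1 p2 : ℝ} (hw1 : 0 ≤ w1) (hw2 : 0 ≤ w2)
    (hK : 0 ≤ K₀) (hl : 0 ≤ l) (hp1 : 0 ≤ p1) (hp2 : 0 ≤ p2) (hA : 0 ≤ A')
    (h0 : 0 < w1 → a - b ≤ -g₀ + K₀ * l) (h1 : 0 < w1 → a ≤ A' * p1)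
    (h2 : 0 < w2 → -b ≤ A' * p2) :
    w1 * a - w2 * b ≤ -(min w1 w2 * g₀) + K₀ * (w1 * l) + A' * (|w1 - w2| * (p1 + p2)) := by
  rcases hw1.eq_or_lt with e1 | e1
  · subst e1
    rw [min_eq_left hw2, zero_sub, abs_neg, abs_of_nonneg hw2]
    rcases hw2.eq_or_lt with e2 | e2
    · subst e2
      simp
    · have h3 := mul_le_mul_of_nonneg_left (h2 e2) hw2
      have h4 : 0 ≤ A' * (w2 * p1) := by positivity
      nlinarith
  · rcases hw2.eq_or_lt with e2 | e2
    · subst e2
      rw [min_eq_right hw1, sub_zero, abs_of_nonneg hw1]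
      have h3 := mul_le_mul_of_nonneg_left (h1 e1) hw1
      have h4 : 0 ≤ A' * (w1 * p2) := by positivity
      have h5 : 0 ≤ K₀ * (w1 * l) := by positivity
      nlinarith
    · have h3 := h0 e1
      have h4 := h1 e1
      have h5 := h2 e2
      rcases le_total w1 w2 with h6 | h6
      · rw [min_eq_left h6, abs_of_nonpos (by linarith)]
        have h7 := mul_le_mul_of_nonneg_left h3 hw1
        have h8 := mul_le_mul_of_nonneg_left h5 (by linarith : 0 ≤ w2 - w1)
        have h9 : 0 ≤ A' * ((w2 - w1) * p1) := by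
          have : 0 ≤ w2 - w1 := by linarith
          positivity
        nlinarith
      · rw [min_eq_right h6, abs_of_nonneg (by linarith)]
        have h7 := mul_le_mul_of_nonneg_left h3 hw2
        have h8 := mul_le_mul_of_nonneg_left h4 (by linarith : 0 ≤ w1 - w2)
        have h9 : 0 ≤ A' * ((w1 - w2) * p2) := by
          have : 0 ≤ w1 - w2 := by linarith
          positivity
        have h10 : 0 ≤ K₀ * ((w1 - w2) * l) := by
          have : 0 ≤ w1 - w2 := by linarith
          positivity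
        nlinarith

theorem cpl (hd : 1 ≤ d) {s α : ℝ} (hs : 0 < s) (hs1 : 2 * s < 1) (hα : 0 < α) (hα2 : α < 2 * s) :
    ∃ c₀ > 0, ∃ K : ℝ, 0 ≤ K ∧ ∀ (a b : Vec d → ℝ) (A' K₀ g₀ ρ : ℝ) (q : Vec d),
      Continuous a → Continuous b → 0 ≤ A' → 0 ≤ K₀ → 0 ≤ g₀ → 0 < ρ → ρ ≤ 1 / 8 → 8 * len q ≤ ρ →
      (∀ h, len h ≤ 1 → a h ≤ A' * len h ^ α) → (∀ h, len h ≤ 1 → -b h ≤ A' * len h ^ α) →
      (∀ h, len h ≤ 1 / 2 → a h - b (h + q) ≤ -g₀ + K₀ * len h) →
      ∫ h in Sh ρ, len h ^ (-(d : ℝ) - 2 * s) * (a h - b h) ≤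
        -(c₀ * ρ ^ (-(2 * s)) * g₀) + K * K₀ + K * A' * (len q * ρ ^ (α - 2 * s - 1)) := by
  classical
  obtain ⟨c, hc, hlow⟩ := wS_low (d := d) hd hs
  obtain ⟨K1, hK1, hlin⟩ := wS_lin (d := d) hd hs hs1
  obtain ⟨K2, hK2, hdif⟩ := wS_dif (d := d) hd hs hs1 hα hα2
  refine ⟨c, hc, K1 + K2, by positivity, ?_⟩
  intro a b A' K₀ g₀ ρ q hac hbc hA hK₀ hg₀ hρ hρ8 hq ha hb hab
  -- the integral with the weight
  have hSm : MeasurableSet (Sh ρ : Set (Vec d)) :=
    ((isClosed_le continuous_const continuous_len).inter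
      (isClosed_le continuous_len continuous_const)).measurableSet
  have e1 : ∫ h in Sh ρ, len h ^ (-(d : ℝ) - 2 * s) * (a h - b h) =
      ∫ h : Vec d, wS s ρ h * (a h - b h) := by
    rw [← integral_indicator hSm]
    refine integral_congr_ae (Filter.Eventually.of_forall fun h => ?_)
    by_cases hh : h ∈ (Sh ρ : Set (Vec d))
    · simp only [Set.indicator_of_mem hh, wS, if_pos hh]
    · simp only [Set.indicator_of_notMem hh, wS, if_neg hh, zero_mul]
  have ia : Integrable fun h : Vec d => wS s ρ h * a h := cpl_int hs hρ hac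
  have ib : Integrable fun h : Vec d => wS s ρ h * b h := cpl_int hs hρ hbc
  have ib2 : Integrable fun h : Vec d => wS s ρ (h + q) * b (h + q) := ib.comp_add_right q
  have e2 : ∫ h : Vec d, wS s ρ h * (a h - b h) =
      ∫ h : Vec d, (wS s ρ h * a h - wS s ρ (h + q) * b (h + q)) := by
    rw [integral_sub ia ib2]
    have h1 : ∫ h : Vec d, wS s ρ (h + q) * b (h + q) = ∫ h : Vec d, wS s ρ h * b h :=
      integral_add_right_eq_self (fun h : Vec d => wS s ρ h * b h) q
    rw [h1, ← integral_sub ia ib]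
    refine integral_congr_ae (Filter.Eventually.of_forall fun h => ?_)
    simp only [mul_sub]
  rw [e1, e2]
  -- the bound and its integrability
  have hcl : Continuous fun h : Vec d => len h := continuous_len
  have hcl2 : Continuous fun h : Vec d => len (h + q) :=
    continuous_len.comp (continuous_id.add continuous_const)
  have hcg : Continuous fun h : Vec d => len h ^ α + len (h + q) ^ α :=
    (hcl.rpow_const fun _ => Or.inr hα.le).add (hcl2.rpow_const fun _ => Or.inr hα.le)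
  have i1 : Integrable fun h : Vec d => min (wS s ρ h) (wS s ρ (h + q)) := by
    have hw := wS_int (d := d) hs hρ
    have hm : Measurable fun h : Vec d => min (wS s ρ h) (wS s ρ (h + q)) :=
      (wS_meas s ρ).min ((wS_meas s ρ).comp (measurable_id.add_const q))
    refine hw.mono' hm.aestronglyMeasurable (Filter.Eventually.of_forall fun h => ?_)
    rw [Real.norm_eq_abs, abs_of_nonneg (le_min (wS_nonneg s ρ h) (wS_nonneg s ρ (h + q)))]
    exact min_le_left _ _
  have i2 : Integrable fun h : Vec d => wS s ρ h * len h := cpl_int hs hρ hcl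
  have i3 : Integrable fun h : Vec d =>
      |wS s ρ h - wS s ρ (h + q)| * (len h ^ α + len (h + q) ^ α) := by
    have h1 := ((cpl_int hs hρ hcg).sub (cpl_int2 hs hρ q hcg)).abs
    refine h1.congr (Filter.Eventually.of_forall fun h => ?_)
    have hp : 0 ≤ len h ^ α + len (h + q) ^ α :=
      add_nonneg (Real.rpow_nonneg (len_nonneg _) _) (Real.rpow_nonneg (len_nonneg _) _)
    simp only [Pi.sub_apply]
    rw [← sub_mul, abs_mul, abs_of_nonneg hp]
  have i4 : Integrable fun h : Vec d => -(min (wS s ρ h) (wS s ρ (h + q)) * g₀) +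
      K₀ * (wS s ρ h * len h) +
      A' * (|wS s ρ h - wS s ρ (h + q)| * (len h ^ α + len (h + q) ^ α)) :=
    (((i1.mul_const g₀).neg).add (i2.const_mul K₀)).add (i3.const_mul A')
  have hmono : ∫ h : Vec d, (wS s ρ h * a h - wS s ρ (h + q) * b (h + q)) ≤
      ∫ h : Vec d, (-(min (wS s ρ h) (wS s ρ (h + q)) * g₀) + K₀ * (wS s ρ h * len h) +
        A' * (|wS s ρ h - wS s ρ (h + q)| * (len h ^ α + len (h + q) ^ α))) := by
    refine integral_mono (ia.sub ib2) i4 fun h => ?_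
    have hz : ∀ u : Vec d, 0 < wS s ρ u → len u ≤ 1 / 2 := by
      intro u hu
      by_contra hcon
      rw [(wS_le hs hρ u).2.1 (not_le.1 hcon)] at hu
      exact lt_irrefl _ hu
    refine cpl_pt (wS_nonneg s ρ h) (wS_nonneg s ρ (h + q)) hK₀ (len_nonneg h)
      (Real.rpow_nonneg (len_nonneg _) _) (Real.rpow_nonneg (len_nonneg _) _) hA ?_ ?_ ?_
    · intro hu
      exact hab h (hz h hu)
    · intro hu
      exact ha h ((hz h hu).trans (by norm_num))
    · intro hu
      exact hb (h + q) ((hz (h + q) hu).trans (by norm_num))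
  refine hmono.trans ?_
  have e3 : ∫ h : Vec d, (-(min (wS s ρ h) (wS s ρ (h + q)) * g₀) + K₀ * (wS s ρ h * len h) +
        A' * (|wS s ρ h - wS s ρ (h + q)| * (len h ^ α + len (h + q) ^ α))) =
      -((∫ h : Vec d, min (wS s ρ h) (wS s ρ (h + q))) * g₀) + K₀ * (∫ h : Vec d, wS s ρ h * len h) +
        A' * ∫ h : Vec d, |wS s ρ h - wS s ρ (h + q)| * (len h ^ α + len (h + q) ^ α) := by
    have f1 := integral_add (((i1.mul_const g₀).neg).add (i2.const_mul K₀)) (i3.const_mul A')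
    have f2 := integral_add ((i1.mul_const g₀).neg) (i2.const_mul K₀)
    simp only [Pi.add_apply, Pi.neg_apply] at f1 f2
    rw [f1, f2, integral_neg, integral_mul_const, integral_const_mul, integral_const_mul]
  rw [e3]
  have g1 := mul_le_mul_of_nonneg_right (hlow ρ q hρ hρ8 hq) hg₀
  have g2 := mul_le_mul_of_nonneg_left (hlin ρ hρ) hK₀
  have g3 := mul_le_mul_of_nonneg_left (hdif ρ q hρ hρ8 hq) hA
  have g4 : 0 ≤ K2 * K₀ := mul_nonneg hK2 hK₀
  have g5 : 0 ≤ len q * ρ ^ (α - 2 * s - 1) := mul_nonneg (len_nonneg _) (Real.rpow_nonneg hρ.le _)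
  have g6 : 0 ≤ K1 * A' * (len q * ρ ^ (α - 2 * s - 1)) := mul_nonneg (mul_nonneg hK1 hA) g5
  nlinarith

end Pool.Agent.H48.NE
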