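import Pool.Agent.H48.NE.KerI

/-!
# Module CplW: the weight `|h|^(-d-2s)` on the shell and its translates

`wS s ρ h = |h|^(-d-2s)` on `Sh ρ`, `0` elsewhere. `E₁`: `∫ |wS(h) - wS(h+q)| |h|^α ≤ K |q| ρ^(α-2s-1)` for `8|q| ≤ ρ ≤ 1/8`, `0 < α < 2s`. PROOF. `|h+q| ∈ [|h|-|q|, |h|+|q|]` (`len_le_add_sub`, triangle). Split:
(a) both `h`, `h+q` in `Sh ρ`: `| |h|^(-d-2s) - |h+q|^(-d-2s) | ≤ C |q| |h|^(-d-2s-1)` (mean value of `r^(-d-2s)` on `r ≥ |h|/2`, `|h+q| ≥ |h| - |q| ≥ |h|/2`), `∫_{|h|≥ρ} |h|^(-d-2s-1+α) ≤ K ρ^(α-2s-1)` (`rad_out` with `τ = α-1 < 2s`).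
(b) exactly one of them in `Sh ρ`: then `|h| ∈ [ρ-|q|, ρ+|q|]` or `|h| ∈ [1/2-|q|, 1/2+|q|]`; there both weights are `≤ C |h|^(-d-2s)`-type: inner layer: `wS ≤ ρ^(-d-2s)`, `|h|^α ≤ (2ρ)^α`, volume of the layer `≤ K (2|q|) ρ^(d-1)` (`rad_layer` with `ρ-|q|`, `t = 2|q| ≤ ρ - |q|`): `≤ C |q| ρ^(α-2s-1)`;
outer layer: `≤ C |q| ≤ C |q| ρ^(α-2s-1)` (`ρ ≤ 1`, exponent negative).
`wS_low`: `∫ min(wS(h), wS(h+q)) ≥ c ρ^(-2s)`: for `9/8 ρ ≤ |h| ≤ 9/4 ρ` (`≤ 1/2 - |q|`) both are in the shell, `min ≥ (|h|+|q|)^(-d-2s) ≥ (10/9 |h|)^(-d-2s)`; `rad_ann` with `9/8 ρ`. `wS_lin`: `∫ wS |h| ≤ K` (`rad_in`, `τ = 1 > 2s`). `wS_alp`: `wS |h|^α` is integrable (bounded with bounded support).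
-/

set_option autoImplicit false

open MeasureTheory Set Filter Topology Pool.Agent.H25.Kin Pool.Agent.H48.PL Pool.Agent.H48.PD
open Pool.Agent.H82.BK Pool.Agent.H82.CM Pool.Agent.H48.PR
open scoped ENNReal

namespace Pool.Agent.H48.NE

variable {d : ℕ}

open Classical in
/-- the weight `|h|^(-d-2s)` on the shell -/
noncomputable def wS (s ρ : ℝ) (h : Vec d) : ℝ :=
  if h ∈ Sh ρ then len h ^ (-(d : ℝ) - 2 * s) else 0

private lemma cplw_shm (ρ : ℝ) : MeasurableSet (Sh ρ : Set (Vec d)) :=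
  ((isClosed_le continuous_const continuous_len).inter
    (isClosed_le continuous_len continuous_const)).measurableSet

private lemma cplw_lenrpow (a : ℝ) : Measurable fun h : Vec d => len h ^ a :=
  continuous_len.measurable.pow_const a

theorem wS_meas (s ρ : ℝ) : Measurable (wS s ρ : Vec d → ℝ) := by
  classical
  exact Measurable.ite (cplw_shm ρ) (cplw_lenrpow _) measurable_const

theorem wS_nonneg (s ρ : ℝ) (h : Vec d) : 0 ≤ wS s ρ h := by
  unfold wS
  split_ifs
  · exact Real.rpow_nonneg (len_nonneg h) _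
  · exact le_rfl

private lemma cplw_in {s ρ : ℝ} {h : Vec d} (hh : h ∈ Sh ρ) :
    wS s ρ h = len h ^ (-(d : ℝ) - 2 * s) := by
  unfold wS
  rw [if_pos hh]

private lemma cplw_out {s ρ : ℝ} {h : Vec d} (hh : h ∉ Sh ρ) : wS s ρ h = 0 := by
  unfold wS
  rw [if_neg hh]

private lemma cplw_ex {s : ℝ} (hs : 0 < s) : -(d : ℝ) - 2 * s < 0 := by
  have : (0 : ℝ) ≤ d := Nat.cast_nonneg d
  linarith

theorem wS_le {s ρ : ℝ} (hs : 0 < s) (hρ : 0 < ρ) (h : Vec d) :
    wS s ρ h ≤ ρ ^ (-(d : ℝ) - 2 * s) ∧ (1 / 2 < len h → wS s ρ h = 0) ∧ (len h < ρ → wS s ρ h = 0) := by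
  refine ⟨?_, fun h1 => cplw_out fun h2 => ?_, fun h1 => cplw_out fun h2 => ?_⟩
  · by_cases hh : h ∈ Sh ρ
    · rw [cplw_in hh]
      exact Real.rpow_le_rpow_of_nonpos hρ hh.1 (cplw_ex hs).le
    · rw [cplw_out hh]
      exact (Real.rpow_pos_of_pos hρ _).le
  · exact absurd h2.2 (not_le.2 h1)
  · exact absurd h2.1 (not_le.2 h1)

private lemma cplw_norm (h : Vec d) : ‖h‖ ≤ len h := by
  rw [pi_norm_le_iff_of_nonneg (len_nonneg h)]
  intro i
  unfold len nsq
  rw [Real.norm_eq_abs, ← Real.sqrt_sq_eq_abs]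
  exact Real.sqrt_le_sqrt (Finset.single_le_sum (f := fun i => h i ^ 2) (fun j _ => sq_nonneg _)
    (Finset.mem_univ i))

private lemma cplw_fin (R : ℝ) : volume {h : Vec d | len h ≤ R} < ⊤ := by
  refine lt_of_le_of_lt (measure_mono (t := Metric.closedBall (0 : Vec d) R) ?_)
    measure_closedBall_lt_top
  intro h hh
  rw [Metric.mem_closedBall, dist_zero_right]
  exact (cplw_norm h).trans hh

/-- a bounded measurable function supported in a ball is integrable -/
private lemma cplw_bi {f : Vec d → ℝ} (hf : Measurable f) {C R : ℝ} (h1 : ∀ h, |f h| ≤ C)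
    (h2 : ∀ h, R < len h → f h = 0) : Integrable f := by
  have hm : MeasurableSet {h : Vec d | len h ≤ R} :=
    (isClosed_le continuous_len continuous_const).measurableSet
  have h3 : Integrable (({h : Vec d | len h ≤ R}).indicator fun _ => C) :=
    (integrable_indicator_iff hm).2 (integrableOn_const (cplw_fin R).ne)
  refine h3.mono' hf.aestronglyMeasurable (Eventually.of_forall fun h => ?_)
  by_cases hh : len h ≤ R
  · rw [indicator_of_mem (by exact hh), Real.norm_eq_abs]
    exact h1 h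
  · rw [indicator_of_notMem (by exact hh), h2 h (not_le.1 hh), norm_zero]

theorem wS_int {s ρ : ℝ} (hs : 0 < s) (hρ : 0 < ρ) : Integrable (wS s ρ : Vec d → ℝ) :=
  cplw_bi (wS_meas s ρ) (C := ρ ^ (-(d : ℝ) - 2 * s)) (R := 1 / 2)
    (fun h => by rw [abs_of_nonneg (wS_nonneg s ρ h)]; exact (wS_le hs hρ h).1)
    (fun h hh => (wS_le hs hρ h).2.1 hh)

theorem wS_lin (hd : 1 ≤ d) {s : ℝ} (hs : 0 < s) (hs1 : 2 * s < 1) : ∃ K : ℝ, 0 ≤ K ∧ ∀ ρ : ℝ,
    0 < ρ → ∫ h : Vec d, wS s ρ h * len h ≤ K := by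
  obtain ⟨K, hK, hK1⟩ := rad_in (d := d) hd (s := s) (τ := 1) hs1
  refine ⟨K, hK, fun ρ hρ => ?_⟩
  have hm : MeasurableSet {h : Vec d | len h ≤ 1} :=
    (isClosed_le continuous_len continuous_const).measurableSet
  rw [integral_eq_lintegral_of_nonneg_ae (Eventually.of_forall fun h =>
    mul_nonneg (wS_nonneg s ρ h) (len_nonneg h))
    ((wS_meas s ρ).mul continuous_len.measurable).aestronglyMeasurable]
  refine ENNReal.toReal_le_of_le_ofReal hK (le_trans ?_ hK1)
  rw [← lintegral_indicator hm]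
  refine lintegral_mono fun h => ?_
  by_cases hh : h ∈ Sh ρ
  · have hl : 0 < len h := lt_of_lt_of_le hρ hh.1
    rw [indicator_of_mem (by exact hh.2.trans (by norm_num)), cplw_in hh]
    refine ENNReal.ofReal_le_ofReal (le_of_eq ?_)
    rw [Real.rpow_add hl, Real.rpow_one]
  · rw [cplw_out hh, zero_mul, ENNReal.ofReal_zero]
    exact zero_le

private lemma cplw_tri (h q : Vec d) : len (h + q) ≤ len h + len q ∧ len h ≤ len (h + q) + len q := by
  refine ⟨len_add_le h q, ?_⟩
  have h1 := len_le_add_sub h (h + q)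
  rwa [show h - (h + q) = -q by abel, len_neg] at h1

theorem wS_low (hd : 1 ≤ d) {s : ℝ} (hs : 0 < s) : ∃ c > 0, ∀ (ρ : ℝ) (q : Vec d), 0 < ρ →
    ρ ≤ 1 / 8 → 8 * len q ≤ ρ → c * ρ ^ (-(2 * s)) ≤ ∫ h : Vec d, min (wS s ρ h) (wS s ρ (h + q)) := by
  obtain ⟨c, hc, hc1⟩ := rad_ann (d := d) hd hs
  have he := cplw_ex (d := d) hs
  refine ⟨(10 / 9 : ℝ) ^ (-(d : ℝ) - 2 * s) * c * (9 / 8 : ℝ) ^ (-(2 * s)), by positivity,
    fun ρ q hρ hρ1 hq => ?_⟩
  have hm1 : Measurable fun h : Vec d => min (wS s ρ h) (wS s ρ (h + q)) :=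
    (wS_meas s ρ).min ((wS_meas s ρ).comp (measurable_id.add_const q))
  have hn1 : ∀ h : Vec d, 0 ≤ min (wS s ρ h) (wS s ρ (h + q)) := fun h =>
    le_min (wS_nonneg s ρ h) (wS_nonneg s ρ (h + q))
  have hi1 : Integrable fun h : Vec d => min (wS s ρ h) (wS s ρ (h + q)) := by
    refine (wS_int hs hρ).mono' hm1.aestronglyMeasurable (Eventually.of_forall fun h => ?_)
    rw [Real.norm_eq_abs, abs_of_nonneg (hn1 h)]
    exact min_le_left _ _
  have hρ' : (0 : ℝ) < 9 / 8 * ρ := by positivity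
  have hA : MeasurableSet {h : Vec d | 9 / 8 * ρ ≤ len h ∧ len h ≤ 2 * (9 / 8 * ρ)} :=
    ((isClosed_le continuous_const continuous_len).inter
      (isClosed_le continuous_len continuous_const)).measurableSet
  have h1 : ENNReal.ofReal ((10 / 9 : ℝ) ^ (-(d : ℝ) - 2 * s)) * ENNReal.ofReal
      (c * (9 / 8 * ρ) ^ (-(2 * s))) ≤ ENNReal.ofReal (∫ h : Vec d, min (wS s ρ h) (wS s ρ (h + q))) := by
    rw [ofReal_integral_eq_lintegral_ofReal hi1 (Eventually.of_forall hn1)]
    refine (mul_le_mul_right (hc1 _ hρ') _).trans ?_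
    rw [← lintegral_const_mul _ (cplw_lenrpow _).ennreal_ofReal, ← lintegral_indicator hA]
    refine lintegral_mono fun h => ?_
    by_cases hh : h ∈ {h : Vec d | 9 / 8 * ρ ≤ len h ∧ len h ≤ 2 * (9 / 8 * ρ)}
    · rw [indicator_of_mem hh, ← ENNReal.ofReal_mul (by positivity)]
      obtain ⟨ha, hb⟩ := hh
      obtain ⟨t1, t2⟩ := cplw_tri h q
      have hl : 0 < len h := lt_of_lt_of_le hρ' ha
      have k1 : h ∈ (Sh ρ : Set (Vec d)) := ⟨by linarith, by linarith⟩
      have k2 : h + q ∈ (Sh ρ : Set (Vec d)) := ⟨by linarith, by linarith⟩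
      refine ENNReal.ofReal_le_ofReal ?_
      rw [cplw_in k1, cplw_in k2, ← Real.mul_rpow (by norm_num) hl.le]
      refine le_min ?_ ?_
      · exact Real.rpow_le_rpow_of_nonpos hl (by linarith) he.le
      · exact Real.rpow_le_rpow_of_nonpos (lt_of_lt_of_le hρ k2.1) (by linarith) he.le
    · rw [indicator_of_notMem hh]
      exact zero_le
  rw [← ENNReal.ofReal_mul (by positivity), ENNReal.ofReal_le_ofReal_iff
    (integral_nonneg hn1), Real.mul_rpow (by norm_num) hρ.le] at h1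
  calc _ = _ := by ring
    _ ≤ _ := h1

/-- the mean value inequality for negative powers -/
private lemma cplw_mv {β a b : ℝ} (hβ : 0 < β) (ha : 0 < a) (hab : a ≤ b) :
    a ^ (-β) - b ^ (-β) ≤ β * a ^ (-β - 1) * (b - a) := by
  have hb : 0 < b := lt_of_lt_of_le ha hab
  have h1 : 1 - β * (b / a - 1) ≤ (b / a) ^ (-β) := by
    rw [Real.rpow_def_of_pos (div_pos hb ha)]
    have h2 := Real.add_one_le_exp (Real.log (b / a) * -β)
    have h3 := Real.log_le_sub_one_of_pos (div_pos hb ha)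
    nlinarith
  have h2 : b ^ (-β) = a ^ (-β) * (b / a) ^ (-β) := by
    rw [← Real.mul_rpow ha.le (div_pos hb ha).le, mul_div_cancel₀ _ ha.ne']
  have h3 : a ^ (-β) = a ^ (-β - 1) * a := by
    rw [← Real.rpow_add_one ha.ne']
    ring_nf
  have h4 : 0 < a ^ (-β) := Real.rpow_pos_of_pos ha _
  have h5 : a ^ (-β) * (1 - β * (b / a - 1)) ≤ b ^ (-β) := by
    rw [h2]
    exact mul_le_mul_of_nonneg_left h1 h4.le
  have h6 : a ^ (-β) * (β * (b / a - 1)) = β * a ^ (-β - 1) * (b - a) := by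
    rw [h3]
    field_simp
  linarith [mul_sub (a ^ (-β)) 1 (β * (b / a - 1)), mul_one (a ^ (-β))]

private lemma cplw_mv2 {β m a b : ℝ} (hβ : 0 < β) (hm : 0 < m) (ha : m ≤ a) (hb : m ≤ b) :
    |a ^ (-β) - b ^ (-β)| ≤ β * m ^ (-β - 1) * |a - b| := by
  have hmono : ∀ x : ℝ, m ≤ x → x ^ (-β - 1) ≤ m ^ (-β - 1) := fun x hx =>
    Real.rpow_le_rpow_of_nonpos hm hx (by linarith)
  rcases le_total a b with hab | hab
  · have h1 := cplw_mv hβ (lt_of_lt_of_le hm ha) hab
    have h2 : b ^ (-β) ≤ a ^ (-β) :=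
      Real.rpow_le_rpow_of_nonpos (lt_of_lt_of_le hm ha) hab (by linarith)
    rw [abs_of_nonneg (by linarith), abs_sub_comm, abs_of_nonneg (by linarith)]
    refine h1.trans ?_
    exact mul_le_mul_of_nonneg_right (mul_le_mul_of_nonneg_left (hmono a ha) hβ.le) (by linarith)
  · have h1 := cplw_mv hβ (lt_of_lt_of_le hm hb) hab
    have h2 : a ^ (-β) ≤ b ^ (-β) :=
      Real.rpow_le_rpow_of_nonpos (lt_of_lt_of_le hm hb) hab (by linarith)
    rw [abs_sub_comm, abs_of_nonneg (by linarith), abs_of_nonneg (by linarith)]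
    refine h1.trans ?_
    exact mul_le_mul_of_nonneg_right (mul_le_mul_of_nonneg_left (hmono b hb) hβ.le) (by linarith)

private lemma cplw_lay (hd : 1 ≤ d) : ∃ K : ℝ, 0 ≤ K ∧ ∀ ρ t : ℝ, 0 < ρ → 0 ≤ t → 3 * t ≤ ρ →
    volume {h : Vec d | ρ - t ≤ len h ∧ len h ≤ ρ + t} ≤ ENNReal.ofReal (K * t * ρ ^ (d - 1)) := by
  obtain ⟨K, hK, hK1⟩ := rad_layer (d := d) hd
  refine ⟨2 * K, by positivity, fun ρ t hρ ht htρ => ?_⟩
  have h1 := hK1 (ρ - t) (2 * t) (by linarith) (by linarith) (by linarith)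
  have h2 : {h : Vec d | ρ - t ≤ len h ∧ len h ≤ ρ - t + 2 * t} =
      {h : Vec d | ρ - t ≤ len h ∧ len h ≤ ρ + t} := by
    ext h
    simp only [mem_setOf_eq]
    rw [show ρ - t + 2 * t = ρ + t by ring]
  rw [h2] at h1
  refine h1.trans (ENNReal.ofReal_le_ofReal ?_)
  have h3 : (ρ - t) ^ (d - 1) ≤ ρ ^ (d - 1) := pow_le_pow_left₀ (by linarith) (by linarith) _
  calc K * (2 * t) * (ρ - t) ^ (d - 1) ≤ K * (2 * t) * ρ ^ (d - 1) :=
        mul_le_mul_of_nonneg_left h3 (by positivity)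
    _ = 2 * K * t * ρ ^ (d - 1) := by ring

theorem wS_dif (hd : 1 ≤ d) {s α : ℝ} (hs : 0 < s) (hs1 : 2 * s < 1) (hα : 0 < α)
    (hα2 : α < 2 * s) : ∃ K : ℝ, 0 ≤ K ∧ ∀ (ρ : ℝ) (q : Vec d), 0 < ρ → ρ ≤ 1 / 8 →
    8 * len q ≤ ρ → ∫ h : Vec d, |wS s ρ h - wS s ρ (h + q)| * (len h ^ α + len (h + q) ^ α) ≤
      K * (len q * ρ ^ (α - 2 * s - 1)) := by
  obtain ⟨K₁, hK₁, hL⟩ := cplw_lay (d := d) hd
  obtain ⟨K₂, hK₂, hO⟩ := rad_out (d := d) hd (s := s) (τ := α - 1) (by linarith)
  have hd0 : (0 : ℝ) ≤ d := Nat.cast_nonneg d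
  have he := cplw_ex (d := d) hs
  obtain ⟨β, hβ⟩ : ∃ β : ℝ, β = (d : ℝ) + 2 * s := ⟨_, rfl⟩
  have hβ0 : 0 < β := by linarith
  have hβe : -(d : ℝ) - 2 * s = -β := by linarith
  set Ca : ℝ := β * (1 / 2 : ℝ) ^ (-β - 1) * (1 + 2 ^ α) with hCa
  have hCa0 : 0 ≤ Ca := by positivity
  set Cb : ℝ := 2 * (2 : ℝ) ^ α with hCb
  have hCb0 : 0 ≤ Cb := by positivity
  set Cc : ℝ := (1 / 4 : ℝ) ^ (-β) * 2 with hCc
  have hCc0 : 0 ≤ Cc := by positivity
  refine ⟨Ca * K₂ + Cb * K₁ + Cc * K₁, by positivity, fun ρ q hρ hρ1 hq => ?_⟩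
  have hq0 := len_nonneg q
  set t := len q with ht
  -- the three sets
  set A : Set (Vec d) := {h | ρ ≤ len h} with hA
  set I : Set (Vec d) := {h | ρ - t ≤ len h ∧ len h ≤ ρ + t} with hI
  set O : Set (Vec d) := {h | 1 / 2 - t ≤ len h ∧ len h ≤ 1 / 2 + t} with hO'
  have hAm : MeasurableSet A := (isClosed_le continuous_const continuous_len).measurableSet
  have hIm : MeasurableSet I := ((isClosed_le continuous_const continuous_len).inter
      (isClosed_le continuous_len continuous_const)).measurableSet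
  have hOm : MeasurableSet O := ((isClosed_le continuous_const continuous_len).inter
      (isClosed_le continuous_len continuous_const)).measurableSet
  have hg0 : ∀ h : Vec d, 0 ≤ |wS s ρ h - wS s ρ (h + q)| * (len h ^ α + len (h + q) ^ α) := by
    intro h
    have h1 := Real.rpow_nonneg (len_nonneg h) α
    have h2 := Real.rpow_nonneg (len_nonneg (h + q)) α
    positivity
  have hgm : Measurable fun h : Vec d =>
      |wS s ρ h - wS s ρ (h + q)| * (len h ^ α + len (h + q) ^ α) := by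
    have h1 : Measurable fun h : Vec d => wS s ρ (h + q) :=
      (wS_meas s ρ).comp (measurable_id.add_const q)
    have h2 : Measurable fun h : Vec d => len (h + q) ^ α :=
      (cplw_lenrpow α).comp (measurable_id.add_const q)
    exact (((wS_meas s ρ).sub h1).abs).mul ((cplw_lenrpow α).add h2)
  rw [integral_eq_lintegral_of_nonneg_ae (Eventually.of_forall hg0) hgm.aestronglyMeasurable]
  have hP : (0 : ℝ) < ρ ^ (α - 2 * s - 1) := Real.rpow_pos_of_pos hρ _
  refine ENNReal.toReal_le_of_le_ofReal (by positivity) ?_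
  -- the pointwise bound
  have key : ∀ h : Vec d, ENNReal.ofReal (|wS s ρ h - wS s ρ (h + q)| *
      (len h ^ α + len (h + q) ^ α)) ≤
      A.indicator (fun h => ENNReal.ofReal (Ca * t) *
        ENNReal.ofReal (len h ^ (-(d : ℝ) - 2 * s + (α - 1)))) h +
      I.indicator (fun _ => ENNReal.ofReal (Cb * ρ ^ (α - β))) h +
      O.indicator (fun _ => ENNReal.ofReal Cc) h := by
    intro h
    obtain ⟨t1, t2⟩ := cplw_tri h q
    rw [← ht] at t1 t2
    have l0 := len_nonneg h
    have l1 := len_nonneg (h + q)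
    by_cases k1 : h ∈ (Sh ρ : Set (Vec d))
    · have hl : 0 < len h := lt_of_lt_of_le hρ k1.1
      by_cases k2 : h + q ∈ (Sh ρ : Set (Vec d))
      · -- both
        have hmem : h ∈ A := k1.1
        rw [indicator_of_mem hmem, ← ENNReal.ofReal_mul (by positivity), add_assoc]
        refine le_add_of_le_of_nonneg (ENNReal.ofReal_le_ofReal ?_) zero_le
        rw [cplw_in k1, cplw_in k2, hβe]
        have m1 := cplw_mv2 (m := len h * (1 / 2)) (a := len h) (b := len (h + q)) hβ0 (by positivity)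
          (by linarith) (by linarith [k1.1])
        have m2 : |len h - len (h + q)| ≤ t := by
          rw [abs_le]
          constructor <;> linarith
        have m3 : (len h * (1 / 2)) ^ (-β - 1) = len h ^ (-β - 1) * (1 / 2) ^ (-β - 1) :=
          Real.mul_rpow hl.le (by norm_num)
        have m4 : len (h + q) ^ α ≤ 2 ^ α * len h ^ α := by
          rw [← Real.mul_rpow (by norm_num) hl.le]
          exact Real.rpow_le_rpow l1 (by linarith [k1.1]) hα.le
        have m5 : len h ^ (-β + (α - 1)) = len h ^ (-β - 1) * len h ^ α := by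
          rw [← Real.rpow_add hl]
          ring_nf
        rw [m5]
        calc |len h ^ (-β) - len (h + q) ^ (-β)| * (len h ^ α + len (h + q) ^ α)
            ≤ (β * (len h ^ (-β - 1) * (1 / 2) ^ (-β - 1)) * t) * (len h ^ α + 2 ^ α * len h ^ α) := by
              rw [m3] at m1
              refine mul_le_mul (m1.trans ?_) (by linarith) (by positivity) (by positivity)
              exact mul_le_mul_of_nonneg_left m2 (by positivity)
          _ = Ca * t * (len h ^ (-β - 1) * len h ^ α) := by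
              rw [hCa]
              ring
      · -- only `h`
        rw [cplw_in k1, cplw_out k2, sub_zero, hβe, abs_of_nonneg (Real.rpow_nonneg hl.le _)]
        by_cases k3 : len (h + q) < ρ
        · have hmem : h ∈ I := ⟨by linarith [k1.1], by linarith⟩
          have r1 : len h ^ (-β) ≤ ρ ^ (-β) :=
            Real.rpow_le_rpow_of_nonpos hρ k1.1 (by linarith)
          have r2 : len h ^ α ≤ (2 * ρ) ^ α := Real.rpow_le_rpow l0 (by linarith) hα.le
          have r3 : len (h + q) ^ α ≤ (2 * ρ) ^ α := Real.rpow_le_rpow l1 (by linarith) hα.le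
          rw [indicator_of_mem hmem]
          refine le_trans ?_ (le_add_of_nonneg_right zero_le)
          refine le_trans ?_ (le_add_of_nonneg_left zero_le)
          refine ENNReal.ofReal_le_ofReal ?_
          calc len h ^ (-β) * (len h ^ α + len (h + q) ^ α)
              ≤ ρ ^ (-β) * ((2 * ρ) ^ α + (2 * ρ) ^ α) := by
                refine mul_le_mul r1 (add_le_add r2 r3) (by positivity) (by positivity)
            _ = Cb * ρ ^ (α - β) := by
                rw [hCb, Real.mul_rpow (by norm_num) hρ.le, sub_eq_add_neg, Real.rpow_add hρ]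
                ring
        · have k4 : 1 / 2 < len (h + q) := by
            by_contra hcon
            exact k2 ⟨not_lt.1 k3, not_lt.1 hcon⟩
          have hmem : h ∈ O := ⟨by linarith, by linarith [k1.2]⟩
          have r1 : len h ^ (-β) ≤ (1 / 4 : ℝ) ^ (-β) :=
            Real.rpow_le_rpow_of_nonpos (by norm_num) (by linarith) (by linarith)
          have r2 : len h ^ α ≤ 1 := Real.rpow_le_one l0 (by linarith [k1.2]) hα.le
          have r3 : len (h + q) ^ α ≤ 1 := Real.rpow_le_one l1 (by linarith [k1.2]) hα.le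
          rw [indicator_of_mem hmem]
          refine le_trans ?_ (le_add_of_nonneg_left zero_le)
          refine ENNReal.ofReal_le_ofReal ?_
          calc len h ^ (-β) * (len h ^ α + len (h + q) ^ α)
              ≤ (1 / 4 : ℝ) ^ (-β) * (1 + 1) := by
                refine mul_le_mul r1 (add_le_add r2 r3) (by positivity) (by positivity)
            _ = Cc := by
                rw [hCc]
                norm_num
    · by_cases k2 : h + q ∈ (Sh ρ : Set (Vec d))
      · -- only `h + q`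
        have hl : 0 < len (h + q) := lt_of_lt_of_le hρ k2.1
        rw [cplw_out k1, cplw_in k2, zero_sub, abs_neg, hβe, abs_of_nonneg (Real.rpow_nonneg hl.le _)]
        by_cases k3 : len h < ρ
        · have hmem : h ∈ I := ⟨by linarith [k2.1], by linarith⟩
          have r1 : len (h + q) ^ (-β) ≤ ρ ^ (-β) :=
            Real.rpow_le_rpow_of_nonpos hρ k2.1 (by linarith)
          have r2 : len h ^ α ≤ (2 * ρ) ^ α := Real.rpow_le_rpow l0 (by linarith) hα.le
          have r3 : len (h + q) ^ α ≤ (2 * ρ) ^ α := Real.rpow_le_rpow l1 (by linarith) hα.le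
          rw [indicator_of_mem hmem]
          refine le_trans ?_ (le_add_of_nonneg_right zero_le)
          refine le_trans ?_ (le_add_of_nonneg_left zero_le)
          refine ENNReal.ofReal_le_ofReal ?_
          calc len (h + q) ^ (-β) * (len h ^ α + len (h + q) ^ α)
              ≤ ρ ^ (-β) * ((2 * ρ) ^ α + (2 * ρ) ^ α) := by
                refine mul_le_mul r1 (add_le_add r2 r3) (by positivity) (by positivity)
            _ = Cb * ρ ^ (α - β) := by
                rw [hCb, Real.mul_rpow (by norm_num) hρ.le, sub_eq_add_neg, Real.rpow_add hρ]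
                ring
        · have k4 : 1 / 2 < len h := by
            by_contra hcon
            exact k1 ⟨not_lt.1 k3, not_lt.1 hcon⟩
          have hmem : h ∈ O := ⟨by linarith, by linarith [k2.2]⟩
          have r1 : len (h + q) ^ (-β) ≤ (1 / 4 : ℝ) ^ (-β) :=
            Real.rpow_le_rpow_of_nonpos (by norm_num) (by linarith) (by linarith)
          have r2 : len h ^ α ≤ 1 := Real.rpow_le_one l0 (by linarith [k2.2]) hα.le
          have r3 : len (h + q) ^ α ≤ 1 := Real.rpow_le_one l1 (by linarith [k2.2]) hα.le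
          rw [indicator_of_mem hmem]
          refine le_trans ?_ (le_add_of_nonneg_left zero_le)
          refine ENNReal.ofReal_le_ofReal ?_
          calc len (h + q) ^ (-β) * (len h ^ α + len (h + q) ^ α)
              ≤ (1 / 4 : ℝ) ^ (-β) * (1 + 1) := by
                refine mul_le_mul r1 (add_le_add r2 r3) (by positivity) (by positivity)
            _ = Cc := by
                rw [hCc]
                norm_num
      · rw [cplw_out k1, cplw_out k2, sub_zero, abs_zero, zero_mul, ENNReal.ofReal_zero]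
        exact zero_le
  refine (lintegral_mono key).trans ?_
  have ha : Measurable fun h : Vec d => ENNReal.ofReal (Ca * t) *
      ENNReal.ofReal (len h ^ (-(d : ℝ) - 2 * s + (α - 1))) :=
    (cplw_lenrpow _).ennreal_ofReal.const_mul _
  rw [lintegral_add_right _ (measurable_const.indicator hOm),
    lintegral_add_right _ (measurable_const.indicator hIm), lintegral_indicator hAm,
    lintegral_indicator hIm, lintegral_indicator hOm, lintegral_const_mul _
    (cplw_lenrpow _).ennreal_ofReal, setLIntegral_const, setLIntegral_const]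
  have b1 : ENNReal.ofReal (Ca * t) * ∫⁻ h in A, ENNReal.ofReal
      (len h ^ (-(d : ℝ) - 2 * s + (α - 1))) ≤
      ENNReal.ofReal (Ca * K₂ * (t * ρ ^ (α - 2 * s - 1))) := by
    refine (mul_le_mul_right (hO ρ hρ) _).trans ?_
    rw [← ENNReal.ofReal_mul (by positivity)]
    refine ENNReal.ofReal_le_ofReal (le_of_eq ?_)
    rw [show α - 1 - 2 * s = α - 2 * s - 1 by ring]
    ring
  have b2 : ENNReal.ofReal (Cb * ρ ^ (α - β)) * volume I ≤
      ENNReal.ofReal (Cb * K₁ * (t * ρ ^ (α - 2 * s - 1))) := by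
    refine (mul_le_mul_right (hL ρ t hρ hq0 (by linarith)) _).trans ?_
    rw [← ENNReal.ofReal_mul (by positivity)]
    refine ENNReal.ofReal_le_ofReal (le_of_eq ?_)
    have e1 : ρ ^ (α - 2 * s - 1) = ρ ^ (α - β) * ρ ^ (d - 1) := by
      rw [← Real.rpow_natCast ρ (d - 1), ← Real.rpow_add hρ, Nat.cast_sub hd, hβ]
      congr 1
      push_cast
      ring
    rw [e1]
    ring
  have b3 : ENNReal.ofReal Cc * volume O ≤
      ENNReal.ofReal (Cc * K₁ * (t * ρ ^ (α - 2 * s - 1))) := by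
    refine (mul_le_mul_right (hL (1 / 2) t (by norm_num) hq0 (by linarith)) _).trans ?_
    rw [← ENNReal.ofReal_mul (by positivity)]
    refine ENNReal.ofReal_le_ofReal ?_
    have e1 : (1 / 2 : ℝ) ^ (d - 1) ≤ 1 := pow_le_one₀ (by norm_num) (by norm_num)
    have e2 : 1 ≤ ρ ^ (α - 2 * s - 1) :=
      Real.one_le_rpow_of_pos_of_le_one_of_nonpos hρ (by linarith) (by linarith)
    have e3 : (1 / 2 : ℝ) ^ (d - 1) ≤ ρ ^ (α - 2 * s - 1) := e1.trans e2
    calc Cc * (K₁ * t * (1 / 2) ^ (d - 1)) ≤ Cc * (K₁ * t * ρ ^ (α - 2 * s - 1)) := by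
          refine mul_le_mul_of_nonneg_left (mul_le_mul_of_nonneg_left e3 (by positivity)) hCc0
      _ = Cc * K₁ * (t * ρ ^ (α - 2 * s - 1)) := by ring
  refine (add_le_add (add_le_add b1 b2) b3).trans (le_of_eq ?_)
  rw [← ENNReal.ofReal_add (by positivity) (by positivity), ← ENNReal.ofReal_add (by positivity)
    (by positivity)]
  congr 1
  ring

end Pool.Agent.H48.NE
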