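import Pool.Agent.H48.NE.BarA
import Pool.Agent.H48.PR.Gal

/-!
# Module DerN: the derivative of `Pd` along the doubled characteristics

`Pd f (t₀+τ) (x+τv) v (ξ+τη) η = f(t₀+τ, (x+ξ)+τ(v+η), v+η) - f(t₀+τ, x+τv, v)`; each term is differentiable along its characteristic with derivative `transport f = boltzQ (f t₀ ·)` (`solves`; see `gal_deriv` in PR/Gal.lean for the chain rule with `unc`); `boltzQ_trn`.
`unif_N`: uniform continuity up to `t = 0`: on `[0,t₁] × cube × bounded v` `f` is uniformly continuous (compactness, periodicity), for large `v` the decay. -/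

set_option autoImplicit false

open MeasureTheory Set Filter Topology Pool.Agent.H25.Kin Pool.Agent.H48.PL Pool.Agent.H48.PD
open Pool.Agent.H82.BK Pool.Agent.H82.CM Pool.Agent.H48.PR

namespace Pool.Agent.H48.NE

variable {d : ℕ} {γ T : ℝ} {b : ℝ → ℝ} {f : ℝ → Vec d → Vec d → ℝ}

theorem derN (hf : IsBoltzmannSol γ b T f) {t₀ : ℝ} (ht : t₀ ∈ Ioo 0 T) (x v ξ η : Vec d) :
    HasDerivAt (fun τ : ℝ => Pd f (t₀ + τ) (x + τ • v) v (ξ + τ • η) η)
      (boltzQ γ b (fun u => f t₀ (x + ξ) (u + η)) v - boltzQ γ b (f t₀ x) v) 0 := by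
  rw [boltzQ_trn γ b (f t₀ (x + ξ)) η v]
  have h1 := char_deriv hf ht (x + ξ) (v + η)
  have h2 := char_deriv hf ht x v
  have h3 := h1.sub h2
  refine h3.congr_of_eventuallyEq (Eventually.of_forall fun τ => ?_)
  have e : x + τ • v + (ξ + τ • η) = x + ξ + τ • (v + η) := by module
  change Pd f (t₀ + τ) (x + τ • v) v (ξ + τ • η) η = _
  unfold Pd
  rw [e]
  rfl

/-- reduction of the position to the unit cube -/
private lemma dern_per {F : Vec d → ℝ} (hF : Per F) (x : Vec d) :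
    ∃ y ∈ Icc (0 : Vec d) 1, F y = F x := by
  refine ⟨fun i => Int.fract (x i), ⟨fun i => Int.fract_nonneg _, fun i => (Int.fract_lt_one _).le⟩, ?_⟩
  have hl : (fun i => (-(⌊x i⌋ : ℤ) : ℝ)) ∈
      Submodule.span ℤ (Set.range (Pi.basisFun ℝ (Fin d))) := by
    have e : (fun i => (-(⌊x i⌋ : ℤ) : ℝ)) = ∑ i, (-⌊x i⌋ : ℤ) • (Pi.basisFun ℝ (Fin d) i) := by
      funext j
      rw [Finset.sum_apply]
      simp only [Pi.basisFun_apply, Pi.smul_apply, Pi.single_apply]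
      rw [Finset.sum_eq_single j]
      · simp
      · intro b _ hb
        simp [Ne.symm hb]
      · intro h
        exact absurd (Finset.mem_univ _) h
    rw [e]
    exact Submodule.sum_mem _ fun i _ => Submodule.smul_mem _ _
      (Submodule.subset_span (Set.mem_range_self i))
  have h := hF.span hl x
  have e2 : (fun i => (-(⌊x i⌋ : ℤ) : ℝ)) + x = fun i => Int.fract (x i) := by
    funext i
    simp only [Pi.add_apply, Int.fract]
    ring
  rw [e2] at h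
  exact h

private lemma dern_norm_le {z : Vec d} {r : ℝ} (hr : 0 ≤ r) (h : nsq z ≤ r ^ 2) : ‖z‖ ≤ r := by
  refine (norm_le_len z).trans ?_
  have h1 := len_sq z
  exact abs_le_of_sq_le_sq' (by rw [h1]; exact h) hr |>.2

/-- lower bound of the weight -/
private lemma dern_Wp (p : ℕ) (v : Vec d) :
    (((d : ℝ) + 1) ^ p)⁻¹ * ((1 + ‖v‖) ^ (2 * p))⁻¹ ≤ Wp p v := by
  unfold Wp
  rw [← mul_inv, pow_mul, ← mul_pow]
  have h0 := sq_nonneg' v
  have hv := norm_nonneg v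
  refine inv_anti₀ (by positivity) (pow_le_pow_left₀ (by positivity) ?_ p)
  have h1 := Pool.Agent.H25.Kin.sq_le v
  have h2 : (0 : ℝ) ≤ d := Nat.cast_nonneg d
  nlinarith [mul_nonneg h2 hv]

/-- the decay of the difference, uniformly in the shift -/
private lemma dern_decay {Q : ℝ → Vec d → Vec d → ℝ} (hf : IsClassicalSol T Q f) {T₁ : ℝ}
    (h1 : T₁ < T) (p : ℕ) :
    ∃ C : ℝ, 0 ≤ C ∧ ∀ t ∈ Icc 0 T₁, ∀ x y v η : Vec d, ‖η‖ ≤ 1 →
      |f t y (v + η) - f t x v| ≤ C * ((1 + ‖v‖) ^ (2 * p + 1))⁻¹ := by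
  obtain ⟨C, hC⟩ := hf.decay T₁ h1 (2 * p + 1)
  refine ⟨2 ^ (2 * p + 1) * max C 0, by positivity, fun t ht x y v η hη => ?_⟩
  have ht' : t ∈ Ico 0 T := ⟨ht.1, ht.2.trans_lt h1⟩
  have hv := norm_nonneg v
  have hvη := norm_nonneg (v + η)
  have hp : 0 < (1 + ‖v‖) ^ (2 * p + 1) := by positivity
  have hCm : C ≤ max C 0 := le_max_left _ _
  have hC0 : 0 ≤ max C 0 := le_max_right _ _
  have h2 : (1 : ℝ) ≤ 2 ^ (2 * p + 1) := one_le_pow₀ (by norm_num)
  have hb : (1 + ‖v‖) ^ (2 * p + 1) ≤ 2 ^ (2 * p + 1) * (1 + ‖v + η‖) ^ (2 * p + 1) := by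
    rw [← mul_pow]
    refine pow_le_pow_left₀ (by positivity) ?_ _
    have h3 : ‖v‖ ≤ ‖v + η‖ + ‖η‖ := by
      have h4 := norm_sub_le (v + η) η
      rwa [add_sub_cancel_right] at h4
    linarith
  refine abs_sub_le_of_nonneg_of_le (hf.nonneg t ht' _ _) ?_ (hf.nonneg t ht' _ _) ?_
  · rw [← div_eq_mul_inv, le_div_iff₀ hp]
    calc f t y (v + η) * (1 + ‖v‖) ^ (2 * p + 1)
        ≤ f t y (v + η) * (2 ^ (2 * p + 1) * (1 + ‖v + η‖) ^ (2 * p + 1)) :=
          mul_le_mul_of_nonneg_left hb (hf.nonneg t ht' _ _)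
      _ = 2 ^ (2 * p + 1) * ((1 + ‖v + η‖) ^ (2 * p + 1) * f t y (v + η)) := by ring
      _ ≤ 2 ^ (2 * p + 1) * max C 0 :=
          mul_le_mul_of_nonneg_left ((hC t ht y (v + η)).trans hCm) (by positivity)
  · rw [← div_eq_mul_inv, le_div_iff₀ hp]
    calc f t x v * (1 + ‖v‖) ^ (2 * p + 1) = (1 + ‖v‖) ^ (2 * p + 1) * f t x v := mul_comm _ _
      _ ≤ max C 0 := (hC t ht x v).trans hCm
      _ ≤ 2 ^ (2 * p + 1) * max C 0 := le_mul_of_one_le_left hC0 h2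

theorem unif_N {Q : ℝ → Vec d → Vec d → ℝ} (hf : IsClassicalSol T Q f) {t₁ : ℝ} (h1 : t₁ < T)
    (p : ℕ) {e : ℝ} (he : 0 < e) : ∃ ϱ > 0, ∀ t ∈ Icc 0 t₁, ∀ x v ξ η : Vec d,
      nsq ξ + nsq η ≤ ϱ → |Pd f t x v ξ η| < e * Wp p v := by
  obtain ⟨C, hC0, hC⟩ := dern_decay hf h1 p
  obtain ⟨κ, hκ⟩ : ∃ κ : ℝ, κ = e * (((d : ℝ) + 1) ^ p)⁻¹ := ⟨_, rfl⟩
  have hκ0 : 0 < κ := by rw [hκ]; positivity
  have hκW : ∀ v : Vec d, κ * ((1 + ‖v‖) ^ (2 * p))⁻¹ ≤ e * Wp p v := by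
    intro v
    rw [hκ, mul_assoc]
    exact mul_le_mul_of_nonneg_left (dern_Wp p v) he.le
  obtain ⟨R, hR⟩ : ∃ R : ℝ, R = C / κ := ⟨_, rfl⟩
  have hR0 : 0 ≤ R := by rw [hR]; positivity
  have hRκ : C = κ * R := by rw [hR]; field_simp
  obtain ⟨δ, hδ⟩ : ∃ δ : ℝ, δ = κ * ((1 + R) ^ (2 * p))⁻¹ := ⟨_, rfl⟩
  have hδ0 : 0 < δ := by rw [hδ]; positivity
  have hKc : IsCompact (Icc (0 : ℝ) t₁ ×ˢ (Metric.closedBall (0 : Vec d) 2 ×ˢ
      Metric.closedBall (0 : Vec d) (R + 1))) :=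
    isCompact_Icc.prod ((isCompact_closedBall _ _).prod (isCompact_closedBall _ _))
  have hcont : ContinuousOn (unc f) (Icc (0 : ℝ) t₁ ×ˢ (Metric.closedBall (0 : Vec d) 2 ×ˢ
      Metric.closedBall (0 : Vec d) (R + 1))) :=
    (show ContinuousOn (unc f) (Ico 0 T ×ˢ univ) from hf.isCont).mono fun q hq =>
      ⟨⟨hq.1.1, hq.1.2.trans_lt h1⟩, mem_univ _⟩
  obtain ⟨ρ, hρ0, hρ⟩ := Metric.uniformContinuousOn_iff.1
    (hKc.uniformContinuousOn_of_continuous hcont) δ hδ0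
  obtain ⟨r₀, hr₀⟩ : ∃ r : ℝ, r = min (1 / 2) (ρ / 2) := ⟨_, rfl⟩
  have hr0 : 0 < r₀ := by rw [hr₀]; exact lt_min (by norm_num) (by linarith)
  have hr1 : r₀ ≤ 1 / 2 := by rw [hr₀]; exact min_le_left _ _
  have hr2 : r₀ < ρ := by
    have h2 : r₀ ≤ ρ / 2 := by rw [hr₀]; exact min_le_right _ _
    linarith
  refine ⟨r₀ ^ 2, by positivity, fun t ht x v ξ η hξη => ?_⟩
  have ht' : t ∈ Ico 0 T := ⟨ht.1, ht.2.trans_lt h1⟩
  have hξ : ‖ξ‖ ≤ r₀ := dern_norm_le hr0.le (by linarith [sq_nonneg' η])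
  have hη : ‖η‖ ≤ r₀ := dern_norm_le hr0.le (by linarith [sq_nonneg' ξ])
  have hv := norm_nonneg v
  unfold Pd
  refine lt_of_lt_of_le ?_ (hκW v)
  by_cases hvR : ‖v‖ ≤ R
  · have hper : Per fun y => |f t (y + ξ) (v + η) - f t y v| := by
      intro y i
      have e1 : y + Pi.single i 1 + ξ = (y + ξ) + Pi.single i 1 := by abel
      beta_reduce
      rw [e1, hf.periodic t ht', hf.periodic t ht']
    obtain ⟨y, hy, hyx⟩ := dern_per hper x
    rw [← hyx]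
    have hyn : ‖y‖ ≤ 1 := by
      rw [pi_norm_le_iff_of_nonneg zero_le_one]
      intro i
      rw [Real.norm_eq_abs, abs_le]
      have h2 := hy.1 i
      have h3 := hy.2 i
      simp only [Pi.zero_apply, Pi.one_apply] at h2 h3
      constructor <;> linarith
    have hm1 : (t, y + ξ, v + η) ∈ Icc (0 : ℝ) t₁ ×ˢ (Metric.closedBall (0 : Vec d) 2 ×ˢ
        Metric.closedBall (0 : Vec d) (R + 1)) := by
      refine ⟨ht, ?_, ?_⟩
      · rw [mem_closedBall_zero_iff]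
        have h2 := norm_add_le y ξ
        linarith
      · rw [mem_closedBall_zero_iff]
        have h2 := norm_add_le v η
        linarith
    have hm2 : (t, y, v) ∈ Icc (0 : ℝ) t₁ ×ˢ (Metric.closedBall (0 : Vec d) 2 ×ˢ
        Metric.closedBall (0 : Vec d) (R + 1)) := by
      refine ⟨ht, ?_, ?_⟩
      · rw [mem_closedBall_zero_iff]
        linarith
      · rw [mem_closedBall_zero_iff]
        linarith
    have hdist : dist (t, y + ξ, v + η) (t, y, v) < ρ := by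
      rw [Prod.dist_eq, Prod.dist_eq, dist_self]
      refine max_lt hρ0 (max_lt ?_ ?_)
      · rw [dist_eq_norm, add_sub_cancel_left]
        exact hξ.trans_lt hr2
      · rw [dist_eq_norm, add_sub_cancel_left]
        exact hη.trans_lt hr2
    have h2 := hρ _ hm1 _ hm2 hdist
    rw [Real.dist_eq] at h2
    have h3 : |f t (y + ξ) (v + η) - f t y v| < δ := h2
    refine h3.trans_le ?_
    rw [hδ]
    refine mul_le_mul_of_nonneg_left ?_ hκ0.le
    exact inv_anti₀ (by positivity) (pow_le_pow_left₀ (by positivity) (by linarith) _)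
  · have hvR' : R ≤ ‖v‖ := (not_le.1 hvR).le
    refine (hC t ht x _ v η (by linarith)).trans_lt ?_
    have hX : (0 : ℝ) < 1 + ‖v‖ := by linarith
    have e1 : ((1 + ‖v‖) ^ (2 * p))⁻¹ = (1 + ‖v‖) * ((1 + ‖v‖) ^ (2 * p + 1))⁻¹ := by
      rw [pow_succ (1 + ‖v‖) (2 * p)]
      field_simp
    rw [e1, ← mul_assoc]
    refine mul_lt_mul_of_pos_right ?_ (by positivity)
    rw [hRκ]
    exact mul_lt_mul_of_pos_left (by linarith) hκ0

end Pool.Agent.H48.NE
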