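import Pool.Agent.H48.NE.BandL
import Pool.Agent.H48.PR.Sw

/-!
# Module DomN: lower bound of the collision integral `DsN`

`DsN = ∫⁻ m, ofReal (len m ^ γ * E (v-m)) * GEg γ b ε H ∅ v m` (`sw` of PR/Sw with `U = H`, `G = E`, `S = ∅`; the `if` is always the second case). `GEg γ b ε H ∅ v m = ∫⁻ σ in {0 < dot m σ}, ofReal (Kn d γ (fun x => bt b ε (-x)) (co m σ) * H (v + hh σ m))`.
Lower bound for `0 < ρ ≤ |m| ≤ 1/2`, `ε ≤ ρ²`: restrict to `c = co m σ = dot (dir m) σ ∈ [|m|, 6/5 |m|]` (`≤ 3/5`); `|hh σ m|² = |m|² (1-c²)/c² ≤ 1` (identity `nsq (hh σ m) = nsq m * ((1 - co m σ ^ 2) / co m σ ^ 2)`, see H82/BK/Geo, H82/CM/Fast), so `|v + hh| ≤ R + 1` and `H ≥ cH`.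
`Kn d γ (bt b ε (-·)) c = 2^(d-1) c^(-2-γ) bt b ε (1-2c²)`, `bt b ε (1-2c²) ≥ b (1-2c²)` (`bt_ge`: `0 < 1-2c² ≤ 1 - ε` as `ε ≤ ρ² ≤ 2c²`) `≥ cb (2c²)^(-(d-1)/2-s)` (`LowB`): `Kn ≥ κ₁ c^(-d-1-γ-2s) ≥ κ₂ |m|^(-d-1-γ-2s)`; measure of the band `≥ c |m|/5` (`band`). So
`len m ^ γ * GEg ≥ κ |m|^(-d-2s)`, `κ` independent of `ρ, ε`. Then restrict the outer integral to `m ∈ -Sh ρ` and substitute `h = -m` (`v - m = v + h`, `len (-h) = len h`; `lintegral_neg_eq_self` / measure preserving).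
-/

set_option autoImplicit false

open MeasureTheory Set Filter Topology Pool.Agent.H25.Kin Pool.Agent.H48.PL Pool.Agent.H48.PD
open Pool.Agent.H82.BK Pool.Agent.H82.CM Pool.Agent.H48.PR
open scoped ENNReal

namespace Pool.Agent.H48.NE

variable {d : ℕ} {γ s C Ca cb : ℝ} {b : ℝ → ℝ}

/-- pointwise lower bound of the kernel -/
private lemma DomN_Kn (HL : HypL d γ s b C Ca cb) (h0 : 0 ≤ γ) {l ε c : ℝ} (hl : 0 < l)
    (hl1 : l ≤ 1 / 2) (hε : ε ≤ 2 * l ^ 2) (h1 : l ≤ c) (h2 : c ≤ 6 / 5 * l) :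
    2 ^ (d - 1) * cb * 2 ^ (-(((d : ℝ) - 1) / 2 + s)) *
        (6 / 5 : ℝ) ^ (-((d : ℝ) + 1 + γ + 2 * s)) * l ^ (-((d : ℝ) + 1 + γ + 2 * s)) ≤
      Kn d γ (fun x => bt b ε (-x)) c := by
  have hcb := HL.lo.1
  have hβ := HL.H.β0
  have hs := HL.H.hs
  set β : ℝ := ((d : ℝ) - 1) / 2 + s with hβd
  set p : ℝ := (d : ℝ) + 1 + γ + 2 * s with hp
  have hp0 : 0 ≤ p := by positivity
  have hc0 : 0 < c := by linarith
  have hc1 : c ≤ 3 / 5 := by linarith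
  have hx0 : 0 < 1 - 2 * c ^ 2 := by nlinarith
  have hx1 : 1 - 2 * c ^ 2 < 1 := by nlinarith
  have hcl : l ^ 2 ≤ c ^ 2 := by gcongr
  have hxe : 1 - 2 * c ^ 2 ≤ 1 - ε := by linarith
  have h4 := bt_ge (ε := ε) HL.H.bd hx0 hx1.le hxe
  have h5 := HL.lo.2 (1 - 2 * c ^ 2) hx0.le hx1
  have h6 : (1 - (1 - 2 * c ^ 2)) ^ (-β) = 2 ^ (-β) * c ^ (-(2 * β)) := by
    rw [show 1 - (1 - 2 * c ^ 2) = 2 * c ^ 2 by ring, Real.mul_rpow (by norm_num) (by positivity)]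
    congr 1
    rw [← Real.rpow_natCast c 2, ← Real.rpow_mul hc0.le]
    congr 1
    push_cast
    ring
  rw [h6] at h5
  have h7 : cb * (2 ^ (-β) * c ^ (-(2 * β))) ≤ bt b ε (1 - 2 * c ^ 2) := h5.trans h4
  have h8 : (6 / 5 : ℝ) ^ (-p) * l ^ (-p) ≤ c ^ (-p) := by
    rw [← Real.mul_rpow (by norm_num) hl.le]
    exact Real.rpow_le_rpow_of_nonpos hc0 h2 (by linarith)
  have h9 : c ^ (-2 - γ) * c ^ (-(2 * β)) = c ^ (-p) := by
    rw [← Real.rpow_add hc0]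
    congr 1
    rw [hp, hβd]
    ring
  have h10 : 0 ≤ 2 ^ (d - 1) * cb * 2 ^ (-β) := by positivity
  unfold Kn
  calc 2 ^ (d - 1) * cb * 2 ^ (-β) * (6 / 5 : ℝ) ^ (-p) * l ^ (-p)
      = 2 ^ (d - 1) * cb * 2 ^ (-β) * ((6 / 5 : ℝ) ^ (-p) * l ^ (-p)) := by ring
    _ ≤ 2 ^ (d - 1) * cb * 2 ^ (-β) * c ^ (-p) := mul_le_mul_of_nonneg_left h8 h10
    _ = 2 ^ (d - 1) * c ^ (-2 - γ) * (cb * (2 ^ (-β) * c ^ (-(2 * β)))) := by
        rw [← h9]; ring
    _ ≤ 2 ^ (d - 1) * c ^ (-2 - γ) * bt b ε (1 - 2 * c ^ 2) := by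
        refine mul_le_mul_of_nonneg_left h7 ?_
        have := Real.rpow_nonneg hc0.le (-2 - γ)
        positivity
    _ = 2 ^ (d - 1) * c ^ (-2 - γ) * (fun x => bt b ε (-x)) (2 * c ^ 2 - 1) := by
        simp only [neg_sub]

/-- lower bound of the angular integral -/
private lemma DomN_GE (HL : HypL d γ s b C Ca cb) (h0 : 0 ≤ γ) (R : ℝ) {cH : ℝ}
    (hc : 0 < cH) : ∃ κ > 0, ∀ ρ : ℝ, 0 < ρ → ∀ ε : ℝ, 0 < ε → ε ≤ ρ ^ 2 →
    ∀ H : Vec d → ℝ, ∀ v : Vec d, len v ≤ R → (∀ u, len u ≤ R + 2 → cH ≤ H u) →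
      ∀ m ∈ (Sh ρ : Set (Vec d)),
        ENNReal.ofReal (κ * len m ^ (-(d : ℝ) - 2 * s - γ)) ≤ GEg γ b ε H ∅ v m := by
  obtain ⟨c₀, hc₀, hband⟩ := band (d := d) HL.H.hd
  have hcb := HL.lo.1
  have hs := HL.H.hs
  set p : ℝ := (d : ℝ) + 1 + γ + 2 * s with hp
  set K₁ : ℝ := 2 ^ (d - 1) * cb * 2 ^ (-(((d : ℝ) - 1) / 2 + s)) * (6 / 5 : ℝ) ^ (-p) with hK₁
  have hK0 : 0 < K₁ := by positivity
  refine ⟨K₁ * cH * (c₀ / 5), by positivity, fun ρ hρ ε hε hερ H v hv hH m hm => ?_⟩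
  obtain ⟨hm1, hm2⟩ := hm
  set l := len m with hl
  have hl0 : 0 < l := hρ.trans_le hm1
  have hm0 : m ≠ 0 := by
    rintro rfl
    rw [hl, len_zero] at hl0
    exact lt_irrefl _ hl0
  have hlρ : ρ ^ 2 ≤ l ^ 2 := by gcongr
  set S : Set (Vec d) := {σ : Vec d | l ≤ dot (dir m) σ ∧ dot (dir m) σ ≤ 6 / 5 * l} with hS
  have hSm : MeasurableSet S :=
    ((isClosed_le continuous_const (dot_cont (dir m))).inter
      (isClosed_le (dot_cont (dir m)) continuous_const)).measurableSet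
  have hSsub : S ⊆ {σ : Vec d | 0 < dot m σ} := by
    intro σ hσ
    have h3 := hσ.1
    have h4 : 0 < co m σ := by rw [co_eq]; linarith
    unfold co at h4
    have := mul_pos h4 (len_pos hm0)
    rw [div_mul_cancel₀ _ (len_pos hm0).ne'] at this
    exact this
  have hb1 := hband (dir m) (nsq_dir hm0) l (6 / 5 * l) hl0.le (by linarith) (by linarith)
  have hpw : l ^ (-(d : ℝ) - 2 * s - γ) = l ^ (-p) * l := by
    rw [← Real.rpow_add_one hl0.ne']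
    congr 1
    rw [hp]
    ring
  have hlp := Real.rpow_nonneg hl0.le (-p)
  calc ENNReal.ofReal (K₁ * cH * (c₀ / 5) * l ^ (-(d : ℝ) - 2 * s - γ))
      = ENNReal.ofReal (K₁ * l ^ (-p) * cH) * ENNReal.ofReal (c₀ * (6 / 5 * l - l)) := by
        rw [← ENNReal.ofReal_mul (by positivity), hpw]
        congr 1
        ring
    _ ≤ ENNReal.ofReal (K₁ * l ^ (-p) * cH) * surf d S := by gcongr
    _ = ∫⁻ _σ in S, ENNReal.ofReal (K₁ * l ^ (-p) * cH) ∂(surf d) := by rw [setLIntegral_const]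
    _ ≤ ∫⁻ σ in S, ENNReal.ofReal
          (Kn d γ (fun x => bt b ε (-x)) (co m σ) * H (v + hh σ m)) ∂(surf d) := by
        refine lintegral_mono_ae ?_
        filter_upwards [ae_restrict_of_ae surf_ae, ae_restrict_mem hSm] with σ hσ hσS
        refine ENNReal.ofReal_le_ofReal ?_
        have hpos : 0 < dot m σ := hSsub hσS
        obtain ⟨h3, h4⟩ := hσS
        rw [← co_eq] at h3 h4
        have hk := DomN_Kn HL h0 (ε := ε) hl0 hm2 (by linarith [sq_nonneg l]) h3 h4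
        have hco : 0 < co m σ := co_pos hpos
        have hh1 : nsq (hh σ m) ≤ 1 := by
          rw [nsq_hh hσ hpos, ← len_sq m, ← hl]
          have h5 : l ^ 2 ≤ co m σ ^ 2 := by gcongr
          have h6 : l ^ 2 / co m σ ^ 2 ≤ 1 := by
            rw [div_le_one (by positivity)]
            exact h5
          calc l ^ 2 * ((1 - co m σ ^ 2) / co m σ ^ 2) = l ^ 2 / co m σ ^ 2 - l ^ 2 := by
                field_simp
            _ ≤ 1 := by nlinarith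
        have hh2 : len (hh σ m) ≤ 1 := by
          have h5 : len (hh σ m) ^ 2 ≤ 1 ^ 2 := by rw [len_sq]; linarith
          exact le_of_sq_le_sq h5 (by norm_num)
        have hh3 : cH ≤ H (v + hh σ m) := by
          refine hH _ ?_
          have := len_add_le v (hh σ m)
          linarith
        refine mul_le_mul hk hh3 hc.le (le_trans ?_ hk)
        positivity
    _ ≤ ∫⁻ σ in {σ : Vec d | 0 < dot m σ}, ENNReal.ofReal
          (Kn d γ (fun x => bt b ε (-x)) (co m σ) * H (v + hh σ m)) ∂(surf d) :=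
        lintegral_mono_set hSsub
    _ = GEg γ b ε H ∅ v m := by
        unfold GEg
        simp only [mem_empty_iff_false, if_false]

theorem domN (HL : HypL d γ s b C Ca cb) (hs : 2 * s < 1) (h0 : 0 ≤ γ) (R : ℝ) {cH : ℝ}
    (hc : 0 < cH) : ∃ κ > 0, ∀ ρ : ℝ, 0 < ρ → ρ ≤ 1 / 4 → ∀ ε : ℝ, 0 < ε → ε ≤ ρ ^ 2 →
    ∀ H E : Vec d → ℝ, Measurable H → (∀ u, 0 ≤ H u) → Measurable E → (∀ u, 0 ≤ E u) →
    ∀ v : Vec d, len v ≤ R → (∀ u, len u ≤ R + 2 → cH ≤ H u) →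
      ∫⁻ h in Sh ρ, ENNReal.ofReal (κ * (len h ^ (-(d : ℝ) - 2 * s) * E (v + h))) ≤
        DsN γ b ε H E v := by
  obtain ⟨κ, hκ, hGE⟩ := DomN_GE HL h0 R hc
  refine ⟨κ, hκ, fun ρ hρ _ ε hε hερ H E hH hH0 hE hE0 v hv hcH => ?_⟩
  have hSh : MeasurableSet (Sh ρ : Set (Vec d)) :=
    ((isClosed_le continuous_const continuous_len).inter
      (isClosed_le continuous_len continuous_const)).measurableSet
  have hsw := sw HL.H.hd γ HL.H.bm HL.H.bd hε hH hH0 hE hE0 (S := ∅) MeasurableSet.empty v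
  have h1 : DsN γ b ε H E v = ∫⁻ m, ENNReal.ofReal (len m ^ γ * E (v - m)) *
      GEg γ b ε H ∅ v m := by
    rw [← hsw]
    unfold DsN
    simp only [mem_empty_iff_false, if_false]
  rw [h1, ← lintegral_indicator hSh,
    ← lintegral_neg_eq_self (fun h : Vec d => (Sh ρ).indicator
      (fun h => ENNReal.ofReal (κ * (len h ^ (-(d : ℝ) - 2 * s) * E (v + h)))) h)]
  refine lintegral_mono fun m => ?_
  by_cases hm : m ∈ (Sh ρ : Set (Vec d))
  · have hm' : -m ∈ (Sh ρ : Set (Vec d)) := by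
      unfold Sh at hm ⊢
      simpa [len_neg] using hm
    have hl0 : 0 < len m := hρ.trans_le hm.1
    simp only [indicator_of_mem hm', len_neg]
    have h2 := hGE ρ hρ ε hε hερ H v hv hcH m hm
    have h3 : κ * (len m ^ (-(d : ℝ) - 2 * s) * E (v + -m)) =
        len m ^ γ * E (v - m) * (κ * len m ^ (-(d : ℝ) - 2 * s - γ)) := by
      have h4 : len m ^ (-(d : ℝ) - 2 * s) = len m ^ γ * len m ^ (-(d : ℝ) - 2 * s - γ) := by
        rw [← Real.rpow_add hl0]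
        congr 1
        ring
      rw [h4, ← sub_eq_add_neg]
      ring
    rw [h3, ENNReal.ofReal_mul (mul_nonneg (Real.rpow_nonneg hl0.le _) (hE0 _))]
    gcongr
  · have hm' : -m ∉ (Sh ρ : Set (Vec d)) := by
      unfold Sh at hm ⊢
      simpa [len_neg] using hm
    simp only [indicator_of_notMem hm']
    exact bot_le

end Pool.Agent.H48.NE
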