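import Pool.Agent.H48.NE.Defs
import Pool.Agent.H48.PS.Prp

/-!
# Module GenN: generation of all decay constants, uniform in time (`γ > 0`)

Let `q ∈ ℕ`, `d + γ + 4 ≤ 2q`, `q ≥ p`; `n = 2(q-p)/γ` (a real exponent `≥ 0`). CLAIM: `f t x v (1+|v|²)^q ≤ A (1 + t^(-n))`, `0 < t < T`, with `A = A(q, A₁, m, R₁, ..)`. By a first touching argument on `[ta, t₁]` with `B(t) = 2A(1+t^(-n))` (strict at `ta` small because `f (1+|v|²)^q ≤ C_f` on `[0,t₁]` by the decay of the solution, `ta^(-n) → ∞`; if `q = p` nothing to prove).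
At a touching point (`first_touch` of H82/BK/Touch for the shifted solution, or the proof of `mp_lt` in H82/BK/MaxPr; the derivative of `B` is `-2A n t^(-n-1)`): `B'(t₀) ≤ (1+|v|²)^q Q(f)(v)`. `op_bound` (H82/CM/Op) for the exponent `q`: `Q(f)(v) ≤ f(v) (K ∫_{Med} f len^γ - κ ∫_{Slow} f len^γ)`.
Slow part for `1+|v|² ≥ a₁` (`δ² a₁ ≥ R₁²`, `a₁ ≥ a₀`): `{nsq z ≤ R₁²} ⊂ Slow`, `len(v-z) ≥ |v|/2`-type bound: `≥ c m (1+|v|²)^(γ/2)`. Medium part (private lemmas `prp_med`, `prp_len`, `prp_int` of PS/Prp): `1+|v|² ≤ C(1+|z|²)`, `f ≤ A₁ Wp p`, `len^γ ≤ 2(1+|v|²)(1+|z|²)`: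
`∫_{Med} f len^γ ≤ 2A₁ ∫ C(1+|z|²)(1+|z|²) Wp p z ≤ C'`, and with three more powers (`p ≥ d+10`): `≤ C'/(1+|v|²)`. So for `1+|v|² ≥ a₂`: `Q(f)(v) ≤ -κ₁ (1+|v|²)^(γ/2) f(v)`. Hence `-2A n t^(-n-1) ≤ -κ₁ (1+|v|²)^(γ/2) B(t)`, i.e. (`B ≥ 2A t^(-n)`) `(1+|v|²)^(γ/2) ≤ n/(κ₁ t)`; then
`f (1+|v|²)^q ≤ A₁ (1+|v|²)^(q-p) ≤ A₁ (n/(κ₁ t))^(2(q-p)/γ) = A₁ (n/κ₁)^n t^(-n) < B(t)` if `A` is large; for `1+|v|² ≤ a₂`: `f (1+|v|²)^q ≤ A₁ a₂^(q-p) < B(t)`. Contradiction. At `t ≥ 1`: `≤ 4A`. For given `N`: `q = N + p`, comparison `(1+‖v‖)^N ≤ 2^N (1+nsq v)^q` (end of PS/Prp). -/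

set_option autoImplicit false

open MeasureTheory Set Filter Topology Pool.Agent.H25.Kin Pool.Agent.H48.PL Pool.Agent.H48.PD
open Pool.Agent.H82.BK Pool.Agent.H48.PR

namespace Pool.Agent.H48.NE

variable {d : ℕ} {γ s : ℝ} {b : ℝ → ℝ}

private lemma GenN_norm1 (v : Vec d) : 1 + ‖v‖ ≤ 2 * (1 + nsq v) := by
  have h1 := norm_sq_le_sq v
  have h2 := norm_nonneg v
  nlinarith [sq_nonneg (‖v‖ - 1)]

private lemma GenN_int {p : ℕ} (hp : d + 10 ≤ p) :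
    Integrable fun z : Vec d => Wp p z * (1 + nsq z) ^ 3 := by
  have hc : Continuous fun z : Vec d => Wp p z * (1 + nsq z) ^ 3 :=
    (Wp_cont p).mul ((continuous_const.add continuous_sq).pow 3)
  refine ((integrable_wt (d := d)).const_mul ((2 : ℝ) ^ (d + 1))).mono' hc.aestronglyMeasurable
    (Eventually.of_forall fun z => ?_)
  have h0 := sq_nonneg' z
  have h1 : (1 : ℝ) ≤ 1 + nsq z := by linarith
  have hW := Wp_pos p z
  rw [Real.norm_eq_abs, abs_of_nonneg (by positivity)]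
  have h2 : Wp p z * (1 + nsq z) ^ 3 ≤ ((1 + nsq z) ^ (d + 1))⁻¹ := by
    unfold Wp
    rw [inv_mul_le_iff₀ (by positivity), ← div_eq_mul_inv, le_div_iff₀ (by positivity), ← pow_add]
    exact pow_le_pow_right₀ h1 (by omega)
  have h3 : ((1 + nsq z) ^ (d + 1))⁻¹ ≤ 2 ^ (d + 1) * wt d z := by
    unfold wt
    have hn : 0 < 1 + ‖z‖ := w_pos z
    rw [← div_eq_mul_inv, inv_eq_one_div, div_le_div_iff₀ (by positivity) (by positivity), one_mul,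
      ← mul_pow]
    exact pow_le_pow_left₀ hn.le (GenN_norm1 z) _
  exact h2.trans h3

private lemma GenN_len {γ : ℝ} (h0 : 0 ≤ γ) (h2 : γ ≤ 2) (v z : Vec d) :
    len (v - z) ^ γ ≤ 2 * ((1 + nsq v) * (1 + nsq z)) := by
  refine le_trans ?_ (one_add_sq_sub_le v z)
  have hl := len_nonneg (v - z)
  have hs := sq_nonneg' (v - z)
  have hsq : len (v - z) ^ 2 = nsq (v - z) := Real.sq_sqrt hs
  rcases le_total (len (v - z)) 1 with h | h
  · have := Real.rpow_le_one hl h h0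
    linarith
  · have h3 : len (v - z) ^ γ ≤ len (v - z) ^ (2 : ℝ) := Real.rpow_le_rpow_of_exponent_le h h2
    rw [Real.rpow_two, hsq] at h3
    linarith

private lemma GenN_med {δ a₀ L : ℝ} (hδ : 0 < δ) (ha : 1 ≤ a₀) {v z : Vec d}
    (h : Pool.Agent.H82.CM.MedR δ a₀ L v z) : 1 + nsq v ≤ (a₀ + (δ ^ 2)⁻¹) * (1 + nsq z) := by
  have hz := sq_nonneg' z
  have hv := sq_nonneg' v
  have hd2 : 0 < δ ^ 2 := by positivity
  have hi : 0 < (δ ^ 2)⁻¹ := inv_pos.2 hd2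
  have h1 := h.2
  unfold Pool.Agent.H82.CM.SlowR at h1
  rw [not_and_or, not_le, not_le] at h1
  rcases h1 with h1 | h1
  · nlinarith
  · have h3 : 1 + nsq v ≤ (δ ^ 2)⁻¹ * nsq z := by
      rw [← div_eq_inv_mul, le_div_iff₀ hd2]
      linarith
    nlinarith

/-- lower bound of the relative velocity -/
private lemma GenN_low {γ R₁ : ℝ} (h0 : 0 ≤ γ) (h2 : γ ≤ 2) {v z : Vec d} (h1 : 2 ≤ 1 + nsq v)
    (h3 : 16 * R₁ ^ 2 ≤ 1 + nsq v) (hz : nsq z ≤ R₁ ^ 2) :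
    (1 + nsq v) ^ (γ / 2) / 16 ≤ len (v - z) ^ γ := by
  have hv := sq_nonneg' v
  have hl := len_nonneg (v - z)
  obtain ⟨j, hj⟩ : ∃ j : ℝ, j = Real.sqrt (1 + nsq v) := ⟨_, rfl⟩
  have hj0 : 0 ≤ j := by rw [hj]; exact Real.sqrt_nonneg _
  have hj2 : j ^ 2 = 1 + nsq v := by rw [hj]; exact Real.sq_sqrt (by linarith)
  have hlv : j / 2 ≤ len v := by
    have e1 : (j / 2) ^ 2 ≤ nsq v := by
      rw [div_pow, hj2]; linarith
    unfold len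
    exact Real.le_sqrt_of_sq_le e1
  have hlz : len z ≤ j / 4 := by
    have e1 : nsq z ≤ (j / 4) ^ 2 := by
      rw [div_pow, hj2]; linarith
    unfold len
    rw [Real.sqrt_le_left (by positivity)]
    exact e1
  have h4 : j / 4 ≤ len (v - z) := by
    have := len_le_add_sub v z
    linarith
  have h5 : (j / 4) ^ γ ≤ len (v - z) ^ γ := Real.rpow_le_rpow (by positivity) h4 h0
  have h6 : (j / 4) ^ γ = j ^ γ / 4 ^ γ := Real.div_rpow hj0 (by norm_num) γ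
  have h7 : (4 : ℝ) ^ γ ≤ 16 := by
    have e1 : (4 : ℝ) ^ γ ≤ 4 ^ (2 : ℝ) := Real.rpow_le_rpow_of_exponent_le (by norm_num) h2
    rw [Real.rpow_two] at e1
    linarith
  have h8 : j ^ γ = (1 + nsq v) ^ (γ / 2) := by
    rw [← hj2, ← Real.rpow_natCast j 2, ← Real.rpow_mul hj0]
    congr 1
    push_cast
    ring
  rw [h6, h8] at h5
  have h9 : (0 : ℝ) < 4 ^ γ := Real.rpow_pos_of_pos (by norm_num) γ
  have h10 : 0 ≤ (1 + nsq v) ^ (γ / 2) := Real.rpow_nonneg (by linarith) _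
  exact (div_le_div_of_nonneg_left h10 h9 h7).trans h5

/-- the operator at a touching point with large velocity -/
private lemma GenN_op (hd : 2 ≤ d) (hs0 : s ∈ Ioo (0 : ℝ) 1) (h0 : 0 < γ) (h2 : γ + 2 * s ≤ 2)
    (hb : IsKernel d s b) {p : ℕ} (hp : d + 10 ≤ p) (A₁ R₁ : ℝ) {m : ℝ} (hm : 0 < m) {q : ℕ}
    (hq : p ≤ q) :
    ∃ κ₁ a₂ : ℝ, 0 < κ₁ ∧ 1 ≤ a₂ ∧ ∀ g : Vec d → ℝ, Nice g → (∀ u, 0 ≤ g u) →
      (∀ u, g u ≤ A₁ * Wp p u) → m ≤ ∫ z in {z : Vec d | nsq z ≤ R₁ ^ 2}, g z →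
      ∀ v, (∀ u, g u * (1 + nsq u) ^ q ≤ g v * (1 + nsq v) ^ q) → a₂ ≤ 1 + nsq v →
        boltzQ γ b g v ≤ -(κ₁ * (1 + nsq v) ^ (γ / 2) * g v) := by
  have hγ2 : γ ≤ 2 := by linarith [hs0.1]
  have hq2 : (d : ℝ) + γ + 4 ≤ 2 * q := by
    have h3 : ((d + 10 : ℕ) : ℝ) ≤ q := by exact_mod_cast hp.trans hq
    push_cast at h3
    have hdd : (0 : ℝ) ≤ d := Nat.cast_nonneg d
    linarith
  obtain ⟨K, κ, δ, a₀, L, hK, hκ, hδ, hδ1, ha₀, hL, hop⟩ :=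
    Pool.Agent.H82.CM.op_bound hd hs0 (by linarith [hs0.1]) h2 hb hq2
  obtain ⟨c, hc⟩ : ∃ c : ℝ, c = a₀ + (δ ^ 2)⁻¹ := ⟨_, rfl⟩
  have hc0 : 0 ≤ c := by rw [hc]; positivity
  obtain ⟨I₀, hI₀⟩ : ∃ I₀ : ℝ, I₀ = ∫ z : Vec d, Wp p z * (1 + nsq z) ^ 3 := ⟨_, rfl⟩
  have hnn0 : ∀ z : Vec d, 0 ≤ Wp p z * (1 + nsq z) ^ 3 := fun z =>
    mul_nonneg (Wp_pos p z).le (pow_nonneg (by linarith [sq_nonneg' z]) 3)
  have hI0 : 0 ≤ I₀ := by rw [hI₀]; exact integral_nonneg hnn0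
  obtain ⟨C', hC'⟩ : ∃ C' : ℝ, C' = 2 * c ^ 2 * |A₁| * I₀ := ⟨_, rfl⟩
  have hC0 : 0 ≤ C' := by rw [hC']; positivity
  have hκm : 0 < κ * m := mul_pos hκ hm
  obtain ⟨a₂, ha₂⟩ : ∃ a₂ : ℝ, a₂ = max (max a₀ (R₁ ^ 2 / δ ^ 2))
    (max (max 2 (16 * R₁ ^ 2)) (32 * K * C' / (κ * m))) := ⟨_, rfl⟩
  have b1 : a₀ ≤ a₂ := by rw [ha₂]; exact (le_max_left _ _).trans (le_max_left _ _)
  have b2 : R₁ ^ 2 / δ ^ 2 ≤ a₂ := by rw [ha₂]; exact (le_max_right _ _).trans (le_max_left _ _)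
  have b3 : 2 ≤ a₂ := by
    rw [ha₂]; exact (le_max_left _ _).trans ((le_max_left _ _).trans (le_max_right _ _))
  have b4 : 16 * R₁ ^ 2 ≤ a₂ := by
    rw [ha₂]; exact (le_max_right _ _).trans ((le_max_left _ _).trans (le_max_right _ _))
  have b5 : 32 * K * C' / (κ * m) ≤ a₂ := by
    rw [ha₂]; exact (le_max_right _ _).trans (le_max_right _ _)
  refine ⟨κ * m / 32, a₂, by positivity, by linarith, fun g hg hg0 hgA hgm v hdom hv => ?_⟩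
  obtain ⟨Y, hY⟩ : ∃ Y : ℝ, Y = 1 + nsq v := ⟨_, rfl⟩
  have hY2 : 2 ≤ Y := by rw [hY]; exact b3.trans hv
  have hY0 : 0 < Y := by linarith
  have hYa : a₂ ≤ Y := by rw [hY]; exact hv
  have hgv := hg0 v
  have h1 := hop g hg hg0 v hdom
  have hint := Pool.Agent.H82.CM.freq_integrable hd (by linarith) hγ2 hg v
  have hYp : 1 ≤ Y ^ (γ / 2) := Real.one_le_rpow (by linarith) (by linarith)
  -- the slow part
  have hslow : Y ^ (γ / 2) / 16 * m ≤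
      ∫ z in {z | Pool.Agent.H82.CM.SlowR δ a₀ v z}, g z * len (v - z) ^ γ := by
    have hsub : {z : Vec d | nsq z ≤ R₁ ^ 2} ⊆ {z | Pool.Agent.H82.CM.SlowR δ a₀ v z} := by
      intro z hz
      have hz' : nsq z ≤ R₁ ^ 2 := hz
      refine ⟨by rw [← hY]; exact b1.trans hYa, ?_⟩
      have e1 : R₁ ^ 2 ≤ δ ^ 2 * Y := by
        have e2 : R₁ ^ 2 / δ ^ 2 ≤ Y := b2.trans hYa
        rw [div_le_iff₀ (by positivity)] at e2
        linarith
      rw [← hY]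
      exact hz'.trans e1
    have hnn : ∀ z, 0 ≤ g z * len (v - z) ^ γ := fun z =>
      mul_nonneg (hg0 z) (Real.rpow_nonneg (len_nonneg _) _)
    have hmeas : MeasurableSet {z : Vec d | nsq z ≤ R₁ ^ 2} :=
      measurableSet_le (continuous_sq (d := d)).measurable measurable_const
    have e1 : ∫ z in {z : Vec d | nsq z ≤ R₁ ^ 2}, g z * len (v - z) ^ γ ≤
        ∫ z in {z | Pool.Agent.H82.CM.SlowR δ a₀ v z}, g z * len (v - z) ^ γ :=
      setIntegral_mono_set hint.integrableOn (Eventually.of_forall hnn)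
        (Eventually.of_forall hsub)
    have e2 : ∫ z in {z : Vec d | nsq z ≤ R₁ ^ 2}, (Y ^ (γ / 2) / 16) * g z ≤
        ∫ z in {z : Vec d | nsq z ≤ R₁ ^ 2}, g z * len (v - z) ^ γ := by
      refine integral_mono_of_nonneg (Eventually.of_forall fun z =>
        mul_nonneg (by positivity) (hg0 z)) hint.integrableOn
        ((ae_restrict_iff' hmeas).2 (Eventually.of_forall fun z hz => ?_))
      have hz' : nsq z ≤ R₁ ^ 2 := hz
      have e3 := GenN_low h0.le hγ2 (v := v) (z := z) (R₁ := R₁) (by rw [← hY]; exact hY2)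
        (by rw [← hY]; exact b4.trans hYa) hz'
      rw [← hY] at e3
      have := mul_le_mul_of_nonneg_right e3 (hg0 z)
      show (Y ^ (γ / 2) / 16) * g z ≤ g z * len (v - z) ^ γ
      linarith
    rw [integral_const_mul] at e2
    have e3 : Y ^ (γ / 2) / 16 * m ≤
        Y ^ (γ / 2) / 16 * ∫ z in {z : Vec d | nsq z ≤ R₁ ^ 2}, g z :=
      mul_le_mul_of_nonneg_left hgm (by positivity)
    exact e3.trans (e2.trans e1)
  -- the medium part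
  have hmed : ∫ z in {z | Pool.Agent.H82.CM.MedR δ a₀ L v z}, g z * len (v - z) ^ γ ≤ C' / Y := by
    have hS := Pool.Agent.H82.CM.measurableSet_MedR δ a₀ L v
    have i0 : Integrable fun z : Vec d => 2 * c ^ 2 * |A₁| / Y * (Wp p z * (1 + nsq z) ^ 3) :=
      (GenN_int hp).const_mul _
    have h3 : ∫ z in {z | Pool.Agent.H82.CM.MedR δ a₀ L v z}, g z * len (v - z) ^ γ ≤
        ∫ z in {z | Pool.Agent.H82.CM.MedR δ a₀ L v z},
          2 * c ^ 2 * |A₁| / Y * (Wp p z * (1 + nsq z) ^ 3) := by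
      refine integral_mono_of_nonneg (Eventually.of_forall fun z =>
        mul_nonneg (hg0 z) (Real.rpow_nonneg (len_nonneg _) _)) i0.integrableOn
        ((ae_restrict_iff' hS).2 (Eventually.of_forall fun z hz => ?_))
      have hz' : Pool.Agent.H82.CM.MedR δ a₀ L v z := hz
      have hW := Wp_pos p z
      have e2 : g z ≤ |A₁| * Wp p z :=
        (hgA z).trans (mul_le_mul_of_nonneg_right (le_abs_self _) hW.le)
      have e3 := GenN_len h0.le hγ2 v z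
      have e4 := GenN_med hδ ha₀ hz'
      rw [← hc] at e4
      rw [← hY] at e3 e4
      obtain ⟨Z, hZ⟩ : ∃ Z : ℝ, Z = 1 + nsq z := ⟨_, rfl⟩
      have hZ1 : 1 ≤ Z := by rw [hZ]; linarith [sq_nonneg' z]
      rw [← hZ] at e3 e4
      have e5 : len (v - z) ^ γ ≤ 2 * c ^ 2 / Y * Z ^ 3 := by
        have e6 : Y * Y ≤ (c * Z) * (c * Z) := mul_le_mul e4 e4 hY0.le (by positivity)
        have e7 : 2 * (Y * Z) ≤ 2 * c ^ 2 / Y * Z ^ 3 := by
          rw [div_mul_eq_mul_div, le_div_iff₀ hY0]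
          nlinarith [mul_le_mul_of_nonneg_right e6 (show (0 : ℝ) ≤ Z by linarith)]
        exact e3.trans e7
      have e8 := Real.rpow_nonneg (len_nonneg (v - z)) γ
      show g z * len (v - z) ^ γ ≤ 2 * c ^ 2 * |A₁| / Y * (Wp p z * (1 + nsq z) ^ 3)
      rw [← hZ]
      calc g z * len (v - z) ^ γ ≤ (|A₁| * Wp p z) * (2 * c ^ 2 / Y * Z ^ 3) :=
            mul_le_mul e2 e5 e8 (mul_nonneg (abs_nonneg _) hW.le)
        _ = 2 * c ^ 2 * |A₁| / Y * (Wp p z * Z ^ 3) := by ring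
    have h5 := setIntegral_le_integral (s := {z | Pool.Agent.H82.CM.MedR δ a₀ L v z}) i0
      (Eventually.of_forall fun z => mul_nonneg (by positivity) (hnn0 z))
    refine (h3.trans h5).trans (le_of_eq ?_)
    rw [integral_const_mul, ← hI₀, hC']
    ring
  -- conclusion
  have hKC : K * (C' / Y) ≤ κ * m / 32 * Y ^ (γ / 2) := by
    have e1 : 32 * K * C' ≤ Y * (κ * m) := by
      have e2 := b5.trans hYa
      rwa [div_le_iff₀ hκm] at e2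
    have e3 : K * (C' / Y) ≤ κ * m / 32 := by
      rw [← mul_div_assoc, div_le_iff₀ hY0]
      linarith
    calc K * (C' / Y) ≤ κ * m / 32 := e3
      _ = κ * m / 32 * 1 := (mul_one _).symm
      _ ≤ κ * m / 32 * Y ^ (γ / 2) := mul_le_mul_of_nonneg_left hYp (by positivity)
  rw [← hY]
  have f1 : K * g v * ∫ z in {z | Pool.Agent.H82.CM.MedR δ a₀ L v z}, g z * len (v - z) ^ γ ≤
      g v * (κ * m / 32 * Y ^ (γ / 2)) := by
    calc K * g v * ∫ z in {z | Pool.Agent.H82.CM.MedR δ a₀ L v z}, g z * len (v - z) ^ γ ≤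
          K * g v * (C' / Y) := mul_le_mul_of_nonneg_left hmed (mul_nonneg hK hgv)
      _ = g v * (K * (C' / Y)) := by ring
      _ ≤ g v * (κ * m / 32 * Y ^ (γ / 2)) := mul_le_mul_of_nonneg_left hKC hgv
  have f2 : κ * g v * (Y ^ (γ / 2) / 16 * m) ≤
      κ * g v * ∫ z in {z | Pool.Agent.H82.CM.SlowR δ a₀ v z}, g z * len (v - z) ^ γ :=
    mul_le_mul_of_nonneg_left hslow (mul_nonneg hκ.le hgv)
  nlinarith

private lemma GenN_deriv {g : ℝ → ℝ} {g' : ℝ} (hg : HasDerivAt g g' 0)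
    (h : ∀ᶠ τ in 𝓝[>] (0 : ℝ), g τ ≤ g 0) : g' ≤ 0 := by
  have h1 := hg.tendsto_slope_zero_right
  refine le_of_tendsto h1 ?_
  filter_upwards [h, self_mem_nhdsWithin] with τ h2 h3
  have h3' : 0 < τ := h3
  rw [zero_add, smul_eq_mul]
  exact mul_nonpos_of_nonneg_of_nonpos (inv_nonneg.2 h3'.le) (by linarith)

/-- the time factor of the barrier -/
private lemma GenN_time {n t₀ τ : ℝ} (hn : 1 ≤ n) (ht : 0 < t₀) (hτ : 0 < τ) (hτt : τ < t₀) :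
    (t₀ - τ) ^ (-n) * (1 + τ * -(n / t₀)) ≤ t₀ ^ (-n) := by
  have hx1 : τ / t₀ < 1 := (div_lt_one ht).2 hτt
  have hx0 : 0 < τ / t₀ := div_pos hτ ht
  have h1 : 1 + n * (-(τ / t₀)) ≤ (1 + -(τ / t₀)) ^ n :=
    one_add_mul_self_le_rpow_one_add (by linarith) hn
  have h2 : t₀ - τ = t₀ * (1 + -(τ / t₀)) := by field_simp; ring
  have h3 : 0 < 1 + -(τ / t₀) := by linarith
  rw [h2, Real.mul_rpow ht.le h3.le, Real.rpow_neg h3.le, mul_assoc]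
  have h4 : 0 < (1 + -(τ / t₀)) ^ n := Real.rpow_pos_of_pos h3 n
  have h5 : ((1 + -(τ / t₀)) ^ n)⁻¹ * (1 + τ * -(n / t₀)) ≤ 1 := by
    rw [inv_mul_le_iff₀ h4, mul_one]
    have e1 : 1 + τ * -(n / t₀) = 1 + n * (-(τ / t₀)) := by ring
    rw [e1]
    exact h1
  calc t₀ ^ (-n) * (((1 + -(τ / t₀)) ^ n)⁻¹ * (1 + τ * -(n / t₀))) ≤ t₀ ^ (-n) * 1 :=
        mul_le_mul_of_nonneg_left h5 (Real.rpow_nonneg ht.le _)
    _ = t₀ ^ (-n) := mul_one _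

private lemma GenN_key (hd : 2 ≤ d) (hs0 : s ∈ Ioo (0 : ℝ) 1) (h0 : 0 < γ) (h2 : γ + 2 * s ≤ 2)
    (hb : IsKernel d s b) {p : ℕ} (hp : d + 10 ≤ p) (A₁ R₁ : ℝ) {m : ℝ} (hm : 0 < m) {q : ℕ}
    (hq : p < q) :
    ∃ D : ℝ, ∀ (T : ℝ) (f : ℝ → Vec d → Vec d → ℝ), IsBoltzmannSol γ b T f →
      (∀ t ∈ Ico 0 T, ∀ x v, f t x v ≤ A₁ * Wp p v) →
      (∀ t ∈ Ico 0 T, ∀ x, m ≤ ∫ z in {z : Vec d | nsq z ≤ R₁ ^ 2}, f t x z) →
      ∀ t ∈ Ico 1 T, ∀ x v : Vec d, f t x v * (1 + nsq v) ^ q ≤ D := by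
  have hγ2 : γ ≤ 2 := by linarith [hs0.1]
  obtain ⟨κ₁, a₂, hκ₁, ha₂, hop⟩ := GenN_op hd hs0 h0 h2 hb hp A₁ R₁ hm hq.le
  obtain ⟨n, hn⟩ : ∃ n : ℝ, n = 2 * ((q : ℝ) - p) / γ := ⟨_, rfl⟩
  have hqp : (1 : ℝ) ≤ (q : ℝ) - p := by
    have : ((p + 1 : ℕ) : ℝ) ≤ q := by exact_mod_cast hq
    push_cast at this
    linarith
  have hn1 : 1 ≤ n := by
    rw [hn, le_div_iff₀ h0]
    linarith
  have hn0 : 0 < n := by linarith
  obtain ⟨D, hD⟩ : ∃ D : ℝ, D = |A₁| * a₂ ^ (q - p) + |A₁| * (n / κ₁) ^ n + 1 := ⟨_, rfl⟩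
  have hnk : 0 ≤ (n / κ₁) ^ n := Real.rpow_nonneg (by positivity) n
  have hD1 : 1 ≤ D := by
    rw [hD]
    have : 0 ≤ |A₁| * a₂ ^ (q - p) := by positivity
    have : 0 ≤ |A₁| * (n / κ₁) ^ n := mul_nonneg (abs_nonneg _) hnk
    linarith
  refine ⟨2 * D, fun T f hf hfA hfm t ht x v => ?_⟩
  have ht1 : (1 : ℝ) ≤ t := ht.1
  have htT : t < T := ht.2
  obtain ⟨C, hC⟩ := hf.decay t htT (2 * q)
  obtain ⟨Cf, hCf⟩ : ∃ Cf : ℝ, Cf = ((d : ℝ) + 1) ^ q * C := ⟨_, rfl⟩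
  have hFC : ∀ τ ∈ Icc 0 t, ∀ y w, f τ y w * (1 + nsq w) ^ q ≤ Cf := by
    intro τ hτ y w
    have hnn : 0 ≤ f τ y w := hf.nonneg τ ⟨hτ.1, hτ.2.trans_lt htT⟩ y w
    have h1 := one_add_sq_le w
    have h2' : (1 + nsq w) ^ q ≤ ((d + 1) * (1 + ‖w‖) ^ 2) ^ q :=
      pow_le_pow_left₀ (by linarith [sq_nonneg' w]) h1 q
    rw [mul_pow, ← pow_mul] at h2'
    have h3 := hC τ hτ y w
    rw [hCf]
    calc f τ y w * (1 + nsq w) ^ q ≤ f τ y w * ((d + 1) ^ q * (1 + ‖w‖) ^ (2 * q)) :=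
          mul_le_mul_of_nonneg_left h2' hnn
      _ = (d + 1) ^ q * ((1 + ‖w‖) ^ (2 * q) * f τ y w) := by ring
      _ ≤ (d + 1) ^ q * C := mul_le_mul_of_nonneg_left h3 (by positivity)
  -- the small time
  obtain ⟨ta, hta⟩ : ∃ ta : ℝ, ta = (|Cf| + 2)⁻¹ := ⟨_, rfl⟩
  have hCp : 0 < |Cf| + 2 := by positivity
  have hta0 : 0 < ta := by rw [hta]; exact inv_pos.2 hCp
  have hta1 : ta ≤ 1 := by
    rw [hta]; exact inv_le_one_of_one_le₀ (by linarith [abs_nonneg Cf])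
  have htaC : Cf < ta ^ (-n) := by
    have e1 : ta ^ (-(1 : ℝ)) ≤ ta ^ (-n) :=
      Real.rpow_le_rpow_of_exponent_ge hta0 hta1 (by linarith)
    rw [Real.rpow_neg hta0.le, Real.rpow_one, hta, inv_inv, ← hta] at e1
    linarith [le_abs_self Cf]
  obtain ⟨B, hBdef⟩ : ∃ B : ℝ → ℝ, B = fun τ => D * (1 + (max τ ta) ^ (-n)) := ⟨_, rfl⟩
  have hBv : ∀ τ, B τ = D * (1 + (max τ ta) ^ (-n)) := fun τ => by rw [hBdef]
  have hmax : ∀ τ : ℝ, 0 < max τ ta := fun τ => lt_max_of_lt_right hta0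
  have hBc : ContinuousOn B (Icc 0 t) := by
    rw [hBdef]
    refine Continuous.continuousOn (continuous_const.mul (continuous_const.add ?_))
    exact (continuous_id.max continuous_const).rpow_const fun τ => Or.inl (hmax τ).ne'
  have hB0 : ∀ τ, 0 < B τ := by
    intro τ
    rw [hBv]
    have := Real.rpow_pos_of_pos (hmax τ) (-n)
    exact mul_pos (by linarith) (by linarith)
  have hsmall : ∀ τ ∈ Icc 0 t, τ ≤ ta → ∀ y w, f τ y w * (1 + nsq w) ^ q < B τ := by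
    intro τ hτ hτa y w
    refine (hFC τ hτ y w).trans_lt ?_
    rw [hBv, max_eq_right hτa]
    have e1 : 0 < ta ^ (-n) := Real.rpow_pos_of_pos hta0 _
    have e2 : 1 * (1 + ta ^ (-n)) ≤ D * (1 + ta ^ (-n)) :=
      mul_le_mul_of_nonneg_right hD1 (by linarith)
    linarith
  have hall : ∀ τ ∈ Icc 0 t, ∀ y w, f τ y w * (1 + nsq w) ^ q < B τ := by
    by_contra hcon
    push Not at hcon
    obtain ⟨t₀, ht₀, x₀, v₀, heq, hlt, hle⟩ := first_touch hf q (by linarith : (0 : ℝ) ≤ t) htT hBc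
      (fun τ _ => hB0 τ) (fun y w => hsmall 0 ⟨le_rfl, by linarith⟩ hta0.le y w) hcon
    have ht₀' : t₀ ∈ Icc 0 t := ⟨ht₀.1.le, ht₀.2⟩
    have hta' : ta < t₀ := by
      by_contra hc
      exact absurd heq (hsmall t₀ ht₀' (not_lt.1 hc) x₀ v₀).ne
    have htT' : t₀ ∈ Ioo 0 T := ⟨ht₀.1, ht₀.2.trans_lt htT⟩
    have hmx : max t₀ ta = t₀ := max_eq_left hta'.le
    have hd0 := char_deriv hf htT' x₀ v₀
    obtain ⟨W, hW⟩ : ∃ W : ℝ, W = (1 + nsq v₀) ^ q := ⟨_, rfl⟩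
    have hnv := sq_nonneg' v₀
    have hW0 : 0 < W := by rw [hW]; positivity
    obtain ⟨Qv, hQv⟩ : ∃ Qv : ℝ, Qv = boltzQ γ b (f t₀ x₀) v₀ := ⟨_, rfl⟩
    have hd1 : HasDerivAt (fun τ : ℝ => f (t₀ + τ) (x₀ + τ • v₀) v₀) Qv 0 := by
      rw [hQv]; exact hd0
    obtain ⟨c, hcdef⟩ : ∃ c : ℝ, c = -(n / t₀) := ⟨_, rfl⟩
    have hneg : HasDerivAt (fun τ : ℝ => f (t₀ + -τ) (x₀ + (-τ) • v₀) v₀) (-Qv) 0 := by
      have hnn : HasDerivAt (fun τ : ℝ => -τ) (-1) 0 := hasDerivAt_neg' (0 : ℝ)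
      have hd' : HasDerivAt (fun τ : ℝ => f (t₀ + τ) (x₀ + τ • v₀) v₀) Qv (-(0 : ℝ)) := by
        simpa using hd1
      have := hd'.comp (0 : ℝ) hnn
      simpa [Function.comp_def] using this
    have hlin : HasDerivAt (fun τ : ℝ => 1 + τ * c) c 0 := by
      simpa using ((hasDerivAt_id (0 : ℝ)).mul_const c).const_add 1
    have hg : HasDerivAt (fun τ : ℝ => f (t₀ + -τ) (x₀ + (-τ) • v₀) v₀ * W * (1 + τ * c))
        (-Qv * W + f t₀ x₀ v₀ * W * c) 0 := by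
      have h1 := hneg.mul_const W
      have h2 : HasDerivAt (fun τ : ℝ => f (t₀ + -τ) (x₀ + (-τ) • v₀) v₀ * W * (1 + τ * c))
        (-Qv * W * (1 + 0 * c) + f (t₀ + -0) (x₀ + (-(0 : ℝ)) • v₀) v₀ * W * c) 0 :=
        h1.mul hlin
      exact h2.congr_deriv (by simp)
    have hkey : -Qv * W + f t₀ x₀ v₀ * W * c ≤ 0 := by
      refine GenN_deriv hg ?_
      have hev1 : ∀ᶠ τ in 𝓝[>] (0 : ℝ), τ ∈ Ioo 0 (t₀ - ta) := Ioo_mem_nhdsGT (by linarith)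
      have hev2 : ∀ᶠ τ in 𝓝[>] (0 : ℝ), τ ∈ Ioo 0 (t₀ / n) :=
        Ioo_mem_nhdsGT (div_pos ht₀.1 hn0)
      filter_upwards [hev1, hev2] with τ h1 h2
      have hτt : τ < t₀ := by linarith [h1.2]
      have h3 : f (t₀ + -τ) (x₀ + (-τ) • v₀) v₀ * W < B (t₀ - τ) := by
        have := hlt (t₀ - τ) ⟨by linarith, by linarith [h1.1]⟩ (x₀ + (-τ) • v₀) v₀
        rw [← hW] at this
        rw [sub_eq_add_neg] at this ⊢
        exact this
      have h4 : 0 ≤ 1 + τ * c := by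
        have e1 : τ * n ≤ t₀ := by
          have := h2.2.le
          rwa [le_div_iff₀ hn0] at this
        have e2 : τ * (n / t₀) ≤ 1 := by
          rw [← mul_div_assoc, div_le_one ht₀.1]
          exact e1
        rw [hcdef]
        linarith
      have h5 : B (t₀ - τ) * (1 + τ * c) ≤ B t₀ := by
        rw [hBv, hBv, hmx, max_eq_left (by linarith [h1.2])]
        have e1 := GenN_time hn1 ht₀.1 h1.1 hτt
        rw [← hcdef] at e1
        have e2 : 1 + τ * c ≤ 1 := by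
          have : 0 ≤ τ * (n / t₀) := mul_nonneg h1.1.le (div_nonneg hn0.le ht₀.1.le)
          rw [hcdef]
          linarith
        calc D * (1 + (t₀ - τ) ^ (-n)) * (1 + τ * c) =
              D * ((1 + τ * c) + (t₀ - τ) ^ (-n) * (1 + τ * c)) := by ring
          _ ≤ D * (1 + t₀ ^ (-n)) := mul_le_mul_of_nonneg_left (add_le_add e2 e1) (by linarith)
      calc f (t₀ + -τ) (x₀ + (-τ) • v₀) v₀ * W * (1 + τ * c) ≤ B (t₀ - τ) * (1 + τ * c) :=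
            mul_le_mul_of_nonneg_right h3.le h4
        _ ≤ B t₀ := h5
        _ = f (t₀ + -0) (x₀ + (-(0 : ℝ)) • v₀) v₀ * W * (1 + 0 * c) := by
            rw [← heq, ← hW]; simp
    -- positivity at the touching point
    have hF0 : 0 < f t₀ x₀ v₀ * W := by
      rw [hW, heq]; exact hB0 t₀
    have hf0 : 0 < f t₀ x₀ v₀ := (mul_pos_iff_of_pos_right hW0).1 hF0
    have htI : t₀ ∈ Ico 0 T := ⟨ht₀.1.le, htT'.2⟩
    have hpt : 0 < t₀ ^ (-n) := Real.rpow_pos_of_pos ht₀.1 _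
    -- bound of the value in terms of the velocity
    have hval : f t₀ x₀ v₀ * W ≤ |A₁| * (1 + nsq v₀) ^ (q - p) := by
      have e1 := hfA t₀ htI x₀ v₀
      have e2 : A₁ * Wp p v₀ ≤ |A₁| * Wp p v₀ :=
        mul_le_mul_of_nonneg_right (le_abs_self _) (Wp_pos p v₀).le
      have e3 : W = (1 + nsq v₀) ^ p * (1 + nsq v₀) ^ (q - p) := by
        rw [hW, ← pow_add]
        congr 1
        omega
      calc f t₀ x₀ v₀ * W ≤ (|A₁| * Wp p v₀) * W := mul_le_mul_of_nonneg_right (e1.trans e2) hW0.le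
        _ = |A₁| * (Wp p v₀ * (1 + nsq v₀) ^ p) * (1 + nsq v₀) ^ (q - p) := by rw [e3]; ring
        _ = |A₁| * (1 + nsq v₀) ^ (q - p) := by rw [Wp_mul, mul_one]
    have hBt : f t₀ x₀ v₀ * W = D * (1 + t₀ ^ (-n)) := by
      rw [hW, heq, hBv, hmx]
    rcases lt_or_ge (1 + nsq v₀) a₂ with hcase | hcase
    · -- bounded velocity
      have e1 : (1 + nsq v₀) ^ (q - p) ≤ a₂ ^ (q - p) :=
        pow_le_pow_left₀ (by linarith) hcase.le _
      have e2 : |A₁| * (1 + nsq v₀) ^ (q - p) ≤ |A₁| * a₂ ^ (q - p) :=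
        mul_le_mul_of_nonneg_left e1 (abs_nonneg _)
      have e3 : |A₁| * a₂ ^ (q - p) + 1 ≤ D := by
        rw [hD]
        have : 0 ≤ |A₁| * (n / κ₁) ^ n := mul_nonneg (abs_nonneg _) hnk
        linarith
      have e4 : D * 1 ≤ D * (1 + t₀ ^ (-n)) := mul_le_mul_of_nonneg_left (by linarith) (by linarith)
      linarith
    · -- large velocity
      have hn' : Nice (f t₀ x₀) := IsClassicalSol.nice hf htT' x₀
      have e1 := hop (f t₀ x₀) hn' (fun u => hf.nonneg t₀ htI x₀ u) (fun u => hfA t₀ htI x₀ u)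
        (hfm t₀ htI x₀) v₀ (fun u => by rw [heq]; exact hle x₀ u) hcase
      rw [← hQv] at e1
      obtain ⟨y, hy⟩ : ∃ y : ℝ, y = (1 + nsq v₀) ^ (γ / 2) := ⟨_, rfl⟩
      have hy0 : 0 < y := by rw [hy]; exact Real.rpow_pos_of_pos (by linarith) _
      rw [← hy] at e1
      -- `κ₁ y ≤ n / t₀`
      have e2 : κ₁ * y ≤ n / t₀ := by
        have e3 : 0 ≤ (Qv - f t₀ x₀ v₀ * c) * W := by linarith
        have e4 : 0 ≤ Qv - f t₀ x₀ v₀ * c := nonneg_of_mul_nonneg_left e3 hW0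
        rw [hcdef] at e4
        have e5 : (κ₁ * y) * f t₀ x₀ v₀ ≤ (n / t₀) * f t₀ x₀ v₀ := by linarith
        exact le_of_mul_le_mul_right e5 hf0
      have e3 : y ≤ n / κ₁ / t₀ := by
        rw [div_div, le_div_iff₀ (mul_pos hκ₁ ht₀.1)]
        have := mul_le_mul_of_nonneg_right e2 ht₀.1.le
        rw [div_mul_cancel₀ _ ht₀.1.ne'] at this
        linarith
      have e4 : (1 + nsq v₀) ^ (q - p) = y ^ n := by
        rw [hy, ← Real.rpow_mul (by linarith), ← Real.rpow_natCast]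
        congr 1
        rw [hn, Nat.cast_sub hq.le]
        field_simp
      have e5 : y ^ n ≤ (n / κ₁) ^ n * t₀ ^ (-n) := by
        have e6 : y ^ n ≤ (n / κ₁ / t₀) ^ n := Real.rpow_le_rpow hy0.le e3 hn0.le
        rw [Real.div_rpow (by positivity) ht₀.1.le] at e6
        rw [Real.rpow_neg ht₀.1.le, ← div_eq_mul_inv]
        exact e6
      have e6 : |A₁| * (n / κ₁) ^ n + 1 ≤ D := by
        rw [hD]
        have : 0 ≤ |A₁| * a₂ ^ (q - p) := by positivity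
        linarith
      have e7 : |A₁| * (1 + nsq v₀) ^ (q - p) ≤ (|A₁| * (n / κ₁) ^ n) * t₀ ^ (-n) := by
        rw [e4]
        calc |A₁| * y ^ n ≤ |A₁| * ((n / κ₁) ^ n * t₀ ^ (-n)) :=
              mul_le_mul_of_nonneg_left e5 (abs_nonneg _)
          _ = (|A₁| * (n / κ₁) ^ n) * t₀ ^ (-n) := by ring
      have e8 : (|A₁| * (n / κ₁) ^ n) * t₀ ^ (-n) ≤ D * t₀ ^ (-n) :=
        mul_le_mul_of_nonneg_right (by linarith) hpt.le
      nlinarith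
  have hfin := (hall t ⟨by linarith, le_rfl⟩ x v).le
  refine hfin.trans ?_
  rw [hBv, max_eq_left (hta1.trans ht1)]
  have e1 : t ^ (-n) ≤ 1 := Real.rpow_le_one_of_one_le_of_nonpos ht1 (by linarith)
  nlinarith

theorem genN (hd : 2 ≤ d) (hs0 : s ∈ Ioo (0 : ℝ) 1) (h0 : 0 < γ) (h2 : γ + 2 * s ≤ 2)
    (hb : IsKernel d s b) {p : ℕ} (hp : d + 10 ≤ p) (A₁ R₁ : ℝ) {m : ℝ} (hm : 0 < m) :
    ∃ U : ℕ → ℝ, ∀ (T : ℝ) (f : ℝ → Vec d → Vec d → ℝ), IsBoltzmannSol γ b T f →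
      (∀ t ∈ Ico 0 T, ∀ x v, f t x v ≤ A₁ * Wp p v) →
      (∀ t ∈ Ico 0 T, ∀ x, m ≤ ∫ z in {z : Vec d | nsq z ≤ R₁ ^ 2}, f t x z) →
      ∀ t ∈ Ico 1 T, ∀ (N : ℕ) (x v : Vec d), (1 + ‖v‖) ^ N * f t x v ≤ U N := by
  have hex : ∀ N : ℕ, ∃ D : ℝ, ∀ (T : ℝ) (f : ℝ → Vec d → Vec d → ℝ), IsBoltzmannSol γ b T f →
      (∀ t ∈ Ico 0 T, ∀ x v, f t x v ≤ A₁ * Wp p v) →
      (∀ t ∈ Ico 0 T, ∀ x, m ≤ ∫ z in {z : Vec d | nsq z ≤ R₁ ^ 2}, f t x z) →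
      ∀ t ∈ Ico 1 T, ∀ x v : Vec d, f t x v * (1 + nsq v) ^ (p + N + 1) ≤ D := fun N =>
    GenN_key hd hs0 h0 h2 hb hp A₁ R₁ hm (by omega)
  choose D hD using hex
  refine ⟨fun N => 2 ^ N * D N, fun T f hf hfA hfm t ht N x v => ?_⟩
  have h3 := hD N T f hf hfA hfm t ht x v
  have hf1 : 0 ≤ f t x v := hf.nonneg t ⟨by linarith [ht.1], ht.2⟩ x v
  have h9 : (1 + ‖v‖) ^ N ≤ 2 ^ N * (1 + nsq v) ^ (p + N + 1) := by
    have e1 : (1 + ‖v‖) ^ N ≤ (2 * (1 + nsq v)) ^ N := pow_le_pow_left₀ (w_pos v).le (GenN_norm1 v) N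
    rw [mul_pow] at e1
    have e2 : (1 + nsq v) ^ N ≤ (1 + nsq v) ^ (p + N + 1) :=
      pow_le_pow_right₀ (by linarith [sq_nonneg' v]) (by omega)
    exact e1.trans (mul_le_mul_of_nonneg_left e2 (by positivity))
  calc (1 + ‖v‖) ^ N * f t x v ≤ (2 ^ N * (1 + nsq v) ^ (p + N + 1)) * f t x v :=
        mul_le_mul_of_nonneg_right h9 hf1
    _ = 2 ^ N * (f t x v * (1 + nsq v) ^ (p + N + 1)) := by ring
    _ ≤ 2 ^ N * D N := mul_le_mul_of_nonneg_left h3 (by positivity)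

end Pool.Agent.H48.NE
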