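import Pool.Agent.H48.NE.Defs

/-!
# Module KerI: radial integrals

`radI`: for measurable `g : ℝ → ℝ≥0∞`, `∫⁻ h, g (len h) dh = ∫⁻ r in Ioi 0, ofReal (ω r^(d-1)) g(r) dr`, `ω = (surf d univ).toReal > 0` (`d ≥ 1`). PROOF: transport to `EuclideanSpace ℝ (Fin d)` (`EuclideanSpace.volume_preserving_ofLp` or `..._measurableEquiv`, `len` is the Euclidean norm; see how
`surf` is treated in H25/Kin/Sph.lean or H82/BK/CV.lean: there may already be a polar coordinate formula for `Vec d`; search `toSphere`, `volumeIoiPow`, `lintegral`), then `MeasureTheory.Measure.measurePreserving_homeomorphUnitSphereProd` / `MeasureTheory.lintegral_fun_norm_addHaar`-type lemma.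
The other statements are one dimensional integrals of powers (`integral_rpow`, `lintegral` version via `ofReal_integral_eq_lintegral_ofReal`), with `r^(d-1) r^(-d-2s+τ) = r^(τ-1-2s)`:
`rad_ann`: `∫_ρ^(2ρ) r^(-1-2s) dr ≥ ρ (2ρ)^(-1-2s) = 2^(-1-2s) ρ^(-2s)`. `rad_out` (`τ < 2s`): `∫_ρ^∞ r^(τ-1-2s) dr = ρ^(τ-2s)/(2s-τ)`. `rad_in` (`τ > 2s`): `∫_0^1 r^(τ-1-2s) dr = 1/(τ-2s)`.
`rad_layer`: `|{ρ ≤ len h ≤ ρ + t}| = (ω/d) ((ρ+t)^d - ρ^d) ≤ K t ρ^(d-1)` for `0 ≤ t ≤ ρ`.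
-/

set_option autoImplicit false

open MeasureTheory Set Filter Topology Pool.Agent.H25.Kin Pool.Agent.H48.PL Pool.Agent.H48.PD
open Pool.Agent.H82.BK Pool.Agent.H82.CM Pool.Agent.H48.PR
open scoped ENNReal

namespace Pool.Agent.H48.NE

variable {d : ℕ}

private theorem KerI_om_pos (hd : 1 ≤ d) : 0 < (surf d univ).toReal := by
  have hne : Nonempty (Fin d) := ⟨⟨0, by omega⟩⟩
  have hnt : Nontrivial (EuclideanSpace ℝ (Fin d)) := inferInstance
  refine ENNReal.toReal_pos ?_ (measure_ne_top _ _)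
  unfold surf
  rw [Measure.map_apply surf_meas MeasurableSet.univ, preimage_univ]
  intro h
  exact Measure.toSphere_ne_zero (volume : Measure (EuclideanSpace ℝ (Fin d)))
    (Measure.measure_univ_eq_zero.1 h)

theorem radI (hd : 1 ≤ d) {g : ℝ → ℝ≥0∞} (hg : Measurable g) :
    ∫⁻ h : Vec d, g (len h) =
      ∫⁻ r in Ioi (0 : ℝ), ENNReal.ofReal ((surf d univ).toReal * r ^ (d - 1)) * g r := by
  have hgl : Measurable fun z : Vec d => g (len z) := hg.comp continuous_len.measurable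
  rw [polar hd hgl]
  have e1 : ∫⁻ σ, ∫⁻ ρ, g (len (ρ.1 • σ)) ∂(rad d) ∂(surf d) =
      ∫⁻ _σ, ∫⁻ ρ : Ioi (0 : ℝ), g ρ.1 ∂(rad d) ∂(surf d) := by
    refine lintegral_congr_ae ?_
    filter_upwards [surf_ae] with σ hσ
    refine lintegral_congr fun ρ => ?_
    have hρ : 0 < ρ.1 := ρ.2
    have h1 : nsq (ρ.1 • σ) = ρ.1 ^ 2 := by rw [nsq_smul, hσ, mul_one]
    have h2 : len (ρ.1 • σ) = ρ.1 := by unfold len; rw [h1, Real.sqrt_sq hρ.le]
    rw [h2]
  rw [e1, lintegral_const]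
  have hgs : Measurable fun ρ : Ioi (0 : ℝ) => g ρ.1 := hg.comp measurable_subtype_coe
  have hdm : Measurable fun ρ : Ioi (0 : ℝ) => ENNReal.ofReal (ρ.1 ^ (d - 1)) := by fun_prop
  have e2 : ∫⁻ ρ : Ioi (0 : ℝ), g ρ.1 ∂(rad d) =
      ∫⁻ r in Ioi (0 : ℝ), ENNReal.ofReal (r ^ (d - 1)) * g r := by
    unfold rad Measure.volumeIoiPow
    rw [lintegral_withDensity_eq_lintegral_mul _ hdm hgs]
    simp only [Pi.mul_apply]
    exact lintegral_subtype_comap (μ := volume) measurableSet_Ioi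
      (fun r : ℝ => ENNReal.ofReal (r ^ (d - 1)) * g r)
  have e3 : surf d univ = ENNReal.ofReal (surf d univ).toReal :=
    (ENNReal.ofReal_toReal (measure_ne_top _ _)).symm
  rw [e2, e3, mul_comm, ← lintegral_const_mul' _ _ ENNReal.ofReal_ne_top]
  refine lintegral_congr fun r => ?_
  rw [← mul_assoc, ← ENNReal.ofReal_mul ENNReal.toReal_nonneg,
    ENNReal.toReal_ofReal ENNReal.toReal_nonneg]

private theorem KerI_pow (hd : 1 ≤ d) {r : ℝ} (hr : 0 < r) (e : ℝ) :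
    r ^ (d - 1) * r ^ (-(d : ℝ) + e) = r ^ (e - 1) := by
  rw [← Real.rpow_natCast r (d - 1), ← Real.rpow_add hr]
  congr 1
  rw [Nat.cast_sub hd, Nat.cast_one]
  ring

private theorem KerI_set (hd : 1 ≤ d) {A : Set ℝ} (hA : MeasurableSet A) (e : ℝ) :
    ∫⁻ h in {h : Vec d | len h ∈ A}, ENNReal.ofReal (len h ^ (-(d : ℝ) + e)) =
      ∫⁻ r in A ∩ Ioi 0, ENNReal.ofReal ((surf d univ).toReal * r ^ (e - 1)) := by
  have hm : MeasurableSet {h : Vec d | len h ∈ A} := continuous_len.measurable hA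
  have hg : Measurable (A.indicator fun r : ℝ => ENNReal.ofReal (r ^ (-(d : ℝ) + e))) := by
    refine Measurable.indicator ?_ hA
    exact (measurable_id.pow_const _).ennreal_ofReal
  have e1 : ∫⁻ h in {h : Vec d | len h ∈ A}, ENNReal.ofReal (len h ^ (-(d : ℝ) + e)) =
      ∫⁻ h : Vec d, (A.indicator fun r : ℝ => ENNReal.ofReal (r ^ (-(d : ℝ) + e))) (len h) := by
    rw [← lintegral_indicator hm]
    refine lintegral_congr fun h => ?_
    by_cases hh : len h ∈ A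
    · rw [indicator_of_mem (show h ∈ {h : Vec d | len h ∈ A} from hh), indicator_of_mem hh]
    · rw [indicator_of_notMem (show h ∉ {h : Vec d | len h ∈ A} from hh), indicator_of_notMem hh]
  rw [e1, radI hd hg]
  have e2 : ∀ r : ℝ, ENNReal.ofReal ((surf d univ).toReal * r ^ (d - 1)) *
      (A.indicator fun r : ℝ => ENNReal.ofReal (r ^ (-(d : ℝ) + e))) r =
      A.indicator (fun r : ℝ => ENNReal.ofReal ((surf d univ).toReal * r ^ (d - 1)) *
        ENNReal.ofReal (r ^ (-(d : ℝ) + e))) r := by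
    intro r
    by_cases hh : r ∈ A
    · rw [indicator_of_mem hh, indicator_of_mem hh]
    · rw [indicator_of_notMem hh, indicator_of_notMem hh, mul_zero]
  simp_rw [e2]
  rw [lintegral_indicator hA, Measure.restrict_restrict hA]
  refine setLIntegral_congr_fun (hA.inter measurableSet_Ioi) fun r hr => ?_
  have hr0 : 0 < r := hr.2
  rw [← ENNReal.ofReal_mul (by positivity), mul_assoc, KerI_pow hd hr0]

theorem rad_ann (hd : 1 ≤ d) {s : ℝ} (hs : 0 < s) : ∃ c > 0, ∀ ρ : ℝ, 0 < ρ →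
    ENNReal.ofReal (c * ρ ^ (-(2 * s))) ≤
      ∫⁻ h in {h : Vec d | ρ ≤ len h ∧ len h ≤ 2 * ρ}, ENNReal.ofReal (len h ^ (-(d : ℝ) - 2 * s)) := by
  refine ⟨(surf d univ).toReal * 2 ^ (-(2 * s) - 1), by have := KerI_om_pos hd; positivity, fun ρ hρ => ?_⟩
  have hω := KerI_om_pos hd
  have hs1 : {h : Vec d | ρ ≤ len h ∧ len h ≤ 2 * ρ} = {h : Vec d | len h ∈ Icc ρ (2 * ρ)} := rfl
  have h1 := KerI_set (d := d) hd (measurableSet_Icc (a := ρ) (b := 2 * ρ)) (-(2 * s))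
  have h2 : ∀ h : Vec d, -(d : ℝ) - 2 * s = -(d : ℝ) + -(2 * s) := fun _ => by ring
  rw [hs1]
  have h3 : (-(d : ℝ) - 2 * s) = -(d : ℝ) + -(2 * s) := by ring
  rw [h3, h1]
  have h4 : Icc ρ (2 * ρ) ∩ Ioi 0 = Icc ρ (2 * ρ) := by
    refine inter_eq_left.2 fun r hr => ?_
    exact lt_of_lt_of_le hρ hr.1
  rw [h4]
  have h5 : ∫⁻ _r in Icc ρ (2 * ρ), ENNReal.ofReal ((surf d univ).toReal * (2 * ρ) ^ (-(2 * s) - 1)) ≤
      ∫⁻ r in Icc ρ (2 * ρ), ENNReal.ofReal ((surf d univ).toReal * r ^ (-(2 * s) - 1)) := by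
    refine setLIntegral_mono' measurableSet_Icc fun r hr => ENNReal.ofReal_le_ofReal ?_
    refine mul_le_mul_of_nonneg_left ?_ hω.le
    exact Real.rpow_le_rpow_of_nonpos (lt_of_lt_of_le hρ hr.1) hr.2 (by linarith)
  refine le_trans (le_of_eq ?_) h5
  rw [setLIntegral_const, Real.volume_Icc, ← ENNReal.ofReal_mul (by positivity)]
  congr 1
  rw [Real.mul_rpow (by norm_num) hρ.le]
  have h6 : ρ ^ (-(2 * s) - 1) * ρ = ρ ^ (-(2 * s)) := by
    nth_rewrite 2 [← Real.rpow_one ρ]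
    rw [← Real.rpow_add hρ]
    congr 1
    ring
  rw [← h6]
  ring

theorem rad_out (hd : 1 ≤ d) {s τ : ℝ} (hτ : τ < 2 * s) : ∃ K : ℝ, 0 ≤ K ∧ ∀ ρ : ℝ, 0 < ρ →
    ∫⁻ h in {h : Vec d | ρ ≤ len h}, ENNReal.ofReal (len h ^ (-(d : ℝ) - 2 * s + τ)) ≤
      ENNReal.ofReal (K * ρ ^ (τ - 2 * s)) := by
  refine ⟨(surf d univ).toReal * (1 / (2 * s - τ)), by
    have := KerI_om_pos hd
    have : 0 < 2 * s - τ := by linarith
    positivity, fun ρ hρ => ?_⟩
  have hω := KerI_om_pos hd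
  have hs1 : {h : Vec d | ρ ≤ len h} = {h : Vec d | len h ∈ Ici ρ} := rfl
  have h1 := KerI_set (d := d) hd (measurableSet_Ici (a := ρ)) (τ - 2 * s)
  have h3 : (-(d : ℝ) - 2 * s + τ) = -(d : ℝ) + (τ - 2 * s) := by ring
  rw [hs1, h3, h1]
  have h4 : Ici ρ ∩ Ioi 0 = Ici ρ := by
    refine inter_eq_left.2 fun r hr => ?_
    exact lt_of_lt_of_le hρ hr
  rw [h4, setLIntegral_congr (Ioi_ae_eq_Ici (a := ρ)).symm]
  have hi : IntegrableOn (fun r : ℝ => (surf d univ).toReal * r ^ (τ - 2 * s - 1)) (Ioi ρ) :=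
    (integrableOn_Ioi_rpow_of_lt (by linarith) hρ).const_mul _
  rw [← ofReal_integral_eq_lintegral_ofReal hi]
  · refine ENNReal.ofReal_le_ofReal (le_of_eq ?_)
    rw [integral_const_mul, integral_Ioi_rpow_of_lt (by linarith) hρ]
    have h5 : τ - 2 * s - 1 + 1 = τ - 2 * s := by ring
    rw [h5]
    have h6 : (τ - 2 * s) ≠ 0 := by intro h; linarith
    have h7 : (2 * s - τ) ≠ 0 := by intro h; linarith
    field_simp
    ring
  · refine (ae_restrict_iff' measurableSet_Ioi).2 (Eventually.of_forall fun r hr => ?_)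
    have : (0 : ℝ) < r := lt_trans hρ hr
    simp only [Pi.zero_apply]
    positivity

theorem rad_in (hd : 1 ≤ d) {s τ : ℝ} (hτ : 2 * s < τ) : ∃ K : ℝ, 0 ≤ K ∧
    ∫⁻ h in {h : Vec d | len h ≤ 1}, ENNReal.ofReal (len h ^ (-(d : ℝ) - 2 * s + τ)) ≤
      ENNReal.ofReal K := by
  have hω := KerI_om_pos hd
  refine ⟨∫ r in Ioc (0 : ℝ) 1, (surf d univ).toReal * r ^ (τ - 2 * s - 1), ?_, ?_⟩
  · refine setIntegral_nonneg measurableSet_Ioc fun r hr => ?_
    have : (0 : ℝ) < r := hr.1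
    positivity
  have hs1 : {h : Vec d | len h ≤ 1} = {h : Vec d | len h ∈ Iic (1 : ℝ)} := rfl
  have h1 := KerI_set (d := d) hd (measurableSet_Iic (a := (1 : ℝ))) (τ - 2 * s)
  have h3 : (-(d : ℝ) - 2 * s + τ) = -(d : ℝ) + (τ - 2 * s) := by ring
  rw [hs1, h3, h1]
  have h4 : Iic (1 : ℝ) ∩ Ioi 0 = Ioc 0 1 := by
    ext r
    simp only [mem_inter_iff, mem_Iic, mem_Ioi, mem_Ioc]
    tauto
  rw [h4]
  have hi : IntegrableOn (fun r : ℝ => (surf d univ).toReal * r ^ (τ - 2 * s - 1)) (Ioc 0 1) := by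
    have h5 := (intervalIntegral.intervalIntegrable_rpow' (a := 0) (b := 1)
      (r := τ - 2 * s - 1) (by linarith)).const_mul (surf d univ).toReal
    exact (intervalIntegrable_iff_integrableOn_Ioc_of_le zero_le_one).1 h5
  rw [← ofReal_integral_eq_lintegral_ofReal hi]
  refine (ae_restrict_iff' measurableSet_Ioc).2 (Eventually.of_forall fun r hr => ?_)
  have : (0 : ℝ) < r := hr.1
  simp only [Pi.zero_apply]
  positivity

theorem rad_layer (hd : 1 ≤ d) : ∃ K : ℝ, 0 ≤ K ∧ ∀ ρ t : ℝ, 0 < ρ → 0 ≤ t → t ≤ ρ →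
    volume {h : Vec d | ρ ≤ len h ∧ len h ≤ ρ + t} ≤ ENNReal.ofReal (K * t * ρ ^ (d - 1)) := by
  have hω := KerI_om_pos hd
  refine ⟨(surf d univ).toReal * 2 ^ (d - 1), by positivity, fun ρ t hρ ht htρ => ?_⟩
  have hA : MeasurableSet (Icc ρ (ρ + t)) := measurableSet_Icc
  have hm : MeasurableSet {h : Vec d | len h ∈ Icc ρ (ρ + t)} := continuous_len.measurable hA
  have hg : Measurable ((Icc ρ (ρ + t)).indicator fun _ : ℝ => (1 : ℝ≥0∞)) :=
    measurable_const.indicator hA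
  have e1 : volume {h : Vec d | ρ ≤ len h ∧ len h ≤ ρ + t} =
      ∫⁻ h : Vec d, ((Icc ρ (ρ + t)).indicator fun _ : ℝ => (1 : ℝ≥0∞)) (len h) := by
    have : {h : Vec d | ρ ≤ len h ∧ len h ≤ ρ + t} = {h : Vec d | len h ∈ Icc ρ (ρ + t)} := rfl
    rw [this, ← lintegral_indicator_one hm]
    refine lintegral_congr fun h => ?_
    by_cases hh : len h ∈ Icc ρ (ρ + t)
    · rw [indicator_of_mem (show h ∈ {h : Vec d | len h ∈ Icc ρ (ρ + t)} from hh),
        indicator_of_mem hh]; rfl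
    · rw [indicator_of_notMem (show h ∉ {h : Vec d | len h ∈ Icc ρ (ρ + t)} from hh),
        indicator_of_notMem hh]
  rw [e1, radI hd hg]
  have e2 : ∀ r : ℝ, ENNReal.ofReal ((surf d univ).toReal * r ^ (d - 1)) *
      ((Icc ρ (ρ + t)).indicator fun _ : ℝ => (1 : ℝ≥0∞)) r ≤
      (Icc ρ (ρ + t)).indicator
        (fun _ : ℝ => ENNReal.ofReal ((surf d univ).toReal * (2 * ρ) ^ (d - 1))) r := by
    intro r
    by_cases hh : r ∈ Icc ρ (ρ + t)
    · rw [indicator_of_mem hh, indicator_of_mem hh, mul_one]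
      refine ENNReal.ofReal_le_ofReal (mul_le_mul_of_nonneg_left ?_ hω.le)
      have : 0 ≤ r := hρ.le.trans hh.1
      exact pow_le_pow_left₀ this (by linarith [hh.2]) _
    · rw [indicator_of_notMem hh, indicator_of_notMem hh, mul_zero]
  calc ∫⁻ r in Ioi (0 : ℝ), ENNReal.ofReal ((surf d univ).toReal * r ^ (d - 1)) *
        ((Icc ρ (ρ + t)).indicator fun _ : ℝ => (1 : ℝ≥0∞)) r
      ≤ ∫⁻ r in Ioi (0 : ℝ), (Icc ρ (ρ + t)).indicator
          (fun _ : ℝ => ENNReal.ofReal ((surf d univ).toReal * (2 * ρ) ^ (d - 1))) r :=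
        lintegral_mono e2
    _ ≤ ∫⁻ r, (Icc ρ (ρ + t)).indicator
          (fun _ : ℝ => ENNReal.ofReal ((surf d univ).toReal * (2 * ρ) ^ (d - 1))) r :=
        setLIntegral_le_lintegral _ _
    _ = ENNReal.ofReal ((surf d univ).toReal * (2 * ρ) ^ (d - 1)) * ENNReal.ofReal (ρ + t - ρ) := by
        rw [lintegral_indicator hA, setLIntegral_const, Real.volume_Icc]
    _ = ENNReal.ofReal ((surf d univ).toReal * 2 ^ (d - 1) * t * ρ ^ (d - 1)) := by
        rw [← ENNReal.ofReal_mul (by positivity)]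
        congr 1
        rw [mul_pow]
        ring

end Pool.Agent.H48.NE
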