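import Pool.Agent.H48.NE.KeyO
import Pool.Agent.H48.NE.BarC

/-!
# Module Key: the key estimate

`S = A lam^(2s) r^(α-2s)`, `Λ = δ₀ + A Mt`, `w = (1+R²)^(-p) ≤ Wp p v ≤ 1` for `len v ≤ R` (`R ≥ 0`, else nothing to prove). `c, C₃` of `dicho`, `C₄` of `dMt_abs`, `κ', K₁` of `keyOff` (with these `c, C₃`), `K₂` of `keyOn`, `K = max K₁ K₂`.
Choice: `lam ≥ 1` with `C₄/lam^(1+2s) ≤ κ'/8`; `c₂ = min (κ'/8) (c w/(4 lam))`; `Λ₂ ≤ 1` with `K Λ₂ ≤ min (κ'/8) (c w/(8 lam^(1+2s)))`; `r₁` of `keyOff`, `≤ 1/4`; `A₁` of `keyOff` (`S ≥ A₁` because `r ≤ 1`, `α < 2s`, `lam ≥ 1`).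
OFF TARGET: `Q(G)-Q(F) ≤ K Λ + K Λ S - κ' S ≤ K Λ₂ S + K Λ₂ S - κ' S ≤ -(3/4) κ' S` (`1 ≤ S`); and `(-a r^α + A dMt) Wp ≥ -(a r^α + A |dMt|) ≥ -(c₂/lam^(2s) + C₄/lam^(1+2s)) S ≥ -κ'/4 S` (`a r^α = a r^(2s) r^(α-2s) ≤ c₂ A r^(α-2s) = c₂ lam^(-2s) S`, `A r^(α-2s)/lam = S/lam^(1+2s)`). Strict since `S > 0`.
ON TARGET: `Q(G)-Q(F) ≤ K Λ (1+S) ≤ 2 K Λ₂ S ≤ (c w/(4 lam^(1+2s))) S`; `(-a r^α + A dMt) Wp ≥ (c S/lam^(1+2s) - c₂ S/lam^(2s)) Wp` (the bracket is `≥ (3/4) c S/lam^(1+2s) > 0`) `≥ (3/4) w c S/lam^(1+2s)`. -/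

set_option autoImplicit false

open MeasureTheory Set Filter Topology Pool.Agent.H25.Kin Pool.Agent.H48.PL Pool.Agent.H48.PD
open Pool.Agent.H82.BK Pool.Agent.H82.CM Pool.Agent.H48.PR

namespace Pool.Agent.H48.NE

variable {d : ℕ} {γ s C Ca cb : ℝ} {b : ℝ → ℝ}

theorem key (HL : HypL d γ s b C Ca cb) (h0 : 0 ≤ γ) (hs : 2 * s < 1) {α : ℝ} (hα : 0 < α)
    (hα2 : α < 2 * s) {p : ℕ} (hp : d + 10 ≤ p) (Cl : ℕ → ℝ) (R : ℝ) {cH : ℝ} (hc : 0 < cH) :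
    ∃ lam : ℝ, 1 ≤ lam ∧ ∃ Λ₂ > 0, ∃ r₁ > 0, ∃ A₁ : ℝ, 1 ≤ A₁ ∧ ∃ c₂ > 0,
    ∀ (δ₀ A a : ℝ) (ξ η : Vec d) (F G : Vec d → ℝ) (v : Vec d),
      TC Cl p s α lam δ₀ A ξ η F G v → 0 ≤ δ₀ → A₁ ≤ A → 0 < Qt s ξ (lam • η) →
      rt s lam ξ η ≤ r₁ → δ₀ + A * Mt s α lam ξ η ≤ Λ₂ → len v ≤ R →
      (∀ u, len u ≤ R + 2 → cH ≤ F u ∧ cH ≤ G u) → 0 ≤ a → a * rt s lam ξ η ^ (2 * s) ≤ c₂ * A →
      boltzQ γ b G v - boltzQ γ b F v <
        (-(a * rt s lam ξ η ^ α) + A * dMt s α lam ξ η) * Wp p v := by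
  have hs0 : 0 < s := HL.H.hs
  have hα1 : α < 1 := hα2.trans hs
  obtain ⟨c, hc3, C₃, hC3, hdich⟩ := dicho (d := d) hs0 hs hα hα1
  obtain ⟨C₄, hC4, hdabs⟩ := dMt_abs (d := d) hs0 hs hα hα1
  obtain ⟨K₁, hK1, hon⟩ := keyOn HL h0 hs hα hα2 hp Cl R hc
  obtain ⟨κ', hκ, K₂, hK2, hoff⟩ := keyOff HL h0 hs hα hα2 hp Cl R hc hc3 hC3
  obtain ⟨w, hw⟩ : ∃ w : ℝ, w = ((1 + R ^ 2) ^ p)⁻¹ := ⟨_, rfl⟩
  have hw0 : 0 < w := by rw [hw]; positivity
  have hw1 : w ≤ 1 := by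
    rw [hw]
    exact inv_le_one_of_one_le₀ (one_le_pow₀ (by linarith [sq_nonneg R]))
  obtain ⟨lam, hlam⟩ : ∃ lam : ℝ, lam = max 1 (8 * C₄ / κ') := ⟨_, rfl⟩
  have hl1 : 1 ≤ lam := by rw [hlam]; exact le_max_left _ _
  have hl0 : 0 < lam := by linarith
  obtain ⟨l2, hl2⟩ : ∃ l2 : ℝ, l2 = lam ^ (2 * s) := ⟨_, rfl⟩
  have hl21 : 1 ≤ l2 := by rw [hl2]; exact Real.one_le_rpow hl1 (by linarith)
  have hCl : C₄ ≤ κ' / 8 * (lam * l2) := by
    have h1 : 8 * C₄ / κ' ≤ lam := by rw [hlam]; exact le_max_right _ _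
    have h2 : 8 * C₄ ≤ lam * κ' := (div_le_iff₀ hκ).1 h1
    have h3 : lam * κ' ≤ lam * κ' * l2 := le_mul_of_one_le_right (by positivity) hl21
    linarith
  obtain ⟨r₁, hr1, A₁, hA1, hoff'⟩ := hoff lam hl1
  obtain ⟨K, hK⟩ : ∃ K : ℝ, K = max K₁ K₂ := ⟨_, rfl⟩
  have hK0 : 0 ≤ K := by rw [hK]; exact hK1.trans (le_max_left _ _)
  have hKK1 : K₁ ≤ K := by rw [hK]; exact le_max_left _ _
  have hKK2 : K₂ ≤ K := by rw [hK]; exact le_max_right _ _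
  obtain ⟨μ, hμ⟩ : ∃ μ : ℝ, μ = min (κ' / 8) (c * w / (8 * (lam * l2))) := ⟨_, rfl⟩
  have hμ0 : 0 < μ := by rw [hμ]; exact lt_min (by positivity) (by positivity)
  have hμ1 : μ ≤ κ' / 8 := by rw [hμ]; exact min_le_left _ _
  have hμ2 : μ ≤ c * w / (8 * (lam * l2)) := by rw [hμ]; exact min_le_right _ _
  obtain ⟨c₂, hc2⟩ : ∃ c₂ : ℝ, c₂ = min (κ' / 8) (c * w / (4 * lam)) := ⟨_, rfl⟩
  have hc20 : 0 < c₂ := by rw [hc2]; exact lt_min (by positivity) (by positivity)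
  have hc21 : c₂ ≤ κ' / 8 := by rw [hc2]; exact min_le_left _ _
  have hc22 : c₂ ≤ c * w / (4 * lam) := by rw [hc2]; exact min_le_right _ _
  refine ⟨lam, hl1, min 1 (μ / (K + 1)), lt_min one_pos (by positivity), min r₁ (1 / 4),
    lt_min hr1 (by norm_num), A₁, hA1, c₂, hc20, ?_⟩
  intro δ₀ A a ξ η F G v hT hδ hA hQ hr hΛ hv hFG ha har
  have hr' : 0 < rt s lam ξ η := rt_pos hQ
  have hra : rt s lam ξ η ≤ r₁ := hr.trans (min_le_left _ _)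
  have hrb : rt s lam ξ η ≤ 1 / 4 := hr.trans (min_le_right _ _)
  have hΛ1 : δ₀ + A * Mt s α lam ξ η ≤ 1 := hΛ.trans (min_le_left _ _)
  have hA0 : 0 < A := by linarith
  have hon' := hon lam δ₀ A ξ η F G v hl1 hT hδ hA0.le hQ hrb hΛ1 hv hFG
  have hd := hdich lam hl0 ξ η hQ
  have hda := hdabs lam hl0 ξ η hQ
  have hM0 : 0 ≤ Mt s α lam ξ η := by
    rw [Mt_rt hs0.le]
    exact Real.rpow_nonneg hr'.le _
  have hΛ0 : 0 ≤ δ₀ + A * Mt s α lam ξ η := by positivity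
  have hKΛ : K * (δ₀ + A * Mt s α lam ξ η) ≤ μ := by
    have h1 : δ₀ + A * Mt s α lam ξ η ≤ μ / (K + 1) := hΛ.trans (min_le_right _ _)
    have h2 : (K + 1) * (δ₀ + A * Mt s α lam ξ η) ≤ μ := by
      rw [le_div_iff₀ (by linarith)] at h1
      linarith
    linarith
  -- the quantities
  obtain ⟨P, hP⟩ : ∃ P : ℝ, P = A * rt s lam ξ η ^ (α - 2 * s) := ⟨_, rfl⟩
  have hrp : 1 ≤ rt s lam ξ η ^ (α - 2 * s) :=
    Real.one_le_rpow_of_pos_of_le_one_of_nonpos hr' (by linarith) (by linarith)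
  have hP1 : 1 ≤ P := by
    rw [hP]
    exact one_le_mul_of_one_le_of_one_le (by linarith) hrp
  have hSP : A * (lam ^ (2 * s) * rt s lam ξ η ^ (α - 2 * s)) = l2 * P := by
    rw [hP, hl2]
    ring
  have hS1 : 1 ≤ l2 * P := one_le_mul_of_one_le_of_one_le hl21 hP1
  have hPS : P ≤ l2 * P := le_mul_of_one_le_left (by linarith) hl21
  have haP : a * rt s lam ξ η ^ α ≤ c₂ * P := by
    have h1 : rt s lam ξ η ^ α = rt s lam ξ η ^ (2 * s) * rt s lam ξ η ^ (α - 2 * s) := by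
      rw [← Real.rpow_add hr']
      congr 1
      ring
    rw [h1, hP, ← mul_assoc, ← mul_assoc]
    exact mul_le_mul_of_nonneg_right har (by linarith)
  have hW0 := Wp_pos p v
  have hW1 := Wp_le_one p v
  have hWw : w ≤ Wp p v := by
    have h1 : nsq v ≤ R ^ 2 := by
      rw [← len_sq]
      exact pow_le_pow_left₀ (len_nonneg v) hv 2
    rw [hw]
    unfold Wp
    have h2 : 0 ≤ nsq v := nsq_nn v
    exact inv_anti₀ (by positivity) (pow_le_pow_left₀ (by linarith) (by linarith) p)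
  rw [hSP] at hon'
  -- the common estimate of the main term
  have hmain : ∀ K' : ℝ, K' ≤ K → K' * (δ₀ + A * Mt s α lam ξ η) * (1 + l2 * P) ≤
      2 * μ * (l2 * P) := by
    intro K' hK'
    have h1 : K' * (δ₀ + A * Mt s α lam ξ η) ≤ μ :=
      (mul_le_mul_of_nonneg_right hK' hΛ0).trans hKΛ
    have h2 : K' * (δ₀ + A * Mt s α lam ξ η) * (1 + l2 * P) ≤ μ * (1 + l2 * P) :=
      mul_le_mul_of_nonneg_right h1 (by linarith)
    have h3 : μ * (1 + l2 * P) ≤ μ * (2 * (l2 * P)) :=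
      mul_le_mul_of_nonneg_left (by linarith) hμ0.le
    linarith
  rcases hd with hd | ⟨q, hq1, hq2⟩
  · -- on target
    have h1 := hon'.trans (hmain K₁ hKK1)
    have h2 : 2 * μ * (l2 * P) ≤ c * w * P / (4 * lam) := by
      have h3 : 2 * μ * (l2 * P) ≤ 2 * (c * w / (8 * (lam * l2))) * (l2 * P) := by
        refine mul_le_mul_of_nonneg_right ?_ (by linarith)
        linarith
      refine h3.trans (le_of_eq ?_)
      have : l2 ≠ 0 := by linarith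
      field_simp
      ring
    have h4 : c * P / lam ≤ A * dMt s α lam ξ η := by
      have h5 := mul_le_mul_of_nonneg_left hd hA0.le
      refine le_trans (le_of_eq ?_) h5
      rw [hP]
      field_simp
    have h6 : c₂ * P ≤ c * w / (4 * lam) * P := mul_le_mul_of_nonneg_right hc22 (by linarith)
    have h7 : c * w / (4 * lam) * P = c * w * P / (4 * lam) := by ring
    have h8 : c * w * P / (4 * lam) ≤ c * P / (4 * lam) := by
      refine div_le_div_of_nonneg_right ?_ (by positivity)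
      exact mul_le_mul_of_nonneg_right (mul_le_of_le_one_right hc3.le hw1) (by linarith)
    have h9 : c * P / lam = 4 * (c * P / (4 * lam)) := by field_simp
    have h10 : 0 < c * P / (4 * lam) := by positivity
    have h11 : 3 * (c * P / (4 * lam)) ≤ -(a * rt s lam ξ η ^ α) + A * dMt s α lam ξ η := by
      linarith
    have h12 : 3 * (c * P / (4 * lam)) * w ≤
        (-(a * rt s lam ξ η ^ α) + A * dMt s α lam ξ η) * Wp p v :=
      mul_le_mul h11 hWw hw0.le (by linarith)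
    have h13 : 3 * (c * P / (4 * lam)) * w = 3 * (c * w * P / (4 * lam)) := by ring
    have h14 : 0 < c * w * P / (4 * lam) := by positivity
    linarith
  · -- off target
    have h1 := hoff' δ₀ A ξ η q F G v hT hδ hA hQ hra hΛ1 hv hFG hq1 hq2
    rw [hSP] at h1
    have h2 := hmain K₂ hKK2
    have h3 : 2 * μ * (l2 * P) ≤ κ' / 4 * (l2 * P) :=
      mul_le_mul_of_nonneg_right (by linarith) (by linarith)
    have h4 : A * |dMt s α lam ξ η| ≤ κ' / 8 * (l2 * P) := by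
      have h5 := mul_le_mul_of_nonneg_left hda hA0.le
      have h6 : A * (C₄ * rt s lam ξ η ^ (α - 2 * s) / lam) = C₄ * P / lam := by
        rw [hP]
        ring
      rw [h6] at h5
      refine h5.trans ?_
      rw [div_le_iff₀ hl0]
      have h7 := mul_le_mul_of_nonneg_right hCl (by linarith : (0 : ℝ) ≤ P)
      linarith
    have h5 : c₂ * P ≤ κ' / 8 * (l2 * P) := mul_le_mul hc21 hPS (by linarith) (by positivity)
    have h6 : -(κ' / 4 * (l2 * P)) ≤ -(a * rt s lam ξ η ^ α) + A * dMt s α lam ξ η := by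
      have h7 : -|dMt s α lam ξ η| ≤ dMt s α lam ξ η := neg_abs_le _
      have h8 := mul_le_mul_of_nonneg_left h7 hA0.le
      linarith
    have h7 : -(κ' / 4 * (l2 * P)) ≤
        (-(a * rt s lam ξ η ^ α) + A * dMt s α lam ξ η) * Wp p v := by
      have h8 : -(κ' / 4 * (l2 * P)) * Wp p v ≤
          (-(a * rt s lam ξ η ^ α) + A * dMt s α lam ξ η) * Wp p v :=
        mul_le_mul_of_nonneg_right h6 hW0.le
      have h9 : 0 ≤ κ' / 4 * (l2 * P) := by positivity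
      have h10 := mul_le_of_le_one_right h9 hW1
      linarith
    have h8 : 0 < κ' * (l2 * P) := by positivity
    linarith

end Pool.Agent.H48.NE
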