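import Pool.Agent.H48.NE.CoreC
import Pool.Agent.H48.NE.AngN
import Pool.Agent.H48.NE.DomN
import Pool.Agent.H48.NE.CplW

/-!
# Module OpN: the operator inequality with dissipation

`cutN`: `core_cut` with `A = G`, `B = F`, `U = min F G`, `U' = F`; `S = univ`, `V = 0` (the `if` is `0`, `GEg .. univ = 0`), `X₁ = 0`, `Dq m σ = H(v-m) E(v+hh)`, `E = Λ W - (G - F) ≥ 0`, `Er m σ = Λ (Wp p (v-m) * (B pf + K₂ min(1,len) + (1-q) G v))`, `hP` = `ptN`.
`hI`: third statement of `slo` (PR/Slo): `GMg (Wp p) univ ≤ ofReal(W v) BB + ofReal (K (1+nsq m))`, `∫ len m^γ H(v-m) K (1 + nsq m) dm ≤ X₂ = K'(R, Cl)` (`len^γ ≤ 1 + nsq m`, `1 + nsq m ≤ 2 (1+nsq v)(1+nsq (v-m))`, moments of `F` by `mom_le`).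
`hE`: `angN`, `ang_min` (α = 1), `ang_one`, `∫ len m^γ Wp p (v-m) (1+nsq m) dm ≤ K(R)`: `XE = K Λ (1 + K₂ + B lam^(2s) r^(α-2s))` (`G v ≤ Cl 0`). `hD`: `XD` with `ofReal XD ≤ DsN ..` given (`len^γ Kn * Dq` = the integrand of `DsN`: `ENNReal.ofReal_mul`).
`opN`: `XD = κ ∫_{Sh ρ} ..` (real integral; `Sh ρ` compact, integrand continuous and bounded there; `domN`, `ofReal_integral_eq_lintegral_ofReal`), for `ε ≤ min (1/64) (ρ²)`; `ε → 0`: `boltz_tendsto`, `le_of_tendsto` (as `opS` in PS/CutS). -/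

set_option autoImplicit false

open MeasureTheory Set Filter Topology Pool.Agent.H25.Kin Pool.Agent.H48.PL Pool.Agent.H48.PD
open Pool.Agent.H82.BK Pool.Agent.H82.CM Pool.Agent.H48.PR
open scoped ENNReal

namespace Pool.Agent.H48.NE

variable {d : ℕ} {γ s C Ca cb : ℝ} {b : ℝ → ℝ}

private lemma OpN_mK (γ : ℝ) {b : ℝ → ℝ} (hb : Measurable b) (ε : ℝ) :
    Measurable fun q : Vec d × Vec d => Kn d γ (bt b ε) (co q.1 q.2) := by
  have h1 := measurable_co (d := d)
  unfold Kn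
  exact ((h1.pow_const _).const_mul _).mul
    ((measurable_bt hb ε).comp (((h1.pow_const 2).const_mul 2).sub_const 1))

private lemma OpN_pair (m : Vec d) : Measurable fun σ : Vec d => ((m, σ) : Vec d × Vec d) :=
  measurable_const.prodMk measurable_id

private lemma OpN_mh (v : Vec d) : Measurable fun q : Vec d × Vec d => v + hh q.2 q.1 :=
  measurable_const.add measurable_hh

private lemma OpN_mz (v : Vec d) : Measurable fun q : Vec d × Vec d => v - q.1 :=
  measurable_const.sub measurable_fst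

private lemma OpN_mlh : Measurable fun q : Vec d × Vec d => len (hh q.2 q.1) :=
  continuous_len.measurable.comp measurable_hh

private lemma OpN_mpf (α r lam : ℝ) :
    Measurable fun q : Vec d × Vec d => pf α r (lam * len (hh q.2 q.1)) := by
  have h1 : Measurable fun q : Vec d × Vec d => lam * len (hh q.2 q.1) := OpN_mlh.const_mul lam
  unfold pf
  exact (h1.const_mul _).min (h1.pow_const _)

private lemma OpN_len {γ : ℝ} (h0 : 0 ≤ γ) (h2 : γ ≤ 2) (m : Vec d) : len m ^ γ ≤ 1 + nsq m := by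
  have hl := len_nonneg m
  have hn := sq_nonneg' m
  rcases le_total (len m) 1 with h | h
  · have := Real.rpow_le_one hl h h0
    linarith
  · have h3 : len m ^ γ ≤ len m ^ (2 : ℝ) := Real.rpow_le_rpow_of_exponent_le h h2
    rw [Real.rpow_two, len_sq] at h3
    linarith

private lemma OpN_nsq (v m : Vec d) : 1 + nsq m ≤ 2 * ((1 + nsq v) * (1 + nsq (v - m))) := by
  have h1 := sq_nonneg' v
  have h2 := sq_nonneg' (v - m)
  have h3 : nsq m ≤ 2 * nsq v + 2 * nsq (v - m) := by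
    unfold nsq
    rw [Finset.mul_sum, Finset.mul_sum, ← Finset.sum_add_distrib]
    refine Finset.sum_le_sum fun i _ => ?_
    rw [Pi.sub_apply]
    nlinarith [sq_nonneg (2 * v i - m i)]
  nlinarith [mul_nonneg h1 h2]

private lemma OpN_W (p : ℕ) (v : Vec d) : Wp (p + 2) v * (1 + nsq v) ^ 2 = Wp p v := by
  have h := sq_nonneg' v
  have h1 : (1 + nsq v) ≠ 0 := by positivity
  unfold Wp
  rw [pow_add, mul_inv, mul_assoc, inv_mul_cancel₀ (pow_ne_zero _ h1), mul_one]

private lemma OpN_wt {q : ℕ} (hq : d + 1 ≤ 2 * q) (z : Vec d) : Wp q z ≤ 2 ^ q * wt d z := by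
  have h := sq_nonneg' z
  have h1 := one_le_w z
  have h2 : (1 + ‖z‖) ^ (d + 1) ≤ 2 ^ q * (1 + nsq z) ^ q := by
    calc (1 + ‖z‖) ^ (d + 1) ≤ (1 + ‖z‖) ^ (2 * q) := pow_le_pow_right₀ h1 hq
      _ = ((1 + ‖z‖) ^ 2) ^ q := pow_mul _ _ _
      _ ≤ (2 * (1 + nsq z)) ^ q := pow_le_pow_left₀ (by positivity) (norm_le_nsq z) q
      _ = 2 ^ q * (1 + nsq z) ^ q := mul_pow _ _ _
  unfold Wp wt
  have h3 : 0 < (1 + nsq z) ^ q := by positivity
  have h4 : 0 < (1 + ‖z‖) ^ (d + 1) := by positivity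
  rw [← div_eq_mul_inv, inv_eq_one_div, div_le_div_iff₀ h3 h4, one_mul]
  exact h2

private lemma OpN_jb (v : Vec d) (k : ℕ) : jb v ^ (2 * k) = (1 + nsq v) ^ k := by
  rw [pow_mul]
  congr 1
  unfold jb
  exact Real.sq_sqrt (by linarith [sq_nonneg' v])

/-- the weights for a bounded `v` -/
private lemma OpN_geo {γ : ℝ} (h0 : 0 ≤ γ) (h2 : γ ≤ 2) {R : ℝ} {v : Vec d} (hv : len v ≤ R)
    (m : Vec d) :
    len m ^ γ * (1 + nsq m) ≤ 4 * (1 + R ^ 2) ^ 2 * (1 + nsq (v - m)) ^ 2 := by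
  have hm := sq_nonneg' m
  have hz := sq_nonneg' (v - m)
  have hv0 := sq_nonneg' v
  have h3 : nsq v ≤ R ^ 2 := by
    rw [← len_sq]
    exact pow_le_pow_left₀ (len_nonneg v) hv 2
  have h4 := OpN_len h0 h2 m
  have h5 := OpN_nsq v m
  have h6 : 1 + nsq m ≤ 2 * ((1 + R ^ 2) * (1 + nsq (v - m))) := by
    refine h5.trans ?_
    have : (1 + nsq v) * (1 + nsq (v - m)) ≤ (1 + R ^ 2) * (1 + nsq (v - m)) :=
      mul_le_mul_of_nonneg_right (by linarith) (by linarith)
    linarith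
  calc len m ^ γ * (1 + nsq m) ≤ (1 + nsq m) * (1 + nsq m) :=
        mul_le_mul_of_nonneg_right h4 (by linarith)
    _ = (1 + nsq m) ^ 2 := by ring
    _ ≤ (2 * ((1 + R ^ 2) * (1 + nsq (v - m)))) ^ 2 := pow_le_pow_left₀ (by linarith) h6 2
    _ = _ := by ring

private lemma OpN_inner (H : Hyp d γ s b C Ca) (h0 : 0 ≤ γ) {ε A₀ A₁ A₂ B K₂ g X α r lam : ℝ}
    (hA0 : 0 ≤ A₀) (hA1 : 0 ≤ A₁) (hA2 : 0 ≤ A₂) (hX : 0 ≤ X) (hB : 0 ≤ B) (hK : 0 ≤ K₂)
    (hg : 0 ≤ g) (m : Vec d)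
    (h1 : ∫⁻ σ in {σ : Vec d | 0 < dot m σ}, ENNReal.ofReal
      (Kn d γ (bt b ε) (co m σ) * pf α r (lam * len (hh σ m))) ∂(surf d) ≤
      ENNReal.ofReal (A₀ * X * (1 + nsq m)))
    (h2 : ∫⁻ σ in {σ : Vec d | 0 < dot m σ}, ENNReal.ofReal
      (Kn d γ (bt b ε) (co m σ) * min 1 (len (hh σ m)) ^ (1 : ℝ)) ∂(surf d) ≤
      ENNReal.ofReal (A₂ * (1 + nsq m)))
    (h3 : ∫⁻ σ in {σ : Vec d | 0 < dot m σ}, ENNReal.ofReal
      (Kn d γ (bt b ε) (co m σ) * (1 - co m σ ^ ((d : ℝ) + γ))) ∂(surf d) ≤ ENNReal.ofReal A₁) :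
    ∫⁻ σ in {σ : Vec d | 0 < dot m σ}, ENNReal.ofReal (Kn d γ (bt b ε) (co m σ) *
        (B * pf α r (lam * len (hh σ m)) + K₂ * min 1 (len (hh σ m)) +
          max 0 (1 - co m σ ^ ((d : ℝ) + γ)) * g)) ∂(surf d) ≤
      ENNReal.ofReal ((A₀ * X * B + A₂ * K₂ + A₁ * g) * (1 + nsq m)) := by
  have hn := sq_nonneg' m
  have mK : Measurable fun σ : Vec d => Kn d γ (bt b ε) (co m σ) := by
    have h := (OpN_mK (d := d) γ H.bm ε).comp (OpN_pair m)
    exact h
  have mpf : Measurable fun σ : Vec d => pf α r (lam * len (hh σ m)) := by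
    have h := (OpN_mpf (d := d) α r lam).comp (OpN_pair m)
    exact h
  have m1 : Measurable fun σ : Vec d => ENNReal.ofReal
      (Kn d γ (bt b ε) (co m σ) * pf α r (lam * len (hh σ m))) :=
    (mK.mul mpf).ennreal_ofReal
  have mlh : Measurable fun σ : Vec d => len (hh σ m) := by
    have h := (OpN_mlh (d := d)).comp (OpN_pair m)
    exact h
  have mmin : Measurable fun σ : Vec d => min 1 (len (hh σ m)) := measurable_const.min mlh
  have m2 : Measurable fun σ : Vec d => ENNReal.ofReal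
      (Kn d γ (bt b ε) (co m σ) * min 1 (len (hh σ m)) ^ (1 : ℝ)) :=
    (mK.mul (mmin.pow_const _)).ennreal_ofReal
  have hdγ : (0 : ℝ) ≤ (d : ℝ) + γ := by positivity
  calc ∫⁻ σ in {σ : Vec d | 0 < dot m σ}, ENNReal.ofReal (Kn d γ (bt b ε) (co m σ) *
        (B * pf α r (lam * len (hh σ m)) + K₂ * min 1 (len (hh σ m)) +
          max 0 (1 - co m σ ^ ((d : ℝ) + γ)) * g)) ∂(surf d)
      ≤ ∫⁻ σ in {σ : Vec d | 0 < dot m σ}, (ENNReal.ofReal B * ENNReal.ofReal
          (Kn d γ (bt b ε) (co m σ) * pf α r (lam * len (hh σ m))) +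
          (ENNReal.ofReal K₂ * ENNReal.ofReal
            (Kn d γ (bt b ε) (co m σ) * min 1 (len (hh σ m)) ^ (1 : ℝ)) +
          ENNReal.ofReal g * ENNReal.ofReal
            (Kn d γ (bt b ε) (co m σ) * (1 - co m σ ^ ((d : ℝ) + γ))))) ∂(surf d) := by
        refine lintegral_mono_ae ?_
        filter_upwards [ae_restrict_of_ae surf_ae, ae_restrict_mem (measurableSet_half m)]
          with σ hσ hdm
        have hc := co_pos hdm
        have hc1 := co_le_one (m := m) hσ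
        have hq1 : co m σ ^ ((d : ℝ) + γ) ≤ 1 := Real.rpow_le_one hc.le hc1 hdγ
        rw [max_eq_right (by linarith), ← ENNReal.ofReal_mul hB, ← ENNReal.ofReal_mul hK,
          ← ENNReal.ofReal_mul hg]
        have e : Kn d γ (bt b ε) (co m σ) * (B * pf α r (lam * len (hh σ m)) +
            K₂ * min 1 (len (hh σ m)) + (1 - co m σ ^ ((d : ℝ) + γ)) * g) =
            B * (Kn d γ (bt b ε) (co m σ) * pf α r (lam * len (hh σ m))) +
            (K₂ * (Kn d γ (bt b ε) (co m σ) * min 1 (len (hh σ m)) ^ (1 : ℝ)) +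
            g * (Kn d γ (bt b ε) (co m σ) * (1 - co m σ ^ ((d : ℝ) + γ)))) := by
          rw [Real.rpow_one]
          ring
        rw [e]
        refine ENNReal.ofReal_add_le.trans (add_le_add le_rfl ?_)
        exact ENNReal.ofReal_add_le
    _ = ENNReal.ofReal B * (∫⁻ σ in {σ : Vec d | 0 < dot m σ}, ENNReal.ofReal
          (Kn d γ (bt b ε) (co m σ) * pf α r (lam * len (hh σ m))) ∂(surf d)) +
        (ENNReal.ofReal K₂ * (∫⁻ σ in {σ : Vec d | 0 < dot m σ}, ENNReal.ofReal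
            (Kn d γ (bt b ε) (co m σ) * min 1 (len (hh σ m)) ^ (1 : ℝ)) ∂(surf d)) +
        ENNReal.ofReal g * (∫⁻ σ in {σ : Vec d | 0 < dot m σ}, ENNReal.ofReal
            (Kn d γ (bt b ε) (co m σ) * (1 - co m σ ^ ((d : ℝ) + γ))) ∂(surf d))) := by
        rw [lintegral_add_left (m1.const_mul _), lintegral_add_left (m2.const_mul _),
          lintegral_const_mul' _ _ ENNReal.ofReal_ne_top,
          lintegral_const_mul' _ _ ENNReal.ofReal_ne_top,
          lintegral_const_mul' _ _ ENNReal.ofReal_ne_top]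
    _ ≤ ENNReal.ofReal B * ENNReal.ofReal (A₀ * X * (1 + nsq m)) +
        (ENNReal.ofReal K₂ * ENNReal.ofReal (A₂ * (1 + nsq m)) +
          ENNReal.ofReal g * ENNReal.ofReal A₁) := by
        gcongr
    _ ≤ _ := by
        rw [← ENNReal.ofReal_mul hB, ← ENNReal.ofReal_mul hK, ← ENNReal.ofReal_mul hg,
          ← ENNReal.ofReal_add (by positivity) (by positivity),
          ← ENNReal.ofReal_add (by positivity) (by positivity)]
        refine ENNReal.ofReal_le_ofReal ?_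
        have h5 : 0 ≤ g * A₁ * nsq m := by positivity
        nlinarith

/-- an integral with a translation -/
private lemma OpN_cv {c : ℝ} (hc : 0 ≤ c) {φ : Vec d → ℝ} (hφ : Integrable φ)
    (φ0 : ∀ z, 0 ≤ φ z) (v : Vec d) {M : ℝ} (hM : ∫ z, φ z ≤ M) :
    ∫⁻ m : Vec d, ENNReal.ofReal (c * φ (v - m)) ≤ ENNReal.ofReal (c * M) := by
  have h5 : ∫⁻ m : Vec d, ENNReal.ofReal (c * φ (v - m)) =
      ENNReal.ofReal c * ∫⁻ z : Vec d, ENNReal.ofReal (φ z) := by
    rw [← lintegral_sub_left_eq_self (fun z : Vec d => ENNReal.ofReal (φ z)) v,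
      ← lintegral_const_mul' _ _ ENNReal.ofReal_ne_top]
    refine lintegral_congr fun m => ?_
    rw [ENNReal.ofReal_mul hc]
  rw [h5, ← ofReal_integral_eq_lintegral_ofReal hφ (Eventually.of_forall φ0),
    ← ENNReal.ofReal_mul hc]
  exact ENNReal.ofReal_le_ofReal (mul_le_mul_of_nonneg_left hM hc)

theorem cutN (HL : HypL d γ s b C Ca cb) (h0 : 0 ≤ γ) (hs : 2 * s < 1) {α : ℝ} (hα : 0 < α)
    (hα2 : α < 2 * s) {p : ℕ} (hp : d + 10 ≤ p) (Cl : ℕ → ℝ) (R : ℝ) : ∃ K : ℝ, 0 ≤ K ∧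
    ∀ (r lam B K₂ Λ : ℝ) (F G : Vec d → ℝ) (v : Vec d), 0 < r → 0 < lam → 0 ≤ B → 0 ≤ K₂ →
      TN Cl p α r lam B K₂ Λ F G v → len v ≤ R → ∀ ε : ℝ, 0 < ε → ε ≤ 1 / 64 → ∀ XD : ℝ, 0 ≤ XD →
      ENNReal.ofReal XD ≤ DsN γ b ε (fun u => min (F u) (G u))
        (fun u => Λ * Wp p u - (G u - F u)) v →
      boltzCut γ b ε G v - boltzCut γ b ε F v ≤
        K * Λ * (1 + K₂ + B * (lam ^ (2 * s) * r ^ (α - 2 * s))) - XD := by
  classical
  have H := HL.H
  obtain ⟨A₀, hA0, a0⟩ := angN H hs hα hα2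
  obtain ⟨A₁, hA1, a1⟩ := ang_one H h0
  obtain ⟨A₂, hA2, a2⟩ := ang_min H (α := 1) hs le_rfl
  obtain ⟨δ, -, -, a₀, -, κ, -, K, hK, hslo⟩ := slo HL h0 hs hp
  obtain ⟨M, hM0, hM⟩ := mom_le d Cl (2 * 2)
  have hI : 0 ≤ ∫ z : Vec d, wt d z := integral_nonneg wt_nonneg
  obtain ⟨I, hIe⟩ : ∃ I : ℝ, I = ∫ z : Vec d, wt d z := ⟨_, rfl⟩
  rw [← hIe] at hI
  obtain ⟨Q, hQ⟩ : ∃ Q : ℝ, Q = 4 * (1 + R ^ 2) ^ 2 := ⟨_, rfl⟩
  have hQ0 : 0 ≤ Q := by rw [hQ]; positivity
  obtain ⟨q, rfl⟩ : ∃ q, p = q + 2 := ⟨p - 2, by omega⟩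
  obtain ⟨J, hJ⟩ : ∃ J : ℝ, J = Q * 2 ^ q * I := ⟨_, rfl⟩
  have hJ0 : 0 ≤ J := by rw [hJ]; positivity
  refine ⟨K * Q * M + J * (A₀ + A₂ + A₁ * |Cl 0|), by positivity, ?_⟩
  intro r lam B K₂ Λ F G v hr hlam hB hK₂ ht hv ε hε hε1 XD hXD hDs
  have hΛ := ht.nn
  have cF := ht.hF.nice.cont
  have cG := ht.hG.nice.cont
  have F0 := ht.hF.nonneg
  have G0 := ht.hG.nonneg
  have W0 : ∀ u : Vec d, 0 ≤ Wp (q + 2) u := fun u => (Wp_pos _ u).le
  have cW : Continuous (Wp (q + 2) : Vec d → ℝ) := Wp_cont _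
  have hl : ∀ m : Vec d, 0 ≤ len m ^ γ := fun m => Real.rpow_nonneg (len_nonneg m) γ
  have hdγ : (0 : ℝ) ≤ (d : ℝ) + γ := by positivity
  have hX0 : 0 ≤ lam ^ (2 * s) * r ^ (α - 2 * s) := by positivity
  obtain ⟨X, hX⟩ : ∃ X : ℝ, X = lam ^ (2 * s) * r ^ (α - 2 * s) := ⟨_, rfl⟩
  rw [← hX] at hX0
  have E0 : ∀ u, 0 ≤ Λ * Wp (q + 2) u - (G u - F u) := fun u => by
    have := ht.dif u
    have := le_abs_self (G u - F u)
    linarith
  have hGv : G v ≤ |Cl 0| := by
    have h := ht.hG.le 0 v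
    rw [pow_zero, one_mul] at h
    exact h.trans (le_abs_self _)
  have mH : Measurable fun u => min (F u) (G u) := (cF.min cG).measurable
  have mE : Measurable fun u : Vec d => Λ * Wp (q + 2) u - (G u - F u) :=
    ((continuous_const.mul cW).sub (cG.sub cF)).measurable
  have mDq : Measurable fun x : Vec d × Vec d => min (F (v - x.1)) (G (v - x.1)) *
      (Λ * Wp (q + 2) (v + hh x.2 x.1) - (G (v + hh x.2 x.1) - F (v + hh x.2 x.1))) := by
    have g1 : Measurable fun x : Vec d × Vec d => min (F (v - x.1)) (G (v - x.1)) := by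
      have h := mH.comp (OpN_mz v)
      exact h
    have g2 : Measurable fun x : Vec d × Vec d =>
        Λ * Wp (q + 2) (v + hh x.2 x.1) - (G (v + hh x.2 x.1) - F (v + hh x.2 x.1)) := by
      have h := mE.comp (OpN_mh v)
      exact h
    exact g1.mul g2
  have mEr : Measurable fun x : Vec d × Vec d => Λ * (Wp (q + 2) (v - x.1) *
      (B * pf α r (lam * len (hh x.2 x.1)) + K₂ * min 1 (len (hh x.2 x.1)) +
        max 0 (1 - co x.1 x.2 ^ ((d : ℝ) + γ)) * G v)) := by
    have g1 : Measurable fun x : Vec d × Vec d => Wp (q + 2) (v - x.1) := by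
      have h := cW.measurable.comp (OpN_mz v)
      exact h
    have g2 : Measurable fun x : Vec d × Vec d => pf α r (lam * len (hh x.2 x.1)) :=
      OpN_mpf α r lam
    have g3 : Measurable fun x : Vec d × Vec d => min 1 (len (hh x.2 x.1)) :=
      measurable_const.min OpN_mlh
    have g4 : Measurable fun x : Vec d × Vec d => max 0 (1 - co x.1 x.2 ^ ((d : ℝ) + γ)) :=
      measurable_const.max (measurable_const.sub (measurable_co.pow_const _))
    exact (g1.mul (((g2.const_mul B).add (g3.const_mul K₂)).add (g4.mul_const (G v)))).const_mul Λ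
  have hcore := core_cut HL h0 (p := q + 2) (ε := ε) (Λ := Λ) hε hΛ (A := G) (B := F)
    (U := fun u => min (F u) (G u)) (U' := F) (V := fun _ => 0) ht.hG.nice G0 ht.hF.nice F0
    mH (fun z => le_min (F0 z) (G0 z)) ht.hF.nice (fun z => min_le_left _ _)
    measurable_const (fun _ => le_rfl) (S := univ) MeasurableSet.univ
    (Dq := fun m σ => min (F (v - m)) (G (v - m)) *
      (Λ * Wp (q + 2) (v + hh σ m) - (G (v + hh σ m) - F (v + hh σ m))))
    (Er := fun m σ => Λ * (Wp (q + 2) (v - m) * (B * pf α r (lam * len (hh σ m)) +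
      K₂ * min 1 (len (hh σ m)) + max 0 (1 - co m σ ^ ((d : ℝ) + γ)) * G v)))
    mDq
    (fun m σ => mul_nonneg (le_min (F0 _) (G0 _)) (E0 _))
    mEr
    (fun m σ => by
      have h1 : 0 ≤ pf α r (lam * len (hh σ m)) :=
        pf_nonneg hr.le (mul_nonneg hlam.le (len_nonneg _))
      have h2 : 0 ≤ min 1 (len (hh σ m)) := le_min zero_le_one (len_nonneg _)
      have h3 : 0 ≤ max 0 (1 - co m σ ^ ((d : ℝ) + γ)) := le_max_left _ _
      have h4 := G0 v
      have h5 := W0 (v - m)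
      positivity)
    (v := v) ht.tou (X₁ := 0) (X₂ := K * Q * M) (XD := XD)
    (XE := Λ * (J * (A₀ * X * B + A₂ * K₂ + A₁ * |Cl 0|))) le_rfl (by positivity) hXD
    (by positivity) ?_ ?_ ?_ ?_
  · -- conclusion
    rw [← hX]
    refine hcore.trans ?_
    have hc0 := abs_nonneg (Cl 0)
    have e1 : 0 ≤ K * Q * M * Λ * (K₂ + B * X) := by positivity
    have e2 : 0 ≤ Λ * J * (A₀ * (1 + K₂) + A₂ * (1 + B * X) + A₁ * |Cl 0| * (K₂ + B * X)) := by
      positivity
    nlinarith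
  · -- the part with the weight
    have hφ := (hM F ht.hF)
    have mR : Measurable fun m : Vec d => ENNReal.ofReal (K * Q * (F (v - m) * jb (v - m) ^ (2 * 2))) := by
      have hjb : Continuous (jb : Vec d → ℝ) := by
        unfold jb
        exact (continuous_const.add continuous_sq).sqrt
      have hsub : Continuous fun m : Vec d => v - m := continuous_const.sub continuous_id
      exact ((((cF.mul (hjb.pow _)).comp hsub).measurable).const_mul (K * Q)).ennreal_ofReal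
    simp only [ENNReal.ofReal_zero, add_zero]
    calc ∫⁻ m, (ENNReal.ofReal (len m ^ γ * min (F (v - m)) (G (v - m))) *
            GMg γ b ε (Wp (q + 2)) univ v m +
          ENNReal.ofReal (len m ^ γ * 0) * GEg γ b ε (Wp (q + 2)) univ v m)
        ≤ ∫⁻ m, (ENNReal.ofReal (len m ^ γ * min (F (v - m)) (G (v - m))) *
            (ENNReal.ofReal (Wp (q + 2) v) * BB b ε (dir m)) +
          ENNReal.ofReal (K * Q * (F (v - m) * jb (v - m) ^ (2 * 2)))) := by
          refine lintegral_mono_ae ?_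
          filter_upwards [ae_ne (by linarith [H.hd] : 1 ≤ d) (0 : Vec d)] with m hm
          obtain ⟨-, -, s3⟩ := hslo v m hm.symm ε hε hε1
          have u0 : 0 ≤ min (F (v - m)) (G (v - m)) := le_min (F0 _) (G0 _)
          have hnm := sq_nonneg' m
          rw [mul_zero, ENNReal.ofReal_zero, zero_mul, add_zero]
          calc ENNReal.ofReal (len m ^ γ * min (F (v - m)) (G (v - m))) *
                GMg γ b ε (Wp (q + 2)) univ v m
              ≤ ENNReal.ofReal (len m ^ γ * min (F (v - m)) (G (v - m))) *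
                (ENNReal.ofReal (Wp (q + 2) v) * BB b ε (dir m) +
                  ENNReal.ofReal (K * (1 + nsq m))) := mul_le_mul_right s3 _
            _ = ENNReal.ofReal (len m ^ γ * min (F (v - m)) (G (v - m))) *
                (ENNReal.ofReal (Wp (q + 2) v) * BB b ε (dir m)) +
                ENNReal.ofReal (len m ^ γ * min (F (v - m)) (G (v - m)) * (K * (1 + nsq m))) := by
                rw [mul_add, ← ENNReal.ofReal_mul (mul_nonneg (hl m) u0)]
            _ ≤ _ := by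
                refine add_le_add le_rfl (ENNReal.ofReal_le_ofReal ?_)
                rw [OpN_jb]
                have g1 := OpN_geo h0 H.g2 hv m
                rw [← hQ] at g1
                have g2 : min (F (v - m)) (G (v - m)) ≤ F (v - m) := min_le_left _ _
                have g3 : 0 ≤ len m ^ γ * (1 + nsq m) := mul_nonneg (hl m) (by linarith)
                calc len m ^ γ * min (F (v - m)) (G (v - m)) * (K * (1 + nsq m))
                    = K * (len m ^ γ * (1 + nsq m) * min (F (v - m)) (G (v - m))) := by ring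
                  _ ≤ K * (Q * (1 + nsq (v - m)) ^ 2 * F (v - m)) := by
                      refine mul_le_mul_of_nonneg_left ?_ hK
                      exact mul_le_mul g1 g2 u0 (g3.trans g1)
                  _ = _ := by ring
      _ = (∫⁻ m, ENNReal.ofReal (len m ^ γ * min (F (v - m)) (G (v - m))) *
            (ENNReal.ofReal (Wp (q + 2) v) * BB b ε (dir m))) +
          ∫⁻ m, ENNReal.ofReal (K * Q * (F (v - m) * jb (v - m) ^ (2 * 2))) :=
          lintegral_add_right _ mR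
      _ ≤ _ := by
          refine add_le_add le_rfl ?_
          refine OpN_cv (c := K * Q) (by positivity) hφ.1 (fun z => ?_) v hφ.2
          have : 0 ≤ jb z ^ (2 * 2) := by
            rw [OpN_jb]
            positivity
          exact mul_nonneg (F0 z) this
  · -- the dissipation
    refine hDs.trans ?_
    unfold DsN
    refine lintegral_mono fun m => lintegral_mono fun σ => ?_
    rw [← ENNReal.ofReal_mul' (mul_nonneg (le_min (F0 _) (G0 _)) (E0 _))]
  · -- the error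
    have key : ∀ᵐ m : Vec d, (∫⁻ σ in {σ : Vec d | 0 < dot m σ}, ENNReal.ofReal
        (len m ^ γ * Kn d γ (bt b ε) (co m σ) * (Λ * (Wp (q + 2) (v - m) *
          (B * pf α r (lam * len (hh σ m)) + K₂ * min 1 (len (hh σ m)) +
            max 0 (1 - co m σ ^ ((d : ℝ) + γ)) * G v)))) ∂(surf d)) ≤
        ENNReal.ofReal (Λ * (A₀ * X * B + A₂ * K₂ + A₁ * |Cl 0|) * (Q * 2 ^ q) * wt d (v - m)) := by
      filter_upwards [ae_ne (by linarith [H.hd] : 1 ≤ d) (0 : Vec d)] with m hm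
      have h1 := a0 ε hε m hm.symm r lam hr hlam
      rw [← hX] at h1
      have h2 := a2 ε hε m hm.symm
      have h3 := a1 ε hε m hm.symm
      have h4 := OpN_inner H h0 hA0 hA1 hA2 hX0 hB hK₂ (G0 v) m h1 h2 h3
      have hnm := sq_nonneg' m
      have hnz := sq_nonneg' (v - m)
      have hGv0 := G0 v
      have hWz := W0 (v - m)
      have hlm := hl m
      calc (∫⁻ σ in {σ : Vec d | 0 < dot m σ}, ENNReal.ofReal
          (len m ^ γ * Kn d γ (bt b ε) (co m σ) * (Λ * (Wp (q + 2) (v - m) *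
          (B * pf α r (lam * len (hh σ m)) + K₂ * min 1 (len (hh σ m)) +
            max 0 (1 - co m σ ^ ((d : ℝ) + γ)) * G v)))) ∂(surf d))
          = ENNReal.ofReal (len m ^ γ * (Λ * Wp (q + 2) (v - m))) *
            ∫⁻ σ in {σ : Vec d | 0 < dot m σ}, ENNReal.ofReal (Kn d γ (bt b ε) (co m σ) *
              (B * pf α r (lam * len (hh σ m)) + K₂ * min 1 (len (hh σ m)) +
                max 0 (1 - co m σ ^ ((d : ℝ) + γ)) * G v)) ∂(surf d) := by
            rw [← lintegral_const_mul' _ _ ENNReal.ofReal_ne_top]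
            refine lintegral_congr fun σ => ?_
            rw [← ENNReal.ofReal_mul (by positivity)]
            congr 1
            ring
        _ ≤ ENNReal.ofReal (len m ^ γ * (Λ * Wp (q + 2) (v - m))) *
            ENNReal.ofReal ((A₀ * X * B + A₂ * K₂ + A₁ * G v) * (1 + nsq m)) :=
            mul_le_mul_right h4 _
        _ ≤ _ := by
            rw [← ENNReal.ofReal_mul (by positivity)]
            refine ENNReal.ofReal_le_ofReal ?_
            have g1 := OpN_geo h0 H.g2 hv m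
            rw [← hQ] at g1
            have e5 := OpN_W q (v - m)
            have e6 := OpN_wt (d := d) (q := q) (by omega) (v - m)
            have e7 : A₀ * X * B + A₂ * K₂ + A₁ * G v ≤ A₀ * X * B + A₂ * K₂ + A₁ * |Cl 0| := by
              have := mul_le_mul_of_nonneg_left hGv hA1
              linarith
            have e8 : 0 ≤ A₀ * X * B + A₂ * K₂ + A₁ * G v := by positivity
            have e9 : 0 ≤ A₀ * X * B + A₂ * K₂ + A₁ * |Cl 0| := e8.trans e7
            calc len m ^ γ * (Λ * Wp (q + 2) (v - m)) *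
                  ((A₀ * X * B + A₂ * K₂ + A₁ * G v) * (1 + nsq m))
                = Λ * (A₀ * X * B + A₂ * K₂ + A₁ * G v) *
                  (len m ^ γ * (1 + nsq m) * Wp (q + 2) (v - m)) := by ring
              _ ≤ Λ * (A₀ * X * B + A₂ * K₂ + A₁ * |Cl 0|) *
                  (Q * (1 + nsq (v - m)) ^ 2 * Wp (q + 2) (v - m)) := by
                  refine mul_le_mul (mul_le_mul_of_nonneg_left e7 hΛ)
                    (mul_le_mul_of_nonneg_right g1 hWz) (by positivity) (by positivity)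
              _ = Λ * (A₀ * X * B + A₂ * K₂ + A₁ * |Cl 0|) *
                  (Q * (Wp (q + 2) (v - m) * (1 + nsq (v - m)) ^ 2)) := by ring
              _ = Λ * (A₀ * X * B + A₂ * K₂ + A₁ * |Cl 0|) * (Q * Wp q (v - m)) := by rw [e5]
              _ ≤ Λ * (A₀ * X * B + A₂ * K₂ + A₁ * |Cl 0|) * (Q * (2 ^ q * wt d (v - m))) := by
                  refine mul_le_mul_of_nonneg_left ?_ (by positivity)
                  exact mul_le_mul_of_nonneg_left e6 hQ0
              _ = _ := by ring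
    refine (lintegral_mono_ae key).trans ?_
    have e9 : 0 ≤ A₀ * X * B + A₂ * K₂ + A₁ * |Cl 0| := by positivity
    refine (OpN_cv (c := Λ * (A₀ * X * B + A₂ * K₂ + A₁ * |Cl 0|) * (Q * 2 ^ q)) (by positivity)
      integrable_wt wt_nonneg v hIe.ge).trans (ENNReal.ofReal_le_ofReal (le_of_eq ?_))
    rw [hJ]
    ring
  · -- the pointwise inequality
    intro m σ hσ hmσ
    have hc := co_pos hmσ
    have hc1 := co_le_one (m := m) hσ
    have hq0 : 0 ≤ co m σ ^ ((d : ℝ) + γ) := Real.rpow_nonneg hc.le _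
    have hq1 : co m σ ^ ((d : ℝ) + γ) ≤ 1 := Real.rpow_le_one hc.le hc1 hdγ
    have h3 := ptN hr.le hlam.le hB hK₂ ht (v - m) (hh σ m) hq0 hq1
    rw [if_pos (mem_univ _), add_zero, max_eq_right (by linarith)]
    exact h3

theorem opN (HL : HypL d γ s b C Ca cb) (h0 : 0 ≤ γ) (hs : 2 * s < 1) {α : ℝ} (hα : 0 < α)
    (hα2 : α < 2 * s) {p : ℕ} (hp : d + 10 ≤ p) (Cl : ℕ → ℝ) (R : ℝ) {cH : ℝ} (hc : 0 < cH) :
    ∃ κ > 0, ∃ K : ℝ, 0 ≤ K ∧ ∀ (r lam B K₂ Λ ρ : ℝ) (F G : Vec d → ℝ) (v : Vec d), 0 < r →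
      0 < lam → 0 ≤ B → 0 ≤ K₂ → 0 < ρ → ρ ≤ 1 / 8 → TN Cl p α r lam B K₂ Λ F G v → len v ≤ R →
      (∀ u, len u ≤ R + 2 → cH ≤ F u ∧ cH ≤ G u) →
      boltzQ γ b G v - boltzQ γ b F v ≤
        K * Λ * (1 + K₂ + B * (lam ^ (2 * s) * r ^ (α - 2 * s))) -
        κ * ∫ h in Sh ρ, len h ^ (-(d : ℝ) - 2 * s) *
          (Λ * Wp p (v + h) - (G (v + h) - F (v + h))) := by
  obtain ⟨κ, hκ, hdom⟩ := domN HL hs h0 R hc
  obtain ⟨K, hK, hcut⟩ := cutN HL h0 hs hα hα2 hp Cl R
  refine ⟨κ, hκ, K, hK, fun r lam B K₂ Λ ρ F G v hr hlam hB hK₂ hρ hρ1 ht hv hlow => ?_⟩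
  have cF := ht.hF.nice.cont
  have cG := ht.hG.nice.cont
  have F0 := ht.hF.nonneg
  have G0 := ht.hG.nonneg
  have E0 : ∀ u, 0 ≤ Λ * Wp p u - (G u - F u) := fun u => by
    have := ht.dif u
    have := le_abs_self (G u - F u)
    linarith
  have cE : Continuous fun u : Vec d => Λ * Wp p u - (G u - F u) :=
    (continuous_const.mul (Wp_cont p)).sub (cG.sub cF)
  obtain ⟨f, hf⟩ : ∃ f : Vec d → ℝ, f = fun h => len h ^ (-(d : ℝ) - 2 * s) *
      (Λ * Wp p (v + h) - (G (v + h) - F (v + h))) := ⟨_, rfl⟩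
  have f0 : ∀ h, 0 ≤ f h := fun h => by
    rw [hf]
    exact mul_nonneg (Real.rpow_nonneg (len_nonneg h) _) (E0 _)
  have mf : Measurable f := by
    rw [hf]
    exact (continuous_len.measurable.pow_const _).mul
      (cE.comp (continuous_const.add continuous_id)).measurable
  have hX0 : 0 ≤ κ * ∫ h in Sh ρ, f h := mul_nonneg hκ.le (integral_nonneg f0)
  have e : (∫ h in Sh ρ, len h ^ (-(d : ℝ) - 2 * s) *
      (Λ * Wp p (v + h) - (G (v + h) - F (v + h)))) = ∫ h in Sh ρ, f h := by rw [hf]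
  rw [e]
  refine le_of_tendsto ((boltz_tendsto HL.H ht.hG.nice v).sub
    (boltz_tendsto HL.H ht.hF.nice v)) ?_
  filter_upwards [Ioo_mem_nhdsGT (show (0 : ℝ) < min (1 / 64) (ρ ^ 2) by positivity)] with ε hε
  refine hcut r lam B K₂ Λ F G v hr hlam hB hK₂ ht hv ε hε.1 (hε.2.le.trans (min_le_left _ _))
    _ hX0 ?_
  refine le_trans ?_ (hdom ρ hρ (by linarith) ε hε.1 (hε.2.le.trans (min_le_right _ _)) _ _
    (cF.min cG).measurable (fun u => le_min (F0 u) (G0 u)) cE.measurable E0 v hv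
    (fun u hu => le_min (hlow u hu).1 (hlow u hu).2))
  have e2 : κ * ∫ h in Sh ρ, f h = ∫ h in Sh ρ, κ * f h := (integral_const_mul _ _).symm
  rw [e2, integral_eq_lintegral_of_nonneg_ae (Eventually.of_forall fun h => mul_nonneg hκ.le (f0 h))
    (mf.const_mul κ).aestronglyMeasurable]
  refine ENNReal.ofReal_toReal_le.trans (le_of_eq ?_)
  rw [hf]

end Pool.Agent.H48.NE
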