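import Pool.Agent.H48.NE.OneN
import Pool.Agent.H48.NE.OpN
import Pool.Agent.H48.NE.Cpl

/-!
# Module KeyO: the two cases of the key estimate

Notation: `r = rt`, `M = Mt = r^α` (`Mt_rt`), `Λ = δ₀ + A M ≤ 1`, `S = A lam^(2s) r^(α-2s)`, `W = Wp p`, `C, K₂` of `oneN`. `len η ≤ 2r/lam ≤ 1/2` (`len_le_rt`, `r ≤ r₁ ≤ 1/4`, `lam ≥ 1`).
`keyOn`: `oneN`, `opN` (`B = C A`, `ρ = 1/8`): the integral over `Sh ρ` is `≥ 0` (`dif`), so `Q(G)-Q(F) ≤ K Λ (1 + K₂ + C S)`.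
`keyOff`: `W(v) ≥ w_R = (1+R²)^(-p)` (`nsq v ≤ R²`; `R` may be replaced by `max R 0`). `a(h) = G(v+h) - G(v)`, `b(h) = F(v+h) - F(v)`. `|W(v+h) - W(v)| ≤ C_p len h W(v)` for `len h ≤ 1`. `Λ W(v+h) - (G(v+h) - F(v+h)) = Λ (W(v+h) - W(v)) - (a - b) ≥ -(a - b) - Λ C_p len h`, so
`-∫_{Sh} |h|^(-d-2s) E ≤ ∫_{Sh} |h|^(-d-2s) (a-b) + C_p Λ K_s` (`K_s` from `wS_lin`). `cpl` with: `A' = 2 C A lam^α` (`a(h) ≤ C A pf(r, lam|h|) + K₂ |h| ≤ (C A lam^α + K₂) |h|^α` for `|h| ≤ 1`, `K₂ ≤ C A₁ lam^α`; if `C = 0` enlarge `C`), the same for `-b` (`oneF`);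
`a(h) - b(h+q) = G(v+h) - F(v+h+q) - Λ W(v) ≤ (δ₀ + A Mt(ξ,η-q)) max(W(v+h), W(v+h+q)) - Λ W(v)` (`crs` with `h' = h+q`: `η + h - h' = η - q`, `len (η-q) ≤ 1`) `≤ (Λ - c A r^α)(1 + C_p(|h|+|q|)) W(v) - Λ W(v) ≤ -c A r^α W(v) + C_p Λ (|h| + |q|) W(v)`, so `g₀ = (c/2) A r^α W(v)`, `K₀ = C_p Λ`:
`C_p Λ |q| ≤ C_p C₃ r/lam ≤ (c/2) A r^α` since `r ≤ r^α` and `A ≥ A₁ ≥ 2 C_p C₃/c`. `ρ = N C₃ r/lam`, `N ≥ 8` (`8|q| ≤ ρ`), `r₁ = lam/(8 N C₃)`-small: `ρ ≤ 1/8`. Result of `cpl`: `-c₀ (N C₃)^(-2s) lam^(2s) r^(-2s) (c/2) A r^α w_R + K Λ C_p + K 2 C A lam^α (C₃ r/lam) (N C₃ r/lam)^(α-2s-1)`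
`= -c₅ N^(-2s) S + K'Λ + K'' N^(α-2s-1) S`; `N` with `K'' N^(α-1) ≤ c₅/2`. So `κ' = κ c₅ N^(-2s)/2`, independent of `lam`. (All constants `C, K₂, κ, K, N, κ'` do not depend on `lam`; `r₁`, `A₁` do.) -/

set_option autoImplicit false

open MeasureTheory Set Filter Topology Pool.Agent.H25.Kin Pool.Agent.H48.PL Pool.Agent.H48.PD
open Pool.Agent.H82.BK Pool.Agent.H82.CM Pool.Agent.H48.PR

namespace Pool.Agent.H48.NE

variable {d : ℕ} {γ s C Ca cb : ℝ} {b : ℝ → ℝ}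

private lemma keyo_nn (v : Vec d) : 0 ≤ nsq v := nsq_nn v

private lemma keyo_dot (u v : Vec d) : |dot u v| ≤ len u * len v := by
  have h1 := dot_sq_le u v
  rw [← len_sq u, ← len_sq v, ← mul_pow] at h1
  exact abs_le_of_sq_le_sq h1 (mul_nonneg (len_nonneg u) (len_nonneg v))

private lemma keyo_peetre {v h : Vec d} (hh : len h ≤ 1) : 1 + nsq v ≤ 4 * (1 + nsq (v + h)) := by
  have h1 := nsq_par (v + h) h
  rw [add_sub_cancel_right] at h1
  have h2 := keyo_nn (v + h + h)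
  have h3 := keyo_nn (v + h)
  have h4 : nsq h ≤ 1 := by
    rw [← len_sq]
    have := len_nonneg h
    nlinarith
  linarith

private lemma keyo_du {v h : Vec d} (hh : len h ≤ 1) :
    |nsq (v + h) - nsq v| ≤ 2 * len h * (1 + nsq v) := by
  have h0 := len_nonneg h
  have h1 := nsq_add v h
  have h2 := keyo_dot v h
  have h3 : nsq h ≤ len h := by
    rw [← len_sq]
    nlinarith
  have h4 := keyo_nn h
  have h5 : 2 * len v ≤ 1 + nsq v := by
    rw [← len_sq v]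
    nlinarith [sq_nonneg (len v - 1)]
  have h6 := keyo_nn v
  have h7 : 2 * (len v * len h) ≤ len h * (1 + nsq v) := by nlinarith
  have h8 : len h * 1 ≤ len h * (1 + nsq v) := mul_le_mul_of_nonneg_left (by linarith) h0
  have e1 : nsq (v + h) - nsq v = 2 * dot v h + nsq h := by linarith
  rw [e1]
  rw [abs_le] at h2 ⊢
  constructor <;> linarith [h2.1, h2.2]

private lemma keyo_W {p : ℕ} (hp : 1 ≤ p) {v h : Vec d} (hh : len h ≤ 1) :
    |Wp p (v + h) - Wp p v| ≤ 8 * p * 4 ^ p * len h * Wp p v := by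
  have h0 := len_nonneg h
  have hv : 0 < 1 + nsq v := by linarith [keyo_nn v]
  have hvh : 0 < 1 + nsq (v + h) := by linarith [keyo_nn (v + h)]
  have e1 : ∀ u : Vec d, Wp p u = (1 + nsq u)⁻¹ ^ p := fun u => by unfold Wp; rw [inv_pow]
  rw [e1, e1]
  obtain ⟨x, hx⟩ : ∃ x : ℝ, x = (1 + nsq (v + h))⁻¹ := ⟨_, rfl⟩
  obtain ⟨y, hy⟩ : ∃ y : ℝ, y = (1 + nsq v)⁻¹ := ⟨_, rfl⟩
  rw [← hx, ← hy]
  have hx0 : 0 < x := by rw [hx]; exact inv_pos.2 hvh
  have hy0 : 0 < y := by rw [hy]; exact inv_pos.2 hv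
  have hxy : x ≤ 4 * y := by
    rw [hx, hy, inv_eq_one_div, inv_eq_one_div, ← mul_div_assoc, mul_one, div_le_div_iff₀ hvh hv]
    linarith [keyo_peetre (v := v) hh]
  have hd : |x - y| ≤ 8 * len h * y := by
    have e2 : x - y = (nsq v - nsq (v + h)) * (x * y) := by
      rw [hx, hy]
      field_simp
      ring
    rw [e2, abs_mul, abs_of_pos (mul_pos hx0 hy0), abs_sub_comm]
    calc |nsq (v + h) - nsq v| * (x * y) ≤ (2 * len h * (1 + nsq v)) * (x * y) :=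
          mul_le_mul_of_nonneg_right (keyo_du hh) (mul_pos hx0 hy0).le
      _ = 2 * len h * x := by
          rw [hy]
          field_simp
      _ ≤ 8 * len h * y := by nlinarith
  obtain ⟨k, rfl⟩ : ∃ k, p = k + 1 := ⟨p - 1, by omega⟩
  have h1 := abs_pow_sub_pow_le x y (k + 1)
  rw [Nat.add_sub_cancel, abs_of_pos hx0, abs_of_pos hy0] at h1
  refine h1.trans ?_
  have h2 : max x y ≤ 4 * y := max_le hxy (by linarith)
  have h3 : max x y ^ k ≤ (4 * y) ^ k := pow_le_pow_left₀ (hy0.le.trans (le_max_right _ _)) h2 k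
  have h4 : 0 ≤ max x y ^ k := pow_nonneg (hy0.le.trans (le_max_right _ _)) k
  calc |x - y| * ((k + 1 : ℕ) : ℝ) * max x y ^ k
      ≤ (8 * len h * y) * ((k + 1 : ℕ) : ℝ) * (4 * y) ^ k := by
        refine mul_le_mul (mul_le_mul_of_nonneg_right hd (Nat.cast_nonneg _)) h3 h4 (by positivity)
    _ = 8 * ((k + 1 : ℕ) : ℝ) * 4 ^ k * len h * y ^ (k + 1) := by
        rw [mul_pow]
        ring
    _ ≤ 8 * ((k + 1 : ℕ) : ℝ) * 4 ^ (k + 1) * len h * y ^ (k + 1) := by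
        have h5 : (4 : ℝ) ^ k ≤ 4 ^ (k + 1) := pow_le_pow_right₀ (by norm_num) (Nat.le_succ k)
        have h6 : 0 ≤ y ^ (k + 1) := pow_nonneg hy0.le _
        gcongr

private lemma keyo_wR {R : ℝ} (p : ℕ) {v : Vec d} (hv : len v ≤ R) :
    ((1 + R ^ 2) ^ p)⁻¹ ≤ Wp p v := by
  unfold Wp
  have h0 := len_nonneg v
  have h1 : nsq v ≤ R ^ 2 := by
    rw [← len_sq]
    exact pow_le_pow_left₀ h0 hv 2
  have h2 := keyo_nn v
  exact inv_anti₀ (by positivity) (pow_le_pow_left₀ (by linarith) (by linarith) p)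

private lemma keyo_compact (ρ : ℝ) : IsCompact (Sh ρ : Set (Vec d)) := by
  refine Metric.isCompact_of_isClosed_isBounded ?_ ?_
  · exact (isClosed_le continuous_const continuous_len).inter
      (isClosed_le continuous_len continuous_const)
  · refine (Metric.isBounded_iff_subset_closedBall 0).2 ⟨1 / 2, fun h hh => ?_⟩
    rw [mem_closedBall_zero_iff]
    exact (norm_le_len h).trans hh.2

private lemma keyo_int {ρ s : ℝ} (hρ : 0 < ρ) {f : Vec d → ℝ} (hf : Continuous f) :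
    IntegrableOn (fun h => len h ^ (-(d : ℝ) - 2 * s) * f h) (Sh ρ) := by
  refine ContinuousOn.integrableOn_compact (keyo_compact ρ) ?_
  refine ContinuousOn.mul ?_ hf.continuousOn
  exact continuous_len.continuousOn.rpow_const fun h hh => Or.inl (hρ.trans_le hh.1).ne'

private lemma keyo_lin {ρ s K : ℝ} (h : ∫ h : Vec d, wS s ρ h * len h ≤ K) :
    ∫ h in (Sh ρ : Set (Vec d)), len h ^ (-(d : ℝ) - 2 * s) * len h ≤ K := by
  rw [← integral_indicator (keyo_compact ρ).isClosed.measurableSet]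
  refine le_trans (le_of_eq ?_) h
  congr 1
  funext x
  unfold wS
  by_cases hx : x ∈ (Sh ρ : Set (Vec d))
  · rw [indicator_of_mem hx, if_pos hx]
  · rw [indicator_of_notMem hx, if_neg hx, zero_mul]

private lemma keyo_pow (K'' : ℝ) {c5 α : ℝ} (hc : 0 < c5) (hα : α < 1) :
    ∃ N : ℝ, 8 ≤ N ∧ K'' * N ^ (α - 1) ≤ c5 / 2 := by
  have h1 : Tendsto (fun N : ℝ => N ^ (-(1 - α))) atTop (𝓝 0) :=
    tendsto_rpow_neg_atTop (by linarith)
  have h2 : Tendsto (fun N : ℝ => K'' * N ^ (-(1 - α))) atTop (𝓝 0) := by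
    simpa using h1.const_mul K''
  have h3 : ∀ᶠ N : ℝ in atTop, K'' * N ^ (-(1 - α)) < c5 / 2 :=
    h2.eventually (gt_mem_nhds (by linarith))
  obtain ⟨N, hN, hN8⟩ := (h3.and (eventually_ge_atTop (8 : ℝ))).exists
  refine ⟨N, hN8, ?_⟩
  have e1 : α - 1 = -(1 - α) := by ring
  rw [e1]
  exact hN.le

private lemma keyo_pf {α r t : ℝ} : pf α r t ≤ t ^ α := min_le_right _ _

theorem keyOn (HL : HypL d γ s b C Ca cb) (h0 : 0 ≤ γ) (hs : 2 * s < 1) {α : ℝ} (hα : 0 < α)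
    (hα2 : α < 2 * s) {p : ℕ} (hp : d + 10 ≤ p) (Cl : ℕ → ℝ) (R : ℝ) {cH : ℝ} (hc : 0 < cH) :
    ∃ K : ℝ, 0 ≤ K ∧ ∀ (lam δ₀ A : ℝ) (ξ η : Vec d) (F G : Vec d → ℝ) (v : Vec d), 1 ≤ lam →
      TC Cl p s α lam δ₀ A ξ η F G v → 0 ≤ δ₀ → 0 ≤ A → 0 < Qt s ξ (lam • η) →
      rt s lam ξ η ≤ 1 / 4 → δ₀ + A * Mt s α lam ξ η ≤ 1 → len v ≤ R →
      (∀ u, len u ≤ R + 2 → cH ≤ F u ∧ cH ≤ G u) →
      boltzQ γ b G v - boltzQ γ b F v ≤ K * (δ₀ + A * Mt s α lam ξ η) *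
        (1 + A * (lam ^ (2 * s) * rt s lam ξ η ^ (α - 2 * s))) := by
  have hs0 := HL.H.hs
  obtain ⟨C, K₂, hC, hK₂, hone⟩ := oneN (d := d) Cl p hs0 hs hα (by linarith)
  obtain ⟨κ, hκ, Ko, hKo, hop⟩ := opN HL h0 hs hα hα2 hp Cl R hc
  refine ⟨Ko * (1 + K₂ + C), by positivity, ?_⟩
  intro lam δ₀ A ξ η F G v hlam hTC hδ hA hQ hr hΛ hv hFG
  have hr0 := rt_pos (s := s) (lam := lam) (ξ := ξ) (η := η) hQ
  have hlam0 : 0 < lam := by linarith
  have hη : len η ≤ 1 / 2 := by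
    have h1 := (len_le_rt hs0.le hlam0.le ξ η).1
    have h2 : len η ≤ lam * len η := le_mul_of_one_le_left (len_nonneg η) hlam
    linarith
  have hTN := hone lam δ₀ A ξ η F G v hlam0 hδ hA hQ hη hΛ hTC
  have h1 := hop (rt s lam ξ η) lam (C * A) K₂ (δ₀ + A * Mt s α lam ξ η) (1 / 8) F G v hr0 hlam0
    (mul_nonneg hC hA) hK₂ (by norm_num) (by norm_num) hTN hv hFG
  obtain ⟨S, hS⟩ : ∃ S : ℝ, S = lam ^ (2 * s) * rt s lam ξ η ^ (α - 2 * s) := ⟨_, rfl⟩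
  have hS0 : 0 ≤ S := by
    rw [hS]
    exact mul_nonneg (Real.rpow_nonneg hlam0.le _) (Real.rpow_nonneg hr0.le _)
  have h2 : 0 ≤ ∫ h in (Sh (1 / 8) : Set (Vec d)), len h ^ (-(d : ℝ) - 2 * s) *
      ((δ₀ + A * Mt s α lam ξ η) * Wp p (v + h) - (G (v + h) - F (v + h))) := by
    refine integral_nonneg fun h => ?_
    refine mul_nonneg (Real.rpow_nonneg (len_nonneg h) _) ?_
    have := (abs_le.1 (hTC.dif (v + h))).2
    linarith
  have h3 := mul_nonneg hκ.le h2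
  rw [← hS] at h1 ⊢
  refine h1.trans ?_
  have hΛ0 := hTN.nn
  have h4 : Ko * (δ₀ + A * Mt s α lam ξ η) * (1 + K₂ + C * A * S) ≤
      Ko * (1 + K₂ + C) * (δ₀ + A * Mt s α lam ξ η) * (1 + A * S) := by
    have h5 : 1 + K₂ + C * A * S ≤ (1 + K₂ + C) * (1 + A * S) := by
      have h6 : 0 ≤ A * S := mul_nonneg hA hS0
      nlinarith [mul_nonneg hK₂ h6]
    have h7 := mul_le_mul_of_nonneg_left h5 (mul_nonneg hKo hΛ0)
    linarith
  linarith

theorem keyOff (HL : HypL d γ s b C Ca cb) (h0 : 0 ≤ γ) (hs : 2 * s < 1) {α : ℝ} (hα : 0 < α)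
    (hα2 : α < 2 * s) {p : ℕ} (hp : d + 10 ≤ p) (Cl : ℕ → ℝ) (R : ℝ) {cH : ℝ} (hc : 0 < cH)
    {c C₃ : ℝ} (hc3 : 0 < c) (hC3 : 0 < C₃) :
    ∃ κ' > 0, ∃ K : ℝ, 0 ≤ K ∧ ∀ lam : ℝ, 1 ≤ lam → ∃ r₁ > 0, ∃ A₁ : ℝ, 1 ≤ A₁ ∧
    ∀ (δ₀ A : ℝ) (ξ η q : Vec d) (F G : Vec d → ℝ) (v : Vec d),
      TC Cl p s α lam δ₀ A ξ η F G v → 0 ≤ δ₀ → A₁ ≤ A → 0 < Qt s ξ (lam • η) →
      rt s lam ξ η ≤ r₁ → δ₀ + A * Mt s α lam ξ η ≤ 1 → len v ≤ R →
      (∀ u, len u ≤ R + 2 → cH ≤ F u ∧ cH ≤ G u) → lam * len q ≤ C₃ * rt s lam ξ η →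
      Mt s α lam ξ (η - q) ≤ Mt s α lam ξ η - c * rt s lam ξ η ^ α →
      boltzQ γ b G v - boltzQ γ b F v ≤ K * (δ₀ + A * Mt s α lam ξ η) *
        (1 + A * (lam ^ (2 * s) * rt s lam ξ η ^ (α - 2 * s))) -
        κ' * (A * (lam ^ (2 * s) * rt s lam ξ η ^ (α - 2 * s))) := by
  have hs0 := HL.H.hs
  have hd1 := HL.H.hd1
  have hα1 : α < 1 := by linarith
  have hp1 : 1 ≤ p := by omega
  obtain ⟨C, K₂, hC, hK₂, hone⟩ := oneN (d := d) Cl p hs0 hs hα hα1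
  obtain ⟨κ, hκ, Ko, hKo, hop⟩ := opN HL h0 hs hα hα2 hp Cl R hc
  obtain ⟨c₀, hc₀, Kc, hKc, hcpl⟩ := cpl (d := d) hd1 hs0 hs hα hα2
  obtain ⟨Ks, hKs, hlin⟩ := wS_lin (d := d) hd1 hs0 hs
  obtain ⟨Cp, hCp⟩ : ∃ Cp : ℝ, Cp = 8 * p * 4 ^ p := ⟨_, rfl⟩
  have hCp0 : 0 ≤ Cp := by rw [hCp]; positivity
  obtain ⟨wR, hwR⟩ : ∃ wR : ℝ, wR = ((1 + R ^ 2) ^ p)⁻¹ := ⟨_, rfl⟩
  have hwR0 : 0 < wR := by rw [hwR]; positivity
  obtain ⟨c5, hc5⟩ : ∃ c5 : ℝ, c5 = c₀ * C₃ ^ (-(2 * s)) * (c / 2) * wR := ⟨_, rfl⟩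
  have hc50 : 0 < c5 := by
    rw [hc5]
    have := Real.rpow_pos_of_pos hC3 (-(2 * s))
    positivity
  obtain ⟨K'', hK''⟩ : ∃ K'' : ℝ, K'' = Kc * (C + K₂) * C₃ ^ (α - 2 * s) := ⟨_, rfl⟩
  have hK''0 : 0 ≤ K'' := by
    rw [hK'']
    have := Real.rpow_pos_of_pos hC3 (α - 2 * s)
    positivity
  obtain ⟨N, hN8, hN⟩ := keyo_pow K'' hc50 hα1
  have hN0 : 0 < N := by linarith
  have hNs := Real.rpow_pos_of_pos hN0 (-(2 * s))
  refine ⟨κ * (c5 / 2 * N ^ (-(2 * s))), by positivity,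
    Ko * (1 + K₂ + C) + κ * (Kc * Cp + Cp * Ks), by positivity, ?_⟩
  intro lam hlam
  have hlam0 : 0 < lam := by linarith
  refine ⟨min (1 / 4) (lam / (8 * N * C₃)), lt_min (by norm_num) (by positivity),
    max 1 (2 * Cp * C₃ / c), le_max_left _ _, ?_⟩
  intro δ₀ A ξ η q F G v hTC hδ hA hQ hr hΛ hv hFG hq hMq
  obtain ⟨r, hrr⟩ : ∃ r : ℝ, r = rt s lam ξ η := ⟨_, rfl⟩
  have hr0 : 0 < r := by rw [hrr]; exact rt_pos hQ
  rw [← hrr] at hr hq hMq ⊢
  have hr4 : r ≤ 1 / 4 := hr.trans (min_le_left _ _)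
  have hr8 : r ≤ lam / (8 * N * C₃) := hr.trans (min_le_right _ _)
  have hA1 : 1 ≤ A := (le_max_left _ _).trans hA
  have hA0 : 0 < A := by linarith
  have hA2 : 2 * Cp * C₃ / c ≤ A := (le_max_right _ _).trans hA
  have hη : len η ≤ 1 / 2 := by
    have h1 := (len_le_rt hs0.le hlam0.le ξ η).1
    rw [← hrr] at h1
    have h2 : len η ≤ lam * len η := le_mul_of_one_le_left (len_nonneg η) hlam
    linarith
  have hTN := hone lam δ₀ A ξ η F G v hlam0 hδ hA0.le hQ hη hΛ hTC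
  have hΛ0 := hTN.nn
  have htou := hTC.tou
  obtain ⟨Λ, hΛd⟩ : ∃ Λ : ℝ, Λ = δ₀ + A * Mt s α lam ξ η := ⟨_, rfl⟩
  rw [← hrr, ← hΛd] at hTN
  rw [← hΛd] at hΛ hΛ0 htou ⊢
  obtain ⟨S, hS⟩ : ∃ S : ℝ, S = A * (lam ^ (2 * s) * r ^ (α - 2 * s)) := ⟨_, rfl⟩
  have hS0 : 0 ≤ S := by
    rw [hS]
    exact mul_nonneg hA0.le (mul_nonneg (Real.rpow_nonneg hlam0.le _) (Real.rpow_nonneg hr0.le _))
  obtain ⟨w, hw⟩ : ∃ w : ℝ, w = Wp p v := ⟨_, rfl⟩
  have hw0 : 0 < w := by rw [hw]; exact Wp_pos p v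
  have hw1 : w ≤ 1 := by rw [hw]; exact Wp_le_one p v
  have hwR1 : wR ≤ w := by rw [hw, hwR]; exact keyo_wR p hv
  rw [← hw] at htou
  -- the radius of the shell
  obtain ⟨ρ, hρ⟩ : ∃ ρ : ℝ, ρ = N * (C₃ * (r / lam)) := ⟨_, rfl⟩
  have hrl : 0 < r / lam := div_pos hr0 hlam0
  have hρ0 : 0 < ρ := by rw [hρ]; positivity
  have hρ8 : ρ ≤ 1 / 8 := by
    rw [hρ]
    have h1 : r * (8 * N * C₃) ≤ lam := (le_div_iff₀ (by positivity)).1 hr8
    have h2 : N * (C₃ * (r / lam)) = r * (8 * N * C₃) / (8 * lam) := by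
      field_simp
    rw [h2, div_le_iff₀ (by positivity)]
    linarith
  have hq1 : len q ≤ C₃ * (r / lam) := by
    rw [← mul_div_assoc, le_div_iff₀ hlam0]
    linarith
  have hq8 : 8 * len q ≤ ρ := by
    rw [hρ]
    have h1 := mul_le_mul_of_nonneg_left hq1 hN0.le
    have h2 := mul_le_mul_of_nonneg_right hN8 (len_nonneg q)
    linarith
  have hq0 := len_nonneg q
  have hq2 : len q ≤ 1 / 64 := by linarith
  -- the two functions
  have hGc : Continuous G := hTC.hG.nice.cont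
  have hFc : Continuous F := hTC.hF.nice.cont
  obtain ⟨a, ha⟩ : ∃ a : Vec d → ℝ, a = fun h => G (v + h) - G v := ⟨_, rfl⟩
  obtain ⟨b', hb'⟩ : ∃ b' : Vec d → ℝ, b' = fun h => F (v + h) - F v := ⟨_, rfl⟩
  have hac : Continuous a := by
    rw [ha]
    exact (hGc.comp (continuous_const.add continuous_id)).sub continuous_const
  have hbc : Continuous b' := by
    rw [hb']
    exact (hFc.comp (continuous_const.add continuous_id)).sub continuous_const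
  obtain ⟨A', hA'⟩ : ∃ A' : ℝ, A' = (C + K₂) * (A * lam ^ α) := ⟨_, rfl⟩
  have hlα : 1 ≤ lam ^ α := Real.one_le_rpow hlam hα.le
  have hAl : 1 ≤ A * lam ^ α := one_le_mul_of_one_le_of_one_le hA1 hlα
  have hA'0 : 0 ≤ A' := by rw [hA']; positivity
  have hpf : ∀ h : Vec d, len h ≤ 1 → C * A * pf α r (lam * len h) + K₂ * min 1 (len h) ≤
      A' * len h ^ α := by
    intro h hh
    have hl := len_nonneg h
    have h1 : pf α r (lam * len h) ≤ lam ^ α * len h ^ α := by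
      rw [← Real.mul_rpow hlam0.le hl]
      exact keyo_pf
    have h2 : min 1 (len h) ≤ len h ^ α := by
      refine (min_le_right _ _).trans ?_
      calc len h = len h ^ (1 : ℝ) := (Real.rpow_one _).symm
        _ ≤ len h ^ α := Real.rpow_le_rpow_of_exponent_ge' hl hh hα.le hα1.le
    have h3 := mul_le_mul_of_nonneg_left h1 (mul_nonneg hC hA0.le)
    have h4 := mul_le_mul_of_nonneg_left h2 hK₂
    have h5 : K₂ * len h ^ α ≤ K₂ * len h ^ α * (A * lam ^ α) :=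
      le_mul_of_one_le_right (mul_nonneg hK₂ (Real.rpow_nonneg hl _)) hAl
    rw [hA']
    linarith
  have hca : ∀ h, len h ≤ 1 → a h ≤ A' * len h ^ α := by
    intro h hh
    rw [ha]
    exact (hTN.oneG h).trans (hpf h hh)
  have hcb : ∀ h, len h ≤ 1 → -b' h ≤ A' * len h ^ α := by
    intro h hh
    rw [hb']
    have := (hTN.oneF h).trans (hpf h hh)
    simp only [neg_sub]
    exact this
  obtain ⟨g₀, hg₀⟩ : ∃ g₀ : ℝ, g₀ = c / 2 * (A * r ^ α) * w := ⟨_, rfl⟩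
  have hrα := Real.rpow_pos_of_pos hr0 α
  have hg₀0 : 0 ≤ g₀ := by rw [hg₀]; positivity
  have hW : ∀ h : Vec d, len h ≤ 1 → |Wp p (v + h) - w| ≤ Cp * len h * w := by
    intro h hh
    rw [hw, hCp]
    exact keyo_W hp1 hh
  have hcc : ∀ h, len h ≤ 1 / 2 → a h - b' (h + q) ≤ -g₀ + Cp * Λ * len h := by
    intro h hh
    have hl := len_nonneg h
    have hηq : len (η + h - (h + q)) ≤ 1 := by
      have e1 : η + h - (h + q) = η - q := by abel
      rw [e1]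
      have := len_sub_le η q
      linarith
    have h1 := hTC.crs h (h + q) hηq
    have e1 : η + h - (h + q) = η - q := by abel
    rw [e1] at h1
    have hhq : len (h + q) ≤ len h + len q := by
      have := len_sub_le h (-q)
      rwa [sub_neg_eq_add, len_neg] at this
    have hm : max (Wp p (v + h)) (Wp p (v + (h + q))) ≤ (1 + Cp * (len h + len q)) * w := by
      have m1 := (abs_le.1 (hW h (by linarith))).2
      have m2 := (abs_le.1 (hW (h + q) (by linarith))).2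
      have m3 : Cp * len (h + q) * w ≤ Cp * (len h + len q) * w := by gcongr
      have m4 : Cp * len h * w ≤ Cp * (len h + len q) * w := by
        have : len h ≤ len h + len q := by linarith
        gcongr
      exact max_le (by linarith) (by linarith)
    have hm0 : 0 ≤ max (Wp p (v + h)) (Wp p (v + (h + q))) :=
      (Wp_pos p (v + h)).le.trans (le_max_left _ _)
    have hX : δ₀ + A * Mt s α lam ξ (η - q) ≤ Λ - c * (A * r ^ α) := by
      rw [hΛd]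
      have := mul_le_mul_of_nonneg_left hMq hA0.le
      linarith
    have hX0 : 0 ≤ δ₀ + A * Mt s α lam ξ (η - q) :=
      add_nonneg hδ (mul_nonneg hA0.le (Mt_nonneg hs0.le α lam ξ (η - q)))
    have h2 : (δ₀ + A * Mt s α lam ξ (η - q)) * max (Wp p (v + h)) (Wp p (v + (h + q))) ≤
        (Λ - c * (A * r ^ α)) * ((1 + Cp * (len h + len q)) * w) :=
      mul_le_mul hX hm hm0 (hX0.trans hX)
    have h3 : a h - b' (h + q) = G (v + h) - F (v + (h + q)) - Λ * w := by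
      rw [ha, hb', ← htou]
      ring
    rw [h3]
    have h4 : 0 ≤ c * (A * r ^ α) * (Cp * (len h + len q) * w) := by positivity
    have h5 : Cp * len q * (Λ * w) ≤ g₀ := by
      have k1 : Cp * len q ≤ c / 2 * (A * r ^ α) := by
        have k2 : r / lam ≤ r ^ α := by
          have k3 : r / lam ≤ r := div_le_self hr0.le hlam
          refine k3.trans ?_
          calc r = r ^ (1 : ℝ) := (Real.rpow_one _).symm
            _ ≤ r ^ α := Real.rpow_le_rpow_of_exponent_ge hr0 (by linarith) hα1.le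
        have k4 : 2 * Cp * C₃ ≤ A * c := by
          rw [div_le_iff₀ hc3] at hA2
          exact hA2
        calc Cp * len q ≤ Cp * (C₃ * (r / lam)) := mul_le_mul_of_nonneg_left hq1 hCp0
          _ ≤ Cp * (C₃ * r ^ α) := by gcongr
          _ = 2 * Cp * C₃ / 2 * r ^ α := by ring
          _ ≤ A * c / 2 * r ^ α := by gcongr
          _ = c / 2 * (A * r ^ α) := by ring
      have k5 : Λ * w ≤ w := mul_le_of_le_one_left hw0.le hΛ
      calc Cp * len q * (Λ * w) ≤ c / 2 * (A * r ^ α) * w :=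
            mul_le_mul k1 k5 (mul_nonneg hΛ0 hw0.le) (by positivity)
        _ = g₀ := hg₀.symm
    have h6 : Cp * len h * (Λ * w) ≤ Cp * Λ * len h := by
      have k5 : Λ * w ≤ Λ := mul_le_of_le_one_right hΛ0 hw1
      have := mul_le_mul_of_nonneg_left k5 (mul_nonneg hCp0 hl)
      linarith
    have h7 : (Λ - c * (A * r ^ α)) * ((1 + Cp * (len h + len q)) * w) - Λ * w =
        Cp * len h * (Λ * w) + Cp * len q * (Λ * w) - c * (A * r ^ α) * w -
          c * (A * r ^ α) * (Cp * (len h + len q) * w) := by ring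
    have h8 : c * (A * r ^ α) * w = 2 * g₀ := by rw [hg₀]; ring
    linarith
  have hc1 := hcpl a b' A' (Cp * Λ) g₀ ρ q hac hbc hA'0 (mul_nonneg hCp0 hΛ0) hg₀0 hρ0 hρ8 hq8
    hca hcb hcc
  have ho1 := hop r lam (C * A) K₂ Λ ρ F G v hr0 hlam0 (mul_nonneg hC hA0.le) hK₂ hρ0 hρ8 hTN hv hFG
  -- the dissipation
  have hint : -(∫ h in (Sh ρ : Set (Vec d)), len h ^ (-(d : ℝ) - 2 * s) *
      (Λ * Wp p (v + h) - (G (v + h) - F (v + h)))) ≤
      (∫ h in (Sh ρ : Set (Vec d)), len h ^ (-(d : ℝ) - 2 * s) * (a h - b' h)) +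
        Cp * Λ * ∫ h in (Sh ρ : Set (Vec d)), len h ^ (-(d : ℝ) - 2 * s) * len h := by
    have i1 : IntegrableOn (fun h => len h ^ (-(d : ℝ) - 2 * s) * (a h - b' h)) (Sh ρ) :=
      keyo_int (s := s) hρ0 (hac.sub hbc)
    have i2 := keyo_int (d := d) (s := s) hρ0 continuous_len
    have i3 : IntegrableOn (fun h => len h ^ (-(d : ℝ) - 2 * s) *
        (Λ * Wp p (v + h) - (G (v + h) - F (v + h)))) (Sh ρ) := by
      refine keyo_int (s := s) hρ0 ?_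
      have t1 : Continuous fun h : Vec d => v + h := continuous_const.add continuous_id
      exact (continuous_const.mul ((Wp_cont p).comp t1)).sub ((hGc.comp t1).sub (hFc.comp t1))
    rw [← integral_neg, ← integral_const_mul, ← integral_add i1 (i2.const_mul _)]
    refine setIntegral_mono_on i3.neg (i1.add (i2.const_mul _))
      (keyo_compact ρ).isClosed.measurableSet fun h hh => ?_
    have hl := len_nonneg h
    have j0 := Real.rpow_nonneg hl (-(d : ℝ) - 2 * s)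
    have j1 := (abs_le.1 (hW h (hh.2.trans (by norm_num)))).1
    have j2 : Λ * Wp p (v + h) - (G (v + h) - F (v + h)) =
        Λ * (Wp p (v + h) - w) - (a h - b' h) := by
      have e1 : a h - b' h = (G (v + h) - F (v + h)) - (G v - F v) := by
        rw [ha, hb']
        ring
      rw [e1, htou]
      ring
    have j3 : -(Cp * Λ * len h) ≤ Λ * (Wp p (v + h) - w) := by
      have k1 := mul_le_mul_of_nonneg_left j1 hΛ0
      have k2 : Λ * (Cp * len h * w) ≤ Cp * Λ * len h := by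
        have k3 : Cp * len h * w ≤ Cp * len h := mul_le_of_le_one_right (mul_nonneg hCp0 hl) hw1
        have := mul_le_mul_of_nonneg_left k3 hΛ0
        linarith
      linarith
    have j4 : -(Λ * Wp p (v + h) - (G (v + h) - F (v + h))) ≤ (a h - b' h) + Cp * Λ * len h := by
      rw [j2]
      linarith
    have j5 := mul_le_mul_of_nonneg_left j4 j0
    linarith
  have hl1 := keyo_lin (hlin ρ hρ0)
  have hl2 := mul_le_mul_of_nonneg_left hl1 (mul_nonneg hCp0 hΛ0)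
  -- the gain
  have hgain : c5 * N ^ (-(2 * s)) * S ≤ c₀ * ρ ^ (-(2 * s)) * g₀ := by
    have e1 : ρ ^ (-(2 * s)) = N ^ (-(2 * s)) * (C₃ ^ (-(2 * s)) * (r ^ (-(2 * s)) * lam ^ (2 * s))) := by
      rw [hρ, Real.mul_rpow hN0.le (by positivity), Real.mul_rpow hC3.le hrl.le,
        Real.div_rpow hr0.le hlam0.le, Real.rpow_neg hlam0.le (2 * s), div_inv_eq_mul]
    have e2 : r ^ (α - 2 * s) = r ^ α * r ^ (-(2 * s)) := by
      rw [← Real.rpow_add hr0]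
      congr 1
    rw [e1, hg₀, hS, e2, hc5]
    have p1 := Real.rpow_pos_of_pos hC3 (-(2 * s))
    have p2 := Real.rpow_pos_of_pos hr0 (-(2 * s))
    have p3 := Real.rpow_pos_of_pos hlam0 (2 * s)
    have p4 : 0 ≤ c₀ * C₃ ^ (-(2 * s)) * (c / 2) * N ^ (-(2 * s)) *
        (A * (lam ^ (2 * s) * (r ^ α * r ^ (-(2 * s))))) := by positivity
    have := mul_le_mul_of_nonneg_left hwR1 p4
    linarith
  have hloss : Kc * A' * (len q * ρ ^ (α - 2 * s - 1)) ≤ c5 / 2 * N ^ (-(2 * s)) * S := by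
    have e0 : ρ ^ (α - 2 * s - 1) = N ^ (α - 2 * s - 1) *
        (C₃ ^ (α - 2 * s - 1) * (r / lam) ^ (α - 2 * s - 1)) := by
      rw [hρ, Real.mul_rpow hN0.le (by positivity), Real.mul_rpow hC3.le hrl.le]
    have e1 : ∀ x : ℝ, 0 < x → x * x ^ (α - 2 * s - 1) = x ^ (α - 2 * s) := by
      intro x hx
      have := Real.rpow_add hx 1 (α - 2 * s - 1)
      rw [Real.rpow_one] at this
      rw [← this]
      congr 1
      ring
    have e2 : (r / lam) ^ (α - 2 * s) = r ^ (α - 2 * s) * lam ^ (2 * s - α) := by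
      rw [Real.div_rpow hr0.le hlam0.le, div_eq_mul_inv, ← Real.rpow_neg hlam0.le]
      congr 2
      ring
    have e3 : lam ^ α * lam ^ (2 * s - α) = lam ^ (2 * s) := by
      rw [← Real.rpow_add hlam0]
      congr 1
      ring
    have e4 : N ^ (α - 2 * s - 1) = N ^ (α - 1) * N ^ (-(2 * s)) := by
      rw [← Real.rpow_add hN0]
      congr 1
      ring
    have p0 : 0 ≤ ρ ^ (α - 2 * s - 1) := Real.rpow_nonneg hρ0.le _
    have h1 : len q * ρ ^ (α - 2 * s - 1) ≤ C₃ * (r / lam) * ρ ^ (α - 2 * s - 1) :=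
      mul_le_mul_of_nonneg_right hq1 p0
    have h2 : C₃ * (r / lam) * ρ ^ (α - 2 * s - 1) =
        N ^ (α - 1) * N ^ (-(2 * s)) * (C₃ ^ (α - 2 * s) * (r ^ (α - 2 * s) * lam ^ (2 * s - α))) := by
      rw [e0, ← e4, ← e2, ← e1 C₃ hC3, ← e1 (r / lam) hrl]
      ring
    have h3 := mul_le_mul_of_nonneg_left h1 (mul_nonneg hKc hA'0)
    rw [h2] at h3
    refine h3.trans ?_
    have h4 : Kc * A' * (N ^ (α - 1) * N ^ (-(2 * s)) *
        (C₃ ^ (α - 2 * s) * (r ^ (α - 2 * s) * lam ^ (2 * s - α)))) =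
        K'' * N ^ (α - 1) * (N ^ (-(2 * s)) * S) := by
      rw [hA', hK'', hS, ← e3]
      ring
    rw [h4]
    have h5 : 0 ≤ N ^ (-(2 * s)) * S := mul_nonneg hNs.le hS0
    have := mul_le_mul_of_nonneg_right hN h5
    linarith
  -- conclusion
  have hfin : -(∫ h in (Sh ρ : Set (Vec d)), len h ^ (-(d : ℝ) - 2 * s) *
      (Λ * Wp p (v + h) - (G (v + h) - F (v + h)))) ≤
      -(c5 / 2 * N ^ (-(2 * s)) * S) + (Kc * Cp + Cp * Ks) * Λ := by
    linarith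
  have hfin2 := mul_le_mul_of_nonneg_left hfin hκ.le
  have hSS : lam ^ (2 * s) * r ^ (α - 2 * s) * A = S := by rw [hS]; ring
  have h4 : Ko * Λ * (1 + K₂ + C * A * (lam ^ (2 * s) * r ^ (α - 2 * s))) ≤
      Ko * (1 + K₂ + C) * Λ * (1 + S) := by
    have h5 : 1 + K₂ + C * A * (lam ^ (2 * s) * r ^ (α - 2 * s)) ≤ (1 + K₂ + C) * (1 + S) := by
      have h6 : C * A * (lam ^ (2 * s) * r ^ (α - 2 * s)) = C * S := by rw [hS]; ring
      have h7 := mul_nonneg hK₂ hS0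
      have h8 : (1 + K₂ + C) * (1 + S) = 1 + K₂ + C * S + (C + S + K₂ * S) := by ring
      rw [h6, h8]
      linarith
    have h7 := mul_le_mul_of_nonneg_left h5 (mul_nonneg hKo hΛ0)
    linarith
  rw [← hS]
  have h8 : κ * ((Kc * Cp + Cp * Ks) * Λ) ≤ κ * (Kc * Cp + Cp * Ks) * Λ * (1 + S) := by
    have h9 : 0 ≤ κ * (Kc * Cp + Cp * Ks) * Λ := by positivity
    have := le_mul_of_one_le_right h9 (by linarith : (1 : ℝ) ≤ 1 + S)
    linarith
  linarith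

end Pool.Agent.H48.NE
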