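import Pool.Agent.H48.NE.BarA
import Pool.Agent.H48.NE.Mxw

/-!
# Module ModA: elementary estimates for the modulus

`mod_pd`: `Wp (p+1) (v+η) ≤ C_q Wp (p+1) v` for `len η ≤ 1` (`1 + nsq v ≤ 3 (1 + nsq (v+η))`-type inequality, private lemmas of this kind in PR/One (`one_W`), PR/Gal); `K = 1 + C_q`; `|Pd| ≤ |F(x+ξ,v+η) - μ(v+η)| + |μ(v+η)-μ v| + |μ v - F x v|`; `mx_lip`: `K_μ min 1 (len η) (Wp p v + Wp p (v+η)) ≤ K_μ (1+C) len η Wp p v`.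
`mod_time` (`0 < α < 2s`, `c₂ > 0`): if `c₂ (t + t²) < r^(2s)` then `c₂^(α/2s) ≤ (1+1/t) r^α`: `r^α = (r^(2s))^(α/2s) ≥ c₂^(α/2s) (t(1+t))^(α/2s)`, and `(1+1/t)(t(1+t))^θ ≥ 1` for `0 < θ < 1`: `t ≤ 1`: `≥ t^(-1) t^θ ≥ 1`; `t ≥ 1`: both factors are `≥ 1`. -/

set_option autoImplicit false

open MeasureTheory Set Filter Topology Pool.Agent.H25.Kin Pool.Agent.H48.PL Pool.Agent.H48.PD
open Pool.Agent.H82.BK Pool.Agent.H82.CM Pool.Agent.H48.PR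

namespace Pool.Agent.H48.NE

variable {d : ℕ}

private lemma moda_W (p : ℕ) {v η : Vec d} (hη : len η ≤ 1) : Wp p (v + η) ≤ 3 ^ p * Wp p v := by
  have h1 : nsq η ≤ 1 := by
    rw [← len_sq]
    exact pow_le_one₀ (len_nonneg η) hη
  have h2 := nsq_add (v + η) η
  have h3 := nsq_sub (v + η) η
  have h4 : v + η - η = v := add_sub_cancel_right v η
  rw [h4] at h3
  have h5 := nsq_nn (v + η + η)
  have h6 := nsq_nn (v + η)
  have h7 := nsq_nn v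
  have h8 : 1 + nsq v ≤ 3 * (1 + nsq (v + η)) := by linarith
  unfold Wp
  rw [← div_eq_mul_inv, le_div_iff₀ (by positivity), ← div_eq_inv_mul, div_le_iff₀ (by positivity),
    ← mul_pow]
  exact pow_le_pow_left₀ (by positivity) h8 p

theorem mod_pd (d p : ℕ) : ∃ K : ℝ, 1 ≤ K ∧ ∀ (a k : ℝ) (u : Vec d), 0 < a → 0 < k →
    ∃ Kμ : ℝ, 0 ≤ Kμ ∧ ∀ (Λ' : ℝ) (F : Vec d → Vec d → ℝ), 0 ≤ Λ' →
      (∀ x v, |F x v - mx a k u v| ≤ Λ' * Wp (p + 1) v) → ∀ x v ξ η : Vec d, len η ≤ 1 →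
        |F (x + ξ) (v + η) - F x v| ≤ K * Λ' * Wp (p + 1) v + Kμ * len η * Wp p v := by
  refine ⟨1 + 3 ^ (p + 1), by
    have : (0 : ℝ) ≤ 3 ^ (p + 1) := by positivity
    linarith, fun a k u ha hk => ?_⟩
  obtain ⟨Kμ, hK, hmx⟩ := mx_lip ha hk u p
  refine ⟨Kμ * (1 + 3 ^ p), by positivity, fun Λ' F hΛ hF x v ξ η hη => ?_⟩
  have h1 := hF (x + ξ) (v + η)
  have h2 := hF x v
  have h3 := hmx v η
  have h4 := moda_W (p + 1) (v := v) hη
  have h5 := moda_W p (v := v) hη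
  have hW := Wp_pos p v
  have hl := len_nonneg η
  have h6 : |F (x + ξ) (v + η) - F x v| ≤ |F (x + ξ) (v + η) - mx a k u (v + η)| +
      |mx a k u (v + η) - mx a k u v| + |F x v - mx a k u v| := by
    have h7 : F (x + ξ) (v + η) - F x v = (F (x + ξ) (v + η) - mx a k u (v + η)) +
      (mx a k u (v + η) - mx a k u v) - (F x v - mx a k u v) := by ring
    rw [h7]
    exact (abs_sub _ _).trans (add_le_add (abs_add_le _ _) le_rfl)
  have h8 : Λ' * Wp (p + 1) (v + η) ≤ Λ' * (3 ^ (p + 1) * Wp (p + 1) v) :=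
    mul_le_mul_of_nonneg_left h4 hΛ
  have h9 : Kμ * min 1 (len η) * (Wp p v + Wp p (v + η)) ≤ Kμ * len η * ((1 + 3 ^ p) * Wp p v) := by
    refine mul_le_mul (mul_le_mul_of_nonneg_left (min_le_right _ _) hK) (by linarith)
      (add_nonneg hW.le (Wp_pos p _).le) (by positivity)
  calc |F (x + ξ) (v + η) - F x v| ≤ Λ' * (3 ^ (p + 1) * Wp (p + 1) v) +
        Kμ * len η * ((1 + 3 ^ p) * Wp p v) + Λ' * Wp (p + 1) v := by linarith
    _ = (1 + 3 ^ (p + 1)) * Λ' * Wp (p + 1) v + Kμ * (1 + 3 ^ p) * len η * Wp p v := by ring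

theorem mod_time {s α c₂ t r : ℝ} (hα : 0 < α) (hα2 : α < 2 * s) (hc : 0 < c₂) (ht : 0 < t)
    (hr : 0 < r) (h : c₂ * (t + t ^ 2) < r ^ (2 * s)) :
    c₂ ^ (α / (2 * s)) ≤ (1 + 1 / t) * r ^ α := by
  have hs : 0 < 2 * s := hα.trans hα2
  set θ := α / (2 * s) with hθ
  have hθ0 : 0 < θ := div_pos hα hs
  have hθ1 : θ ≤ 1 := ((div_lt_one hs).2 hα2).le
  have h1 : r ^ α = (r ^ (2 * s)) ^ θ := by
    rw [← Real.rpow_mul hr.le, hθ, mul_div_cancel₀ _ hs.ne']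
  have h2 : (c₂ * (t + t ^ 2)) ^ θ ≤ r ^ α := by
    rw [h1]
    exact Real.rpow_le_rpow (by positivity) h.le hθ0.le
  rw [Real.mul_rpow hc.le (by positivity)] at h2
  have h3 : 1 ≤ (1 + 1 / t) * (t + t ^ 2) ^ θ := by
    have h5 : 0 < 1 / t := by positivity
    rcases le_total t 1 with h4 | h4
    · have h6 : t ≤ (t + t ^ 2) ^ θ := by
        calc t = t ^ (1 : ℝ) := (Real.rpow_one t).symm
          _ ≤ t ^ θ := Real.rpow_le_rpow_of_exponent_ge ht h4 hθ1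
          _ ≤ (t + t ^ 2) ^ θ := Real.rpow_le_rpow ht.le (by nlinarith [sq_nonneg t]) hθ0.le
      calc (1 : ℝ) ≤ (1 + 1 / t) * t := by
            rw [add_mul, one_mul, one_div_mul_cancel ht.ne']
            linarith
        _ ≤ _ := mul_le_mul_of_nonneg_left h6 (by positivity)
    · have h6 : 1 ≤ (t + t ^ 2) ^ θ := by
        refine Real.one_le_rpow ?_ hθ0.le
        nlinarith [sq_nonneg t]
      nlinarith
  have h7 : 0 < c₂ ^ θ := Real.rpow_pos_of_pos hc _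
  have h8 : 0 < 1 + 1 / t := by positivity
  calc c₂ ^ θ = c₂ ^ θ * 1 := (mul_one _).symm
    _ ≤ c₂ ^ θ * ((1 + 1 / t) * (t + t ^ 2) ^ θ) := mul_le_mul_of_nonneg_left h3 h7.le
    _ = (1 + 1 / t) * (c₂ ^ θ * (t + t ^ 2) ^ θ) := by ring
    _ ≤ (1 + 1 / t) * r ^ α := mul_le_mul_of_nonneg_left h2 h8.le

theorem Wp_succ_le {R : ℝ} (hR : 0 ≤ R) (p : ℕ) {v : Vec d} (hv : R ≤ len v) :
    Wp (p + 1) v ≤ Wp p v / (1 + R ^ 2) := by
  have h1 : R ^ 2 ≤ nsq v := by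
    rw [← len_sq]
    exact pow_le_pow_left₀ hR hv 2
  have h2 := nsq_nn v
  unfold Wp
  rw [pow_succ, mul_inv, div_eq_mul_inv]
  refine mul_le_mul_of_nonneg_left ?_ (by positivity)
  exact inv_anti₀ (by positivity) (by linarith)

theorem rt_big {s lam r₁ : ℝ} (hs : 0 < s) (hr : 0 < r₁) : ∃ ρ₁ : ℝ, ∀ ξ η : Vec d, len η ≤ 1 →
    ρ₁ ≤ nsq ξ + nsq η → r₁ ≤ rt s lam ξ η := by
  refine ⟨2 * r₁ ^ (2 + 4 * s) + 1, fun ξ η hη h => ?_⟩
  have h1 := Qt_ge hs.le ξ (lam • η)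
  have h2 := Real.rpow_nonneg (len_nonneg (lam • η)) (2 + 4 * s)
  have h3 : nsq η ≤ 1 := by
    rw [← len_sq]
    exact pow_le_one₀ (len_nonneg η) hη
  have h4 : r₁ ^ (2 + 4 * s) ≤ Qt s ξ (lam • η) := by linarith
  have h5 : (0 : ℝ) < 2 + 4 * s := by positivity
  unfold rt
  calc r₁ = (r₁ ^ (2 + 4 * s)) ^ (1 / (2 + 4 * s)) := by
        rw [← Real.rpow_mul hr.le, mul_one_div_cancel h5.ne', Real.rpow_one]
    _ ≤ _ := Real.rpow_le_rpow (by positivity) h4 (by positivity)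

end Pool.Agent.H48.NE
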