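import Pool.Agent.H48.NE.DerN
import Pool.Agent.H48.NE.BarD

/-!
# Module ModC: no touching point in the critical region

`hkey` is the conclusion of `key` for the constants `2^N Cl N`. Let `A = A₁ (1+1/t₀)`, `a = A₁/t₀²`. `(ξ,η) ≠ (0,0)` (`Pd .. 0 0 = 0 < δ₀`), so `Qt s ξ (lam•η) > 0` (`Qt_pos`, `lam ≥ 1`).
CASE `Pd f t₀ x v ξ η ≥ 0`: `F = f t₀ x`, `G u = f t₀ (x+ξ) (u+η)`. `TC (2^N Cl N) ..`: `hF` (`Cl N ≤ 2^N Cl N` as `Cl N ≥ 0`), `hG` = `FB_trn`; `dif`: `|G u - F u| = |Pd f t₀ x u ξ η|`; `crs`: `G(v+h) - F(v+h') = Pd f t₀ x (v+h') ξ (η+h-h') ≤ (..) Wp(v+h')` (`len (η+h-h') ≤ 1`). `hkey` with `a r^(2s) ≤ A₁/t₀² c₂ (t₀+t₀²) = c₂ A`: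
`Q(G) - Q(F) < (-(a r^α) + A dMt) Wp`. `φ(τ) = Pd f (t₀+τ) (x+τv) v (ξ+τη) η - (δ₀ + A₁ (1+1/(t₀+τ)) Mt(ξ+τη,η)) Wp p v`, `φ(0) = 0`, `φ(τ) ≤ 0` for `-t' < τ < 0` (`hbef`), `φ'(0) = Q(G)-Q(F) - (-A₁/t₀² Mt + A dMt) Wp p v` (`derN`, `Mt_deriv`, `Mt_rt`), so `φ'(0) ≥ 0` (left difference quotients; private lemma
`thmL_left` of PR/ThmL or `stb_der` of PS/Stb). Contradiction. CASE `Pd < 0`: `F' = G`, `G' = F`, `(-ξ,-η)`: `crs`: `F(v+h) - G(v+h') = -Pd f t₀ x (v+h) ξ (η+h'-h) ≤ (δ₀ + A Mt(ξ,η+h'-h)) Wp(v+h)`, `Mt(-ξ,-η+h-h') = Mt(ξ,η+h'-h)` (`Mt_neg`), `len` even; `rt_neg`, `dMt_neg`, `Qt_neg`. `φ` with `-Pd`. -/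

set_option autoImplicit false

open MeasureTheory Set Filter Topology Pool.Agent.H25.Kin Pool.Agent.H48.PL Pool.Agent.H48.PD
open Pool.Agent.H82.BK Pool.Agent.H82.CM Pool.Agent.H48.PR

namespace Pool.Agent.H48.NE

variable {d : ℕ} {γ s : ℝ} {b : ℝ → ℝ}

/-- the derivative at a touching point from the left -/
private lemma ModC_left {g : ℝ → ℝ} {q T : ℝ} (hT : 0 < T) (hg : HasDerivAt g q 0)
    (h0 : g 0 = 0) (h : ∀ τ ∈ Ioo (-T) 0, g τ ≤ 0) : 0 ≤ q := by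
  have h1 := hg.tendsto_slope_zero_left
  refine ge_of_tendsto h1 ?_
  filter_upwards [Ioo_mem_nhdsLT (show -T < 0 by linarith)] with τ hτ
  have h2 := h τ hτ
  have h3 : τ < 0 := hτ.2
  rw [zero_add, smul_eq_mul, h0, sub_zero]
  exact mul_nonneg_of_nonpos_of_nonpos (inv_lt_zero.2 h3).le h2

private lemma ModC_scale {Cl : ℕ → ℝ} {g : Vec d → ℝ} (hg : FB Cl g) :
    FB (fun N => 2 ^ N * Cl N) g := by
  refine ⟨hg.nice, hg.nonneg, fun N v => ?_⟩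
  have h1 := hg.le N v
  have hv := norm_nonneg v
  have h2 : 0 ≤ Cl N := le_trans (mul_nonneg (by positivity) (hg.nonneg v)) h1
  have h3 : (1 : ℝ) ≤ 2 ^ N := one_le_pow₀ (by norm_num)
  have h4 : Cl N ≤ 2 ^ N * Cl N := le_mul_of_one_le_left h2 h3
  exact h1.trans h4

/-- the derivative of the barrier -/
private lemma ModC_bar {α lam δ₀ A₂ t₀ : ℝ} {p : ℕ} {ξ η v : Vec d} (ht : 0 < t₀)
    (h : 0 < Qt s ξ (lam • η)) :
    HasDerivAt (fun τ : ℝ => (δ₀ + A₂ * (1 + 1 / (t₀ + τ)) * Mt s α lam (ξ + τ • η) η) * Wp p v)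
      ((A₂ * (-(1 / t₀ ^ 2)) * Mt s α lam ξ η + A₂ * (1 + 1 / t₀) * dMt s α lam ξ η) * Wp p v) 0 := by
  have h1 : HasDerivAt (fun τ : ℝ => t₀ + τ) 1 0 := (hasDerivAt_id (0 : ℝ)).const_add t₀
  have h2 : HasDerivAt (fun τ : ℝ => (t₀ + τ)⁻¹) (-1 / (t₀ + 0) ^ 2) 0 :=
    h1.inv (by rw [add_zero]; exact ht.ne')
  have h3 : HasDerivAt (fun τ : ℝ => A₂ * (1 + (t₀ + τ)⁻¹)) (A₂ * (-1 / (t₀ + 0) ^ 2)) 0 :=
    (h2.const_add 1).const_mul A₂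
  have h4 := ((h3.mul (Mt_deriv (α := α) h)).const_add δ₀).mul_const (Wp p v)
  have e : (A₂ * (-(1 / t₀ ^ 2)) * Mt s α lam ξ η + A₂ * (1 + 1 / t₀) * dMt s α lam ξ η) * Wp p v =
      (A₂ * (-1 / (t₀ + 0) ^ 2) * Mt s α lam (ξ + (0 : ℝ) • η) η +
        A₂ * (1 + (t₀ + 0)⁻¹) * dMt s α lam ξ η) * Wp p v := by
    rw [add_zero, zero_smul, add_zero]
    ring
  rw [e]
  refine h4.congr_of_eventuallyEq (Eventually.of_forall fun τ => ?_)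
  simp only [one_div]
  rfl

theorem mod_touch (hs : 0 < s) {α : ℝ} (hα : 0 < α) {p : ℕ} {Cl : ℕ → ℝ}
    {R cH lam Λ₂ r₁ A₁ c₂ : ℝ} (hl : 1 ≤ lam) (hA₁ : 1 ≤ A₁)
    (hkey : ∀ (δ₀ A a : ℝ) (ξ η : Vec d) (F G : Vec d → ℝ) (v : Vec d),
      TC (fun N => 2 ^ N * Cl N) p s α lam δ₀ A ξ η F G v → 0 ≤ δ₀ → A₁ ≤ A →
      0 < Qt s ξ (lam • η) → rt s lam ξ η ≤ r₁ → δ₀ + A * Mt s α lam ξ η ≤ Λ₂ → len v ≤ R →
      (∀ u, len u ≤ R + 2 → cH ≤ F u ∧ cH ≤ G u) → 0 ≤ a → a * rt s lam ξ η ^ (2 * s) ≤ c₂ * A →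
      boltzQ γ b G v - boltzQ γ b F v <
        (-(a * rt s lam ξ η ^ α) + A * dMt s α lam ξ η) * Wp p v)
    {T : ℝ} {f : ℝ → Vec d → Vec d → ℝ} (hf : IsBoltzmannSol γ b T f)
    (hB : ∀ t ∈ Ioo 0 T, ∀ x, FB Cl (f t x)) {δ₀ A₂ ta t₀ : ℝ} (hδ : 0 < δ₀) (hA₂ : A₁ ≤ A₂)
    (hta : 0 < ta) (ht₀ : t₀ ∈ Ioo ta T) {x v ξ η : Vec d} (hη : len η ≤ 1)
    (htou : |Pd f t₀ x v ξ η| = (δ₀ + A₂ * (1 + 1 / t₀) * Mt s α lam ξ η) * Wp p v)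
    (hbef : ∀ t ∈ Ico ta t₀, ∀ x v ξ η : Vec d, len η ≤ 1 →
      |Pd f t x v ξ η| < (δ₀ + A₂ * (1 + 1 / t) * Mt s α lam ξ η) * Wp p v)
    (hle : ∀ x v ξ η : Vec d, len η ≤ 1 →
      |Pd f t₀ x v ξ η| ≤ (δ₀ + A₂ * (1 + 1 / t₀) * Mt s α lam ξ η) * Wp p v)
    (hv : len v ≤ R) (hr : rt s lam ξ η ≤ r₁)
    (hr2 : rt s lam ξ η ^ (2 * s) ≤ c₂ * (t₀ + t₀ ^ 2))
    (hΛ : δ₀ + A₂ * (1 + 1 / t₀) * Mt s α lam ξ η ≤ Λ₂)
    (hlow : ∀ y u : Vec d, len u ≤ R + 3 → cH ≤ f t₀ y u) : False := by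
  have ht0 : 0 < t₀ := hta.trans ht₀.1
  have htI : t₀ ∈ Ioo 0 T := ⟨ht0, ht₀.2⟩
  have hs0 : 0 ≤ s := hs.le
  have hlam : 0 < lam := by linarith
  have hA₂0 : 0 < A₂ := by linarith
  obtain ⟨A, hA⟩ : ∃ A : ℝ, A = A₂ * (1 + 1 / t₀) := ⟨_, rfl⟩
  have hA0 : 0 < A := by rw [hA]; positivity
  have hAA : A₁ ≤ A := by
    have h1 : 0 < 1 / t₀ := by positivity
    have h2 : A₂ * 1 ≤ A₂ * (1 + 1 / t₀) := mul_le_mul_of_nonneg_left (by linarith) hA₂0.le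
    rw [hA]
    linarith
  rw [← hA] at htou hΛ
  have hle' : ∀ x v ξ η : Vec d, len η ≤ 1 →
      |Pd f t₀ x v ξ η| ≤ (δ₀ + A * Mt s α lam ξ η) * Wp p v := by
    rw [hA]
    exact hle
  have hMn : ∀ ξ η : Vec d, 0 ≤ δ₀ + A * Mt s α lam ξ η := fun ξ η =>
    add_nonneg hδ.le (mul_nonneg hA0.le (Mt_nonneg hs0 α lam ξ η))
  have hW := Wp_pos p v
  -- positivity of the distance
  have hQ : 0 < Qt s ξ (lam • η) := by
    refine Qt_pos hs0 fun h => ?_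
    have hη0 : η = 0 := by
      rcases smul_eq_zero.1 h.2 with h1 | h1
      · exact absurd h1 hlam.ne'
      · exact h1
    rw [h.1, hη0] at htou
    have h2 : Pd f t₀ x v 0 0 = 0 := by
      unfold Pd
      rw [add_zero, add_zero, sub_self]
    rw [h2, abs_zero, Mt_zero hs hα, mul_zero, add_zero] at htou
    have h3 : 0 < δ₀ * Wp p v := mul_pos hδ hW
    linarith
  obtain ⟨a, ha⟩ : ∃ a : ℝ, a = A₂ / t₀ ^ 2 := ⟨_, rfl⟩
  have ha0 : 0 ≤ a := by rw [ha]; positivity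
  have har : a * rt s lam ξ η ^ (2 * s) ≤ c₂ * A := by
    calc a * rt s lam ξ η ^ (2 * s) ≤ a * (c₂ * (t₀ + t₀ ^ 2)) :=
          mul_le_mul_of_nonneg_left hr2 ha0
      _ = c₂ * A := by
          rw [ha, hA]
          field_simp
          ring
  have hMr : Mt s α lam ξ η = rt s lam ξ η ^ α := Mt_rt hs0 α lam ξ η
  have hFB := hB t₀ htI x
  have hGB := hB t₀ htI (x + ξ)
  have hlo1 : ∀ u, len u ≤ R + 2 → cH ≤ f t₀ x u := fun u hu => hlow x u (by linarith)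
  have hlo2 : ∀ u, len u ≤ R + 2 → cH ≤ f t₀ (x + ξ) (u + η) := fun u hu =>
    hlow (x + ξ) (u + η) (by linarith [len_add_le u η])
  -- derivatives
  have hd1 := derN hf htI x v ξ η
  have hd2 := ModC_bar (s := s) (α := α) (lam := lam) (δ₀ := δ₀) (A₂ := A₂) (p := p) (v := v)
    ht0 hQ
  have ht1 : 0 < t₀ - ta := by linarith [ht₀.1]
  have hb : ∀ τ ∈ Ioo (-(t₀ - ta)) 0, |Pd f (t₀ + τ) (x + τ • v) v (ξ + τ • η) η| ≤
      (δ₀ + A₂ * (1 + 1 / (t₀ + τ)) * Mt s α lam (ξ + τ • η) η) * Wp p v := by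
    intro τ hτ
    exact (hbef (t₀ + τ) ⟨by linarith [hτ.1], by linarith [hτ.2]⟩ _ v _ η hη).le
  have hψ0 : (δ₀ + A₂ * (1 + 1 / (t₀ + (0 : ℝ))) * Mt s α lam (ξ + (0 : ℝ) • η) η) * Wp p v =
      (δ₀ + A * Mt s α lam ξ η) * Wp p v := by
    rw [add_zero, zero_smul, add_zero, hA]
  have hφ0 : Pd f (t₀ + (0 : ℝ)) (x + (0 : ℝ) • v) v (ξ + (0 : ℝ) • η) η = Pd f t₀ x v ξ η := by
    rw [add_zero, zero_smul, zero_smul, add_zero, add_zero]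
  have hψd : (A₂ * (-(1 / t₀ ^ 2)) * Mt s α lam ξ η + A₂ * (1 + 1 / t₀) * dMt s α lam ξ η) * Wp p v
      = (-(a * rt s lam ξ η ^ α) + A * dMt s α lam ξ η) * Wp p v := by
    rw [ha, hA, hMr]
    ring
  rw [hψd] at hd2
  rcases le_or_gt 0 (Pd f t₀ x v ξ η) with hP | hP
  · -- first case
    rw [abs_of_nonneg hP] at htou
    have hTC : TC (fun N => 2 ^ N * Cl N) p s α lam δ₀ A ξ η (f t₀ x)
        (fun u => f t₀ (x + ξ) (u + η)) v := by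
      refine ⟨ModC_scale hFB, FB_trn hGB hη, fun u => hle' x u ξ η hη, htou, fun h h' hh => ?_⟩
      have e1 : f t₀ (x + ξ) (v + h + η) - f t₀ x (v + h') =
          Pd f t₀ x (v + h') ξ (η + h - h') := by
        unfold Pd
        have e2 : v + h' + (η + h - h') = v + h + η := by abel
        rw [e2]
      show f t₀ (x + ξ) (v + h + η) - f t₀ x (v + h') ≤ _
      rw [e1]
      refine (le_abs_self _).trans ((hle' x (v + h') ξ (η + h - h') hh).trans ?_)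
      exact mul_le_mul_of_nonneg_left (le_max_right _ _) (hMn _ _)
    have h1 := hkey δ₀ A a ξ η _ _ v hTC hδ.le hAA hQ hr hΛ hv
      (fun u hu => ⟨hlo1 u hu, hlo2 u hu⟩) ha0 har
    have h2 := ModC_left ht1 (hd1.sub hd2) (by
      show Pd f (t₀ + (0 : ℝ)) (x + (0 : ℝ) • v) v (ξ + (0 : ℝ) • η) η -
        (δ₀ + A₂ * (1 + 1 / (t₀ + (0 : ℝ))) * Mt s α lam (ξ + (0 : ℝ) • η) η) * Wp p v = 0
      rw [hφ0, hψ0, htou, sub_self]) (fun τ hτ => by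
      show Pd f (t₀ + τ) (x + τ • v) v (ξ + τ • η) η -
        (δ₀ + A₂ * (1 + 1 / (t₀ + τ)) * Mt s α lam (ξ + τ • η) η) * Wp p v ≤ 0
      have h3 := (le_abs_self _).trans (hb τ hτ)
      linarith)
    linarith
  · -- second case
    rw [abs_of_neg hP] at htou
    have hQ' : 0 < Qt s (-ξ) (lam • (-η)) := by rw [smul_neg, Qt_neg]; exact hQ
    have hTC : TC (fun N => 2 ^ N * Cl N) p s α lam δ₀ A (-ξ) (-η)
        (fun u => f t₀ (x + ξ) (u + η)) (f t₀ x) v := by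
      refine ⟨FB_trn hGB hη, ModC_scale hFB, fun u => ?_, ?_, fun h h' hh => ?_⟩
      · rw [Mt_neg, abs_sub_comm]
        exact hle' x u ξ η hη
      · rw [Mt_neg, ← htou]
        unfold Pd
        ring
      · have e0 : -η + h - h' = -(η + h' - h) := by abel
        rw [e0, Mt_neg]
        have hh' : len (η + h' - h) ≤ 1 := by
          rw [e0, len_neg] at hh
          exact hh
        have e1 : f t₀ x (v + h) - f t₀ (x + ξ) (v + h' + η) =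
            -Pd f t₀ x (v + h) ξ (η + h' - h) := by
          unfold Pd
          have e2 : v + h + (η + h' - h) = v + h' + η := by abel
          rw [e2]
          ring
        show f t₀ x (v + h) - f t₀ (x + ξ) (v + h' + η) ≤ _
        rw [e1]
        refine (neg_le_abs _).trans ((hle' x (v + h) ξ (η + h' - h) hh').trans ?_)
        exact mul_le_mul_of_nonneg_left (le_max_left _ _) (hMn _ _)
    have h1 := hkey δ₀ A a (-ξ) (-η) _ _ v hTC hδ.le hAA hQ' (by rw [rt_neg]; exact hr)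
      (by rw [Mt_neg]; exact hΛ) hv
      (fun u hu => ⟨hlo2 u hu, hlo1 u hu⟩) ha0 (by rw [rt_neg]; exact har)
    rw [rt_neg, dMt_neg] at h1
    have h2 := ModC_left ht1 (hd1.neg.sub hd2) (by
      show -Pd f (t₀ + (0 : ℝ)) (x + (0 : ℝ) • v) v (ξ + (0 : ℝ) • η) η -
        (δ₀ + A₂ * (1 + 1 / (t₀ + (0 : ℝ))) * Mt s α lam (ξ + (0 : ℝ) • η) η) * Wp p v = 0
      rw [hφ0, hψ0, htou, sub_self]) (fun τ hτ => by
      show -Pd f (t₀ + τ) (x + τ • v) v (ξ + τ • η) η -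
        (δ₀ + A₂ * (1 + 1 / (t₀ + τ)) * Mt s α lam (ξ + τ • η) η) * Wp p v ≤ 0
      have h3 := (neg_le_abs _).trans (hb τ hτ)
      linarith)
    linarith

end Pool.Agent.H48.NE
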