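import Pool.Agent.H48.NE.Key
import Pool.Agent.H48.NE.CptN
import Pool.Agent.H48.NE.ModA
import Pool.Agent.H48.NE.ModC

/-!
# Module ModN: the modulus of continuity near a Maxwellian, uniform in time

`K₀, K_μ` from `mod_pd`, `K = K₀ + 1`. `μ = mx a k u`. For all `t`, `len η ≤ 1`: (1) `|Pd| ≤ K₀ Λ' Wp (p+1) v + K_μ len η Wp p v` (so `≤ (K₀ Λ₁ + K_μ) Wp p v`).
Constants: `c_H = c/2`, `c` from `mx_low` with radius `R+3`; `lam, Λ₂, r₁, A₁⁰, c₂` of `key` with the constants `fun N => 2^N * Cl N`, radius `R`, `c_H`; `Λ₁ ≤ min 1 c_H` and `r₂ ≤ r₁` with `K₀ Λ₁ + K_μ (2 r₂/lam) ≤ Λ₂` (`key` also holds with `r₂` instead of `r₁`); `A₁ ≥ A₁⁰` with `A₁ r₂^α > K₀ Λ₁ + K_μ`, `A₁ c₂^(α/2s) > K₀ Λ₁ + K_μ`,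
`A₁ ≥ 2 K_μ` (so `K_μ len η ≤ A₁ Mt`: `len η ≤ len η ^ α ≤ (lam len η)^α ≤ 2 Mt`, `Mt_ge`). `δ₀ = K Λ'/(1+R²)`, `β t ξ η = δ₀ + A₁ (1+1/t) Mt ξ η`. By contradiction: `β Wp < |Pd|` at some `t₁ ∈ (0,T)` and some point.
TRIVIAL REGIONS (all `t ∈ (0,T)`, strict `|Pd| < β Wp`): (i) `len v > R`: `Wp_succ_le`, `K₀ < K`, `K_μ len η ≤ A₁ Mt`. (ii) `rt ≥ r₂`: `A₁ Mt ≥ A₁ r₂^α` (`Mt_rt`). (iii) `rt^(2s) > c₂ (t + t²)`: `mod_time`.
SMALL TIMES: `unif_N` with `e = δ₀` gives `ϱ`: fine for `nsq ξ + nsq η ≤ ϱ`; for `≥ ϱ`: `Mt ≥ c_ϱ` (`Mt_big`), `A₁ c_ϱ/t > K₀ Λ₁ + K_μ` for `t ≤ ta`. So the claim holds strictly on `(0,ta]`, `ta < t₁`. `ftouchN` on `[ta,t₁]` (`ρ₁` from `rt_big` with `r₂`, `β₀ = δ₀`, `β` continuous by `Mt_cont`). The touching point `(t₀,x,v,ξ,η)` is not in (i)-(iii):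
`mod_touch` with `Λ := δ₀ + A Mt = |Pd|/Wp p v ≤ K₀ Λ' + K_μ len η ≤ Λ₂` (`len η ≤ 2 r₂/lam`, `len_le_rt`), `hlow`: `f t₀ y u ≥ μ u - Λ' Wp ≥ 2 c_H - Λ₁ ≥ c_H`. -/

set_option autoImplicit false

open MeasureTheory Set Filter Topology Pool.Agent.H25.Kin Pool.Agent.H48.PL Pool.Agent.H48.PD
open Pool.Agent.H82.BK Pool.Agent.H82.CM Pool.Agent.H48.PR

namespace Pool.Agent.H48.NE

variable {d : ℕ} {γ s C Ca cb : ℝ} {b : ℝ → ℝ}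

private lemma modN_Wp (p : ℕ) (v : Vec d) : Wp (p + 1) v ≤ Wp p v := by
  have h := Wp_succ_le (R := 0) le_rfl p (v := v) (len_nonneg v)
  simpa using h

/-- the trivial regions -/
private lemma modN_triv {s α lam A₁ K₀ Kμ Λ' Λ₁ M r₂ c₂ R δ₀ t : ℝ} {p : ℕ} {P : ℝ} {v ξ η : Vec d}
    (hs : 0 < s) (hs2 : 2 * s < 1) (hα : 0 < α) (hα2 : α < 2 * s) (hl : 1 ≤ lam) (hR : 0 ≤ R)
    (hK₀ : 1 ≤ K₀) (hKμ : 0 ≤ Kμ) (hΛ : 0 < Λ') (hΛ1 : Λ' ≤ Λ₁) (hM : K₀ * Λ₁ + Kμ < M)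
    (hA : 2 * Kμ ≤ A₁) (hr₂ : 0 < r₂) (hAr : M ≤ A₁ * r₂ ^ α) (hc₂ : 0 < c₂)
    (hAc : M ≤ A₁ * c₂ ^ (α / (2 * s))) (hδ : δ₀ = (K₀ + 1) * Λ' / (1 + R ^ 2)) (ht : 0 < t)
    (hη : len η ≤ 1) (hP : P ≤ K₀ * Λ' * Wp (p + 1) v + Kμ * len η * Wp p v)
    (h : R < len v ∨ r₂ ≤ rt s lam ξ η ∨ c₂ * (t + t ^ 2) < rt s lam ξ η ^ (2 * s)) :
    P < (δ₀ + A₁ * (1 + 1 / t) * Mt s α lam ξ η) * Wp p v := by
  have hW := Wp_pos p v
  have hW1 := modN_Wp p v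
  have hA0 : 0 ≤ A₁ := by linarith
  have hM0 := Mt_nonneg hs.le α lam ξ η
  have ht1 : 1 ≤ 1 + 1 / t := by
    have : 0 < 1 / t := by positivity
    linarith
  have hAM : A₁ * Mt s α lam ξ η ≤ A₁ * (1 + 1 / t) * Mt s α lam ξ η := by
    have h1 : 0 ≤ A₁ * Mt s α lam ξ η := mul_nonneg hA0 hM0
    nlinarith
  have hδ0 : 0 < δ₀ := by
    rw [hδ]
    positivity
  have hMpos : 0 < M := by
    have : 0 < K₀ * Λ₁ := mul_pos (by linarith) (by linarith)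
    linarith
  have hPM : P ≤ (K₀ * Λ₁ + Kμ) * Wp p v := by
    have h1 : K₀ * Λ' * Wp (p + 1) v ≤ K₀ * Λ₁ * Wp p v :=
      mul_le_mul (mul_le_mul_of_nonneg_left hΛ1 (by linarith)) hW1 (Wp_pos (p + 1) v).le
        (mul_nonneg (by linarith) (by linarith))
    have h2 : Kμ * len η * Wp p v ≤ Kμ * 1 * Wp p v := by gcongr
    linarith
  have hPM2 : P < M * Wp p v := hPM.trans_lt (mul_lt_mul_of_pos_right hM hW)
  rcases h with h | h | h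
  · have h1 := Wp_succ_le hR p h.le
    have h2 : K₀ * Λ' * Wp (p + 1) v ≤ K₀ * Λ' * (Wp p v / (1 + R ^ 2)) :=
      mul_le_mul_of_nonneg_left h1 (by positivity)
    have h3 : K₀ * Λ' * (Wp p v / (1 + R ^ 2)) < δ₀ * Wp p v := by
      rw [hδ]
      have : K₀ * Λ' * (Wp p v / (1 + R ^ 2)) = K₀ * Λ' / (1 + R ^ 2) * Wp p v := by ring
      rw [this]
      refine mul_lt_mul_of_pos_right ?_ hW
      refine div_lt_div_of_pos_right ?_ (by positivity)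
      linarith
    have hl0 := len_nonneg η
    have h4 : len η ≤ (lam * len η) ^ α := by
      rcases hl0.eq_or_lt with h0 | h0
      · rw [← h0]
        exact Real.rpow_nonneg (by simp) _
      · calc len η = len η ^ (1 : ℝ) := (Real.rpow_one _).symm
          _ ≤ len η ^ α := Real.rpow_le_rpow_of_exponent_ge h0 hη (by linarith)
          _ ≤ (lam * len η) ^ α := Real.rpow_le_rpow hl0 (by nlinarith) hα.le
    have h5 := Mt_ge (s := s) (α := α) (lam := lam) hs.le hα.le (by linarith) (by linarith) ξ η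
    have h6 : Kμ * len η ≤ A₁ * Mt s α lam ξ η := by
      calc Kμ * len η ≤ Kμ * (2 * Mt s α lam ξ η) := mul_le_mul_of_nonneg_left (h4.trans h5) hKμ
        _ = 2 * Kμ * Mt s α lam ξ η := by ring
        _ ≤ A₁ * Mt s α lam ξ η := mul_le_mul_of_nonneg_right hA hM0
    have h7 : Kμ * len η * Wp p v ≤ A₁ * (1 + 1 / t) * Mt s α lam ξ η * Wp p v :=
      mul_le_mul_of_nonneg_right (h6.trans hAM) hW.le
    nlinarith
  · have h1 : r₂ ^ α ≤ Mt s α lam ξ η := by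
      rw [Mt_rt hs.le]
      exact Real.rpow_le_rpow hr₂.le h hα.le
    have h2 : M ≤ A₁ * (1 + 1 / t) * Mt s α lam ξ η :=
      (hAr.trans (mul_le_mul_of_nonneg_left h1 hA0)).trans hAM
    refine hPM2.trans_le (mul_le_mul_of_nonneg_right ?_ hW.le)
    linarith
  · rcases (Qt_nonneg hs.le ξ (lam • η)).eq_or_lt with h0 | h0
    · exfalso
      have h1 : rt s lam ξ η ^ (2 * s) = 0 := by
        unfold rt
        rw [← h0, Real.zero_rpow (by positivity), Real.zero_rpow (by positivity)]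
      rw [h1] at h
      have : 0 < c₂ * (t + t ^ 2) := by positivity
      linarith
    · have h1 := mod_time hα hα2 hc₂ ht (rt_pos h0) h
      rw [← Mt_rt hs.le] at h1
      have h2 : M ≤ A₁ * (1 + 1 / t) * Mt s α lam ξ η := by
        calc M ≤ A₁ * c₂ ^ (α / (2 * s)) := hAc
          _ ≤ A₁ * ((1 + 1 / t) * Mt s α lam ξ η) := mul_le_mul_of_nonneg_left h1 hA0
          _ = A₁ * (1 + 1 / t) * Mt s α lam ξ η := by ring
      refine hPM2.trans_le (mul_le_mul_of_nonneg_right ?_ hW.le)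
      linarith

theorem modN (HL : HypL d γ s b C Ca cb) (h0 : 0 ≤ γ) (hs : 2 * s < 1) {α : ℝ} (hα : 0 < α)
    (hα2 : α < 2 * s) {p : ℕ} (hp : d + 10 ≤ p) : ∃ K : ℝ, 0 ≤ K ∧ ∀ (Cl : ℕ → ℝ) (a k R : ℝ)
      (u : Vec d), 0 < a → 0 < k → 1 ≤ R → ∃ Λ₁ > 0, ∃ lam : ℝ, 1 ≤ lam ∧ ∃ A₁ : ℝ, 0 ≤ A₁ ∧
    ∀ (T : ℝ) (f : ℝ → Vec d → Vec d → ℝ), IsBoltzmannSol γ b T f →
      (∀ t ∈ Ioo 0 T, ∀ x, FB Cl (f t x)) → ∀ Λ' : ℝ, 0 < Λ' → Λ' ≤ Λ₁ →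
      (∀ t ∈ Ico 0 T, ∀ x v, |f t x v - mx a k u v| ≤ Λ' * Wp (p + 1) v) →
      ∀ t ∈ Ioo 0 T, ∀ x v ξ η : Vec d, len η ≤ 1 →
        |Pd f t x v ξ η| ≤ (K * Λ' / (1 + R ^ 2) + A₁ * (1 + 1 / t) * Mt s α lam ξ η) * Wp p v := by
  have hs0 : 0 < s := HL.H.hs
  obtain ⟨K₀, hK₀, hpd⟩ := mod_pd d p
  refine ⟨K₀ + 1, by linarith, ?_⟩
  intro Cl a k R u ha hk hR
  obtain ⟨Kμ, hKμ, hpd⟩ := hpd a k u ha hk
  obtain ⟨c, hc, hlow⟩ := mx_low ha hk u (R + 3)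
  obtain ⟨lam, hlam, Λ₂, hΛ₂, r₁, hr₁, A₀, hA₀, c₂, hc₂, hkey⟩ :=
    key HL h0 hs hα hα2 hp (fun N => 2 ^ N * Cl N) R (half_pos hc)
  obtain ⟨r₂, hr₂, hr21, hr2b⟩ : ∃ r₂ > 0, r₂ ≤ r₁ ∧ Kμ * (2 * r₂ / lam) ≤ Λ₂ / 2 := by
    refine ⟨min r₁ (Λ₂ * lam / (4 * (Kμ + 1))), lt_min hr₁ (by positivity), min_le_left _ _, ?_⟩
    have h1 : min r₁ (Λ₂ * lam / (4 * (Kμ + 1))) ≤ Λ₂ * lam / (4 * (Kμ + 1)) := min_le_right _ _
    calc Kμ * (2 * min r₁ (Λ₂ * lam / (4 * (Kμ + 1))) / lam)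
        ≤ Kμ * (2 * (Λ₂ * lam / (4 * (Kμ + 1))) / lam) := by gcongr
      _ = Λ₂ / 2 * (Kμ / (Kμ + 1)) := by
        field_simp
        ring
      _ ≤ Λ₂ / 2 * 1 := by
        refine mul_le_mul_of_nonneg_left ?_ (by positivity)
        rw [div_le_one (by positivity)]
        linarith
      _ = Λ₂ / 2 := mul_one _
  obtain ⟨Λ₁, hΛ₁, hΛ1c, hΛ1b⟩ : ∃ Λ₁ > 0, Λ₁ ≤ c / 2 ∧ K₀ * Λ₁ ≤ Λ₂ / 2 := by
    refine ⟨min (c / 2) (Λ₂ / (2 * K₀)), lt_min (half_pos hc) (by positivity), min_le_left _ _, ?_⟩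
    calc K₀ * min (c / 2) (Λ₂ / (2 * K₀)) ≤ K₀ * (Λ₂ / (2 * K₀)) :=
          mul_le_mul_of_nonneg_left (min_le_right _ _) (by linarith)
      _ = Λ₂ / 2 := by field_simp
  have hK₀0 : 0 < K₀ := by linarith
  obtain ⟨M, hMd⟩ : ∃ M : ℝ, M = K₀ * Λ₁ + Kμ + 1 := ⟨_, rfl⟩
  have hMpos : 0 < M := by rw [hMd]; positivity
  have hpr : 0 < r₂ ^ α := Real.rpow_pos_of_pos hr₂ _
  have hpc : 0 < c₂ ^ (α / (2 * s)) := Real.rpow_pos_of_pos hc₂ _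
  obtain ⟨A₁, hA₁⟩ : ∃ A₁ : ℝ, A₁ = A₀ + M / r₂ ^ α + M / c₂ ^ (α / (2 * s)) + 2 * Kμ := ⟨_, rfl⟩
  have q1 : 0 < M / r₂ ^ α := by positivity
  have q2 : 0 < M / c₂ ^ (α / (2 * s)) := by positivity
  have hA1A0 : A₀ ≤ A₁ := by linarith
  have hA1μ : 2 * Kμ ≤ A₁ := by linarith
  have hAr : M ≤ A₁ * r₂ ^ α := by
    have h1 : M / r₂ ^ α ≤ A₁ := by linarith
    exact (div_le_iff₀ hpr).1 h1
  have hAc : M ≤ A₁ * c₂ ^ (α / (2 * s)) := by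
    have h1 : M / c₂ ^ (α / (2 * s)) ≤ A₁ := by linarith
    exact (div_le_iff₀ hpc).1 h1
  have hA10 : 0 ≤ A₁ := by linarith
  refine ⟨Λ₁, hΛ₁, lam, hlam, A₁, hA10, ?_⟩
  intro T f hf hB Λ' hΛ' hΛ'1 hmx
  by_contra hcon
  push Not at hcon
  obtain ⟨t₁, ht₁, hbad⟩ := hcon
  obtain ⟨δ₀, hδ⟩ : ∃ δ₀ : ℝ, δ₀ = (K₀ + 1) * Λ' / (1 + R ^ 2) := ⟨_, rfl⟩
  have hδ0 : 0 < δ₀ := by rw [hδ]; positivity
  have hfC : IsClassicalSol T (fun t x => boltzQ γ b (f t x)) f := hf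
  have hbas : ∀ t ∈ Ico 0 T, ∀ x v ξ η : Vec d, len η ≤ 1 →
      |Pd f t x v ξ η| ≤ K₀ * Λ' * Wp (p + 1) v + Kμ * len η * Wp p v := fun t ht x v ξ η hη =>
    hpd Λ' (f t) hΛ'.le (fun x v => hmx t ht x v) x v ξ η hη
  have htriv : ∀ t ∈ Ioo 0 T, ∀ x v ξ η : Vec d, len η ≤ 1 →
      (R < len v ∨ r₂ ≤ rt s lam ξ η ∨ c₂ * (t + t ^ 2) < rt s lam ξ η ^ (2 * s)) →
      |Pd f t x v ξ η| < (δ₀ + A₁ * (1 + 1 / t) * Mt s α lam ξ η) * Wp p v :=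
    fun t ht x v ξ η hη h => modN_triv hs0 hs hα hα2 hlam (by linarith) hK₀ hKμ hΛ' hΛ'1
      (by rw [hMd]; linarith) hA1μ hr₂ hAr hc₂ hAc hδ ht.1 hη
      (hbas t ⟨ht.1.le, ht.2⟩ x v ξ η hη) h
  obtain ⟨ϱ, hϱ, hun⟩ := unif_N hfC ht₁.2 p hδ0
  obtain ⟨cϱ, hcϱ, hbigM⟩ := Mt_big (d := d) (s := s) (α := α) (lam := lam) hs0.le hα
    (by linarith) hϱ
  obtain ⟨ta, hta, hta1, hta2⟩ : ∃ ta > 0, ta < t₁ ∧ ta ≤ cϱ / M := by
    refine ⟨min (t₁ / 2) (cϱ / M), lt_min (by linarith [ht₁.1]) (by positivity), ?_, min_le_right _ _⟩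
    exact (min_le_left _ _).trans_lt (by linarith [ht₁.1])
  have hsmall : ∀ x v ξ η : Vec d, len η ≤ 1 →
      |Pd f ta x v ξ η| < (δ₀ + A₁ * (1 + 1 / ta) * Mt s α lam ξ η) * Wp p v := by
    intro x v ξ η hη
    have hW := Wp_pos p v
    have hM0 := Mt_nonneg hs0.le α lam ξ η
    have hta' : 0 < 1 / ta := by positivity
    rcases le_total (nsq ξ + nsq η) ϱ with h | h
    · refine (hun ta ⟨hta.le, hta1.le⟩ x v ξ η h).trans_le (mul_le_mul_of_nonneg_right ?_ hW.le)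
      have : 0 ≤ A₁ * (1 + 1 / ta) * Mt s α lam ξ η :=
        mul_nonneg (mul_nonneg hA10 (by linarith)) hM0
      linarith
    · have h1 := hbigM ξ η h
      have h2 : M * ta ≤ cϱ := by
        have := (le_div_iff₀ hMpos).1 hta2
        linarith
      have h3 : M ≤ 1 / ta * cϱ := by
        rw [one_div, inv_mul_eq_div, le_div_iff₀ hta]
        exact h2
      have h4 : M ≤ A₁ * (1 + 1 / ta) * Mt s α lam ξ η := by
        calc M ≤ 1 / ta * cϱ := h3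
          _ ≤ (A₁ * (1 + 1 / ta)) * Mt s α lam ξ η := by
            refine mul_le_mul ?_ h1 hcϱ.le (mul_nonneg hA10 (by linarith))
            nlinarith
      have h5 := hbas ta ⟨hta.le, hta1.trans ht₁.2⟩ x v ξ η hη
      have h6 : K₀ * Λ' * Wp (p + 1) v ≤ K₀ * Λ₁ * Wp p v := by
        have e1 := (Wp_pos (p + 1) v).le
        have e2 := modN_Wp p v
        gcongr
      have h7 : Kμ * len η * Wp p v ≤ Kμ * 1 * Wp p v := by gcongr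
      have h8 : |Pd f ta x v ξ η| < M * Wp p v := by
        rw [hMd]
        nlinarith
      refine h8.trans_le (mul_le_mul_of_nonneg_right ?_ hW.le)
      linarith
  obtain ⟨ρ₁, hρ₁⟩ := rt_big (d := d) (s := s) (lam := lam) hs0 hr₂
  have hIoo : ∀ t ∈ Icc ta t₁, t ∈ Ioo 0 T := fun t ht =>
    ⟨hta.trans_le ht.1, ht.2.trans_lt ht₁.2⟩
  obtain ⟨t₀, ht₀, x, v, ξ, η, hη, -, htou, hbef, hle⟩ := ftouchN (p := p) hfC hta.le ht₁.2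
    (β := fun t ξ η => δ₀ + A₁ * (1 + 1 / t) * Mt s α lam ξ η)
    (by
      have c1 : ContinuousOn (fun q : ℝ × Vec d × Vec d => 1 + 1 / q.1) (Icc ta t₁ ×ˢ univ) := by
        refine continuousOn_const.add (continuousOn_const.div continuousOn_fst fun q hq => ?_)
        exact (hta.trans_le hq.1.1).ne'
      have c2 : Continuous fun q : ℝ × Vec d × Vec d => Mt s α lam q.2.1 q.2.2 :=
        (Mt_cont hs0 hα lam).comp continuous_snd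
      exact continuousOn_const.add ((continuousOn_const.mul c1).mul c2.continuousOn))
    hδ0
    (by
      intro t ht ξ η
      have h1 : 0 < 1 / t := by
        have := (hIoo t ht).1
        positivity
      have : 0 ≤ A₁ * (1 + 1 / t) * Mt s α lam ξ η :=
        mul_nonneg (mul_nonneg hA10 (by linarith)) (Mt_nonneg hs0.le α lam ξ η)
      show δ₀ ≤ δ₀ + A₁ * (1 + 1 / t) * Mt s α lam ξ η
      linarith)
    (fun t ht x v ξ η hη hρ => htriv t (hIoo t ht) x v ξ η hη (Or.inr (Or.inl (hρ₁ ξ η hη hρ))))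
    hsmall
    (by
      obtain ⟨x, v, ξ, η, hη, h⟩ := hbad
      refine ⟨t₁, ⟨hta1.le, le_rfl⟩, x, v, ξ, η, hη, ?_⟩
      rw [← hδ] at h
      exact h.le)
  have ht₀' : t₀ ∈ Ioo ta T := ⟨ht₀.1, ht₀.2.trans_lt ht₁.2⟩
  have ht₀0 : t₀ ∈ Ioo 0 T := ⟨hta.trans ht₀.1, ht₀'.2⟩
  have hnot : ¬ (R < len v ∨ r₂ ≤ rt s lam ξ η ∨ c₂ * (t₀ + t₀ ^ 2) < rt s lam ξ η ^ (2 * s)) := by
    intro h
    have h1 := htriv t₀ ht₀0 x v ξ η hη h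
    rw [htou] at h1
    exact lt_irrefl _ h1
  push Not at hnot
  obtain ⟨n1, n2, n3⟩ := hnot
  have hW := Wp_pos p v
  refine mod_touch hs0 hα hlam hA₀ hkey hf hB hδ0 hA1A0 hta ht₀' hη htou hbef hle n1
    (n2.le.trans hr21) n3 ?_ ?_
  · have h1 := hbas t₀ ⟨ht₀0.1.le, ht₀0.2⟩ x v ξ η hη
    rw [htou] at h1
    have h2 : K₀ * Λ' * Wp (p + 1) v ≤ K₀ * Λ₁ * Wp p v := by
      have e1 := (Wp_pos (p + 1) v).le
      have e2 := modN_Wp p v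
      gcongr
    have h3 : len η ≤ 2 * r₂ / lam := by
      rw [le_div_iff₀ (by linarith)]
      have := (len_le_rt (s := s) (lam := lam) hs0.le (by linarith) ξ η).1
      linarith
    have h4 : Kμ * len η ≤ Λ₂ / 2 := (mul_le_mul_of_nonneg_left h3 hKμ).trans hr2b
    have h5 : (δ₀ + A₁ * (1 + 1 / t₀) * Mt s α lam ξ η) * Wp p v ≤ Λ₂ * Wp p v := by
      have h6 : K₀ * Λ₁ * Wp p v ≤ Λ₂ / 2 * Wp p v := mul_le_mul_of_nonneg_right hΛ1b hW.le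
      have h7 : Kμ * len η * Wp p v ≤ Λ₂ / 2 * Wp p v := mul_le_mul_of_nonneg_right h4 hW.le
      linarith
    exact le_of_mul_le_mul_right h5 hW
  · intro y w hw
    have h1 := (abs_le.1 (hmx t₀ ⟨ht₀0.1.le, ht₀0.2⟩ y w)).1
    have h2 := hlow w hw
    have h3 := Wp_le_one (p + 1) w
    have h4 : Λ' * Wp (p + 1) w ≤ Λ' := mul_le_of_le_one_right hΛ'.le h3
    linarith

end Pool.Agent.H48.NE
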