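import Pool.Agent.H48.NE.BarB

/-!
# Module OneN: one sided bounds from the cross bounds

`W = Wp p`. For `len h ≤ 1/2`: `Wp p (v+h) ≤ W(v) (1 + C_p len h)` (private lemma `one_Wd` of PR/One: `Wp p (v+h) - Wp p v ≤ 2 p 2^p len h Wp p v`; copy it). With `M = Mt ξ η`, `Λ = δ₀ + A M ≤ 1`, `h' = 0` in `crs` (`len (η+h) ≤ 1`):
`G(v+h) - G(v) = [G(v+h) - F(v)] - Λ W(v) ≤ (δ₀ + A Mt(ξ,η+h)) W(v) (1 + C_p len h) - Λ W(v) ≤ A C_B pf(r, lam len h) (1 + C_p) W(v) + Λ C_p len h W(v)` (`Mt_add`), `W ≤ 1`. For `len h > 1/2`: `G(v+h) - G(v) ≤ Cl 0 ≤ 2 |Cl 0| min 1 (len h)`.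
`F(v) - F(v+h) = [G(v) - F(v+h)] - Λ W(v)`, `crs` with `h := 0`, `h' := h`: `Mt(ξ, η - h)`, `η - h = η + (-h)`, `len (-h) = len h`. So `C = C_B (1 + C_p)`, `K₂ = C_p + 2 |Cl 0|`. -/

set_option autoImplicit false

open MeasureTheory Set Filter Topology Pool.Agent.H25.Kin Pool.Agent.H48.PL Pool.Agent.H48.PD
open Pool.Agent.H82.BK Pool.Agent.H82.CM Pool.Agent.H48.PR

namespace Pool.Agent.H48.NE

variable {d : ℕ}

private lemma OneN_dot_le {u v : Vec d} : dot u v ≤ len u * len v := by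
  have h1 := dot_sq_le u v
  rw [← len_sq u, ← len_sq v, ← mul_pow] at h1
  exact (le_abs_self _).trans (abs_le_of_sq_le_sq h1 (mul_nonneg (len_nonneg u) (len_nonneg v)))

/-- weights at neighbouring points are comparable -/
private lemma OneN_W (p : ℕ) {v h : Vec d} (hh : len h ≤ 1 / 2) :
    Wp p (v + h) ≤ 2 ^ p * Wp p v := by
  have hv := sq_nonneg' v
  have hvh := sq_nonneg' (v + h)
  have h2 : nsq h ≤ 1 / 4 := by
    rw [← len_sq]
    nlinarith [len_nonneg h]
  have h1 : 1 + nsq v ≤ 2 * (1 + nsq (v + h)) := by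
    have h3 := nsq_par (v + h) h
    have h4 := sq_nonneg' (v + h + h)
    rw [add_sub_cancel_right] at h3
    linarith
  have h5 : (1 + nsq v) ^ p ≤ 2 ^ p * (1 + nsq (v + h)) ^ p := by
    rw [← mul_pow]
    exact pow_le_pow_left₀ (by linarith) h1 p
  unfold Wp
  rw [← div_eq_mul_inv, inv_eq_one_div, div_le_div_iff₀ (by positivity) (by positivity)]
  linarith

/-- the increments of the weight -/
private lemma OneN_Wd (p : ℕ) {v h : Vec d} (hh : len h ≤ 1 / 2) :
    Wp p (v + h) - Wp p v ≤ 2 * p * 2 ^ p * len h * Wp p v := by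
  have hl := len_nonneg h
  have hv := sq_nonneg' v
  have hvh := sq_nonneg' (v + h)
  have hW := Wp_pos p v
  have hW' := Wp_pos p (v + h)
  set a := 1 + nsq v with ha
  set b := 1 + nsq (v + h) with hb
  have ha1 : 1 ≤ a := by linarith
  have hb1 : 1 ≤ b := by linarith
  -- `a - b ≤ 2 a |h|`
  have h1 : a - b ≤ 2 * a * len h := by
    have e1 : nsq (v + h) = nsq v + 2 * dot v h + nsq h := nsq_add v h
    have e2 : -dot v h ≤ len v * len h := by
      have h3 := OneN_dot_le (u := v) (v := -h)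
      rw [len_neg] at h3
      have e3 : dot v (-h) = - dot v h := by
        unfold dot
        simp
      linarith
    have e4 : 2 * len v ≤ a := by
      have := len_sq v
      nlinarith [sq_nonneg (len v - 1)]
    have e5 : 2 * (len v * len h) ≤ a * len h := by nlinarith
    have e6 := sq_nonneg' h
    have e7 : 0 ≤ a * len h := by positivity
    linarith
  -- Bernoulli
  have h2 : a ^ p - b ^ p ≤ p * a ^ p * (2 * len h) := by
    have hba : -2 ≤ b / a - 1 := by
      have : 0 ≤ b / a := by positivity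
      linarith
    have h3 := one_add_mul_le_pow hba p
    have e1 : (1 + (b / a - 1)) ^ p * a ^ p = b ^ p := by
      rw [← mul_pow]
      congr 1
      field_simp
      ring
    have h4 : (1 + (p : ℝ) * (b / a - 1)) * a ^ p ≤ b ^ p := by
      rw [← e1]
      exact mul_le_mul_of_nonneg_right h3 (by positivity)
    have h5 : 1 - b / a ≤ 2 * len h := by
      rw [← div_self (by positivity : a ≠ 0), ← sub_div, div_le_iff₀ (by positivity)]
      linarith
    have h6 : (p : ℝ) * a ^ p * (1 - b / a) ≤ p * a ^ p * (2 * len h) :=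
      mul_le_mul_of_nonneg_left h5 (by positivity)
    have h7 : (1 + (p : ℝ) * (b / a - 1)) * a ^ p = a ^ p - p * a ^ p * (1 - b / a) := by ring
    linarith
  have h3 : Wp p (v + h) - Wp p v ≤ p * (2 * len h) * Wp p (v + h) := by
    unfold Wp
    rw [← ha, ← hb]
    have e1 : (b ^ p)⁻¹ - (a ^ p)⁻¹ = (a ^ p - b ^ p) * ((a ^ p)⁻¹ * (b ^ p)⁻¹) := by
      field_simp
    have e2 : p * (2 * len h) * (b ^ p)⁻¹ =
        (p * a ^ p * (2 * len h)) * ((a ^ p)⁻¹ * (b ^ p)⁻¹) := by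
      field_simp
    rw [e1, e2]
    exact mul_le_mul_of_nonneg_right h2 (by positivity)
  have h4 := OneN_W p (v := v) hh
  calc Wp p (v + h) - Wp p v ≤ p * (2 * len h) * Wp p (v + h) := h3
    _ ≤ p * (2 * len h) * (2 ^ p * Wp p v) := mul_le_mul_of_nonneg_left h4 (by positivity)
    _ = 2 * p * 2 ^ p * len h * Wp p v := by ring

private lemma OneN_len_add (u v : Vec d) : len (u + v) ≤ len u + len v := by
  have hu := len_nonneg u
  have hv := len_nonneg v
  refine abs_le_of_sq_le_sq' ?_ (by linarith) |>.2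
  have h1 := OneN_dot_le (u := u) (v := v)
  rw [len_sq, nsq_add, ← len_sq u, ← len_sq v]
  nlinarith

private lemma OneN_pf_nonneg {α r t : ℝ} (hr : 0 ≤ r) (ht : 0 ≤ t) : 0 ≤ pf α r t := by
  unfold pf
  exact le_min (mul_nonneg (Real.rpow_nonneg hr _) ht) (Real.rpow_nonneg ht _)

/-- the common estimate of both signs -/
private lemma OneN_core {p : ℕ} {s α lam δ₀ A CB : ℝ} {ξ η h : Vec d} {v : Vec d} (hs : 0 < s)
    (hl : 0 < lam) (hδ : 0 ≤ δ₀) (hA : 0 ≤ A) (hQ : 0 < Qt s ξ (lam • η)) (hCB : 1 ≤ CB)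
    (hΛ : δ₀ + A * Mt s α lam ξ η ≤ 1) (hh : len h ≤ 1 / 2)
    (hM : Mt s α lam ξ (η + h) ≤ Mt s α lam ξ η + CB * pf α (rt s lam ξ η) (lam * len h))
    {k : Vec d} (hk : len k = len h) :
    (δ₀ + A * Mt s α lam ξ (η + h)) * max (Wp p (v + k)) (Wp p v) -
        (δ₀ + A * Mt s α lam ξ η) * Wp p v ≤
      CB * (1 + 2 * p * 2 ^ p) * A * pf α (rt s lam ξ η) (lam * len h) +
        (2 * p * 2 ^ p) * len h := by
  have hlen := len_nonneg h
  have hW := Wp_pos p v
  have hW1 := Wp_le_one p v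
  have hk2 : len k ≤ 1 / 2 := by rw [hk]; exact hh
  have h1 := OneN_Wd p (v := v) hk2
  rw [hk] at h1
  set Cp : ℝ := 2 * p * 2 ^ p with hCp
  have hCp0 : 0 ≤ Cp := by positivity
  set P := pf α (rt s lam ξ η) (lam * len h) with hP
  have hr : 0 ≤ rt s lam ξ η := (rt_pos hQ).le
  have hP0 : 0 ≤ P := OneN_pf_nonneg hr (mul_nonneg hl.le hlen)
  set M := Mt s α lam ξ η with hMM
  have hM0 : 0 ≤ M := Mt_nonneg hs.le _ _ _ _
  have hmax : max (Wp p (v + k)) (Wp p v) ≤ Wp p v * (1 + Cp * len h) := by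
    refine max_le (by nlinarith) ?_
    have : 0 ≤ Wp p v * (Cp * len h) := by positivity
    nlinarith
  have hmax0 : 0 ≤ max (Wp p (v + k)) (Wp p v) := le_max_of_le_right hW.le
  have hL0 : 0 ≤ δ₀ + A * M := by positivity
  have hfac : δ₀ + A * Mt s α lam ξ (η + h) ≤ (δ₀ + A * M) + A * (CB * P) := by
    have := mul_le_mul_of_nonneg_left hM hA
    nlinarith
  have hX0 : 0 ≤ A * (CB * P) := by positivity
  have step : (δ₀ + A * Mt s α lam ξ (η + h)) * max (Wp p (v + k)) (Wp p v) ≤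
      ((δ₀ + A * M) + A * (CB * P)) * (Wp p v * (1 + Cp * len h)) := by
    calc _ ≤ ((δ₀ + A * M) + A * (CB * P)) * max (Wp p (v + k)) (Wp p v) :=
          mul_le_mul_of_nonneg_right hfac hmax0
      _ ≤ _ := mul_le_mul_of_nonneg_left hmax (by positivity)
  have e1 : ((δ₀ + A * M) + A * (CB * P)) * (Wp p v * (1 + Cp * len h)) - (δ₀ + A * M) * Wp p v =
      ((δ₀ + A * M) * Wp p v) * (Cp * len h) + A * (CB * P) * (Wp p v * (1 + Cp * len h)) := by
    ring
  have e2 : ((δ₀ + A * M) * Wp p v) * (Cp * len h) ≤ 1 * (Cp * len h) := by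
    refine mul_le_mul_of_nonneg_right ?_ (by positivity)
    calc (δ₀ + A * M) * Wp p v ≤ 1 * 1 := mul_le_mul hΛ hW1 hW.le zero_le_one
      _ = 1 := one_mul 1
  have e3 : Wp p v * (1 + Cp * len h) ≤ 1 + Cp := by
    have h3 : Wp p v * (1 + Cp * len h) ≤ 1 * (1 + Cp * len h) :=
      mul_le_mul_of_nonneg_right hW1 (by positivity)
    have h4 : Cp * len h ≤ Cp * 1 := mul_le_mul_of_nonneg_left (by linarith) hCp0
    linarith
  have e4 : A * (CB * P) * (Wp p v * (1 + Cp * len h)) ≤ A * (CB * P) * (1 + Cp) :=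
    mul_le_mul_of_nonneg_left e3 hX0
  have e5 : CB * (1 + Cp) * A * P = A * (CB * P) * (1 + Cp) := by ring
  linarith

theorem oneN (Cl : ℕ → ℝ) (p : ℕ) {s α : ℝ} (hs : 0 < s) (hs1 : 2 * s < 1) (hα : 0 < α)
    (hα1 : α < 1) : ∃ C K₂ : ℝ, 0 ≤ C ∧ 0 ≤ K₂ ∧ ∀ (lam δ₀ A : ℝ) (ξ η : Vec d) (F G : Vec d → ℝ)
      (v : Vec d), 0 < lam → 0 ≤ δ₀ → 0 ≤ A → 0 < Qt s ξ (lam • η) → len η ≤ 1 / 2 →
      δ₀ + A * Mt s α lam ξ η ≤ 1 → TC Cl p s α lam δ₀ A ξ η F G v →
      TN Cl p α (rt s lam ξ η) lam (C * A) K₂ (δ₀ + A * Mt s α lam ξ η) F G v := by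
  obtain ⟨CB, hCB, hMt⟩ := Mt_add (d := d) hs hs1 hα hα1
  have hCp0 : (0 : ℝ) ≤ 2 * p * 2 ^ p := by positivity
  refine ⟨CB * (1 + 2 * p * 2 ^ p), 2 * p * 2 ^ p + 2 * |Cl 0|, by positivity, by positivity, ?_⟩
  intro lam δ₀ A ξ η F G v hl hδ hA hQ hη hΛ hT
  have hr : 0 ≤ rt s lam ξ η := (rt_pos hQ).le
  have hM0 : 0 ≤ Mt s α lam ξ η := Mt_nonneg hs.le _ _ _ _
  have hfar : ∀ (h : Vec d) (x : ℝ), 1 / 2 < len h → x ≤ Cl 0 →
      x ≤ CB * (1 + 2 * p * 2 ^ p) * A * pf α (rt s lam ξ η) (lam * len h) +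
        (2 * p * 2 ^ p + 2 * |Cl 0|) * min 1 (len h) := by
    intro h x hh hx
    have h1 : (1 : ℝ) / 2 ≤ min 1 (len h) := le_min (by norm_num) hh.le
    have h2 : 0 ≤ pf α (rt s lam ξ η) (lam * len h) :=
      OneN_pf_nonneg hr (mul_nonneg hl.le (len_nonneg h))
    have h3 : 0 ≤ CB * (1 + 2 * p * 2 ^ p) * A * pf α (rt s lam ξ η) (lam * len h) := by
      have : 0 ≤ CB := by linarith
      positivity
    have h4 : |Cl 0| ≤ 2 * |Cl 0| * min 1 (len h) := by
      have := abs_nonneg (Cl 0)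
      nlinarith
    have h5 : 0 ≤ 2 * (p : ℝ) * 2 ^ p * min 1 (len h) := by positivity
    have h6 := le_abs_self (Cl 0)
    nlinarith
  have hbd : ∀ {H : Vec d → ℝ}, FB Cl H → ∀ u, H u ≤ Cl 0 := by
    intro H hH u
    have := hH.le 0 u
    simpa using this
  refine ⟨hT.hF, hT.hG, by positivity, hT.dif, hT.tou, ?_, ?_⟩
  · intro h
    rcases le_or_gt (len h) (1 / 2) with hh | hh
    · have hl1 : min 1 (len h) = len h := min_eq_right (by linarith)
      have h1 : len (η + h - 0) ≤ 1 := by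
        rw [sub_zero]
        exact (OneN_len_add η h).trans (by linarith)
      have h2 := hT.crs h 0 h1
      rw [sub_zero, add_zero] at h2
      have h3 := OneN_core (p := p) (v := v) hs hl hδ hA hQ hCB hΛ hh (hMt lam hl ξ η h hQ)
        (k := h) rfl
      have h4 := hT.tou
      have h5 : 0 ≤ 2 * |Cl 0| * len h := by
        have := len_nonneg h
        positivity
      rw [hl1]
      nlinarith
    · refine hfar h _ hh ?_
      have h1 := hbd hT.hG (v + h)
      have h2 := hT.hG.nonneg v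
      linarith
  · intro h
    rcases le_or_gt (len h) (1 / 2) with hh | hh
    · have hl1 : min 1 (len h) = len h := min_eq_right (by linarith)
      have h1 : len (η + 0 - h) ≤ 1 := by
        rw [add_zero, sub_eq_add_neg]
        have h6 := OneN_len_add η (-h)
        rw [len_neg] at h6
        exact h6.trans (by linarith)
      have h2 := hT.crs 0 h h1
      rw [add_zero, add_zero, sub_eq_add_neg η h, max_comm] at h2
      have hh' : len (-h) ≤ 1 / 2 := by rw [len_neg]; exact hh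
      have h3 := OneN_core (p := p) (v := v) hs hl hδ hA hQ hCB hΛ hh' (hMt lam hl ξ η (-h) hQ)
        (k := h) (len_neg h).symm
      rw [len_neg] at h3
      have h4 := hT.tou
      have h5 : 0 ≤ 2 * |Cl 0| * len h := by
        have := len_nonneg h
        positivity
      rw [hl1]
      nlinarith
    · refine hfar h _ hh ?_
      have h1 := hbd hT.hF v
      have h2 := hT.hF.nonneg (v + h)
      linarith

end Pool.Agent.H48.NE
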