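import Pool.Agent.H48.NE.Defs

/-!
# Module PtN: the pointwise inequality

`D = G - F = D⁺ - D⁻`, `H = min F G`, `G = H + D⁺`, `F = H + D⁻`, `ψ = B pf + K₂ min(1,|h|) ≥ 0`, `W = Wp p`. `G(z)[G(v')-qG(v)] - F(z)[F(v')-qF(v)] = H(z)[D(v')-qD(v)] + D⁺(z)[G(v')-qG(v)] - D⁻(z)[F(v')-qF(v)]`; `D(v) = Λ W(v)`; `G(v') - qG(v) = G(v')-G(v) + (1-q)G(v) ≤ ψ + (1-q) G(v)`,
`qF(v) - F(v') ≤ F(v) - F(v') ≤ ψ` (`q ≤ 1`, `F ≥ 0`); `D⁺, D⁻ ≤ Λ W(z)`, one of them is `0`. (Cases `F z ≤ G z` or not; `nlinarith`/`linarith` after substituting.) -/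

set_option autoImplicit false

open MeasureTheory Set Filter Topology Pool.Agent.H25.Kin Pool.Agent.H48.PL Pool.Agent.H48.PD
open Pool.Agent.H82.BK Pool.Agent.H82.CM Pool.Agent.H48.PR

namespace Pool.Agent.H48.NE

variable {d : ℕ}

theorem pf_nonneg {α r t : ℝ} (hr : 0 ≤ r) (ht : 0 ≤ t) : 0 ≤ pf α r t :=
  le_min (mul_nonneg (Real.rpow_nonneg hr _) ht) (Real.rpow_nonneg ht _)

private lemma ptN_aux {a b f g f' g' L W' Y P q : ℝ} (hf : 0 ≤ f) (hg : 0 ≤ g)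
    (hP : 0 ≤ P) (hq1 : q ≤ 1) (hd : |b - a| ≤ Y) (hL : g - f = L) (hG : g' - g ≤ P)
    (hF : f - f' ≤ P) :
    b * g' + q * (a * f) + min a b * (q * L) + min a b * (W' - (g' - f')) ≤
      a * f' + q * (b * g) + min a b * W' + Y * (P + (1 - q) * g) := by
  subst hL
  have h1 : 0 ≤ (1 - q) * g := mul_nonneg (by linarith) hg
  have h2 : 0 ≤ (1 - q) * f := mul_nonneg (by linarith) hf
  have h3 := abs_le.1 hd
  rcases le_total a b with h | h
  · rw [min_eq_left h]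
    have e1 : (b - a) * (g' - q * g) ≤ (b - a) * (P + (1 - q) * g) :=
      mul_le_mul_of_nonneg_left (by linarith) (by linarith)
    have e2 : (b - a) * (P + (1 - q) * g) ≤ Y * (P + (1 - q) * g) :=
      mul_le_mul_of_nonneg_right h3.2 (by linarith)
    nlinarith
  · rw [min_eq_right h]
    have e1 : (a - b) * (q * f - f') ≤ (a - b) * (P + (1 - q) * g) :=
      mul_le_mul_of_nonneg_left (by linarith) (by linarith)
    have e2 : (a - b) * (P + (1 - q) * g) ≤ Y * (P + (1 - q) * g) :=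
      mul_le_mul_of_nonneg_right (by linarith) (by linarith)
    nlinarith

theorem ptN {Cl : ℕ → ℝ} {p : ℕ} {α r lam B K₂ Λ : ℝ} {F G : Vec d → ℝ} {v : Vec d} (hr : 0 ≤ r)
    (hl : 0 ≤ lam) (hB : 0 ≤ B) (hK : 0 ≤ K₂) (ht : TN Cl p α r lam B K₂ Λ F G v) (z h : Vec d)
    {q : ℝ} (hq0 : 0 ≤ q) (hq1 : q ≤ 1) :
    G z * G (v + h) + q * (F z * F v) + min (F z) (G z) * (q * (Λ * Wp p v)) +
        min (F z) (G z) * (Λ * Wp p (v + h) - (G (v + h) - F (v + h))) ≤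
      F z * F (v + h) + q * (G z * G v) + min (F z) (G z) * (Λ * Wp p (v + h)) +
        Λ * (Wp p z * (B * pf α r (lam * len h) + K₂ * min 1 (len h) + (1 - q) * G v)) := by
  have hp : 0 ≤ pf α r (lam * len h) := pf_nonneg hr (mul_nonneg hl (len_nonneg h))
  have hm : 0 ≤ min 1 (len h) := le_min zero_le_one (len_nonneg h)
  have key := ptN_aux (a := F z) (b := G z) (f := F v) (g := G v) (f' := F (v + h)) (g' := G (v + h))
    (W' := Λ * Wp p (v + h)) (Y := Λ * Wp p z) (P := B * pf α r (lam * len h) + K₂ * min 1 (len h))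
    (q := q) (ht.hF.nonneg v) (ht.hG.nonneg v) (by positivity) hq1 (ht.dif z) ht.tou (ht.oneG h)
    (ht.oneF h)
  rw [← mul_assoc Λ (Wp p z)]
  exact key

end Pool.Agent.H48.NE
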